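import Mathlib
import Pool.Agent.Work.MP_787500_nt.KR.T04
import Pool.Agent.Work.MP_787500_nt.KR.Sys
import Pool.Agent.Work.MP_787500_nt.HP.EmbBasic

/-!
Reciprocity over the rational numbers for systems of subgroups of finite index: definitions (fixed, do not
change).

`Ω` is an algebraic closure of the rational numbers, `Ω ≃+* Ω` its group of automorphisms; `OpnQ`, `stb`,
`inr`, `cyQ`, `fsys`, `qsys` are in `HP/Defs.lean`, `FSys`, `Sm1`, `Sm2`, `Z2`, `B2`, `Coc`, `Cob`, `LocH` in
`KR/Defs.lean`.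
-/

set_option autoImplicit false
set_option linter.unusedSectionVars false

namespace Pool.Agent.Work.MP_787500_nt.RQ

open NumberField
open Pool.Agent.Work.MP_787500_nt.GP (A0 hf IsAct d0 d1 d2 tw iota)
open Pool.Agent.Work.MP_787500_nt.PA (TwoSys)
open Pool.Agent.Work.MP_787500_nt.KR (FSys ofTwo)
open Pool.Agent.Work.MP_787500_nt.HP

universe u

section systems

variable {Ω : Type u} [Field Ω]

/-- the system of all open normal subgroups of finite index of `C` -/
abbrev lfull (C : Subgroup (Ω ≃+* Ω)) : FSys C := KR.fullC C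

variable (Ω)

/-- the system of all open normal subgroups of finite index -/
def afull : FSys (Ω ≃+* Ω) where
  mem W := OpnQ W ∧ W.Normal ∧ W.index ≠ 0
  ex := ⟨⊤, ⟨∅, fun _ _ => trivial⟩, inferInstance, by simp⟩
  inf := by
    rintro W W' ⟨⟨s, hs⟩, h2, h3⟩ ⟨⟨s', hs'⟩, h2', h3'⟩
    classical
    exact ⟨⟨s ∪ s', fun g hg => ⟨hs g fun x hx => hg x (Finset.mem_union_left _ hx),
      hs' g fun x hx => hg x (Finset.mem_union_right _ hx)⟩⟩, inferInstance,
      Subgroup.index_inf_ne_zero h3 h3'⟩
  normal := fun h => h.2.1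
  index := fun h => h.2.2

/-- the open normal subgroups of finite index that contain the inertia groups at all primes that contain
neither 2 nor an element of `T` -/
abbrev ufull (T : Set ℕ) : FSys (Ω ≃+* Ω) := KR.fullQ Ω T

end systems

/-- `S` consists of members of `F` and is closed under passing to smaller normal subgroups of relative
2-power index that contain a member of `F` -/
structure Clo {G : Type*} [Group G] (S F : FSys G) : Prop where
  sub : ∀ W, S.mem W → F.mem W
  clo : ∀ W W' : Subgroup G, S.mem W → W' ≤ W → W'.Normal → (∃ k : ℕ, W'.relIndex W = 2 ^ k) →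
    (∃ V, F.mem V ∧ V ≤ W') → S.mem W'

section loc

variable {Ω : Type u} [Field Ω]

/-- `inv` is the invariant for the system `fsys D` of subgroups of 2-power index (`GP.LocH`), `invF` its
extension to the system of all subgroups of finite index. -/
structure LocF (D : Subgroup (Ω ≃+* Ω)) (inv invF : (D → D → A0) → A0) : Prop where
  loc : KR.LocH (lfull D) (fun d : D => cyQ (d : Ω ≃+* Ω)) invF
  ext : ∀ f, GP.Z2 (fsys D) (tw fun d : D => cyQ (d : Ω ≃+* Ω)) f → invF f = inv f
  le : ∀ f, KR.Z2 (lfull D) (tw fun d : D => cyQ (d : Ω ≃+* Ω)) f → ∃ x : D → A0, KR.Sm1 (lfull D) x ∧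
    GP.Z2 (fsys D) (tw fun d : D => cyQ (d : Ω ≃+* Ω))
      (fun a b => f a b - d1 (tw fun d : D => cyQ (d : Ω ≃+* Ω)) x a b)
  ker : ∀ f, KR.Z2 (lfull D) (tw fun d : D => cyQ (d : Ω ≃+* Ω)) f → invF f = 0 →
    KR.B2 (lfull D) (tw fun d : D => cyQ (d : Ω ≃+* Ω)) f
  one : ∀ f, KR.Coc (lfull D) f → invF (fun a b => hf (f a b)) = 0 → KR.Cob (lfull D) f

/-- the restriction to the subgroup `D` of a function on the group of all automorphisms -/
def rs {A : Type*} (D : Subgroup (Ω ≃+* Ω)) (f : (Ω ≃+* Ω) → (Ω ≃+* Ω) → A) : D → D → A :=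
  fun a b => f a b

/-- the character of the square root of `-1` -/
theorem eps_eq (g : Ω ≃+* Ω) [Decidable ((4 : ℤ_[2]) ∣ cyQ g - 1)] :
    eps g = if (4 : ℤ_[2]) ∣ cyQ g - 1 then 0 else 1 := by
  unfold eps
  congr

end loc

end Pool.Agent.Work.MP_787500_nt.RQ
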