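import Mathlib
import Pool.Agent.Work.MP_787500_nt.RQ.Defs

/-!
Comparison of systems, restriction to subgroups: elementary facts.
-/

set_option autoImplicit false
set_option linter.unusedSectionVars false

namespace Pool.Agent.Work.MP_787500_nt.RQ

open NumberField
open Pool.Agent.Work.MP_787500_nt.GP (A0 hf IsAct d0 d1 d2 tw iota)
open Pool.Agent.Work.MP_787500_nt.PA (TwoSys)
open Pool.Agent.Work.MP_787500_nt.KR (FSys ofTwo)
open Pool.Agent.Work.MP_787500_nt.HP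

universe u

section abstract

variable {G : Type*} [Group G]

theorem char_ofTwo {S : TwoSys G} {χ : G → ℤ_[2]} (h : PA.IsChar S χ) : KR.IsChar (ofTwo S) χ :=
  ⟨h.one, h.mul, h.cont, h.odd⟩

theorem coc_ofTwo {S : TwoSys G} {f : G → G → ZMod 2} : KR.Coc (ofTwo S) f ↔ PA.Coc S ⊤ f :=
  ⟨fun h => ⟨h.1, fun g _ k _ l _ => h.2 g k l⟩, fun h => ⟨h.1, fun g k l =>
    h.2 g trivial k trivial l trivial⟩⟩

theorem cob_ofTwo {S : TwoSys G} {f : G → G → ZMod 2} : KR.Cob (ofTwo S) f ↔ PA.Cob S ⊤ f :=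
  ⟨fun ⟨z, h1, h2⟩ => ⟨z, h1, fun g _ k _ => h2 g k⟩, fun ⟨z, h1, h2⟩ => ⟨z, h1, fun g k =>
    h2 g trivial k trivial⟩⟩

/-- every member of `S` contains a member of `S'` -/
def Fin (S S' : FSys G) : Prop := ∀ W, S.mem W → ∃ W', S'.mem W' ∧ W' ≤ W

theorem Fin.sm1 {S S' : FSys G} (h : Fin S S') {A : Type*} {x : G → A} (hx : KR.Sm1 S x) :
    KR.Sm1 S' x := by
  obtain ⟨W, hW, h1⟩ := hx
  obtain ⟨W', hW', h2⟩ := h W hW
  exact ⟨W', hW', fun g w hw => h1 g w (h2 hw)⟩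

theorem Fin.sm2 {S S' : FSys G} (h : Fin S S') {A : Type*} {x : G → G → A} (hx : KR.Sm2 S x) :
    KR.Sm2 S' x := by
  obtain ⟨W, hW, h1⟩ := hx
  obtain ⟨W', hW', h2⟩ := h W hW
  exact ⟨W', hW', fun g k w hw w' hw' => h1 g k w (h2 hw) w' (h2 hw')⟩

theorem Fin.z2 {S S' : FSys G} (h : Fin S S') {M : Type*} [AddCommGroup M] {ρ : G → M → M}
    {f : G → G → M} (hf : KR.Z2 S ρ f) : KR.Z2 S' ρ f := ⟨h.sm2 hf.1, hf.2⟩

theorem Fin.z1 {S S' : FSys G} (h : Fin S S') {M : Type*} [AddCommGroup M] {ρ : G → M → M}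
    {f : G → M} (hf : KR.Z1 S ρ f) : KR.Z1 S' ρ f := ⟨h.sm1 hf.1, hf.2⟩

theorem Fin.b2 {S S' : FSys G} (h : Fin S S') {M : Type*} [AddCommGroup M] {ρ : G → M → M}
    {f : G → G → M} (hf : KR.B2 S ρ f) : KR.B2 S' ρ f := by
  obtain ⟨x, hx, h1⟩ := hf
  exact ⟨x, h.sm1 hx, h1⟩

theorem Fin.coc {S S' : FSys G} (h : Fin S S') {f : G → G → ZMod 2} (hf : KR.Coc S f) :
    KR.Coc S' f := ⟨h.sm2 hf.1, hf.2⟩

theorem Fin.cob {S S' : FSys G} (h : Fin S S') {f : G → G → ZMod 2} (hf : KR.Cob S f) :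
    KR.Cob S' f := by
  obtain ⟨x, hx, h1⟩ := hf
  exact ⟨x, h.sm1 hx, h1⟩

theorem Fin.char {S S' : FSys G} (h : Fin S S') {χ : G → ℤ_[2]} (hχ : KR.IsChar S χ) :
    KR.IsChar S' χ := by
  refine ⟨hχ.one, hχ.mul, fun n => ?_, hχ.odd⟩
  obtain ⟨W, hW, h1⟩ := hχ.cont n
  obtain ⟨W', hW', h2⟩ := h W hW
  exact ⟨W', hW', fun g w hw => h1 g w (h2 hw)⟩

theorem Clo.fin {S F : FSys G} (h : Clo S F) : Fin S F := fun W hW => ⟨W, h.sub W hW, le_rfl⟩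

/-- the coboundary of a difference -/
theorem d1_sub {M : Type*} [AddCommGroup M] {ρ : G → M → M} (hρ : IsAct ρ) (x y : G → M) (a b : G) :
    d1 ρ (fun g => x g - y g) a b = d1 ρ x a b - d1 ρ y a b := by
  simp only [d1]
  rw [GP.IsAct.sub hρ]
  abel

theorem d1_add {M : Type*} [AddCommGroup M] {ρ : G → M → M} (hρ : IsAct ρ) (x y : G → M) (a b : G) :
    d1 ρ (fun g => x g + y g) a b = d1 ρ x a b + d1 ρ y a b := by
  simp only [d1]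
  rw [hρ.add]
  abel

theorem d2_add {M : Type*} [AddCommGroup M] {ρ : G → M → M} (hρ : IsAct ρ) (x y : G → G → M)
    (a b c : G) : d2 ρ (fun g h => x g h + y g h) a b c = d2 ρ x a b c + d2 ρ y a b c := by
  simp only [d2]
  rw [hρ.add]
  abel

theorem d2_sub {M : Type*} [AddCommGroup M] {ρ : G → M → M} (hρ : IsAct ρ) (x y : G → G → M)
    (a b c : G) : d2 ρ (fun g h => x g h - y g h) a b c = d2 ρ x a b c - d2 ρ y a b c := by
  simp only [d2]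
  rw [GP.IsAct.sub hρ]
  abel

theorem sm1_add {S : FSys G} {M : Type*} [AddCommGroup M] {x y : G → M} (hx : KR.Sm1 S x)
    (hy : KR.Sm1 S y) : KR.Sm1 S fun g => x g + y g := by
  obtain ⟨W, hW, h1⟩ := hx
  obtain ⟨W', hW', h2⟩ := hy
  exact ⟨W ⊓ W', S.inf hW hW', fun g w hw => by simp only [h1 g w hw.1, h2 g w hw.2]⟩

theorem sm1_neg {S : FSys G} {M : Type*} [AddCommGroup M] {x : G → M} (hx : KR.Sm1 S x) :
    KR.Sm1 S fun g => -x g := by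
  obtain ⟨W, hW, h1⟩ := hx
  exact ⟨W, hW, fun g w hw => by simp only [h1 g w hw]⟩

theorem sm1_sub {S : FSys G} {M : Type*} [AddCommGroup M] {x y : G → M} (hx : KR.Sm1 S x)
    (hy : KR.Sm1 S y) : KR.Sm1 S fun g => x g - y g := by
  obtain ⟨W, hW, h1⟩ := hx
  obtain ⟨W', hW', h2⟩ := hy
  exact ⟨W ⊓ W', S.inf hW hW', fun g w hw => by simp only [h1 g w hw.1, h2 g w hw.2]⟩

theorem sm1_comp {S : FSys G} {A B : Type*} {x : G → A} (hx : KR.Sm1 S x) (s : A → B) :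
    KR.Sm1 S fun g => s (x g) := by
  obtain ⟨W, hW, h1⟩ := hx
  exact ⟨W, hW, fun g w hw => by simp only [h1 g w hw]⟩

theorem sm2_comp {S : FSys G} {A B : Type*} {x : G → G → A} (hx : KR.Sm2 S x) (s : A → B) :
    KR.Sm2 S fun g h => s (x g h) := by
  obtain ⟨W, hW, h1⟩ := hx
  exact ⟨W, hW, fun g k w hw w' hw' => by simp only [h1 g k w hw w' hw']⟩

theorem sm2_op {S : FSys G} {A B C : Type*} {x : G → G → A} {y : G → G → B} (hx : KR.Sm2 S x)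
    (hy : KR.Sm2 S y) (s : A → B → C) : KR.Sm2 S fun g h => s (x g h) (y g h) := by
  obtain ⟨W, hW, h1⟩ := hx
  obtain ⟨W', hW', h2⟩ := hy
  exact ⟨W ⊓ W', S.inf hW hW', fun g k w hw w' hw' => by
    simp only [h1 g k w hw.1 w' hw'.1, h2 g k w hw.2 w' hw'.2]⟩

theorem sm1_const {S : FSys G} {A : Type*} (a : A) : KR.Sm1 S fun _ => a := by
  obtain ⟨W, hW⟩ := S.ex
  exact ⟨W, hW, fun _ _ _ => rfl⟩

theorem z2_sub {S : FSys G} {M : Type*} [AddCommGroup M] {ρ : G → M → M} (hρ : IsAct ρ)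
    {f f' : G → G → M} (h : KR.Z2 S ρ f) (h' : KR.Z2 S ρ f') :
    KR.Z2 S ρ (fun a b => f a b - f' a b) :=
  ⟨sm2_op h.1 h'.1 fun a b => a - b, fun a b c => by rw [d2_sub hρ, h.2, h'.2, sub_zero]⟩

theorem b2_add {S : FSys G} {M : Type*} [AddCommGroup M] {ρ : G → M → M} (hρ : IsAct ρ)
    {f f' : G → G → M} (h : KR.B2 S ρ f) (h' : KR.B2 S ρ f') :
    KR.B2 S ρ (fun a b => f a b + f' a b) := by
  obtain ⟨x, hx, h1⟩ := h
  obtain ⟨y, hy, h2⟩ := h'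
  refine ⟨fun g => x g + y g, sm1_add hx hy, ?_⟩
  funext a b
  rw [d1_add hρ, h1, h2]

theorem b2_sub {S : FSys G} {M : Type*} [AddCommGroup M] {ρ : G → M → M} (hρ : IsAct ρ)
    {f f' : G → G → M} (h : KR.B2 S ρ f) (h' : KR.B2 S ρ f') :
    KR.B2 S ρ (fun a b => f a b - f' a b) := by
  obtain ⟨x, hx, h1⟩ := h
  obtain ⟨y, hy, h2⟩ := h'
  refine ⟨fun g => x g - y g, sm1_sub hx hy, ?_⟩
  funext a b
  rw [d1_sub hρ, h1, h2]

theorem coc_add {S : FSys G} {f f' : G → G → ZMod 2} (h : KR.Coc S f) (h' : KR.Coc S f') :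
    KR.Coc S (fun a b => f a b + f' a b) :=
  ⟨sm2_op h.1 h'.1 fun a b => a + b, fun g k l => by
    linear_combination h.2 g k l + h'.2 g k l⟩

theorem cob_add {S : FSys G} {f f' : G → G → ZMod 2} (h : KR.Cob S f) (h' : KR.Cob S f') :
    KR.Cob S (fun a b => f a b + f' a b) := by
  obtain ⟨x, hx, h1⟩ := h
  obtain ⟨y, hy, h2⟩ := h'
  refine ⟨fun g => x g + y g, sm1_add hx hy, fun g k => ?_⟩
  beta_reduce
  rw [h1, h2]
  ring

/-- cocycles modulo 2 are cocycles with values in `A0` -/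
theorem coc_hf {S : FSys G} {χ : G → ℤ_[2]} (hχ : KR.IsChar S χ) {f : G → G → ZMod 2}
    (h : KR.Coc S f) : KR.Z2 S (tw χ) fun a b => hf (f a b) := by
  refine ⟨sm2_comp h.1 hf, fun a b c => ?_⟩
  have h1 := h.2 a b c
  simp only [d2, tw]
  rw [GP.smul_hf (hχ.odd a)]
  have h2 : f b c = f a b + f (a * b) c + f a (b * c) := by
    rw [h1]
    have : ∀ x y : ZMod 2, x = x + y + y := by decide
    exact this _ _
  rw [h2, GP.hf_add, GP.hf_add]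
  have h3 : hf (f a (b * c)) + hf (f a (b * c)) = 0 := GP.hf_two _
  have h4 : hf (f a b) + hf (f (a * b) c) + hf (f a (b * c)) - hf (f (a * b) c) + hf (f a (b * c)) -
      hf (f a b) = hf (f a (b * c)) + hf (f a (b * c)) := by abel
  rw [h4, h3]

theorem d1_hf {S : FSys G} {χ : G → ℤ_[2]} (hχ : KR.IsChar S χ) (z : G → ZMod 2) (a b : G) :
    d1 (tw χ) (fun g => hf (z g)) a b = hf (z a + z b + z (a * b)) := by
  simp only [d1, tw]
  rw [GP.smul_hf (hχ.odd a), GP.hf_add, GP.hf_add, sub_eq_add_neg, GP.hf_neg]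

theorem cob_hf {S : FSys G} {χ : G → ℤ_[2]} (hχ : KR.IsChar S χ) {f : G → G → ZMod 2}
    (h : KR.Cob S f) : KR.B2 S (tw χ) fun a b => hf (f a b) := by
  obtain ⟨z, hz, h1⟩ := h
  refine ⟨fun g => hf (z g), sm1_comp hz hf, ?_⟩
  funext a b
  rw [d1_hf hχ, h1]

/-- a cochain killed by 2 comes from one modulo 2 -/
theorem exists_hf {X : Type*} {f : X → X → A0} (h : ∀ a b, f a b + f a b = 0) :
    ∃ g : X → X → ZMod 2, f = fun a b => hf (g a b) := by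
  choose g hg using fun a b => GP.eq_hf (h a b)
  exact ⟨g, funext fun a => funext fun b => hg a b⟩

theorem z2_hf {S : FSys G} {χ : G → ℤ_[2]} (hχ : KR.IsChar S χ) {f : G → G → ZMod 2}
    (h : KR.Z2 S (tw χ) fun a b => hf (f a b)) : KR.Coc S f := by
  refine ⟨?_, fun a b c => ?_⟩
  · obtain ⟨W, hW, h1⟩ := h.1
    exact ⟨W, hW, fun g k w hw w' hw' => GP.hf_inj (h1 g k w hw w' hw')⟩
  · have h1 := h.2 a b c
    simp only [d2, tw] at h1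
    rw [GP.smul_hf (hχ.odd a)] at h1
    apply GP.hf_inj
    rw [GP.hf_add, GP.hf_add]
    have e : hf (f a b) + hf (f (a * b) c) - (hf (f b c) + hf (f a (b * c))) =
        hf (f a b) + hf (f a b) - (hf (f b c) - hf (f (a * b) c) + hf (f a (b * c)) - hf (f a b)) -
        (hf (f a b) + hf (f a b)) + 0 - 0 + (hf (f a b) - hf (f a b)) +
        (hf (f a b) - hf (f a b)) := by abel
    have e2 : hf (f a b) + hf (f (a * b) c) - (hf (f b c) + hf (f a (b * c))) =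
        -(hf (f b c) - hf (f (a * b) c) + hf (f a (b * c)) - hf (f a b)) := by abel
    rw [h1, neg_zero] at e2
    exact sub_eq_zero.1 e2

end abstract

section galois

variable {Ω : Type u} [Field Ω]

theorem fin_fsys (C : Subgroup (Ω ≃+* Ω)) : Fin (ofTwo (fsys C)) (lfull C) := by
  rintro W ⟨h1, h2, k, h3⟩
  exact ⟨W, ⟨h1, h2, by rw [h3]; positivity⟩, le_rfl⟩

theorem fin_ufull (T : Set ℕ) : Fin (ufull Ω T) (afull Ω) := fun W hW => ⟨W, hW.1, le_rfl⟩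

theorem fin_qsys (T : Set ℕ) : Fin (ofTwo (qsys Ω T)) (ufull Ω T) := by
  rintro W ⟨⟨h1, h2, k, h3⟩, h4⟩
  exact ⟨W, ⟨⟨h1, h2, by rw [h3]; positivity⟩, h4⟩, le_rfl⟩

theorem fin_qsys' (T : Set ℕ) : Fin (ofTwo (qsys Ω T)) (afull Ω) := by
  rintro W ⟨⟨h1, h2, k, h3⟩, h4⟩
  exact ⟨W, ⟨h1, h2, by rw [h3]; positivity⟩, le_rfl⟩

theorem ufull_mono {T T' : Set ℕ} (h : T ⊆ T') : Fin (ufull Ω T) (ufull Ω T') := fun W hW =>
  ⟨W, ⟨hW.1, fun Q hQ h2 hl => hW.2 Q hQ h2 fun l hl' => hl l (h hl')⟩, le_rfl⟩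

theorem res_afull (D : Subgroup (Ω ≃+* Ω)) (W : Subgroup (Ω ≃+* Ω)) (hW : (afull Ω).mem W) :
    ∃ W', (lfull D).mem W' ∧ ∀ w ∈ W', (D.subtype w) ∈ W := by
  obtain ⟨⟨s, hs⟩, hn, hi⟩ := hW
  refine ⟨W.subgroupOf D, ⟨⟨s, fun g hg => hs g hg⟩, inferInstance, ?_⟩, fun w hw => hw⟩
  intro h
  have h1 : (W.subgroupOf D).index ∣ W.index := Subgroup.relIndex_dvd_index_of_normal W D
  rw [h, zero_dvd_iff] at h1
  exact hi h1

theorem rs_sm2 {A : Type*} (D : Subgroup (Ω ≃+* Ω)) {f : (Ω ≃+* Ω) → (Ω ≃+* Ω) → A}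
    (hf : KR.Sm2 (afull Ω) f) : KR.Sm2 (lfull D) (rs D f) :=
  KR.Sm2.comp (j := D.subtype) (fun W hW => res_afull D W hW) hf

theorem rs_sm1 {A : Type*} (D : Subgroup (Ω ≃+* Ω)) {f : (Ω ≃+* Ω) → A}
    (hf : KR.Sm1 (afull Ω) f) : KR.Sm1 (lfull D) (fun d => f d) :=
  KR.Sm1.comp (j := D.subtype) (fun W hW => res_afull D W hW) hf

theorem rs_coc (D : Subgroup (Ω ≃+* Ω)) {f : (Ω ≃+* Ω) → (Ω ≃+* Ω) → ZMod 2}
    (hf : KR.Coc (afull Ω) f) : KR.Coc (lfull D) (rs D f) :=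
  ⟨rs_sm2 D hf.1, fun g k l => hf.2 g k l⟩

theorem rs_z2 (D : Subgroup (Ω ≃+* Ω)) {f : (Ω ≃+* Ω) → (Ω ≃+* Ω) → A0}
    (hf : KR.Z2 (afull Ω) (tw cyQ) f) :
    KR.Z2 (lfull D) (tw fun d : D => cyQ (d : Ω ≃+* Ω)) (rs D f) :=
  ⟨rs_sm2 D hf.1, fun g k l => hf.2 g k l⟩

theorem rs_cob (D : Subgroup (Ω ≃+* Ω)) {f : (Ω ≃+* Ω) → (Ω ≃+* Ω) → ZMod 2}
    (hf : KR.Cob (afull Ω) f) : KR.Cob (lfull D) (rs D f) := by
  obtain ⟨z, hz, h1⟩ := hf
  exact ⟨fun d => z d, rs_sm1 D hz, fun g k => h1 g k⟩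

theorem rs_b2 (D : Subgroup (Ω ≃+* Ω)) {f : (Ω ≃+* Ω) → (Ω ≃+* Ω) → A0}
    (hf : KR.B2 (afull Ω) (tw cyQ) f) :
    KR.B2 (lfull D) (tw fun d : D => cyQ (d : Ω ≃+* Ω)) (rs D f) := by
  obtain ⟨z, hz, h1⟩ := hf
  refine ⟨fun d => z d, rs_sm1 D hz, ?_⟩
  funext a b
  show f a b = _
  rw [h1]
  rfl

variable [CharZero Ω] [IsAlgClosed Ω]

theorem char_lfull (D : Subgroup (Ω ≃+* Ω)) :
    KR.IsChar (lfull D) (fun d : D => cyQ (d : Ω ≃+* Ω)) :=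
  (fin_fsys D).char (char_ofTwo (isChar_stb D))

theorem char_qsys (T : Set ℕ) : KR.IsChar (ofTwo (qsys Ω T)) (cyQ : (Ω ≃+* Ω) → ℤ_[2]) :=
  char_ofTwo (isChar_cyQ T)

theorem char_ufull (T : Set ℕ) : KR.IsChar (ufull Ω T) (cyQ : (Ω ≃+* Ω) → ℤ_[2]) :=
  (fin_qsys T).char (char_qsys T)

theorem char_afull : KR.IsChar (afull Ω) (cyQ : (Ω ≃+* Ω) → ℤ_[2]) :=
  (fin_qsys' ∅).char (char_qsys ∅)

end galois

end Pool.Agent.Work.MP_787500_nt.RQ
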