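import Mathlib
import Pool.Agent.Work.MP_787500_nt.RQ.Basic

/-!
The systems `big F N`: they are closed under passing to subgroups of relative 2-power index, characters.
-/

set_option autoImplicit false
set_option linter.unusedSectionVars false

namespace Pool.Agent.Work.MP_787500_nt.RQ

open NumberField
open Pool.Agent.Work.MP_787500_nt.GP (A0 hf IsAct d0 d1 d2 tw iota GoodT sysT subSys inT)
open Pool.Agent.Work.MP_787500_nt.PA (TwoSys cyc)
open Pool.Agent.Work.MP_787500_nt.KR (FSys ofTwo big two fullK fullD fullC fullQ)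
open Pool.Agent.Work.MP_787500_nt.HP

universe u

section up

variable {G : Type*} [Group G]

/-- normal subgroups above a member are members -/
def Up (F : FSys G) : Prop := ∀ W W' : Subgroup G, F.mem W → W ≤ W' → W'.Normal → F.mem W'

theorem clo_big {F : FSys G} (hup : Up F) (N : Subgroup G) : Clo (big F N) F where
  sub := by
    rintro W ⟨h1, ⟨W₁, hW₁, hle⟩, -⟩
    exact hup _ _ hW₁ hle h1
  clo := by
    rintro W W' ⟨h1, -, k, hk⟩ hle hn ⟨j, hj⟩ hV
    refine ⟨hn, hV, ?_⟩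
    have e : W'.relIndex N = (W' ⊓ N).relIndex (W ⊓ N) * (W ⊓ N).relIndex N := by
      rw [Subgroup.relIndex_mul_relIndex _ _ _ (inf_le_inf_right N hle) inf_le_right,
        Subgroup.inf_relIndex_right]
    have h2 : (W ⊓ N).relIndex N = 2 ^ k := by rw [Subgroup.inf_relIndex_right, hk]
    have h3 : (W' ⊓ N).relIndex (W ⊓ N) ∣ 2 ^ j := by
      have h4 : (W' ⊓ N).relIndex (W ⊓ N) = W'.relIndex (W ⊓ N) := by
        have e5 : W' ⊓ N = W' ⊓ (W ⊓ N) := by
          rw [← inf_assoc, inf_eq_left.2 hle]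
        rw [e5, Subgroup.inf_relIndex_right]
      rw [h4, ← hj]
      have hN : (W'.subgroupOf W).Normal := inferInstance
      have h6 := Subgroup.relIndex_dvd_index_of_normal (W'.subgroupOf W) ((W ⊓ N).subgroupOf W)
      rwa [Subgroup.relIndex_subgroupOf inf_le_left] at h6
    obtain ⟨m, -, hm⟩ := (Nat.dvd_prime_pow Nat.prime_two).1 h3
    exact ⟨m + k, by rw [e, h2, hm, pow_add]⟩

theorem clo_two {F : FSys G} (hup : Up F) : Clo (ofTwo (two F)) F where
  sub := by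
    rintro W ⟨h1, ⟨W₁, hW₁, hle⟩, -⟩
    exact hup _ _ hW₁ hle h1
  clo := by
    rintro W W' ⟨h1, -, k, hk⟩ hle hn ⟨j, hj⟩ hV
    exact ⟨hn, hV, j + k, by rw [← Subgroup.relIndex_mul_index hle, hj, hk, pow_add]⟩

theorem fin_two {F : FSys G} (N : Subgroup G) : Fin (ofTwo (two F)) (big F N) :=
  fun W hW => ⟨W, KR.two_le_big F N hW, le_rfl⟩

/-- the kernel of a character modulo a power of 2 -/
theorem char_two {F : FSys G} {χ : G → ℤ_[2]} (hχ : KR.IsChar F χ) :
    KR.IsChar (ofTwo (two F)) χ := by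
  refine ⟨hχ.one, hχ.mul, fun n => ?_, hχ.odd⟩
  obtain ⟨W, hW, h1⟩ := hχ.cont n
  have hu : ∀ g, IsUnit (χ g) := fun g => by
    refine IsUnit.of_mul_eq_one (χ g⁻¹) ?_
    rw [← hχ.mul, mul_inv_cancel, hχ.one]
  let f : G →* (ZMod (2 ^ n)) :=
    { toFun := fun g => PadicInt.toZModPow n (χ g)
      map_one' := by rw [hχ.one, map_one]
      map_mul' := fun a b => by rw [hχ.mul, map_mul] }
  have hf : ∀ g, f g = PadicInt.toZModPow n (χ g) := fun _ => rfl
  have hker : ∀ g, f g = 1 ↔ (2 : ℤ_[2]) ^ n ∣ χ g - 1 := by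
    intro g
    rw [hf, ← sub_eq_zero, ← map_one (PadicInt.toZModPow (p := 2) n), ← map_sub,
      ← RingHom.mem_ker, PadicInt.ker_toZModPow, Ideal.mem_span_singleton]
    norm_num
  let g' : G →* (ZMod (2 ^ n))ˣ := f.toHomUnits
  have hg' : ∀ g, g' g = 1 ↔ (2 : ℤ_[2]) ^ n ∣ χ g - 1 := by
    intro g
    rw [← hker, ← Units.val_eq_one]
    rfl
  refine ⟨g'.ker, ⟨inferInstance, ⟨W, hW, fun w hw => ?_⟩, ?_⟩, fun g w hw => ?_⟩
  · rw [MonoidHom.mem_ker, hg']
    have := h1 1 w hw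
    rwa [one_mul, hχ.one] at this
  · rw [Subgroup.index_ker]
    have h2 : Nat.card g'.range ∣ Nat.card (ZMod (2 ^ n))ˣ := Subgroup.card_subgroup_dvd_card _
    rw [Nat.card_eq_fintype_card (α := (ZMod (2 ^ n))ˣ), ZMod.card_units_eq_totient] at h2
    have h3 : Nat.totient (2 ^ n) ∣ 2 ^ n := by
      rcases Nat.eq_zero_or_pos n with rfl | hn
      · simp
      · rw [Nat.totient_prime_pow Nat.prime_two hn]
        simp only [Nat.add_one_sub_one, mul_one]
        exact pow_dvd_pow 2 (Nat.sub_le n 1)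
    obtain ⟨m, -, hm⟩ := (Nat.dvd_prime_pow Nat.prime_two).1 (h2.trans h3)
    exact ⟨m, hm⟩
  · rw [MonoidHom.mem_ker, hg'] at hw
    rw [hχ.mul]
    have e : χ g * χ w - χ g = χ g * (χ w - 1) := by ring
    rw [e]
    exact hw.mul_left _

theorem char_big {F : FSys G} {χ : G → ℤ_[2]} (hχ : KR.IsChar F χ) (N : Subgroup G) :
    KR.IsChar (big F N) χ :=
  (fin_two N).char (char_two hχ)

end up

section full

theorem up_fullK {K : Type u} [Field K] [NumberField K] (T : Finset ℕ) :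
    Up (fullK (K := K) T) := by
  rintro W W' ⟨-, h2, h3⟩ hle hn
  exact ⟨hn, Subgroup.isOpen_mono hle h2, fun σ hσ => hle (h3 σ hσ)⟩

theorem up_fullD {K : Type u} [Field K] (C : Subgroup (AbsGal K)) : Up (fullD C) := by
  rintro W W' ⟨-, h2, U, hU, h3⟩ hle hn
  exact ⟨hn, fun h0 => h2 (Nat.eq_zero_of_zero_dvd (h0 ▸ Subgroup.index_dvd_of_le hle)), U, hU,
    h3.trans hle⟩

theorem up_fullQ {Ω : Type u} [Field Ω] (T : Set ℕ) : Up (fullQ Ω T) := by
  rintro W W' ⟨⟨⟨s, hs⟩, h2, h3⟩, h4⟩ hle hn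
  exact ⟨⟨⟨s, fun g hg => hle (hs g hg)⟩, hn,
    fun h0 => h3 (Nat.eq_zero_of_zero_dvd (h0 ▸ Subgroup.index_dvd_of_le hle))⟩,
    fun Q hQ h5 h6 => (h4 Q hQ h5 h6).trans hle⟩

theorem up_fullC {Ω : Type u} [Field Ω] (C : Subgroup (Ω ≃+* Ω)) : Up (fullC C) := by
  rintro W W' ⟨⟨s, hs⟩, h2, h3⟩ hle hn
  exact ⟨⟨s, fun g hg => hle (hs g hg)⟩, hn,
    fun h0 => h3 (Nat.eq_zero_of_zero_dvd (h0 ▸ Subgroup.index_dvd_of_le hle))⟩

end full

end Pool.Agent.Work.MP_787500_nt.RQ
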