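import Mathlib
import Pool.Agent.Work.MP_787500_nt.RQ.Basic
import Pool.Agent.Work.MP_787500_nt.HP.FieldQ
import Pool.Agent.Work.MP_787500_nt.HP.Splt

/-!
# Module COMI (size S-M): the decomposition group modulo inertia is commutative

`R = 𝓞 Ω ⧸ Q` is a field (`Q ≠ ⊥` is maximal: `𝓞 Ω` is integral over `ℤ`, `Q ∩ ℤ = (l)`; or a domain is enough), of characteristic `l`, every element `x` of which is algebraic over
`ZMod l`, so `x ^ (l ^ n) = x` for some `n ≥ 1` (a finite field). `g ∈ stb Q` induces a ring automorphism `ḡ` of `R` (`og g`). For a given `x` with `x ^ (l ^ n) = x` let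
`S = {y | y ^ (l ^ n) = y}`, a finite subfield stable under `ā`, `b̄`; ring automorphisms of a finite field of characteristic `l` are powers of the Frobenius (`FiniteField` in Mathlib:
`bijective_frobeniusAlgEquivOfAlgebraic..`, or: the group of units of `S` is cyclic with generator `w`, `ā w = w ^ i`, `b̄ w = w ^ j`, so they commute on `S`). So `ā b̄ x = b̄ ā x`. Applied to
`x = (b a)⁻¹ y`... : `a b a⁻¹ b⁻¹` induces the identity on `R`, i.e. it is in `inr Q`.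
`com_fix`: `g t = ± t` for `g` in a group: `a b a⁻¹ b⁻¹ t = t` (cases).
-/

set_option autoImplicit false
set_option linter.unusedSectionVars false

namespace Pool.Agent.Work.MP_787500_nt.RQ

open NumberField
open Pool.Agent.Work.MP_787500_nt.GP (A0 hf IsAct d0 d1 d2 tw iota)
open Pool.Agent.Work.MP_787500_nt.PA (TwoSys)
open Pool.Agent.Work.MP_787500_nt.KR (FSys ofTwo)
open Pool.Agent.Work.MP_787500_nt.HP

universe u

/-- a nonzero element of the residue ring is a root of unity -/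
private theorem ci_pow {Ω : Type u} [Field Ω] {Q : Ideal (𝓞 Ω)} (hQ : Q.IsPrime) {l : ℕ}
    (hl : l.Prime) (hlQ : (l : 𝓞 Ω) ∈ Q) (y : 𝓞 Ω ⧸ Q) (hy : y ≠ 0) :
    ∃ N : ℕ, N ≠ 0 ∧ y ^ N = 1 := by
  have hdom : IsDomain (𝓞 Ω ⧸ Q) := Ideal.Quotient.isDomain Q
  obtain ⟨x, rfl⟩ := Ideal.Quotient.mk_surjective y
  have hint : IsIntegral ℤ (Ideal.Quotient.mk Q x) := by
    have h1 : IsIntegral ℤ x := RingOfIntegers.isIntegral x
    exact h1.map (Ideal.Quotient.mk Q : 𝓞 Ω →+* 𝓞 Ω ⧸ Q).toIntAlgHom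
  set S := Algebra.adjoin ℤ {Ideal.Quotient.mk Q x} with hS
  have hfg : Module.Finite ℤ S := by
    have := hint.fg_adjoin_singleton
    exact Module.Finite.iff_fg.2 this
  have htor : Module.IsTorsion ℤ S := by
    intro s
    refine ⟨⟨(l : ℤ), ?_⟩, ?_⟩
    · rw [mem_nonZeroDivisors_iff_ne_zero]
      exact_mod_cast hl.ne_zero
    · apply Subtype.ext
      show ((l : ℤ) • (s : 𝓞 Ω ⧸ Q)) = 0
      rw [zsmul_eq_mul]
      have : (((l : ℤ) : ℤ) : 𝓞 Ω ⧸ Q) = 0 := by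
        have h1 := Ideal.Quotient.eq_zero_iff_mem.2 hlQ
        rw [map_natCast] at h1
        push_cast
        exact h1
      rw [this, zero_mul]
  have hfin : Finite S := Module.finite_of_fg_torsion S htor
  obtain ⟨i, j, hij, hne⟩ : ∃ i j : ℕ, (Ideal.Quotient.mk Q x) ^ i = (Ideal.Quotient.mk Q x) ^ j ∧
      i ≠ j := by
    have h1 := not_injective_infinite_finite (fun i : ℕ =>
      (⟨(Ideal.Quotient.mk Q x) ^ i, S.pow_mem (Algebra.self_mem_adjoin_singleton ℤ _) i⟩ : S))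
    rw [Function.Injective] at h1
    push Not at h1
    obtain ⟨i, j, h2, h3⟩ := h1
    exact ⟨i, j, congrArg Subtype.val h2, h3⟩
  rcases lt_or_gt_of_ne hne with h | h
  · obtain ⟨k, rfl⟩ := Nat.exists_eq_add_of_lt h
    refine ⟨k + 1, by omega, ?_⟩
    have h3 : (Ideal.Quotient.mk Q x) ^ i * ((Ideal.Quotient.mk Q x) ^ (k + 1)) =
        (Ideal.Quotient.mk Q x) ^ i * 1 := by
      rw [← pow_add, mul_one, ← add_assoc]
      exact hij.symm
    exact mul_left_cancel₀ (pow_ne_zero _ hy) h3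
  · obtain ⟨k, rfl⟩ := Nat.exists_eq_add_of_lt h
    refine ⟨k + 1, by omega, ?_⟩
    have h3 : (Ideal.Quotient.mk Q x) ^ j * ((Ideal.Quotient.mk Q x) ^ (k + 1)) =
        (Ideal.Quotient.mk Q x) ^ j * 1 := by
      rw [← pow_add, mul_one, ← add_assoc]
      exact hij
    exact mul_left_cancel₀ (pow_ne_zero _ hy) h3

private theorem ci_comm {R : Type*} [CommRing R] [IsDomain R] (φ ψ : R →+* R) (y : R) (N : ℕ)
    (hN : N ≠ 0) (hy : y ^ N = 1) : φ (ψ y) = ψ (φ y) := by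
  have : NeZero N := ⟨hN⟩
  obtain ⟨m, hm⟩ := MonoidHom.map_cyclic (restrictRootsOfUnity (φ : R →* R) N)
  obtain ⟨k, hk⟩ := MonoidHom.map_cyclic (restrictRootsOfUnity (ψ : R →* R) N)
  set ζ : rootsOfUnity N R := rootsOfUnity.mkOfPowEq y hy with hζ
  have h1 : restrictRootsOfUnity (φ : R →* R) N (restrictRootsOfUnity (ψ : R →* R) N ζ) =
      restrictRootsOfUnity (ψ : R →* R) N (restrictRootsOfUnity (φ : R →* R) N ζ) := by
    rw [hm, hk, hk, hm, ← zpow_mul, ← zpow_mul, mul_comm]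
  have h2 := congrArg (fun z : rootsOfUnity N R => (((z : Rˣ)) : R)) h1
  exact h2

theorem comm_inr {Ω : Type u} [Field Ω] [CharZero Ω] {Q : Ideal (𝓞 Ω)} (hQ : Q.IsPrime) {l : ℕ}
    (hl : l.Prime) (hlQ : (l : 𝓞 Ω) ∈ Q) {a b : Ω ≃+* Ω} (ha : a ∈ stb Q) (hb : b ∈ stb Q) :
    a * b * a⁻¹ * b⁻¹ ∈ inr Q := by
  have hdom : IsDomain (𝓞 Ω ⧸ Q) := Ideal.Quotient.isDomain Q
  let φ : 𝓞 Ω ⧸ Q →+* 𝓞 Ω ⧸ Q := Ideal.quotientMap Q (og a : 𝓞 Ω →+* 𝓞 Ω) (fun x hx => (ha x).1 hx)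
  let ψ : 𝓞 Ω ⧸ Q →+* 𝓞 Ω ⧸ Q := Ideal.quotientMap Q (og b : 𝓞 Ω →+* 𝓞 Ω) (fun x hx => (hb x).1 hx)
  have hφ : ∀ x, φ (Ideal.Quotient.mk Q x) = Ideal.Quotient.mk Q (og a x) := fun x => rfl
  have hψ : ∀ x, ψ (Ideal.Quotient.mk Q x) = Ideal.Quotient.mk Q (og b x) := fun x => rfl
  have hc : ∀ y, φ (ψ y) = ψ (φ y) := by
    intro y
    by_cases hy : y = 0
    · rw [hy, map_zero, map_zero, map_zero]
    · obtain ⟨N, hN, h1⟩ := ci_pow hQ hl hlQ y hy
      exact ci_comm φ ψ y N hN h1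
  rw [mem_inr]
  intro x
  have h1 := hc (Ideal.Quotient.mk Q (og a⁻¹ (og b⁻¹ x)))
  rw [hψ, hφ, hφ, hψ, og_inv, og_inv, Ideal.Quotient.eq] at h1
  rw [og_mul, og_mul, og_mul]
  exact h1

theorem inr_conj {Ω : Type u} [Field Ω] {Q : Ideal (𝓞 Ω)} {a b : Ω ≃+* Ω} (ha : a ∈ stb Q)
    (hb : b ∈ inr Q) : a * b * a⁻¹ ∈ inr Q := by
  rw [mem_inr]
  intro x
  have h1 := (ha _).1 (hb (og a⁻¹ x))
  rw [map_sub, og_inv] at h1
  rw [og_mul, og_mul]
  exact h1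

theorem com_fix {Ω : Type u} [Field Ω] {t : Ω} (h : ∀ g : Ω ≃+* Ω, g t = t ∨ g t = -t)
    (a b : Ω ≃+* Ω) : (a * b * a⁻¹ * b⁻¹) t = t := by
  have hi : ∀ g : Ω ≃+* Ω, g⁻¹ t = g t := by
    intro g
    apply g.injective
    have h0 : g (g⁻¹ t) = t := g.apply_symm_apply t
    rw [h0]
    rcases h g with h1 | h1
    · rw [h1, h1]
    · rw [h1, map_neg, h1, neg_neg]
  show a (b (a⁻¹ (b⁻¹ t))) = t
  rw [hi b]
  rcases h a with h1 | h1 <;> rcases h b with h2 | h2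
  · rw [h2, hi, h1, h2, h1]
  · rw [h2, map_neg, hi, h1, map_neg, h2, neg_neg, h1]
  · rw [h2, hi, h1, map_neg, h2, map_neg, h1, neg_neg]
  · rw [h2, map_neg, hi, h1, neg_neg, h2, map_neg, h1, neg_neg]

end Pool.Agent.Work.MP_787500_nt.RQ
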