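import Mathlib
import Pool.Agent.Work.MP_787500_nt.HP.ExtCoc
import Pool.Agent.Work.MP_787500_nt.GP.BDefs
import Pool.Agent.Work.MP_787500_nt.GP.E2_Delta
import Pool.Agent.Work.MP_787500_nt.RQ.Basic

/-!
The tame invariant of the extended cocycle at a ramified prime, for systems `FSys` (the proof is that of
`HP/ExtIota.lean`), and the value of `Dta` on `y - y ∘ κ` (the proof is that of `GP/E2_Delta.lean`).
-/

set_option autoImplicit false
set_option linter.unusedSectionVars false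

namespace Pool.Agent.Work.MP_787500_nt.RQ

open Pool.Agent.Work.MP_787500_nt.GP (A0 hf IsAct d0 d1 d2 tw iota Dta)
open Pool.Agent.Work.MP_787500_nt.KR (FSys)
open Pool.Agent.Work.MP_787500_nt.HP

variable {G H : Type*} [Group G] [Group H] {S : FSys G} {e : G →* H} {c : H} {κ : G →* G}
  {χ : H → ℤ_[2]} {z : G → G → A0} {u : G → A0} {F : H → H → A0}

private theorem ei_sum {A : Type*} [AddCommGroup A] {f : ℕ → A} {b : A} (h0 : ∀ i, f (2 * i) = 0)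
    (h1 : ∀ i, f (2 * i + 1) = b) (i : ℕ) : ∑ j ∈ Finset.Ico 1 (2 * i + 1), f j = i • b := by
  induction i with
  | zero => simp
  | succ i ih =>
    rw [show 2 * (i + 1) + 1 = 2 * i + 1 + 1 + 1 by ring, Finset.sum_Ico_succ_top (by omega),
      Finset.sum_Ico_succ_top (by omega), ih, h1, show 2 * i + 1 + 1 = 2 * (i + 1) by ring, h0,
      add_zero, succ_nsmul]

theorem ext_iotaF (h : Dbl e c κ χ) (hF : IsExt e c κ χ z u F) (hz : KR.Z2 S (tw fun g => χ (e g)) z)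
    (hu : KR.Sm1 S u) (h1 : ∀ g, z g 1 = 0) (h2 : ∀ g, z 1 g = 0)
    (h3 : ∀ a b, z (κ a) (κ b) + z a b = -d1 (tw fun g => χ (e g)) u a b) {p : ℕ} {m : ℤ}
    (hm : 2 * m = 1 - p) {σ τ : H} {θ φ : G} (hτ : e θ * c = τ) (hσ : e φ = σ ∨ e φ * τ = σ)
    (hχτ : χ τ = 1) (hχσ : χ σ = p) (tk : ∀ W, S.mem W → θ * κ θ ∈ W)
    (fk : ∀ W, S.mem W → (θ * κ φ)⁻¹ * (φ * θ) ∈ W) :
    iota σ τ p F = -Dta κ θ φ m z u := by
  obtain ⟨⟨W₁, hW₁, hs1⟩, hd2⟩ := hz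
  obtain ⟨W₂, hW₂, hs2⟩ := hu
  obtain ⟨W, hW, hzW, huW⟩ : ∃ W, S.mem W ∧
      (∀ g h, ∀ w ∈ W, ∀ w' ∈ W, z (g * w) (h * w') = z g h) ∧
      ∀ g, ∀ w ∈ W, u (g * w) = u g :=
    ⟨W₁ ⊓ W₂, S.inf hW₁ hW₂, fun g h w hw w' hw' => hs1 g h w hw.1 w' hw'.1,
      fun g w hw => hs2 g w hw.2⟩
  have hWn : W.Normal := S.normal hW
  have hk0 : θ * κ θ ∈ W := tk W hW
  -- the powers of `τ`
  have hτ2 : τ * τ = e (θ * κ θ) := by
    rw [← hτ, map_mul, h.κ]
    group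
  have hev : ∀ i : ℕ, τ ^ (2 * i) = e ((θ * κ θ) ^ i) := by
    intro i
    rw [pow_mul, pow_two, hτ2, ← map_pow]
  have hod : ∀ i : ℕ, τ ^ (2 * i + 1) = e ((θ * κ θ) ^ i * θ) * c := by
    intro i
    rw [pow_succ, hev, ← hτ, map_mul, mul_assoc]
  have hkm : ∀ i : ℕ, (θ * κ θ) ^ i ∈ W := fun i => W.pow_mem hk0 i
  have hχ2 : ∀ i : ℕ, χ (e ((θ * κ θ) ^ i)) = 1 := by
    intro i
    rw [← hev]
    have : ∀ j : ℕ, χ (τ ^ j) = 1 := by
      intro j
      induction j with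
      | zero => rw [pow_zero, h.one]
      | succ j ih => rw [pow_succ, h.mul, ih, hχτ, mul_one]
    exact this _
  have hχθ : χ (e θ) = -1 := by
    have h5 := hχτ
    rw [← hτ, h.mul, h.neg] at h5
    linear_combination -h5
  have hzk : ∀ (i : ℕ) (x : G), z ((θ * κ θ) ^ i * θ) x = z θ x := by
    intro i x
    have h5 : (θ * κ θ) ^ i * θ = θ * (θ⁻¹ * (θ * κ θ) ^ i * θ) := by group
    have h6 : θ⁻¹ * (θ * κ θ) ^ i * θ ∈ W := by
      have := hWn.conj_mem _ (hkm i) θ⁻¹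
      rwa [inv_inv] at this
    have h7 := hzW θ x _ h6 1 W.one_mem
    rw [mul_one] at h7
    rw [h5, h7]
  have hz1 : ∀ (i : ℕ) (x : G), z ((θ * κ θ) ^ i) x = 0 := by
    intro i x
    have h7 := hzW 1 x _ (hkm i) 1 W.one_mem
    rw [mul_one, one_mul] at h7
    rw [h7, h2]
  have hcf : ∀ (i : ℕ) (g : G), F (τ ^ (2 * i + 1)) (e g) = z θ (κ g) - u g := by
    intro i g
    rw [hod, hF.cf, hzk, map_mul, h.mul, hχ2, hχθ, one_mul, neg_smul, one_smul]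
    abel
  have hFτ : ∀ a, F a τ = F a (e θ) := by
    intro a
    rw [← hτ, hF.fc]
  -- the sum
  obtain ⟨i, hi⟩ : ∃ i : ℕ, p = 2 * i + 1 := ⟨(p - 1) / 2, by omega⟩
  have him : (i : ℤ) = -m := by omega
  have hsum : ∑ j ∈ Finset.Ico 1 p, F (τ ^ j) τ = m • (u θ - z θ (κ θ)) := by
    rw [hi]
    have h5 := ei_sum (f := fun j => F (τ ^ j) τ) (b := z θ (κ θ) - u θ)
      (fun j => by
        show F (τ ^ (2 * j)) τ = 0
        rw [hFτ, hev, hF.ff, hz1])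
      (fun j => by
        show F (τ ^ (2 * j + 1)) τ = _
        rw [hFτ, hcf]) i
    rw [h5, ← natCast_zsmul, him, neg_smul, ← smul_neg, neg_sub]
  have hmain : F σ τ - F (τ ^ p) σ = u φ - z θ (κ φ) + z φ θ := by
    rcases hσ with hσ | hσ
    · rw [hFτ, ← hσ, hF.ff, hi, hcf]
      abel
    · have hχφ : χ (e φ) = p := by
        rw [← hσ, h.mul, hχτ, mul_one] at hχσ
        exact hχσ
      have hσ' : σ = e (φ * θ) * c := by
        rw [← hσ, ← hτ, map_mul, mul_assoc]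
      have e1 : F σ τ = z (φ * θ) (κ θ) - (p : ℤ_[2]) • u θ := by
        rw [hFτ, hσ', hF.cf, map_mul, h.mul, hχφ, hχθ, mul_neg_one, neg_smul]
        abel
      have e2 : F (τ ^ p) σ = z θ (κ φ * κ θ) - u (φ * θ) := by
        rw [hσ', hF.fc, hi, hcf, map_mul]
      have hX : ∀ (g : G) (t : A0), tw (fun g => χ (e g)) g t = χ (e g) • t := fun _ _ => rfl
      have c1 := hd2 φ θ (κ θ)
      unfold d2 at c1
      rw [hX, hχφ] at c1
      have c1' : z φ (θ * κ θ) = 0 := by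
        have h7 := hzW φ 1 1 W.one_mem _ hk0
        rw [mul_one, one_mul] at h7
        rw [h7, h1]
      rw [c1'] at c1
      have c2 := hd2 θ (κ φ) (κ θ)
      unfold d2 at c2
      rw [hX, hχθ, neg_smul, one_smul] at c2
      have c2' : z (θ * κ φ) (κ θ) = z (φ * θ) (κ θ) := by
        have h7 := hzW (θ * κ φ) (κ θ) _ (fk W hW) 1 W.one_mem
        rw [mul_one, mul_inv_cancel_left] at h7
        exact h7.symm
      rw [c2'] at c2
      have c3 := h3 φ θ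
      unfold d1 at c3
      rw [hX, hχφ] at c3
      rw [e1, e2]
      -- everything is linear
      generalize z (φ * θ) (κ θ) = A at *
      generalize z θ (κ φ * κ θ) = B at *
      generalize z (κ φ) (κ θ) = C at *
      generalize z θ (κ φ) = D at *
      generalize z φ θ = E at *
      generalize (p : ℤ_[2]) • z θ (κ θ) = P at *
      generalize (p : ℤ_[2]) • u θ = Q at *
      generalize u (φ * θ) = R at *
      generalize u φ = T at *
      have k1 : P = A + E := by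
        rw [← sub_eq_zero, ← c1]
        abel
      have k2 : B = C + A + D := by
        rw [← sub_eq_zero, ← c2]
        abel
      have k3 : R = C + E + T + Q := by
        have : R - (C + E + T + Q) = -(C + E) + -(T + Q - R) := by abel
        rw [← sub_eq_zero, this, ← c3]
        abel
      rw [k2, k3]
      abel
  unfold iota Dta
  rw [hsum, hmain]
  abel

section kap

variable {G : Type*} [Group G] {S : FSys G} {χ : G → ℤ_[2]} {κ : G →* G} {θ φ : G} {q : ℕ}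
  {m : ℤ}

private theorem e2_cos {A : Type*} {W : Subgroup G} {x : G → A} (hx : ∀ g, ∀ w ∈ W, x (g * w) = x g)
    {a b : G} (h : a⁻¹ * b ∈ W) : x b = x a := by
  have := hx a _ h
  rwa [mul_inv_cancel_left] at this

private theorem e2_neg (t : A0) (h : χ θ = -1) : χ θ • t = -t := by
  rw [h, neg_smul, one_smul]

private theorem e2_q (t : A0) (h : χ φ = q) : χ φ • t = (q : ℤ) • t := by
  rw [h, Nat.cast_smul_eq_nsmul, natCast_zsmul]

theorem dta_kapF (hm : 2 * m = 1 - q) (hχ : KR.IsChar S χ) (kk : ∀ g, κ (κ g) = g)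
    (ksys : ∀ W, S.mem W → ∃ W', S.mem W' ∧ ∀ v ∈ W', κ v ∈ W) (kchi : ∀ g, χ (κ g) = χ g)
    (hθ : χ θ = -1) (hφ : χ φ = q) (tk : ∀ W, S.mem W → θ * κ θ ∈ W)
    (fk : ∀ W, S.mem W → (θ * κ φ)⁻¹ * (φ * θ) ∈ W) {y : G → G → A0} (hy : KR.Z2 S (tw χ) y)
    (h1 : ∀ g, y g 1 = 0) (h2 : ∀ g, y 1 g = 0) :
    Dta κ θ φ m (fun a b => y a b - y (κ a) (κ b)) (fun _ => 0) = 0 := by
  obtain ⟨⟨W, hW, hc⟩, hd⟩ := hy
  have hcos : ∀ a b a' b' : G, a⁻¹ * b ∈ W → a'⁻¹ * b' ∈ W → y b b' = y a a' := by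
    intro a b a' b' h h'
    have := hc a a' _ h _ h'
    rwa [mul_inv_cancel_left, mul_inv_cancel_left] at this
  have hone : ∀ g : G, g⁻¹ * g ∈ W := fun g => by rw [inv_mul_cancel]; exact W.one_mem
  have w1 : (θ⁻¹)⁻¹ * κ θ ∈ W := by rw [inv_inv]; exact tk W hW
  have w2 : (θ⁻¹ * φ * θ)⁻¹ * κ φ ∈ W := by
    have h3 := W.inv_mem (fk W hW)
    have e : ((θ * κ φ)⁻¹ * (φ * θ))⁻¹ = (θ⁻¹ * φ * θ)⁻¹ * κ φ := by group
    rwa [e] at h3
  have hχi : χ θ⁻¹ = -1 := by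
    have h3 := hχ.mul θ θ⁻¹
    rw [mul_inv_cancel, hχ.one, hθ] at h3
    linear_combination h3
  have hχφ : χ (θ⁻¹ * φ * θ) = q := by
    rw [hχ.mul, hχ.mul, hχi, hφ, hθ]
    ring
  -- the values
  have v1 : y θ (κ θ) = y θ θ⁻¹ := hcos _ _ _ _ (hone θ) w1
  have v2 : y (κ θ) θ = y θ⁻¹ θ := hcos _ _ _ _ w1 (hone θ)
  have v3 : y θ (κ φ) = y θ (θ⁻¹ * φ * θ) := hcos _ _ _ _ (hone θ) w2
  have v4 : y (κ θ) φ = y θ⁻¹ φ := hcos _ _ _ _ w1 (hone φ)
  have v5 : y (κ φ) (κ θ) = y (θ⁻¹ * φ * θ) θ⁻¹ := hcos _ _ _ _ w2 w1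
  -- the relations
  have r1 := hd θ θ⁻¹ θ
  have r2 := hd θ⁻¹ θ (θ⁻¹ * φ * θ)
  have r3 := hd θ⁻¹ φ θ
  have r4 := hd (θ⁻¹ * φ * θ) θ⁻¹ θ
  unfold d2 tw at r1 r2 r3 r4
  have g1 : θ * (θ⁻¹ * φ * θ) = φ * θ := by group
  have g2 : θ⁻¹ * φ * θ * θ⁻¹ = θ⁻¹ * φ := by group
  rw [mul_inv_cancel, inv_mul_cancel, h1, h2, e2_neg _ hθ] at r1
  rw [inv_mul_cancel, h2, e2_neg _ hχi, g1] at r2
  rw [e2_neg _ hχi] at r3
  rw [g2, inv_mul_cancel, h1, e2_q _ hχφ] at r4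
  unfold Dta
  simp only [kk, v1, v2, v3, v4, v5]
  linear_combination (norm := module) (hm) • y θ⁻¹ θ + m • r1 - r2 + r3 - r4

end kap

end Pool.Agent.Work.MP_787500_nt.RQ
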