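import Mathlib
import Pool.Agent.Work.MP_787500_nt.RQ.Big
import Pool.Agent.Work.MP_787500_nt.RQ.ExtIotaF
import Pool.Agent.Work.MP_787500_nt.KR.T04

/-!
Reciprocity and the alternating property from local data with a sum formula, for systems `FSys` (the proofs are those of
`HP/GlobF.lean`); the global hypotheses for the systems `big F N`.
-/

set_option autoImplicit false
set_option linter.unusedSectionVars false

namespace Pool.Agent.Work.MP_787500_nt.RQ

open Pool.Agent.Work.MP_787500_nt.GP (A0 hf IsAct d0 d1 d2 tw iota Dta)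
open Pool.Agent.Work.MP_787500_nt.KR

variable {G : Type*} [Group G] {S : FSys G} {Φ : Type*} [Fintype Φ] {D : Φ → Type*}
  [∀ w, Group (D w)] {SD : ∀ w, FSys (D w)} {j : ∀ w, D w →* G} {χ : G → ℤ_[2]}
  {inv : ∀ w, (D w → D w → A0) → A0} {κ : G →* G}

theorem locH_sub {D : Type*} [Group D] {SD : FSys D} {χ : D → ℤ_[2]} {inv : (D → D → A0) → A0}
    (L : LocH SD χ inv) {f g : D → D → A0} (hf : Z2 SD (tw χ) f) (hg : Z2 SD (tw χ) g) :
    inv (fun a b => f a b - g a b) = inv f - inv g := by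
  have h := L.add _ _ (z2_sub (isAct_tw L.char) hf hg) hg
  have e : (fun a b => f a b - g a b + g a b) = f := by
    funext a b
    exact sub_add_cancel _ _
  rw [e] at h
  rw [h, add_sub_cancel_right]

theorem locH_neg {D : Type*} [Group D] {SD : FSys D} {χ : D → ℤ_[2]} {inv : (D → D → A0) → A0}
    (L : LocH SD χ inv) : LocH SD χ (fun f => -inv f) :=
  ⟨L.char, fun f f' hf hf' => by
    beta_reduce
    rw [L.add f f' hf hf', neg_add], fun z hz => by
    beta_reduce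
    rw [L.cob z hz, neg_zero]⟩

/-- local data with a sum formula -/
structure SumHF (S : FSys G) (SD : ∀ w, FSys (D w)) (j : ∀ w, D w →* G) (χ : G → ℤ_[2])
    (inv : ∀ w, (D w → D w → A0) → A0) (κ : G →* G) (B : Finset ℕ) (θ φ : ℕ → G) (m : ℕ → ℤ)
    (v : ℕ → ℤ_[2]) : Prop where
  char : IsChar S χ
  loc : ∀ w, LocH (SD w) (fun d => χ (j w d)) (inv w)
  jsm : ∀ w W, S.mem W → ∃ W', (SD w).mem W' ∧ ∀ v ∈ W', j w v ∈ W
  kk : ∀ g, κ (κ g) = g
  ksys : ∀ W, S.mem W → ∃ W', S.mem W' ∧ ∀ v ∈ W', κ v ∈ W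
  kchi : ∀ g, χ (κ g) = χ g
  mm : ∀ p ∈ B, 2 * m p = 1 - p
  tht : ∀ p ∈ B, χ (θ p) = -1
  phi : ∀ p ∈ B, χ (φ p) = (p : ℤ_[2])
  tk : ∀ p ∈ B, ∀ W, S.mem W → θ p * κ (θ p) ∈ W
  fk : ∀ p ∈ B, ∀ W, S.mem W → (θ p * κ (φ p))⁻¹ * (φ p * θ p) ∈ W
  sum : ∀ (z : G → G → A0) (u : G → A0), Z2 S (tw χ) z → (∀ g, z g 1 = 0) → (∀ g, z 1 g = 0) →
    Sm1 S u → (∀ a b, z (κ a) (κ b) + z a b = -d1 (tw χ) u a b) → (∀ g, u (κ g) = u g) →
    ∑ w, inv w (fun a b => z (j w a) (j w b)) = ∑ p ∈ B, v p • Dta κ (θ p) (φ p) (m p) z u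

variable {B : Finset ℕ} {θ φ : ℕ → G} {m : ℕ → ℤ} {v : ℕ → ℤ_[2]}

theorem SumHF.kap (H : SumHF S SD j χ inv κ B θ φ m v) {f : G → G → A0} (hf : Z2 S (tw χ) f) :
    Z2 S (tw χ) (fun a b => f (κ a) (κ b)) := by
  have h := Z2.comp (SD := S) (j := κ) H.ksys hf
  have e : (fun d => tw χ (κ d)) = tw χ := by
    funext d t
    show χ (κ d) • t = χ d • t
    rw [H.kchi]
  rwa [e] at h

theorem SumHF.recip (H : SumHF S SD j χ inv κ B θ φ m v) {f : G → G → A0} (hf : Z2 S (tw χ) f) :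
    ∑ w, (inv w (fun a b => f (j w a) (j w b)) -
      inv w (fun a b => f (κ (j w a)) (κ (j w b)))) = 0 := by
  have hact : IsAct (tw χ) := isAct_tw H.char
  have hx : Sm1 S (fun _ : G => f 1 1) := by
    obtain ⟨W, hW⟩ := S.ex
    exact ⟨W, hW, fun _ _ _ => rfl⟩
  have hB : Z2 S (tw χ) (d1 (tw χ) fun _ : G => f 1 1) := d1_tw_Z2 H.char hx
  set y : G → G → A0 := fun a b => f a b - d1 (tw χ) (fun _ : G => f 1 1) a b with hy
  have hyZ : Z2 S (tw χ) y := by
    have := hf.add hact (hB.neg hact)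
    have e : (fun a b => f a b + -d1 (tw χ) (fun _ : G => f 1 1) a b) = y := by
      funext a b
      exact (sub_eq_add_neg _ _).symm
    rwa [e] at this
  have hd : ∀ a b, d1 (tw χ) (fun _ : G => f 1 1) a b = χ a • f 1 1 := by
    intro a b
    show f 1 1 + χ a • f 1 1 - f 1 1 = _
    abel
  have hfa : ∀ a, f a 1 = χ a • f 1 1 := by
    intro a
    have h := hf.2 a 1 1
    unfold d2 tw at h
    rw [mul_one, mul_one] at h
    have h' : χ a • f 1 1 - f a 1 = 0 := by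
      rw [← h]
      abel
    exact (sub_eq_zero.1 h').symm
  have hfb : ∀ a, f 1 a = f 1 1 := by
    intro a
    have h := hf.2 1 1 a
    unfold d2 tw at h
    rw [one_mul, one_mul, H.char.one, one_smul] at h
    have h' : f 1 a - f 1 1 = 0 := by
      rw [← h]
      abel
    exact sub_eq_zero.1 h'
  have hy1 : ∀ g, y g 1 = 0 := by
    intro g
    show f g 1 - d1 (tw χ) (fun _ : G => f 1 1) g 1 = 0
    rw [hd, hfa, sub_self]
  have hy2 : ∀ g, y 1 g = 0 := by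
    intro g
    show f 1 g - d1 (tw χ) (fun _ : G => f 1 1) 1 g = 0
    rw [hd, hfb, H.char.one, one_smul, sub_self]
  have hz : Z2 S (tw χ) (fun a b => y a b - y (κ a) (κ b)) := by
    have := hyZ.add hact ((H.kap hyZ).neg hact)
    have e : (fun a b => y a b + -y (κ a) (κ b)) = fun a b => y a b - y (κ a) (κ b) := by
      funext a b
      exact (sub_eq_add_neg _ _).symm
    rwa [e] at this
  have h0 : Sm1 S (fun _ : G => (0 : A0)) := by
    obtain ⟨W, hW⟩ := S.ex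
    exact ⟨W, hW, fun _ _ _ => rfl⟩
  have key := H.sum (fun a b => y a b - y (κ a) (κ b)) (fun _ => 0) hz
    (fun g => by simp only [hy1, map_one, sub_self])
    (fun g => by simp only [hy2, map_one, sub_self]) h0
    (fun a b => by
      have e : d1 (tw χ) (fun _ : G => (0 : A0)) a b = 0 := by
        show (0 : A0) + χ a • (0 : A0) - 0 = 0
        rw [smul_zero, add_zero, sub_self]
      rw [e, neg_zero, H.kk, H.kk]
      abel) (fun _ => rfl)
  have hz0 : ∑ p ∈ B, v p • Dta κ (θ p) (φ p) (m p) (fun a b => y a b - y (κ a) (κ b))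
      (fun _ => 0) = 0 := by
    refine Finset.sum_eq_zero fun p hp => ?_
    rw [dta_kapF (S := S) (χ := χ) (q := p) (m := m p) (H.mm p hp) H.char H.kk H.ksys
      H.kchi (H.tht p hp) (H.phi p hp) (H.tk p hp) (H.fk p hp) hyZ hy1 hy2, smul_zero]
  rw [hz0] at key
  rw [← key]
  refine Finset.sum_congr rfl fun w _ => ?_
  have hl : ∀ {g : G → G → A0}, Z2 S (tw χ) g →
      Z2 (SD w) (tw fun d => χ (j w d)) (fun a b => g (j w a) (j w b)) := fun hg =>
    Z2.comp (H.jsm w) hg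
  have e1 : inv w (fun a b => f (j w a) (j w b)) = inv w (fun a b => y (j w a) (j w b)) := by
    have e2 : (fun a b => f (j w a) (j w b)) = fun a b => y (j w a) (j w b) +
        d1 (tw fun d => χ (j w d)) (fun _ : D w => f 1 1) a b := by
      funext a b
      exact (sub_add_cancel (f (j w a) (j w b)) _).symm
    have hx' : Sm1 (SD w) (fun _ : D w => f 1 1) := by
      obtain ⟨W, hW⟩ := (SD w).ex
      exact ⟨W, hW, fun _ _ _ => rfl⟩
    rw [e2, (H.loc w).add _ _ (hl hyZ) (d1_tw_Z2 (H.loc w).char hx'), (H.loc w).cob _ hx', add_zero]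
  have e4 : inv w (fun a b => f (κ (j w a)) (κ (j w b))) =
      inv w (fun a b => y (κ (j w a)) (κ (j w b))) := by
    have e2 : (fun a b => f (κ (j w a)) (κ (j w b))) = fun a b => y (κ (j w a)) (κ (j w b)) +
        d1 (tw fun d => χ (j w d)) (fun _ : D w => f 1 1) a b := by
      funext a b
      have e3 : d1 (tw fun d => χ (j w d)) (fun _ : D w => f 1 1) a b =
          d1 (tw χ) (fun _ : G => f 1 1) (κ (j w a)) (κ (j w b)) := by
        rw [hd, H.kchi]
        show f 1 1 + χ (j w a) • f 1 1 - f 1 1 = _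
        abel
      rw [e3]
      exact (sub_add_cancel (f (κ (j w a)) (κ (j w b))) _).symm
    have hx' : Sm1 (SD w) (fun _ : D w => f 1 1) := by
      obtain ⟨W, hW⟩ := (SD w).ex
      exact ⟨W, hW, fun _ _ _ => rfl⟩
    rw [e2, (H.loc w).add _ _ (hl (H.kap hyZ)) (d1_tw_Z2 (H.loc w).char hx'), (H.loc w).cob _ hx',
      add_zero]
  rw [e1, e4]
  exact (locH_sub (H.loc w) (hl hyZ) (hl (H.kap hyZ))).symm

theorem SumHF.alt (H : SumHF S SD j χ inv κ B θ φ m v) (z : G → G → A0) (u : G → A0)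
    (hz : Z2 S (tw χ) z) (h1 : ∀ g, z g 1 = 0) (h2 : ∀ g, z 1 g = 0) (hu : Sm1 S u)
    (h3 : ∀ a b, z (κ a) (κ b) + z a b = -d1 (tw χ) u a b) (h4 : ∀ g, u (κ g) = u g)
    (h5 : ∀ p ∈ B, u (θ p) = z (θ p) (κ (θ p)))
    (h6 : ∀ p ∈ B, u (φ p) + z (φ p) (θ p) = z (θ p) (κ (φ p))) :
    ∑ w, inv w (fun a b => z (j w a) (j w b)) = 0 := by
  rw [H.sum z u hz h1 h2 hu h3 h4]
  refine Finset.sum_eq_zero fun p hp => ?_
  have h7 : Dta κ (θ p) (φ p) (m p) z u = 0 := by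
    unfold Dta
    rw [h5 p hp, sub_self, smul_zero, ← h6 p hp]
    abel
  rw [h7, smul_zero]

/-- the global hypotheses for the systems `big S N` -/
theorem glob_big (hS : Up S) (hSD : ∀ w, Up (SD w)) (hχ : IsChar S χ)
    (hl : ∀ w, LocH (SD w) (fun d => χ (j w d)) (inv w))
    (jsm : ∀ w W, S.mem W → ∃ W', (SD w).mem W' ∧ ∀ v ∈ W', j w v ∈ W)
    (ksys : ∀ W, S.mem W → ∃ W', S.mem W' ∧ ∀ v ∈ W', κ v ∈ W) (kchi : ∀ g, χ (κ g) = χ g)
    {N : Subgroup G} (kN : ∀ g ∈ N, κ g ∈ N)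
    (hr : ∀ f, Z2 S (tw χ) f → ∑ w, (inv w (fun a b => f (j w a) (j w b)) -
      inv w (fun a b => f (κ (j w a)) (κ (j w b)))) = 0) :
    GlobH (big S N) (fun i : Φ × Bool => big (SD i.1) (N.comap (j i.1)))
      (fun i => if i.2 then κ.comp (j i.1) else j i.1) χ
      (fun i f => if i.2 then -inv i.1 f else inv i.1 f) := by
  have hrel : ∀ {A : Type _} [Group A] (f : A →* G) (N' : Subgroup A) (_ : N'.map f ≤ N)
      {W : Subgroup G} (_ : W.Normal) (_ : ∃ k : ℕ, W.relIndex N = 2 ^ k),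
      ∃ k : ℕ, (W.comap f).relIndex N' = 2 ^ k := by
    intro A _ f N' h W hWn hk
    obtain ⟨k, hk⟩ := hk
    have e : (W.comap f).relIndex N' ∣ 2 ^ k := by
      rw [← hk, Subgroup.relIndex_comap, ← Subgroup.relIndex_subgroupOf h]
      exact Subgroup.relIndex_dvd_index_of_normal (W.subgroupOf N) _
    obtain ⟨n, -, hn⟩ := (Nat.dvd_prime_pow Nat.prime_two).1 e
    exact ⟨n, hn⟩
  have jsm' : ∀ (i : Φ × Bool) W, (big S N).mem W → ∃ W', (big (SD i.1) (N.comap (j i.1))).mem W' ∧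
      ∀ w ∈ W', (if i.2 then κ.comp (j i.1) else j i.1) w ∈ W := by
    rintro ⟨w, b⟩ W ⟨h1, ⟨W₁, hW₁, h2⟩, hk⟩
    cases b with
    | false =>
      simp only [Bool.false_eq_true, if_false]
      obtain ⟨W', hW', h3⟩ := jsm w W₁ hW₁
      exact ⟨W.comap (j w), ⟨inferInstance, ⟨W', hW', fun v hv => h2 (h3 v hv)⟩,
        hrel (j w) _ (Subgroup.map_comap_le _ _) h1 hk⟩, fun v hv => hv⟩
    | true =>
      simp only [if_true]
      obtain ⟨W₂, hW₂, h4⟩ := ksys W₁ hW₁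
      obtain ⟨W', hW', h3⟩ := jsm w W₂ hW₂
      refine ⟨W.comap (κ.comp (j w)), ⟨inferInstance, ⟨W', hW', fun v hv =>
        h2 (h4 _ (h3 v hv))⟩, hrel (κ.comp (j w)) _ ?_ h1 hk⟩, fun v hv => hv⟩
      rintro _ ⟨v, hv, rfl⟩
      exact kN _ hv
  refine ⟨char_big hχ N, jsm', ?_, fun f hf => ?_⟩
  · have hb : ∀ w, LocH (big (SD w) (N.comap (j w))) (fun d => χ (j w d)) (inv w) := fun w =>
      ⟨char_big (hl w).char _, fun f f' hf hf' => (hl w).add f f'
        ((clo_big (hSD w) _).fin.z2 hf) ((clo_big (hSD w) _).fin.z2 hf'),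
        fun z hz => (hl w).cob z ((clo_big (hSD w) _).fin.sm1 hz)⟩
    rintro ⟨w, b⟩
    cases b with
    | false =>
      simp only [Bool.false_eq_true, if_false]
      exact hb w
    | true =>
      simp only [if_true]
      have e : (fun d => χ ((κ.comp (j w)) d)) = fun d => χ (j w d) := by
        funext d
        exact kchi _
      rw [e]
      exact locH_neg (hb w)
  · have h0 := hr f ((clo_big hS N).fin.z2 hf)
    rw [Fintype.sum_prod_type, ← h0]
    refine Finset.sum_congr rfl fun w _ => ?_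
    rw [Fintype.sum_bool]
    simp only [if_true, Bool.false_eq_true, if_false]
    rw [sub_eq_neg_add]
    rfl

/-- the fields of `KR.HypP` that concern reciprocity -/
theorem SumHF.hyp (H : SumHF S SD j χ inv κ B θ φ m v) (hS : Up S) (hSD : ∀ w, Up (SD w))
    (hB : B.Nonempty) {N : Subgroup G} (kN : ∀ g ∈ N, κ g ∈ N) :
    GlobH (big S N) (fun i : Φ × Bool => big (SD i.1) (N.comap (j i.1)))
      (fun i => if i.2 then κ.comp (j i.1) else j i.1) χ
      (fun i f => if i.2 then -inv i.1 f else inv i.1 f) ∧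
    {p : G × G | ∃ n ∈ B, p = (θ n, φ n)}.Nonempty ∧
    (∀ p ∈ {p : G × G | ∃ n ∈ B, p = (θ n, φ n)}, ∀ W, (big S N).mem W → p.1 * κ p.1 ∈ W) ∧
    (∀ p ∈ {p : G × G | ∃ n ∈ B, p = (θ n, φ n)}, ∀ W, (big S N).mem W →
      (p.1 * κ p.2)⁻¹ * (p.2 * p.1) ∈ W) ∧
    ∀ (z : G → G → A0) (u : G → A0), Z2 (big S N) (tw χ) z → (∀ g, z g 1 = 0) →
      (∀ g, z 1 g = 0) → Sm1 (big S N) u →
      (∀ a b, z (κ a) (κ b) + z a b = -d1 (tw χ) u a b) → (∀ g, u (κ g) = u g) →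
      (∀ p ∈ {p : G × G | ∃ n ∈ B, p = (θ n, φ n)}, u p.1 = z p.1 (κ p.1)) →
      (∀ p ∈ {p : G × G | ∃ n ∈ B, p = (θ n, φ n)}, u p.2 + z p.2 p.1 = z p.1 (κ p.2)) →
      ∑ w, inv w (fun a b => z (j w a) (j w b)) = 0 := by
  refine ⟨glob_big hS hSD H.char H.loc H.jsm H.ksys H.kchi kN fun f hf => H.recip hf, ?_, ?_, ?_, ?_⟩
  · obtain ⟨n, hn⟩ := hB
    exact ⟨(θ n, φ n), n, hn, rfl⟩
  · rintro p ⟨n, hn, rfl⟩ W hW
    exact H.tk n hn W ((clo_big hS N).sub W hW)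
  · rintro p ⟨n, hn, rfl⟩ W hW
    exact H.fk n hn W ((clo_big hS N).sub W hW)
  · intro z u hz h1 h2 hu h3 h4 h5 h6
    exact H.alt z u ((clo_big hS N).fin.z2 hz) h1 h2 ((clo_big hS N).fin.sm1 hu) h3 h4
      (fun p hp => h5 (θ p, φ p) ⟨p, hp, rfl⟩) (fun p hp => h6 (θ p, φ p) ⟨p, hp, rfl⟩)

end Pool.Agent.Work.MP_787500_nt.RQ
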