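import Mathlib
import Pool.Agent.Work.MP_787500_nt.RQ.Basic
import Pool.Agent.Work.MP_787500_nt.KR.C1_Cor
import Pool.Agent.Work.MP_787500_nt.KR.C2_Proj
import Pool.Agent.Work.MP_787500_nt.KR.C3_Sm

/-!
# Module TRAB (size M): restriction to a subgroup of odd index is injective

`T = traQ C : Tra G C (G ⧸ C)` (`KR/UDefs.lean`; `C` has finite index, so `Fintype (G ⧸ C)` by `Fintype.ofFinite`), `Fintype.card (G ⧸ C) = C.index = m` odd, `T.i c = c`,
`traQ_sm_full hC : T.Sm F (res F C)` (`KR/C3_Sm.lean`; `hC : KR.Opn F C`).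
`tra_b2`: `f|C = d1 y`. `cor2_res`: `cor2 T ρ (f|C) = m • f + d1 ρ (∑ v, zet T f v ·)`, `cor2_d1`: `cor2 T ρ (d1 y) = d1 ρ (cor1 T ρ y)`. So `m • f = d1 ρ x`, `x = cor1 T ρ y - ∑ v, zet T f v` smooth
(`cor1_sm`, `zet_sm`, `sum_sm`). Choose `r` with `r * m ≡ 1` modulo `2 ^ n`: `f = r • (m • f) = d1 ρ (r • x)` by `hn`.
`tra_cob`: apply `tra_b2` with `M = ZMod 2`, `ρ = fun _ a => a`, `n = 1` (in `ZMod 2` signs do not matter: `d1 ρ x a b = x a + x b - x (a b) = x a + x b + x (a b)`).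
`tra_cup`: `b = cor1 T (fun _ a => a) ψ`, a homomorphism by `cor1_coc`, smooth by `cor1_sm`. `proj_two`: `cor2 T (x|C ∪ ψ) g h = x g * b h + d1 (..)`. From `hB`: `f|C = x|C ∪ ψ + d z`, so
`cor2 (f|C) = x ∪ b + d (smooth)` (`cor2_add`, `cor2_d1`), and `cor2 (f|C) = m • f + d (smooth) = f + d (smooth)` as `m` is odd (`cor2_res`).
-/

set_option autoImplicit false
set_option linter.unusedSectionVars false

namespace Pool.Agent.Work.MP_787500_nt.RQ

open NumberField
open Pool.Agent.Work.MP_787500_nt.GP (A0 hf IsAct d0 d1 d2 tw iota)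
open Pool.Agent.Work.MP_787500_nt.PA (TwoSys)
open Pool.Agent.Work.MP_787500_nt.KR (FSys ofTwo)
open Pool.Agent.Work.MP_787500_nt.HP

universe u

private theorem fin_quot' {G : Type*} [Group G] {C : Subgroup G} (hodd : Odd C.index) :
    Finite (G ⧸ C) := by
  refine Nat.finite_of_card_ne_zero ?_
  intro h0
  have h1 : C.index = 0 := h0
  rw [h1] at hodd
  exact absurd hodd (by decide)

private theorem zmod_neg' (a : ZMod 2) : -a = a := by
  revert a
  decide

private theorem idAct' {G : Type*} [Group G] : IsAct (fun (_ : G) (a : ZMod 2) => a) :=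
  ⟨fun _ => rfl, fun _ _ _ => rfl, fun _ _ _ => rfl⟩

private theorem coc_z2' {G : Type*} [Group G] {F : FSys G} {f : G → G → ZMod 2}
    (hf : KR.Coc F f) : KR.Z2 F (fun _ a => a) f :=
  ⟨hf.1, fun a b c => by
    simp only [d2]
    linear_combination -(hf.2 a b c)⟩

private theorem cob_b2' {G : Type*} [Group G] {F : FSys G} {f : G → G → ZMod 2} :
    KR.Cob F f ↔ KR.B2 F (fun _ a => a) f := by
  constructor
  · rintro ⟨z, hz, h⟩
    refine ⟨z, hz, ?_⟩
    funext a b
    rw [h]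
    simp only [d1]
    rw [sub_eq_add_neg, zmod_neg']
  · rintro ⟨z, hz, h⟩
    refine ⟨z, hz, fun a b => ?_⟩
    rw [h]
    simp only [d1]
    rw [sub_eq_add_neg, zmod_neg']

theorem tra_b2 {G : Type*} [Group G] {C : Subgroup G} {F : FSys G} (hC : KR.Opn F C)
    (hodd : Odd C.index) {M : Type*} [AddCommGroup M] {ρ : G → M → M} (hρ : IsAct ρ)
    (hs : KR.Smooth F ρ) {f : G → G → M} (hf : KR.Z2 F ρ f) {n : ℕ}
    (hn : ∀ a b, (2 ^ n) • f a b = 0)
    (hB : KR.B2 (KR.res F C) (fun c : C => ρ c) (fun a b => f a b)) : KR.B2 F ρ f := by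
  classical
  have hfin := fin_quot' hodd
  have hft := Fintype.ofFinite (G ⧸ C)
  obtain ⟨y, hy, h1⟩ := hB
  have hsm := KR.traQ_sm_full (F := F) hC
  have hc : Fintype.card (G ⧸ C) = C.index := by
    rw [Subgroup.index, Nat.card_eq_fintype_card]
  set x : G → M := fun g => KR.cor1 (KR.traQ C) ρ y g - ∑ v, KR.zet (KR.traQ C) f v g with hxdef
  have hx : KR.Sm1 F x :=
    sm1_sub (KR.cor1_sm hsm hy) (KR.sum_sm fun v => KR.zet_sm hsm hf.1 v)
  have key : ∀ g h, C.index • f g h = d1 ρ x g h := by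
    intro g h
    have e1 := KR.cor2_res (KR.traQ C) hρ hf.2 g h
    have e2 : (fun a b : C => f ((KR.traQ C).i a) ((KR.traQ C).i b)) =
        d1 (fun c => ρ ((KR.traQ C).i c)) y := h1
    rw [e2, KR.cor2_d1 _ hρ] at e1
    rw [hxdef, d1_sub hρ, e1, hc]
    abel
  have hcop : IsCoprime (C.index : ℤ) ((2 : ℤ) ^ n) := by
    have h2 : Nat.Coprime C.index (2 ^ n) := by
      apply Nat.Coprime.pow_right
      exact (Nat.coprime_two_right).2 hodd
    have h3 := Nat.isCoprime_iff_coprime.2 h2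
    push_cast at h3
    exact h3
  obtain ⟨a, b, hab⟩ := hcop
  refine ⟨fun g => a • x g, sm1_comp hx (fun m => a • m), ?_⟩
  funext g h
  have e3 : ρ g (a • x h) = a • ρ g (x h) :=
    map_zsmul (AddMonoidHom.mk' (ρ g) (hρ.add g)) a (x h)
  have e4 : d1 ρ (fun g => a • x g) g h = a • d1 ρ x g h := by
    simp only [d1]
    rw [e3, ← smul_add, ← smul_sub]
  rw [e4, ← key]
  have e5 : (2 ^ n : ℤ) • f g h = 0 := by
    have := hn g h
    rw [← natCast_zsmul] at this
    push_cast at this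
    exact this
  calc f g h = (a * (C.index : ℤ) + b * 2 ^ n) • f g h := by rw [hab, one_smul]
    _ = a • (C.index • f g h) := by
      rw [add_smul, mul_smul, mul_smul, e5, smul_zero, add_zero, natCast_zsmul]

theorem tra_cob {G : Type*} [Group G] {C : Subgroup G} {F : FSys G} (hC : KR.Opn F C)
    (hodd : Odd C.index) {f : G → G → ZMod 2} (hf : KR.Coc F f)
    (hB : KR.Cob (KR.res F C) (fun a b : C => f a b)) : KR.Cob F f := by
  rw [cob_b2']
  refine tra_b2 (ρ := fun _ a => a) (n := 1) hC hodd idAct' ?_ (coc_z2' hf) ?_ (cob_b2'.1 hB)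
  · obtain ⟨W, hW⟩ := F.ex
    exact ⟨W, hW, fun _ _ _ => rfl⟩
  · intro a b
    rw [pow_one, two_nsmul]
    exact CharTwo.add_self_eq_zero _

theorem tra_cup {G : Type*} [Group G] {C : Subgroup G} {F : FSys G} (hC : KR.Opn F C)
    (hodd : Odd C.index) {f : G → G → ZMod 2} (hf : KR.Coc F f)
    {x : G → ZMod 2} (hx : KR.Sm1 F x) (hxm : ∀ g h, x (g * h) = x g + x h) {ψ : C → ZMod 2}
    (hψ : KR.Sm1 (KR.res F C) ψ) (hψm : ∀ g h, ψ (g * h) = ψ g + ψ h)
    (hB : KR.Cob (KR.res F C) (fun a b : C => f a b + x a * ψ b)) :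
    ∃ b : G → ZMod 2, KR.Sm1 F b ∧ (∀ g h, b (g * h) = b g + b h) ∧
      KR.Cob F (fun g h => f g h + x g * b h) := by
  classical
  have hfin := fin_quot' hodd
  have hft := Fintype.ofFinite (G ⧸ C)
  have hsm := KR.traQ_sm_full (F := F) hC
  have hc : Fintype.card (G ⧸ C) = C.index := by
    rw [Subgroup.index, Nat.card_eq_fintype_card]
  have hid := idAct' (G := G)
  set T := KR.traQ C with hT
  have hbm : ∀ g h, KR.cor1 T (fun _ a => a) ψ (g * h) =
      KR.cor1 T (fun _ a => a) ψ g + KR.cor1 T (fun _ a => a) ψ h := fun g h =>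
    KR.cor1_coc T hid hψm g h
  refine ⟨KR.cor1 T (fun _ a => a) ψ, KR.cor1_sm hsm hψ, hbm, ?_⟩
  obtain ⟨z, hz, h1⟩ := hB
  set w : G → ZMod 2 := fun h => ∑ v, x (T.s v) * ψ (T.u h v) with hw
  set y : G → ZMod 2 := fun g => ∑ v, KR.zet T f v g with hy
  have hws : KR.Sm1 F w := KR.pull_sm hsm hψ (fun y => ∑ v, x (T.s v) * y v)
  have hys : KR.Sm1 F y := KR.sum_sm fun v => KR.zet_sm hsm hf.1 v
  refine ⟨fun g => KR.cor1 T (fun _ a => a) z g + (y g + w g),
    sm1_add (KR.cor1_sm hsm hz) (sm1_add hys hws), fun g h => ?_⟩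
  have e1 := KR.cor2_res T hid (coc_z2' hf).2 g h
  have e2 := KR.proj_two T hxm hψm g h
  have e3 : (fun a b : C => f (T.i a) (T.i b) + x (T.i a) * ψ b) =
      d1 (fun _ m => m) z := by
    funext a b
    have h2 := h1 a b
    simp only [d1]
    rw [sub_eq_add_neg, zmod_neg']
    exact h2
  have e4 := congrFun (congrFun (KR.cor2_add T hid (fun a b : C => f (T.i a) (T.i b))
    (fun a b : C => x (T.i a) * ψ b)) g) h
  rw [e3] at e4
  have e5 := congrFun (congrFun (KR.cor2_d1 T hid z) g) h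
  rw [e5, e1, e2, hc] at e4
  have e6 : C.index • f g h = f g h := by
    obtain ⟨k, hk⟩ := hodd
    rw [hk, add_smul, one_smul, mul_comm, mul_smul, two_nsmul, CharTwo.add_self_eq_zero,
      smul_zero, zero_add]
  rw [e6] at e4
  simp only [d1, sub_eq_add_neg, zmod_neg'] at e4
  have two : (2 : ZMod 2) = 0 := by decide
  show f g h + x g * KR.cor1 T (fun x a => a) ψ h =
    KR.cor1 T (fun x a => a) z g + (y g + w g) + (KR.cor1 T (fun x a => a) z h + (y h + w h)) +
      (KR.cor1 T (fun x a => a) z (g * h) + (y (g * h) + w (g * h)))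
  have e7 : KR.cor1 T (fun x a => a) z g + KR.cor1 T (fun x a => a) z h +
      KR.cor1 T (fun x a => a) z (g * h) = f g h + (y g + y h + y (g * h)) +
      (x g * KR.cor1 T (fun x a => a) ψ h + (w g + w h + w (g * h))) := e4
  linear_combination -e7 - (y g + y h + y (g * h) + w g + w h + w (g * h)) * two

end Pool.Agent.Work.MP_787500_nt.RQ
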