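import Mathlib
import Pool.Agent.Work.MP_787500_nt.RQ.TraB
import Pool.Agent.Work.MP_787500_nt.GP.G1_Iota

/-!
# Module DAB (size M-L): cocycles of an abelian quotient

`J ≤ W`, `D ⧸ J` is abelian (`hJ`), `f` is constant on the cosets of `W ∈ lfull D`. `W.index = 2 ^ a * m`, `m` odd. Choose `k` with `k ≡ 1` modulo `2 ^ a` and `k ≡ 0` modulo `m`, `k > 0` (`Nat.chineseRemainder`).
`π g = g ^ k` is multiplicative modulo `W` (`(g h) ^ k` and `g ^ k h ^ k` are equal modulo `J`, the quotient `D ⧸ J` is commutative) and `f₀ g h = f (g ^ k) (h ^ k)`.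
(1) `f₀` is a cocycle: for `d2 f₀ = 0` use that `f` is constant on the cosets of `W`, and `χ (g ^ k) • t = χ g • t` for the values `t` of `f`: they are killed by `2 ^ n`; the character `χ` modulo `2 ^ n` takes
values in a 2-group, so ... choose instead `W` small enough: replace `W` by `W ⊓ W₀` with `W₀ ∈ lfull D`, `J ≤ W₀`, `2 ^ n ∣ χ w - 1` for `w ∈ W₀` (`hJχ`: `χ = 1` on `J`; `W₀ = {w | 2 ^ n ∣ χ w - 1}` is a normal
open subgroup of finite, 2-power index). Then `g ^ (k - 1)`, hence: `g ^ k = g * g ^ (k - 1)`, and `χ (g ^ (k - 1)) ≡ 1` modulo `2 ^ n`, because the order of `χ g` modulo `2 ^ n` is a power of 2 which divides the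
index of `W₀`, so it divides `2 ^ a`, and `2 ^ a ∣ k - 1`.
(2) `f₀` is constant on the cosets of `W' = {g | g ^ k ∈ W}`, a normal subgroup containing `W`, `J`; the quotient `D ⧸ W'` is isomorphic to the group of `k`-th powers in `D ⧸ W`, the 2-part, so its index
is a power of 2 (`g ^ (2 ^ a) ∈ W'` since `m ∣ k`, `g ^ (2 ^ a * m) ∈ W`; a finite group of exponent `2 ^ a`: `IsPGroup`). So `f₀ ∈ GP.Z2 (fsys D) (tw χ)`.
(3) Let `C = {g | g ^ (2 ^ a) ∈ W}`, a subgroup of `D` containing `W`, `J`; `C ⧸ W` is the 2-part of `D ⧸ W`, `C` has index `m` (odd; enough: the index is odd because `g ^ m ∈ C` for all `g`: exponent `m` odd;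
`IsPGroup`/`orderOf` arguments, or Cauchy: a finite group in which every element has odd order has odd order, `exists_prime_orderOf_dvd_card`). For `g`, `h ∈ C`: `g ^ k ∈ g W` (`2 ^ a ∣ k - 1`), so
`f - f₀` is zero on `C`. Let `F_J` be the system of the members of `lfull D` that contain `J` (an `FSys D`): `tra_b2` for `F_J` gives
`f - f₀ = d1 x` with `x` constant on the cosets of a member containing `J`.
`iota_ab`: `f = f₀ + d1 x` from `ab_le`; `invF f = inv f₀` (`H.loc.add`, `cob`, `H.ext`), `inv f₀ = u • iota σ τ l f₀`, and `iota σ τ l (d1 x) = 0` because `x (σ τ) = x (τ ^ l σ)` (`hστ`; the computation is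
`GP.iota_cob` in `GP/G1_Iota.lean`, its only use of `TameD` is this relation, `χ σ = l`, `χ τ = 1`; copy it).
-/

set_option autoImplicit false
set_option linter.unusedSectionVars false

namespace Pool.Agent.Work.MP_787500_nt.RQ

open NumberField
open Pool.Agent.Work.MP_787500_nt.GP (A0 hf IsAct d0 d1 d2 tw iota)
open Pool.Agent.Work.MP_787500_nt.PA (TwoSys)
open Pool.Agent.Work.MP_787500_nt.KR (FSys ofTwo)
open Pool.Agent.Work.MP_787500_nt.HP

universe u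

section core

variable {G : Type*} [Group G]

private theorem dab_comm {V : Subgroup G} [V.Normal] (hc : ∀ a b : G, a * b * a⁻¹ * b⁻¹ ∈ V)
    (a b : G) : Commute (a : G ⧸ V) b := by
  have h := hc b⁻¹ a⁻¹
  rw [inv_inv, inv_inv] at h
  show (a : G ⧸ V) * b = b * a
  rw [← QuotientGroup.mk_mul, ← QuotientGroup.mk_mul, QuotientGroup.eq, mul_inv_rev]
  convert h using 1
  group

private theorem dab_pow {V : Subgroup G} [V.Normal] (hc : ∀ a b : G, a * b * a⁻¹ * b⁻¹ ∈ V) (k : ℕ)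
    (a b : G) : (((a * b) ^ k : G) : G ⧸ V) = ((a ^ k * b ^ k : G) : G ⧸ V) := by
  rw [QuotientGroup.mk_pow, QuotientGroup.mk_mul, QuotientGroup.mk_mul, QuotientGroup.mk_pow,
    QuotientGroup.mk_pow, (dab_comm hc a b).mul_pow]

/-- the elements whose `k`-th power is in `V` -/
private def kp (V : Subgroup G) [V.Normal] (hc : ∀ a b : G, a * b * a⁻¹ * b⁻¹ ∈ V) (k : ℕ) :
    Subgroup G where
  carrier := {g | g ^ k ∈ V}
  mul_mem' := by
    intro a b ha hb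
    have h := dab_pow hc k a b
    rw [QuotientGroup.eq] at h
    have h2 : a ^ k * b ^ k ∈ V := V.mul_mem ha hb
    have h3 := V.mul_mem h2 (V.inv_mem h)
    have e : a ^ k * b ^ k * (((a * b) ^ k)⁻¹ * (a ^ k * b ^ k))⁻¹ = (a * b) ^ k := by group
    rw [e] at h3
    exact h3
  one_mem' := by
    show (1 : G) ^ k ∈ V
    rw [one_pow]
    exact V.one_mem
  inv_mem' := by
    intro a ha
    show a⁻¹ ^ k ∈ V
    rw [inv_pow]
    exact V.inv_mem ha

private theorem kp_normal (V : Subgroup G) [V.Normal] (hc : ∀ a b : G, a * b * a⁻¹ * b⁻¹ ∈ V)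
    (k : ℕ) : (kp V hc k).Normal := by
  refine ⟨fun n hn g => ?_⟩
  show (g * n * g⁻¹) ^ k ∈ V
  rw [conj_pow]
  exact (inferInstance : V.Normal).conj_mem _ hn g

private theorem le_kp (V : Subgroup G) [V.Normal] (hc : ∀ a b : G, a * b * a⁻¹ * b⁻¹ ∈ V)
    (k : ℕ) : V ≤ kp V hc k := fun _ hg => V.pow_mem hg k

/-- a normal subgroup of finite index whose quotient has exponent `2 ^ a` -/
private theorem two_index {W : Subgroup G} (hn : W.Normal) (hi : W.index ≠ 0) {a : ℕ}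
    (h : ∀ g, g ^ (2 ^ a) ∈ W) : ∃ k : ℕ, W.index = 2 ^ k := by
  have : Finite (G ⧸ W) := by
    have : W.FiniteIndex := ⟨hi⟩
    infer_instance
  have hp : IsPGroup 2 (G ⧸ W) := by
    intro q
    obtain ⟨g, rfl⟩ := QuotientGroup.mk_surjective q
    refine ⟨a, ?_⟩
    rw [← QuotientGroup.mk_pow, QuotientGroup.eq_one_iff]
    exact h g
  obtain ⟨k, hk⟩ := IsPGroup.iff_card.1 hp
  exact ⟨k, hk⟩

private theorem odd_index {W : Subgroup G} (hn : W.Normal) (hi : W.index ≠ 0) {m : ℕ} (hm : Odd m)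
    (h : ∀ g, g ^ m ∈ W) : Odd W.index := by
  have : Finite (G ⧸ W) := by
    have : W.FiniteIndex := ⟨hi⟩
    infer_instance
  by_contra hc
  rw [Nat.not_odd_iff_even, even_iff_two_dvd] at hc
  have : Fact (Nat.Prime 2) := ⟨Nat.prime_two⟩
  obtain ⟨q, hq⟩ := exists_prime_orderOf_dvd_card' (G := G ⧸ W) 2 hc
  obtain ⟨g, rfl⟩ := QuotientGroup.mk_surjective q
  have h1 : ((g : G ⧸ W)) ^ m = 1 := by
    rw [← QuotientGroup.mk_pow, QuotientGroup.eq_one_iff]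
    exact h g
  have h2 := orderOf_dvd_of_pow_eq_one h1
  rw [hq] at h2
  exact (Nat.not_even_iff_odd.2 hm) (even_iff_two_dvd.2 h2)

/-- the elements at which the character is 1 modulo `2 ^ n` -/
private def w0 (χ : G → ℤ_[2]) (h1 : χ 1 = 1) (hm : ∀ g h, χ (g * h) = χ g * χ h) (n : ℕ) :
    Subgroup G where
  carrier := {g | (2 : ℤ_[2]) ^ n ∣ χ g - 1}
  mul_mem' := by
    intro a b ha hb
    show (2 : ℤ_[2]) ^ n ∣ χ (a * b) - 1
    have e : χ (a * b) - 1 = χ a * (χ b - 1) + (χ a - 1) := by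
      rw [hm]
      ring
    rw [e]
    exact dvd_add (dvd_mul_of_dvd_right hb _) ha
  one_mem' := by
    show (2 : ℤ_[2]) ^ n ∣ χ 1 - 1
    rw [h1, sub_self]
    exact dvd_zero _
  inv_mem' := by
    intro a ha
    show (2 : ℤ_[2]) ^ n ∣ χ a⁻¹ - 1
    have h := hm a⁻¹ a
    rw [inv_mul_cancel, h1] at h
    have e : χ a⁻¹ - 1 = -(χ a⁻¹ * (χ a - 1)) := by
      rw [mul_sub, ← h]
      ring
    rw [e]
    exact (dvd_mul_of_dvd_right ha _).neg_right

private theorem w0_normal (χ : G → ℤ_[2]) (h1 : χ 1 = 1) (hm : ∀ g h, χ (g * h) = χ g * χ h)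
    (n : ℕ) : (w0 χ h1 hm n).Normal := by
  refine ⟨fun a ha g => ?_⟩
  show (2 : ℤ_[2]) ^ n ∣ χ (g * a * g⁻¹) - 1
  have h := hm g g⁻¹
  rw [mul_inv_cancel, h1] at h
  have e : χ (g * a * g⁻¹) - 1 = χ g * χ g⁻¹ * (χ a - 1) := by
    rw [hm, hm]
    linear_combination -h
  rw [e]
  exact dvd_mul_of_dvd_right ha _

private theorem a0_one (t : A0) (k : ℕ) (h : (2 ^ k) • t = 0) (u : ℤ_[2])
    (hu : (2 : ℤ_[2]) ^ k ∣ u - 1) : u • t = t := by
  obtain ⟨b, hb⟩ := hu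
  have e : u = 1 + b * (2 : ℤ_[2]) ^ k := by linear_combination hb
  rw [e, add_smul, one_smul, mul_smul]
  have e2 : ((2 : ℤ_[2]) ^ k) • t = (2 ^ k) • t := by
    have : (2 : ℤ_[2]) ^ k = ((2 ^ k : ℕ) : ℤ_[2]) := by push_cast; rfl
    rw [this, Nat.cast_smul_eq_nsmul]
  rw [e2, h, smul_zero, add_zero]

/-- the elements of `A0` killed by `2 ^ n` -/
private noncomputable abbrev tor (n : ℕ) : AddSubgroup A0 := (nsmulAddMonoidHom (α := A0) (2 ^ n)).ker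

private theorem mem_tor {n : ℕ} {t : A0} : t ∈ tor n ↔ (2 ^ n) • t = 0 := Iff.rfl

/-- the action on `tor n` -/
private noncomputable def rt (χ : G → ℤ_[2]) (n : ℕ) : G → tor n → tor n := fun g t =>
  ⟨χ g • (t : A0), by
    rw [mem_tor, smul_comm, mem_tor.1 t.2, smul_zero]⟩

private theorem rt_act (χ : G → ℤ_[2]) (h1 : χ 1 = 1) (hm : ∀ g h, χ (g * h) = χ g * χ h) (n : ℕ) :
    IsAct (rt χ n) where
  one t := Subtype.ext (by show χ 1 • (t : A0) = t; rw [h1, one_smul])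
  mul a b t := Subtype.ext (by show χ (a * b) • (t : A0) = χ a • χ b • (t : A0); rw [hm, mul_smul])
  add a t t' := Subtype.ext (smul_add _ _ _)

private theorem fin_range {W : Subgroup G} (hW : W.index ≠ 0) {A : Type*} {f : G → G → A}
    (hf : ∀ g h, ∀ w ∈ W, ∀ w' ∈ W, f (g * w) (h * w') = f g h) :
    (Set.range fun p : G × G => f p.1 p.2).Finite := by
  have hfi : W.FiniteIndex := ⟨hW⟩
  have hfin : Finite (G ⧸ W) := Subgroup.finite_quotient_of_finiteIndex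
  refine (Set.finite_range (fun q : (G ⧸ W) × (G ⧸ W) => f q.1.out q.2.out)).subset ?_
  rintro _ ⟨⟨g, h⟩, rfl⟩
  refine ⟨((g : G ⧸ W), (h : G ⧸ W)), ?_⟩
  obtain ⟨w, hw⟩ := QuotientGroup.mk_out_eq_mul W g
  obtain ⟨w', hw'⟩ := QuotientGroup.mk_out_eq_mul W h
  show f (g : G ⧸ W).out (h : G ⧸ W).out = f g h
  rw [hw, hw', hf g h w w.2 w' w'.2]

end core

section galois

variable {Ω : Type u} [Field Ω]

private theorem lfull_up {D : Subgroup (Ω ≃+* Ω)} {W W' : Subgroup D} (h : (lfull D).mem W)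
    (hle : W ≤ W') (hn : W'.Normal) : (lfull D).mem W' := by
  obtain ⟨⟨s, hs⟩, -, h3⟩ := h
  exact ⟨⟨s, fun g hg => hle (hs g hg)⟩, hn,
    fun h0 => h3 (Nat.eq_zero_of_zero_dvd (h0 ▸ Subgroup.index_dvd_of_le hle))⟩

/-- the members of `lfull D` that contain `J` -/
private def fj (D : Subgroup (Ω ≃+* Ω)) (J : Subgroup D) : FSys D where
  mem W := (lfull D).mem W ∧ J ≤ W
  ex := by
    obtain ⟨W, hW⟩ := (lfull D).ex
    exact ⟨⊤, lfull_up hW le_top inferInstance, le_top⟩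
  inf := fun h h' => ⟨(lfull D).inf h.1 h'.1, le_inf h.2 h'.2⟩
  normal := fun h => (lfull D).normal h.1
  index := fun h => (lfull D).index h.1

end galois

theorem ab_le {Ω : Type u} [Field Ω] [CharZero Ω] [IsAlgClosed Ω] {D : Subgroup (Ω ≃+* Ω)}
    {J : Subgroup D} (hJn : J.Normal) (hJ : ∀ a b : D, a * b * a⁻¹ * b⁻¹ ∈ J)
    (hJχ : ∀ a ∈ J, cyQ ((a : D) : Ω ≃+* Ω) = 1) {f : D → D → A0}
    (hf : KR.Z2 (lfull D) (tw fun d : D => cyQ (d : Ω ≃+* Ω)) f) {W : Subgroup D}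
    (hW : (lfull D).mem W) (hJW : J ≤ W) (hfW : ∀ g h, ∀ w ∈ W, ∀ w' ∈ W, f (g * w) (h * w') = f g h) :
    ∃ (f₀ : D → D → A0) (x : D → A0), GP.Z2 (fsys D) (tw fun d : D => cyQ (d : Ω ≃+* Ω)) f₀ ∧
      KR.Sm1 (lfull D) x ∧ (∀ g, ∀ w ∈ J, x (g * w) = x g) ∧
      ∀ a b, f a b = f₀ a b + d1 (tw fun d : D => cyQ (d : Ω ≃+* Ω)) x a b := by
  have hχ : KR.IsChar (lfull D) (fun d : D => cyQ (d : Ω ≃+* Ω)) := char_lfull D
  have hχ2 : KR.IsChar (ofTwo (fsys D)) (fun d : D => cyQ (d : Ω ≃+* Ω)) := char_ofTwo (isChar_stb D)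
  generalize hχe : (fun d : D => cyQ (d : Ω ≃+* Ω)) = χ at hf hχ hχ2 ⊢
  have hJχ' : ∀ a ∈ J, χ a = 1 := fun a ha => by rw [← hχe]; exact hJχ a ha
  -- the values of `f`
  have hfr := fin_range ((lfull D).index hW) hfW
  have : Finite (Set.range fun p : D × D => f p.1 p.2) := hfr
  obtain ⟨n, hn1, hn2⟩ := GP.a0_killed (fun t : Set.range (fun p : D × D => f p.1 p.2) => (t : A0))
  have hk : ∀ a b, (2 ^ n) • f a b = 0 := fun a b => hn1 ⟨f a b, ⟨(a, b), rfl⟩⟩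
  -- the subgroup `W₀`
  set W₀ : Subgroup D := w0 χ hχ.one hχ.mul n with hW₀
  have hW₀n : W₀.Normal := w0_normal χ hχ.one hχ.mul n
  obtain ⟨W₁, hW₁, hc⟩ := hχ2.cont n
  have hle1 : W₁ ≤ W₀ := by
    intro w hw
    have h := hc 1 w hw
    rw [one_mul, hχ.one] at h
    exact h
  have hW₀m : (lfull D).mem W₀ := by
    obtain ⟨⟨s, hs⟩, hn, b, hb⟩ := hW₁
    exact lfull_up ⟨⟨s, hs⟩, hn, by rw [hb]; positivity⟩ hle1 hW₀n
  obtain ⟨b, hb⟩ : ∃ b : ℕ, W₀.index = 2 ^ b := by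
    obtain ⟨⟨s, hs⟩, hn, b, hb⟩ := hW₁
    have h4 : W₀.index ∣ 2 ^ b := hb ▸ Subgroup.index_dvd_of_le hle1
    obtain ⟨c, -, hc⟩ := (Nat.dvd_prime_pow Nat.prime_two).1 h4
    exact ⟨c, hc⟩
  have hJW₀ : J ≤ W₀ := by
    intro w hw
    show (2 : ℤ_[2]) ^ n ∣ χ w - 1
    rw [hJχ' w hw, sub_self]
    exact dvd_zero _
  -- the subgroup `V`
  obtain ⟨V, hVe⟩ : ∃ V, V = W ⊓ W₀ := ⟨_, rfl⟩
  have hV : (lfull D).mem V := hVe ▸ (lfull D).inf hW hW₀m
  have hVn : V.Normal := (lfull D).normal hV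
  have hVW : V ≤ W := hVe ▸ inf_le_left
  have hVW₀ : V ≤ W₀ := hVe ▸ inf_le_right
  have hJV : J ≤ V := hVe ▸ le_inf hJW hJW₀
  have hcV : ∀ a b : D, a * b * a⁻¹ * b⁻¹ ∈ V := fun a b => hJV (hJ a b)
  obtain ⟨a, m, hm, hN⟩ := Nat.exists_eq_two_pow_mul_odd ((lfull D).index hV)
  have hcop : Nat.Coprime m (2 ^ a) := (Nat.coprime_two_right.2 hm).pow_right a
  have hba : ∀ g : D, g ^ (2 ^ a) ∈ W₀ := by
    intro g
    have h1 : W₀.index ∣ V.index := Subgroup.index_dvd_of_le hVW₀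
    rw [hN, hb] at h1
    have h2 : 2 ^ b ∣ 2 ^ a := by
      refine Nat.Coprime.dvd_of_dvd_mul_right ?_ h1
      exact ((Nat.coprime_two_left.2 hm).pow_left b)
    obtain ⟨c, hc⟩ := h2
    rw [hc, pow_mul]
    refine W₀.pow_mem ?_ c
    rw [← hb]
    exact Subgroup.pow_index_mem W₀ g
  -- the exponent
  obtain ⟨k, hk1, hk0⟩ : ∃ k : ℕ, (∃ c, k = 1 + 2 ^ a * c) ∧ m ∣ k := by
    have hφ : 0 < Nat.totient (2 ^ a) := Nat.totient_pos.2 (by positivity)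
    refine ⟨m ^ Nat.totient (2 ^ a), ?_, dvd_pow_self _ hφ.ne'⟩
    have h1 := Nat.ModEq.pow_totient hcop
    have hm0 : 0 < m := hm.pos
    have h2 : 1 ≤ m ^ Nat.totient (2 ^ a) := Nat.one_le_pow _ _ hm0
    obtain ⟨c, hc⟩ := (Nat.modEq_iff_dvd' h2).1 h1.symm
    exact ⟨c, by omega⟩
  obtain ⟨c, hkc⟩ := hk1
  obtain ⟨k₁, hk₁⟩ := hk0
  have hpk : ∀ g : D, g ^ k = g * (g ^ (2 ^ a)) ^ c := fun g => by
    rw [hkc, pow_add, pow_one, pow_mul]
  -- `f` modulo `V`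
  have hfV : ∀ g h g' h' : D, (g : D ⧸ V) = g' → (h : D ⧸ V) = h' → f g h = f g' h' := by
    intro g h g' h' h1 h2
    rw [QuotientGroup.eq] at h1 h2
    have := hfW g h _ (hVW h1) _ (hVW h2)
    rw [mul_inv_cancel_left, mul_inv_cancel_left] at this
    exact this.symm
  have hχk : ∀ (g : D) (a b : D), χ (g ^ k) • f a b = χ g • f a b := by
    intro g a' b'
    have h1 : (g ^ (2 ^ a)) ^ c ∈ W₀ := W₀.pow_mem (hba g) c
    rw [hpk, hχ.mul, mul_smul, a0_one (f a' b') n (hk a' b') _ h1]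
  have hV' : ∀ (j : ℕ) (g w : D), w ^ j ∈ V → (((g * w) ^ j : D) : D ⧸ V) = ((g ^ j : D) : D ⧸ V) := by
    intro j g w hw
    rw [dab_pow hcV, QuotientGroup.mk_mul, (QuotientGroup.eq_one_iff (w ^ j)).2 hw, mul_one]
  -- the cocycle `f₀`
  have hd0 : ∀ u v w : D, d2 (tw χ) (fun g h => f (g ^ k) (h ^ k)) u v w = 0 := by
    intro u v w
    have h0 := hf.2 (u ^ k) (v ^ k) (w ^ k)
    simp only [d2, tw] at h0 ⊢
    rw [hχk] at h0
    rw [hfV ((u * v) ^ k) (w ^ k) (u ^ k * v ^ k) (w ^ k) (dab_pow hcV k u v) rfl,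
      hfV (u ^ k) ((v * w) ^ k) (u ^ k) (v ^ k * w ^ k) rfl (dab_pow hcV k v w)]
    exact h0
  have hWm : (fsys D).mem (kp V hcV k) := by
    obtain ⟨⟨s, hs⟩, -, h3⟩ := hV
    refine ⟨⟨s, fun g hg => le_kp V hcV k (hs g hg)⟩, kp_normal V hcV k, ?_⟩
    refine two_index (kp_normal V hcV k) (a := a) (fun h0 => h3 (Nat.eq_zero_of_zero_dvd
      (h0 ▸ Subgroup.index_dvd_of_le (le_kp V hcV k)))) fun g => ?_
    show (g ^ (2 ^ a)) ^ k ∈ V
    have e : (g ^ (2 ^ a)) ^ k = (g ^ V.index) ^ k₁ := by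
      rw [hN, ← pow_mul, ← pow_mul, hk₁, mul_assoc]
    rw [e]
    exact V.pow_mem (Subgroup.pow_index_mem V g) _
  have hf₀W : ∀ g h, ∀ w ∈ kp V hcV k, ∀ w' ∈ kp V hcV k,
      f ((g * w) ^ k) ((h * w') ^ k) = f (g ^ k) (h ^ k) := fun g h w hw w' hw' =>
    hfV _ _ _ _ (hV' k g w hw) (hV' k h w' hw')
  have hf₀ : GP.Z2 (fsys D) (tw χ) fun g h => f (g ^ k) (h ^ k) :=
    ⟨⟨kp V hcV k, hWm, hf₀W⟩, hd0⟩
  -- the subgroup `C`
  obtain ⟨C, hCe⟩ : ∃ C, C = kp V hcV (2 ^ a) := ⟨_, rfl⟩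
  have hVC : V ≤ C := hCe ▸ le_kp V hcV _
  have hCn : C.Normal := hCe ▸ kp_normal V hcV _
  have hCo : Odd C.index := by
    refine odd_index hCn (fun h0 => (lfull D).index hV (Nat.eq_zero_of_zero_dvd
      (h0 ▸ Subgroup.index_dvd_of_le hVC))) hm fun g => ?_
    rw [hCe]
    show (g ^ m) ^ (2 ^ a) ∈ V
    rw [← pow_mul, mul_comm m, ← hN]
    exact Subgroup.pow_index_mem V g
  have hC1 : ∀ g ∈ C, ((g ^ k : D) : D ⧸ V) = g := by
    intro g hg
    rw [hCe] at hg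
    rw [hpk, QuotientGroup.mk_mul, (QuotientGroup.eq_one_iff _).2 (V.pow_mem hg c), mul_one]
  -- coefficients killed by `2 ^ n`
  have hk' : ∀ g h, f g h - f (g ^ k) (h ^ k) ∈ tor n := fun g h => by
    rw [mem_tor, smul_sub, hk, hk, sub_zero]
  have hact := rt_act χ hχ.one hχ.mul n
  have hsm : KR.Smooth (fj D J) (rt χ n) := by
    refine ⟨W₀, ⟨hW₀m, hJW₀⟩, fun w hw t => Subtype.ext ?_⟩
    exact a0_one t n (mem_tor.1 t.2) _ hw
  obtain ⟨F, hFe⟩ : ∃ F : D → D → tor n, ∀ g h, ((F g h : tor n) : A0) =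
      f g h - f (g ^ k) (h ^ k) := ⟨fun g h => ⟨_, hk' g h⟩, fun g h => rfl⟩
  have hF : KR.Z2 (fj D J) (rt χ n) F := by
    refine ⟨⟨V, ⟨hV, hJV⟩, fun g h w hw w' hw' => Subtype.ext ?_⟩, fun u v w => Subtype.ext ?_⟩
    · rw [hFe, hFe, hfW g h w (hVW hw) w' (hVW hw'),
        hf₀W g h w (le_kp V hcV k hw) w' (le_kp V hcV k hw')]
    · have h1 := hf.2 u v w
      have h2 := hd0 u v w
      simp only [d2, tw] at h1 h2
      show χ u • ((F v w : tor n) : A0) - F (u * v) w + F u (v * w) - F u v = 0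
      rw [hFe, hFe, hFe, hFe, smul_sub]
      have e : χ u • f v w - χ u • f (v ^ k) (w ^ k) - (f (u * v) w - f ((u * v) ^ k) (w ^ k)) +
          (f u (v * w) - f (u ^ k) ((v * w) ^ k)) - (f u v - f (u ^ k) (v ^ k)) =
          (χ u • f v w - f (u * v) w + f u (v * w) - f u v) -
          (χ u • f (v ^ k) (w ^ k) - f ((u * v) ^ k) (w ^ k) + f (u ^ k) ((v * w) ^ k) -
            f (u ^ k) (v ^ k)) := by abel
      rw [e, h1, h2, sub_zero]
  have hFn : ∀ g h, (2 ^ n) • F g h = 0 := fun g h => Subtype.ext (mem_tor.1 (F g h).2)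
  have hB : KR.B2 (KR.res (fj D J) C) (fun c : C => rt χ n c) (fun g h : C => F g h) := by
    obtain ⟨U, hU⟩ := (KR.res (fj D J) C).ex
    refine ⟨fun _ => 0, ⟨U, hU, fun _ _ _ => rfl⟩, ?_⟩
    funext g h
    apply Subtype.ext
    show ((F (g : D) (h : D) : tor n) : A0) = ((0 : tor n) : A0) + χ g • ((0 : tor n) : A0) -
      ((0 : tor n) : A0)
    rw [hFe, hfV (((g : D)) ^ k) ((h : D) ^ k) g h (hC1 g g.2) (hC1 h h.2)]
    simp
  obtain ⟨x, ⟨U, hU, hx⟩, hFx⟩ := tra_b2 (F := fj D J) (C := C) ⟨V, ⟨hV, hJV⟩, hVC⟩ hCo hact hsm hF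
    hFn hB
  refine ⟨fun g h => f (g ^ k) (h ^ k), fun g => (x g : A0), hf₀, ⟨U, hU.1, fun g w hw => ?_⟩,
    fun g w hw => ?_, fun g h => ?_⟩
  · show ((x (g * w) : tor n) : A0) = x g
    rw [hx g w hw]
  · show ((x (g * w) : tor n) : A0) = x g
    rw [hx g w (hU.2 hw)]
  · have h1 : ((F g h : tor n) : A0) = ((x g : tor n) : A0) + χ g • ((x h : tor n) : A0) -
        ((x (g * h) : tor n) : A0) := by
      rw [hFx]
      rfl
    rw [hFe] at h1
    show f g h = f (g ^ k) (h ^ k) + (((x g : tor n) : A0) + χ g • ((x h : tor n) : A0) -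
        ((x (g * h) : tor n) : A0))
    rw [← h1]
    abel

private theorem dab_tele {A : Type*} [AddCommGroup A] (w : ℕ → A) {l : ℕ} (hl : 1 ≤ l) :
    ∑ i ∈ Finset.Ico 1 l, (w i + w 1 - w (i + 1)) = l • w 1 - w l := by
  induction l, hl using Nat.le_induction with
  | base => simp
  | succ l hl ih =>
    rw [Finset.sum_Ico_succ_top hl, ih, succ_nsmul]
    abel

private theorem dab_iota {G : Type*} [Group G] {χ : G → ℤ_[2]} (h1 : χ 1 = 1)
    (hm : ∀ g h, χ (g * h) = χ g * χ h) {σ τ : G} {l : ℕ} (hl : 1 ≤ l) (hσ : χ σ = l)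
    (hτ : χ τ = 1) {z : G → A0} (hrel : z (σ * τ) = z (τ ^ l * σ)) :
    iota σ τ l (d1 (tw χ) z) = 0 := by
  have hp : ∀ i : ℕ, χ (τ ^ i) = 1 := by
    intro i
    induction i with
    | zero => rw [pow_zero, h1]
    | succ i ih => rw [pow_succ, hm, ih, hτ, mul_one]
  have e1 : ∑ i ∈ Finset.Ico 1 l, d1 (tw χ) z (τ ^ i) τ = l • z τ - z (τ ^ l) := by
    have := dab_tele (fun i => z (τ ^ i)) hl
    simp only [pow_one] at this
    rw [← this]
    refine Finset.sum_congr rfl fun i _ => ?_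
    simp only [d1, tw, hp i, one_smul, pow_succ]
  have e2 : d1 (tw χ) z σ τ = z σ + l • z τ - z (σ * τ) := by
    simp only [d1, tw, hσ, Nat.cast_smul_eq_nsmul]
  have e3 : d1 (tw χ) z (τ ^ l) σ = z (τ ^ l) + z σ - z (τ ^ l * σ) := by
    simp only [d1, tw, hp l, one_smul]
  rw [iota, e1, e2, e3, hrel]
  abel

theorem iota_ab {Ω : Type u} [Field Ω] [CharZero Ω] [IsAlgClosed Ω] {D : Subgroup (Ω ≃+* Ω)}
    {inv invF : (D → D → A0) → A0} (H : LocF D inv invF) {J : Subgroup D} (hJn : J.Normal)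
    (hJ : ∀ a b : D, a * b * a⁻¹ * b⁻¹ ∈ J) (hJχ : ∀ a ∈ J, cyQ ((a : D) : Ω ≃+* Ω) = 1)
    {u : ℤ_[2]} {σ τ : D} {l : ℕ} (hl : 1 ≤ l) (hχσ : cyQ (σ : Ω ≃+* Ω) = l)
    (hχτ : cyQ (τ : Ω ≃+* Ω) = 1) (hστ : (τ ^ l * σ)⁻¹ * (σ * τ) ∈ J)
    (hinv : ∀ f, inv f = u • iota σ τ l f) {f : D → D → A0}
    (hf : KR.Z2 (lfull D) (tw fun d : D => cyQ (d : Ω ≃+* Ω)) f) {W : Subgroup D}
    (hW : (lfull D).mem W) (hJW : J ≤ W) (hfW : ∀ g h, ∀ w ∈ W, ∀ w' ∈ W, f (g * w) (h * w') = f g h) :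
    invF f = u • iota σ τ l f := by
  obtain ⟨f₀, x, h0, hx, hxJ, hfe⟩ := ab_le hJn hJ hJχ hf hW hJW hfW
  have hχ : KR.IsChar (lfull D) (fun d : D => cyQ (d : Ω ≃+* Ω)) := char_lfull D
  have e : f = fun a b => f₀ a b + d1 (tw fun d : D => cyQ (d : Ω ≃+* Ω)) x a b :=
    funext fun a => funext fun b => hfe a b
  have h0' : KR.Z2 (lfull D) (tw fun d : D => cyQ (d : Ω ≃+* Ω)) f₀ :=
    (fin_fsys D).z2 ⟨h0.1, h0.2⟩
  have h1 : iota σ τ l (d1 (tw fun d : D => cyQ (d : Ω ≃+* Ω)) x) = 0 := by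
    refine dab_iota (G := D) (χ := fun d : D => cyQ (d : Ω ≃+* Ω)) hχ.one hχ.mul hl hχσ hχτ ?_
    have := hxJ (τ ^ l * σ) _ hστ
    rw [mul_inv_cancel_left] at this
    exact this
  rw [e, H.loc.add _ _ h0' (KR.d1_tw_Z2 hχ hx), H.loc.cob x hx, H.ext f₀ h0, hinv, add_zero,
    GP.iota_add, h1, add_zero]

end Pool.Agent.Work.MP_787500_nt.RQ
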