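import Mathlib
import Pool.Agent.Work.MP_787500_nt.HP.ExtCoc
import Pool.Agent.Work.MP_787500_nt.HP.Splt
import Pool.Agent.Work.MP_787500_nt.HP.EmbGood
import Pool.Agent.Work.MP_787500_nt.HP.ExtK
import Pool.Agent.Work.MP_787500_nt.RQ.Basic

/-!
The extended cocycle is smooth, systems `FSys` (the proof is that of `HP/ExtK.lean`). The member `W'` contains the
elements of inertia groups over `K` at the primes that do not contain 2 or an element of `T`.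
-/

set_option autoImplicit false
set_option linter.unusedSectionVars false

namespace Pool.Agent.Work.MP_787500_nt.RQ

open IsDedekindDomain NumberField
open Pool.Agent.Work.MP_787500_nt.PA (TwoSys homs cyc Opn)
open Pool.Agent.Work.MP_787500_nt.GP
open Pool.Agent.Work.MP_787500_nt.KR (FSys ofTwo fullK fullD fullC fullQ)
open Pool.Agent.Work.MP_787500_nt.HP

universe u

variable {Ω : Type u} [Field Ω] [CharZero Ω] [IsAlgClosed Ω] {K : Type u} [Field K] [NumberField K]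
  (α : AlgebraicClosure K ≃+* Ω) {D : ℕ} {s : K} {c : Ω ≃+* Ω} {κ : AbsGal K →* AbsGal K}

omit [CharZero Ω] [IsAlgClosed Ω] in
private theorem extk_ne (hK : IsQ K D s) : -α (algebraMap K (AlgebraicClosure K) s) ≠
    α (algebraMap K (AlgebraicClosure K) s) := by
  intro h
  rw [← map_neg, ← map_neg] at h
  have h1 : -s = s := (algebraMap K (AlgebraicClosure K)).injective (α.injective h)
  have h2 : s = 0 := self_eq_neg.1 h1.symm
  have h3 := hK.sq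
  rw [h2, zero_pow two_ne_zero, zero_eq_neg, Nat.cast_eq_zero] at h3
  have h4 := hK.mod
  rw [h3] at h4
  exact absurd h4 (by decide)

/-- finitely many elements from an open subgroup -/
private theorem extk_fix {W : Subgroup (AbsGal K)} (hW : IsOpen (W : Set (AbsGal K))) :
    ∃ s : Finset (AlgebraicClosure K), ∀ σ : AbsGal K, (∀ x ∈ s, σ x = x) → σ ∈ W := by
  classical
  obtain ⟨E, hE, h⟩ := (krullTopology_mem_nhds_one_iff K (AlgebraicClosure K) _).1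
    (hW.mem_nhds W.one_mem)
  have hfd : FiniteDimensional K E := hE
  let b := Module.finBasis K E
  refine ⟨Finset.univ.image fun i => (b i : AlgebraicClosure K), fun σ hσ => h ?_⟩
  rw [SetLike.mem_coe, IntermediateField.mem_fixingSubgroup_iff]
  intro x hx
  have h1 := congrArg (fun y : E => (y : AlgebraicClosure K)) (b.sum_repr ⟨x, hx⟩)
  have h2 : ∑ i, algebraMap K (AlgebraicClosure K) (b.repr ⟨x, hx⟩ i) *
      (b i : AlgebraicClosure K) = x := by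
    refine Eq.trans ?_ h1
    simp only [IntermediateField.coe_sum, Algebra.smul_def]
    rfl
  have h3 : ∀ i, σ (b i : AlgebraicClosure K) = b i := fun i =>
    hσ _ (Finset.mem_image_of_mem _ (Finset.mem_univ i))
  have h4 : ∀ a : K, σ (algebraMap K (AlgebraicClosure K) a) = algebraMap K (AlgebraicClosure K) a :=
    fun a => AlgEquiv.commutes σ a
  rw [← h2, map_sum]
  refine Finset.sum_congr rfl fun i _ => ?_
  rw [map_mul, h3, h4]

theorem good_mapF (hK : IsQ K D s) (hc : ∀ x, c (c x) = x)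
    (hcs : c (α (algebraMap K (AlgebraicClosure K) s)) = -α (algebraMap K (AlgebraicClosure K) s))
    (hcc : cyQ c = -1) (hκ : ∀ σ, emb α (κ σ) = c * emb α σ * c) {T : Finset ℕ}
    {W : Subgroup (AbsGal K)} (hW : (fullK (K := K) T).mem W) :
    ∃ W' : Subgroup (Ω ≃+* Ω), (ufull Ω ((T ∪ D.primeFactors : Finset ℕ) : Set ℕ)).mem W' ∧
      (∀ h ∈ W', ∃ g ∈ W, κ g ∈ W ∧ emb α g = h) ∧
      ∀ Q : Ideal (𝓞 Ω), Q.IsPrime → (2 : 𝓞 Ω) ∉ Q → (∀ l ∈ T, (l : 𝓞 Ω) ∉ Q) →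
        ∀ g : AbsGal K, emb α g ∈ inr Q → emb α g ∈ W' := by
  classical
  have hd := HP.dbl α hK hc hcs hcc hκ
  have hkk : ∀ σ, κ (κ σ) = σ := fun σ => emb_inj α (by
    rw [hκ, hκ, ← mul_assoc, ← mul_assoc, hd.cc, one_mul, mul_assoc, hd.cc, mul_one])
  have hWn : W.Normal := hW.1
  have hcn : (W.comap κ).Normal := inferInstance
  -- a finite set of elements
  obtain ⟨s₀, hs₀⟩ := extk_fix hW.2.1
  let ct : Ω := α (algebraMap K (AlgebraicClosure K) s)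
  have key : ∀ Q' : Ideal (𝓞 Ω), Q'.IsPrime → (2 : 𝓞 Ω) ∉ Q' → (∀ l ∈ T, (l : 𝓞 Ω) ∉ Q') →
      ∀ τ, τ ∈ (pb α Q').inertia (AbsGal K) → τ ∈ W := by
    intro Q' hQ' h2' hT' τ hτ
    refine hW.2.2 τ ⟨pb α Q', pb_prime α hQ', fun h3 => h2' ?_, fun l hl h3 =>
      hT' l hl ((pb_nat α l).1 h3), hτ⟩
    have h4 := (pb_nat α (Q := Q') 2).1
    rw [Nat.cast_ofNat, Nat.cast_ofNat] at h4
    exact h4 h3
  have keyI : ∀ Q : Ideal (𝓞 Ω), Q.IsPrime → (2 : 𝓞 Ω) ∉ Q → (∀ l ∈ T, (l : 𝓞 Ω) ∉ Q) →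
      ∀ σ : AbsGal K, emb α σ ∈ inr Q → σ ∈ W ⊓ W.comap κ := by
    intro Q hQ h2 hT1 σ hg
    refine ⟨key Q hQ h2 hT1 σ ((emb_inr α).1 hg), ?_⟩
    show κ σ ∈ W
    refine key (Q.comap (og c : 𝓞 Ω →+* 𝓞 Ω)) (Ideal.comap_isPrime _ _) (fun h3 => h2 ?_)
      (fun l hl h3 => hT1 l hl ?_) (κ σ) ((emb_inr α).1 ?_)
    · have h5 : (og c : 𝓞 Ω →+* 𝓞 Ω) 2 ∈ Q := h3
      rwa [map_ofNat] at h5
    · have h5 : (og c : 𝓞 Ω →+* 𝓞 Ω) l ∈ Q := h3
      rwa [map_natCast] at h5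
    · rw [hκ, mem_inr]
      intro x
      show (og c : 𝓞 Ω →+* 𝓞 Ω) (og (c * emb α σ * c) x - x) ∈ Q
      rw [map_sub]
      show og c (og (c * emb α σ * c) x) - og c x ∈ Q
      rw [og_mul, og_mul, ← og_mul c c, hd.cc, og_one]
      exact hg (og c x)
  refine ⟨(W ⊓ W.comap κ).map (emb α), ⟨⟨?_, ?_, ?_⟩, ?_⟩, ?_, ?_⟩
  · -- open
    refine ⟨{ct} ∪ (s₀.image α ∪ s₀.image fun x => c (α x)), fun g hg => ?_⟩
    obtain ⟨σ, rfl⟩ := (emb_sq α hK g).2 (hg _ (Finset.mem_union_left _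
      (Finset.mem_singleton_self _)))
    refine ⟨σ, ⟨hs₀ σ fun x hx => ?_, ?_⟩, rfl⟩
    · have h1 := hg (α x) (Finset.mem_union_right _ (Finset.mem_union_left _
        (Finset.mem_image_of_mem _ hx)))
      rw [emb_apply, α.symm_apply_apply] at h1
      exact α.injective h1
    · refine hs₀ (κ σ) fun x hx => ?_
      have h1 := hg (c (α x)) (Finset.mem_union_right _ (Finset.mem_union_right _
        (Finset.mem_image_of_mem _ hx)))
      have h2 : emb α (κ σ) (α x) = α x := by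
        rw [hκ]
        show c (emb α σ (c (α x))) = α x
        rw [h1, hc]
      rw [emb_apply, α.symm_apply_apply] at h2
      exact α.injective h2
  · -- normal
    refine ⟨?_⟩
    rintro _ ⟨w, hw, rfl⟩ h
    have hn : (W ⊓ W.comap κ).Normal := inferInstance
    rcases hd.all h with ⟨g, rfl | rfl⟩
    · exact ⟨g * w * g⁻¹, hn.conj_mem w hw g, by rw [map_mul, map_mul, map_inv]⟩
    · refine ⟨g * κ w * g⁻¹, hn.conj_mem (κ w) ⟨hw.2, ?_⟩ g, ?_⟩
      · show κ (κ w) ∈ W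
        rw [hkk]
        exact hw.1
      · have hci : c⁻¹ = c := inv_eq_of_mul_eq_one_left hd.cc
        rw [map_mul, map_mul, map_inv, hκ, mul_inv_rev, hci]
        simp only [mul_assoc]
  · -- index
    have h1 : W.index ≠ 0 := (fullK (K := K) T).index hW
    have h2 : (W.comap κ).index = W.index :=
      Subgroup.index_comap_of_surjective W (f := κ) fun σ => ⟨κ σ, hkk σ⟩
    have h3 : (emb α).range.index = 2 := by
      rw [Subgroup.index_eq_two_iff]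
      refine ⟨c, fun b => ?_⟩
      have h4 : b * c ∈ (emb α).range ↔ b ct = -ct := by
        rw [MonoidHom.mem_range, emb_sq α hK]
        show b (c ct) = ct ↔ _
        rw [show c ct = -ct from hcs, map_neg, neg_eq_iff_eq_neg]
      have h5 : b ∈ (emb α).range ↔ b ct = ct := by
        rw [MonoidHom.mem_range, emb_sq α hK]
      rw [h4, h5]
      rcases sq_or α hK b with h6 | h6
      · exact Or.inr ⟨h6, fun h7 => extk_ne α hK (h7.symm.trans h6)⟩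
      · exact Or.inl ⟨h6, fun h7 => extk_ne α hK (h6.symm.trans h7)⟩
    rw [Subgroup.index_map_of_injective _ (emb_inj α), h3]
    exact mul_ne_zero (Subgroup.index_inf_ne_zero h1 (by rw [h2]; exact h1)) two_ne_zero
  · -- inertia
    intro Q hQ h2 hT g hg
    obtain ⟨σ, hσ, rfl⟩ := inr_le α hK hQ h2 (fun p hp hpD => hT p (Finset.mem_coe.2
      (Finset.mem_union_right _ (Nat.mem_primeFactors.2 ⟨hp, hpD, hK.sqf.ne_zero⟩)))) hg
    have hT1 : ∀ l ∈ T, (l : 𝓞 Ω) ∉ Q := fun l hl => hT l (Finset.mem_coe.2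
      (Finset.mem_union_left _ hl))
    exact ⟨σ, keyI Q hQ h2 hT1 σ hg, rfl⟩
  · rintro _ ⟨w, hw, rfl⟩
    exact ⟨w, hw.1, hw.2, rfl⟩
  · intro Q hQ h2 hT1 g hg
    exact ⟨g, keyI Q hQ h2 hT1 g hg, rfl⟩

theorem exists_extF (hK : IsQ K D s) (hc : ∀ x, c (c x) = x)
    (hcs : c (α (algebraMap K (AlgebraicClosure K) s)) = -α (algebraMap K (AlgebraicClosure K) s))
    (hcc : cyQ c = -1) (hκ : ∀ σ, emb α (κ σ) = c * emb α σ * c) {T : Finset ℕ}
    {z : AbsGal K → AbsGal K → A0} {u : AbsGal K → A0}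
    (hz : KR.Z2 (fullK (K := K) T) (tw cyc) z)
    (h1 : ∀ g, z g 1 = 0) (h2 : ∀ g, z 1 g = 0) (hu : KR.Sm1 (fullK (K := K) T) u)
    (h3 : ∀ a b, z (κ a) (κ b) + z a b = -d1 (tw cyc) u a b) (h4 : ∀ g, u (κ g) = u g) :
    ∃ F : (Ω ≃+* Ω) → (Ω ≃+* Ω) → A0, IsExt (emb α) c κ cyQ z u F ∧
      KR.Z2 (ufull Ω ((T ∪ D.primeFactors : Finset ℕ) : Set ℕ)) (tw cyQ) F ∧
      (∀ g, F g 1 = 0) ∧ (∀ g, F 1 g = 0) ∧ F c c = 0 ∧
      ∃ W' : Subgroup (Ω ≃+* Ω), (ufull Ω ((T ∪ D.primeFactors : Finset ℕ) : Set ℕ)).mem W' ∧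
        (∀ g h, ∀ w ∈ W', ∀ w' ∈ W', F (g * w) (h * w') = F g h) ∧
        ∀ Q : Ideal (𝓞 Ω), Q.IsPrime → (2 : 𝓞 Ω) ∉ Q → (∀ l ∈ T, (l : 𝓞 Ω) ∉ Q) →
          ∀ g : AbsGal K, emb α g ∈ inr Q → emb α g ∈ W' := by
  have hd := HP.dbl α hK hc hcs hcc hκ
  obtain ⟨F, hF⟩ := exists_isExt hd z u
  have hcy : (fun g : AbsGal K => cyQ (emb α g)) = cyc := funext (cyQ_emb α)
  have h3' : ∀ a b, z (κ a) (κ b) + z a b = -d1 (tw fun g : AbsGal K => cyQ (emb α g)) u a b := by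
    rw [hcy]
    exact h3
  -- smoothness
  have hfin := KR.sm1_fin hu
  have : Finite (Set.range u) := hfin
  obtain ⟨k, -, hk⟩ := a0_killed (fun t : Set.range u => (t : A0))
  obtain ⟨⟨W1, hW1, hz1⟩, hz2⟩ := hz
  obtain ⟨W2, hW2, hu2⟩ := hu
  have hch := PA.isChar_cyc (K := K)
  obtain ⟨W3, hW3, hc3⟩ := hch.cont k
  have hW3' : (fullK (K := K) T).mem W3 := by
    have hn := hW3.normal
    have ho : IsOpen (W3 : Set (AbsGal K)) := hW3.isOpen
    obtain ⟨g1, g2, g3, g4⟩ := hW3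
    refine ⟨hn, ho, fun σ hσ => ?_⟩
    obtain ⟨Q, hQ, hQ2, -, h5⟩ := hσ
    exact g4 Q hQ hQ2 h5
  obtain ⟨W', hW', hmap, hram⟩ := good_mapF α hK hc hcs hcc hκ
    ((fullK (K := K) T).inf ((fullK (K := K) T).inf hW1 hW2) hW3')
  have hcyc : ∀ w ∈ W3, ∀ g, cyc w • u g = u g := by
    intro w hw g
    have h5 := hc3 1 w hw
    rw [one_mul, hch.one] at h5
    exact hk (cyc w) h5 ⟨u g, ⟨g, rfl⟩⟩
  have hkk : ∀ σ, κ (κ σ) = σ := fun σ => emb_inj α (by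
    rw [hκ, hκ, ← mul_assoc, ← mul_assoc, hd.cc, one_mul, mul_assoc, hd.cc, mul_one])
  have hcw : ∀ x, c * emb α x = emb α (κ x) * c := by
    intro x
    rw [hκ, mul_assoc _ c c, hd.cc, mul_one]
  -- the case of a second variable in `AbsGal K`
  have key : ∀ a, ∀ x ∈ (W1 ⊓ W2) ⊓ W3, κ x ∈ (W1 ⊓ W2) ⊓ W3 → ∀ h, ∀ y ∈ (W1 ⊓ W2) ⊓ W3,
      κ y ∈ (W1 ⊓ W2) ⊓ W3 → F (a * emb α x) (emb α (h * y)) = F a (emb α h) := by
    intro a x hx hkx h y hy hky
    rcases hd.all a with ⟨g, rfl | rfl⟩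
    · rw [← map_mul, hF.ff, hF.ff]
      exact hz1 _ _ _ hx.1.1 _ hy.1.1
    · rw [mul_assoc, hcw, ← mul_assoc, ← map_mul, hF.cf, hF.cf, map_mul κ,
        hz1 _ _ _ hkx.1.1 _ hky.1.1, hu2 _ _ hy.1.2, map_mul, hd.mul, cyQ_emb α (κ x), mul_smul,
        hcyc _ hkx.2]
  have hFW : ∀ g h, ∀ w ∈ W', ∀ w' ∈ W', F (g * w) (h * w') = F g h := by
    intro g h w hw w' hw'
    obtain ⟨x, hx, hkx, rfl⟩ := hmap w hw
    obtain ⟨y, hy, hky, rfl⟩ := hmap w' hw'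
    rcases hd.all h with ⟨h', rfl | rfl⟩
    · rw [← map_mul]
      exact key g x hx hkx h' y hy hky
    · rw [mul_assoc, hcw, ← mul_assoc, ← map_mul, hF.fc, hF.fc]
      exact key g x hx hkx h' (κ y) hky (by rw [hkk]; exact hy)
  obtain ⟨n1, n2, n3⟩ := hF.norm hd h1 h2 h3'
  exact ⟨F, hF, ⟨⟨W', hW', hFW⟩, hF.d2 hd (by rw [hcy]; exact hz2) h3' h4⟩, n1, n2, n3, W', hW',
    hFW, hram⟩

end Pool.Agent.Work.MP_787500_nt.RQ
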