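import Mathlib
import Pool.Agent.Work.MP_787500_nt.RQ.Basic
import Pool.Agent.Work.MP_787500_nt.GP.T01_A0

/-!
# Module INJ (size S-M): a smooth cochain whose coboundary is smooth for a smaller system

`inj_sm1`: let `W₁ ∈ S` with `d1 x` constant on the cosets of `W₁`. `x` takes finitely many values (`KR.sm1_fin` in `KR/T03.lean`), so there is `n` with
`u • x g = x g` for all `g` and all `u ≡ 1` modulo `2 ^ n` (`GP.a0_killed`). Let `W₀ ∈ S` with `2 ^ n ∣ χ w - 1` for `w ∈ W₀` (`hχ.cont n` at `g = 1`), and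
`W₂ = W₁ ⊓ W₀ ∈ S`, `y w = x w - x 1`. For `w ∈ W₁`: `d1 x g w = d1 x g 1` gives `x (g w) = x g + χ g • y w` (*), and for `w ∈ W₂`: `d1 x w g = d1 x 1 g` gives
`x (w g) = x g + y w` (**). So `y` is additive on `W₂`, and for `w ∈ W₂`, `w' = g w g⁻¹`: `x (w' g) = x g + y w'` and `x (g w) = x g + χ g • y w` give
`y (g w g⁻¹) = χ g • y w`. `W₃ = {w ∈ W₂ | y w = 0}` is a normal subgroup, contains `W ⊓ W₂` (`W ∈ F` with `x` constant on its cosets; take `V = W ⊓ W₂ ∈ F` by `h.sub`,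
`F.inf`), and its relative index in `W₂` is the cardinality of the image of `y : W₂ → A0`, a finite subgroup of a group in which every element is killed by a power of 2: a
power of 2 (e.g. all of `y` is killed by `2 ^ k`, so `W₂ / W₃` is a finite group of exponent `2 ^ k`: `IsPGroup`, `IsPGroup.iff_card`; or by `Subgroup.relIndex` of the
kernel of the homomorphism `W₂ →* Multiplicative A0`, `Subgroup.index_ker`). So `W₃ ∈ S` by `h.clo`, and by (*) `x` is constant on its cosets.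
`inj_two`: apply `inj_sm1` to `hf ∘ x` (`d1_hf`, `GP.hf_inj`).
`clo_fsys`: `Subgroup.relIndex_mul_index`; the finite set comes from `V`.
-/

set_option autoImplicit false
set_option linter.unusedSectionVars false

namespace Pool.Agent.Work.MP_787500_nt.RQ

open NumberField
open Pool.Agent.Work.MP_787500_nt.GP (A0 hf IsAct d0 d1 d2 tw iota)
open Pool.Agent.Work.MP_787500_nt.PA (TwoSys)
open Pool.Agent.Work.MP_787500_nt.KR (FSys ofTwo)
open Pool.Agent.Work.MP_787500_nt.HP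

universe u

theorem inj_sm1 {G : Type*} [Group G] {S F : FSys G} (h : Clo S F) {χ : G → ℤ_[2]}
    (hχ : KR.IsChar S χ) {x : G → A0} (hx : KR.Sm1 F x) (h2 : KR.Sm2 S (d1 (tw χ) x)) :
    KR.Sm1 S x := by
  obtain ⟨W1, hW1, h3⟩ := h2
  have hfin := KR.sm1_fin hx
  have hfin' : Finite (Set.range x) := hfin
  obtain ⟨k, hk0, hk⟩ := GP.a0_killed (fun t : Set.range x => (t : A0))
  obtain ⟨W0, hW0, h4⟩ := hχ.cont k
  have hW2 : S.mem (W1 ⊓ W0) := S.inf hW1 hW0
  have hN2 := S.normal hW2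
  have s1 : ∀ g, ∀ w ∈ W1, x (g * w) = x g + χ g • (x w - x 1) := by
    intro g w hw
    have e := h3 g 1 1 W1.one_mem w hw
    simp only [d1, tw, mul_one, one_mul] at e
    rw [smul_sub]
    have e1 : x (g * w) = x g + χ g • x w - (x g + χ g • x w - x (g * w)) := by abel
    rw [e1, e]
    abel
  have s2 : ∀ w ∈ W1 ⊓ W0, ∀ g, x (w * g) = x g + (x w - x 1) := by
    intro w hw g
    have e := h3 1 g w hw.1 1 W1.one_mem
    have e2 := h4 1 w hw.2
    rw [one_mul, hχ.one] at e2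
    have e3 : χ w • x g = x g := hk (χ w) e2 ⟨x g, ⟨g, rfl⟩⟩
    simp only [d1, tw, mul_one, one_mul, hχ.one, one_smul, e3] at e
    have e1 : x (w * g) = x w + x g - (x w + x g - x (w * g)) := by abel
    rw [e1, e]
    abel
  let W3 : Subgroup G :=
    { carrier := {w | w ∈ W1 ⊓ W0 ∧ x w - x 1 = 0}
      one_mem' := ⟨(W1 ⊓ W0).one_mem, sub_self _⟩
      mul_mem' := by
        rintro a b ⟨ha, ha'⟩ ⟨hb, hb'⟩
        refine ⟨(W1 ⊓ W0).mul_mem ha hb, ?_⟩
        rw [s2 a ha b, ha', add_zero, hb']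
      inv_mem' := by
        rintro a ⟨ha, ha'⟩
        refine ⟨(W1 ⊓ W0).inv_mem ha, ?_⟩
        have e := s2 a ha a⁻¹
        rw [mul_inv_cancel, ha', add_zero] at e
        rw [← e, sub_self] }
  have hmem3 : ∀ w, w ∈ W3 ↔ w ∈ W1 ⊓ W0 ∧ x w - x 1 = 0 := fun w => Iff.rfl
  have hle : W3 ≤ W1 ⊓ W0 := fun w hw => hw.1
  have hconj : ∀ w ∈ W1 ⊓ W0, ∀ g, x (g * w * g⁻¹) - x 1 = χ g • (x w - x 1) := by
    intro w hw g
    have hw' := hN2.conj_mem w hw g
    have e1 := s2 _ hw' g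
    have e2 := s1 g w hw.1
    have e3 : g * w * g⁻¹ * g = g * w := by group
    rw [e3, e2] at e1
    exact (add_left_cancel e1).symm
  have hnorm : W3.Normal := by
    refine ⟨fun w hw g => ?_⟩
    refine (hmem3 _).2 ⟨hN2.conj_mem w hw.1 g, ?_⟩
    rw [hconj w hw.1 g, hw.2, smul_zero]
  have hrel : ∃ j : ℕ, W3.relIndex (W1 ⊓ W0) = 2 ^ j := by
    let φ : (W1 ⊓ W0 : Subgroup G) →* Multiplicative A0 :=
      { toFun := fun w => Multiplicative.ofAdd (x w - x 1)
        map_one' := by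
          simp
        map_mul' := by
          intro a b
          rw [← ofAdd_add]
          congr 1
          rw [Subgroup.coe_mul, s2 a a.2 b]
          abel }
    have hφ : φ.ker = W3.subgroupOf (W1 ⊓ W0) := by
      ext w
      rw [MonoidHom.mem_ker, Subgroup.mem_subgroupOf, hmem3]
      constructor
      · intro h
        exact ⟨w.2, h⟩
      · intro h
        exact h.2
    have hr : W3.relIndex (W1 ⊓ W0) = Nat.card φ.range := by
      rw [Subgroup.relIndex, ← hφ, Subgroup.index_ker]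
    rw [hr]
    have hrf : Finite φ.range := by
      have hs : (Set.range φ).Finite := by
        refine (hfin.image (fun t => Multiplicative.ofAdd (t - x 1))).subset ?_
        rintro _ ⟨w, rfl⟩
        exact ⟨x w, ⟨w, rfl⟩, rfl⟩
      have : (φ.range : Set (Multiplicative A0)) = Set.range φ := MonoidHom.coe_range φ
      rw [← this] at hs
      exact hs
    have hp : IsPGroup 2 φ.range := by
      rintro ⟨_, w, rfl⟩
      refine ⟨k, ?_⟩
      apply Subtype.ext
      show (φ w) ^ (2 ^ k) = 1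
      have e : (2 ^ k) • (x w - x 1) = 0 := by
        rw [smul_sub]
        have a1 := hk0 ⟨x w, ⟨w, rfl⟩⟩
        have a2 := hk0 ⟨x 1, ⟨1, rfl⟩⟩
        simp only at a1 a2
        rw [a1, a2, sub_zero]
      have e2 : (φ w) ^ (2 ^ k) = Multiplicative.ofAdd ((2 ^ k) • (x w - x 1)) := rfl
      rw [e2, e, ofAdd_zero]
    have : Fact (Nat.Prime 2) := ⟨Nat.prime_two⟩
    exact IsPGroup.iff_card.1 hp
  have hV : ∃ V, F.mem V ∧ V ≤ W3 := by
    obtain ⟨W, hW, hxW⟩ := hx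
    refine ⟨W ⊓ (W1 ⊓ W0), F.inf hW (h.sub _ hW2), fun w hw => (hmem3 _).2 ⟨hw.2, ?_⟩⟩
    have e := hxW 1 w hw.1
    rw [one_mul] at e
    rw [e, sub_self]
  refine ⟨W3, h.clo _ W3 hW2 hle hnorm hrel hV, fun g w hw => ?_⟩
  rw [s1 g w hw.1.1, hw.2, smul_zero, add_zero]

theorem inj_two {G : Type*} [Group G] {S F : FSys G} (h : Clo S F) {χ : G → ℤ_[2]}
    (hχ : KR.IsChar S χ) {x : G → ZMod 2} (hx : KR.Sm1 F x)
    (h2 : KR.Sm2 S (fun a b => x a + x b + x (a * b))) : KR.Sm1 S x := by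
  have h3 : KR.Sm1 S (fun g => hf (x g)) := by
    refine inj_sm1 h hχ (sm1_comp hx hf) ?_
    obtain ⟨W, hW, h4⟩ := h2
    refine ⟨W, hW, fun g k w hw w' hw' => ?_⟩
    rw [d1_hf hχ, d1_hf hχ]
    congr 1
    exact h4 g k w hw w' hw'
  obtain ⟨W, hW, h4⟩ := h3
  exact ⟨W, hW, fun g w hw => GP.hf_inj (h4 g w hw)⟩

theorem clo_fsys {Ω : Type u} [Field Ω] (C : Subgroup (Ω ≃+* Ω)) :
    Clo (ofTwo (fsys C)) (lfull C) where
  sub := by
    rintro W ⟨h1, h2, k, h3⟩
    refine ⟨h1, h2, ?_⟩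
    rw [h3]
    positivity
  clo := by
    rintro W W' ⟨h1, h2, k, h3⟩ hle hn ⟨j, hj⟩ ⟨V, ⟨⟨s, hs⟩, -, -⟩, hV⟩
    refine ⟨⟨s, fun g hg => hV (hs g hg)⟩, hn, j + k, ?_⟩
    rw [← Subgroup.relIndex_mul_index hle, hj, h3, pow_add]

end Pool.Agent.Work.MP_787500_nt.RQ
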