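import Mathlib
import Pool.Agent.Work.MP_787500_nt.RQ.Big
import Pool.Agent.Work.MP_787500_nt.RQ.Inj
import Pool.Agent.Work.MP_787500_nt.GA.CountsF
import Pool.Agent.Work.MP_787500_nt.HP.KSum

/-!
Local invariants for a system of subgroups of 2-power index and a larger system: general form, isomorphic
groups, the systems `big F N`.
-/

set_option autoImplicit false
set_option linter.unusedSectionVars false

namespace Pool.Agent.Work.MP_787500_nt.RQ

open NumberField
open Pool.Agent.Work.MP_787500_nt.GP (A0 hf IsAct d0 d1 d2 tw iota GoodT sysT subSys inT stabD)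
open Pool.Agent.Work.MP_787500_nt.PA (TwoSys cyc homs)
open Pool.Agent.Work.MP_787500_nt.KR (FSys ofTwo big two fullK fullD fullC fullQ)
open Pool.Agent.Work.MP_787500_nt.HP

universe u

/-- `inv` is the invariant for the system `S₂` of subgroups of 2-power index, `invF` its extension to the
system `S`. -/
structure LocX {G : Type*} [Group G] (S₂ : TwoSys G) (S : FSys G) (χ : G → ℤ_[2])
    (inv invF : (G → G → A0) → A0) : Prop where
  loc₂ : GP.LocH S₂ χ inv
  loc : KR.LocH S χ invF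
  ext : ∀ f, GP.Z2 S₂ (tw χ) f → invF f = inv f
  le : ∀ f, KR.Z2 S (tw χ) f → ∃ x : G → A0, KR.Sm1 S x ∧
    GP.Z2 S₂ (tw χ) (fun a b => f a b - d1 (tw χ) x a b)
  ker : ∀ f, KR.Z2 S (tw χ) f → invF f = 0 → KR.B2 S (tw χ) f
  one : ∀ f, KR.Coc S f → invF (fun a b => hf (f a b)) = 0 → KR.Cob S f

theorem LocF.locX {Ω : Type u} [Field Ω] {D : Subgroup (Ω ≃+* Ω)} {inv invF : (D → D → A0) → A0}
    (h : LocF D inv invF) (h₂ : GP.LocH (fsys D) (fun d : D => cyQ (d : Ω ≃+* Ω)) inv) :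
    LocX (fsys D) (lfull D) (fun d : D => cyQ (d : Ω ≃+* Ω)) inv invF :=
  ⟨h₂, h.loc, h.ext, h.le, h.ker, h.one⟩

section iso

variable {G H : Type*} [Group G] [Group H] {S : FSys G} {S' : FSys H} (e : G ≃* H)

theorem jsm_iso (h : ∀ W : Subgroup H, S'.mem W → S.mem (W.comap (e : G →* H))) (W : Subgroup H)
    (hW : S'.mem W) : ∃ W', S.mem W' ∧ ∀ w ∈ W', (e : G →* H) w ∈ W :=
  ⟨_, h W hW, fun _ hw => hw⟩

theorem iso_symm (h : ∀ W : Subgroup H, S.mem (W.comap (e : G →* H)) → S'.mem W) (W : Subgroup G)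
    (hW : S.mem W) : S'.mem (W.comap (e.symm : H →* G)) := by
  apply h
  have e1 : (W.comap (e.symm : H →* G)).comap (e : G →* H) = W := by
    ext g
    simp [Subgroup.mem_comap]
  rw [e1]
  exact hW

theorem z2_iso (h : ∀ W : Subgroup H, S'.mem W → S.mem (W.comap (e : G →* H))) {χ : H → ℤ_[2]}
    {f : H → H → A0} (hf : KR.Z2 S' (tw χ) f) :
    KR.Z2 S (tw fun g => χ (e g)) (fun a b => f (e a) (e b)) :=
  KR.Z2.comp (j := (e : G →* H)) (jsm_iso e h) hf

theorem sm1_isoF (h : ∀ W : Subgroup H, S'.mem W → S.mem (W.comap (e : G →* H))) {A : Type*}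
    {x : H → A} (hx : KR.Sm1 S' x) : KR.Sm1 S (fun a => x (e a)) :=
  KR.Sm1.comp (j := (e : G →* H)) (jsm_iso e h) hx

theorem d1_iso {χ : H → ℤ_[2]} (x : H → A0) (a b : G) :
    d1 (tw χ) x (e a) (e b) = d1 (tw fun g => χ (e g)) (fun a => x (e a)) a b := by
  show x (e a) + χ (e a) • x (e b) - x (e a * e b) = x (e a) + χ (e a) • x (e b) - x (e (a * b))
  rw [map_mul]

/-- isomorphic groups -/
theorem LocX.iso {S₂ : TwoSys G} {S₂' : TwoSys H}
    (h₂ : ∀ W : Subgroup H, S₂.mem (W.comap (e : G →* H)) ↔ S₂'.mem W)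
    (h : ∀ W : Subgroup H, S.mem (W.comap (e : G →* H)) ↔ S'.mem W) {χ : H → ℤ_[2]}
    {inv invF : (G → G → A0) → A0} (H' : LocX S₂ S (fun g => χ (e g)) inv invF) :
    LocX S₂' S' χ (fun f => inv fun a b => f (e a) (e b))
      (fun f => invF fun a b => f (e a) (e b)) := by
  have h' := iso_symm e fun W => (h W).1
  have h₂' : ∀ W : Subgroup G, S₂.mem W → S₂'.mem (W.comap (e.symm : H →* G)) :=
    iso_symm (S := ofTwo S₂) (S' := ofTwo S₂') e fun W => (h₂ W).1
  have hχ : (fun a => (fun g => χ (e g)) (e.symm a)) = χ := by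
    funext a
    show χ (e (e.symm a)) = χ a
    rw [e.apply_symm_apply]
  have back : ∀ {f : H → H → A0}, (fun a b => (fun a b => f (e a) (e b)) (e.symm a) (e.symm b)) = f := by
    intro f
    funext a b
    show f (e (e.symm a)) (e (e.symm b)) = f a b
    rw [e.apply_symm_apply, e.apply_symm_apply]
  have backS : ∀ {x : G → A0}, KR.Sm1 S x → KR.Sm1 S' (fun a => x (e.symm a)) := fun hx =>
    sm1_isoF e.symm h' hx
  have dback : ∀ (x : G → A0), (fun a b => d1 (tw χ) (fun a => x (e.symm a)) (e a) (e b)) =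
      d1 (tw fun g => χ (e g)) x := by
    intro x
    funext a b
    rw [d1_iso]
    simp only [e.symm_apply_apply]
  refine ⟨?_, ⟨?_, ?_, ?_⟩, ?_, ?_, ?_, ?_⟩
  · have h3 : ∀ W : Subgroup G, S₂'.mem (W.comap (e.symm : H →* G)) ↔ S₂.mem W := by
      intro W
      rw [← h₂]
      have e1 : (W.comap (e.symm : H →* G)).comap (e : G →* H) = W := by
        ext g
        simp [Subgroup.mem_comap]
      rw [e1]
    have h4 := locH_iso e.symm h3 H'.loc₂
    have h5 : (fun d : H => (fun g => χ (e g)) (e.symm d)) = χ := hχ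
    rw [h5] at h4
    exact h4
  · have h3 := H'.loc.char
    refine ⟨?_, fun a b => ?_, fun n => ?_, fun a => ?_⟩
    · have := h3.one
      rwa [map_one] at this
    · have := h3.mul (e.symm a) (e.symm b)
      simpa using this
    · obtain ⟨W, hW, h4⟩ := h3.cont n
      refine ⟨_, h' W hW, fun g w hw => ?_⟩
      have := h4 (e.symm g) (e.symm w) hw
      simpa using this
    · have := h3.odd (e.symm a)
      simpa using this
  · intro f f' hf hf'
    exact H'.loc.add _ _ (z2_iso e (fun W => (h W).2) hf) (z2_iso e (fun W => (h W).2) hf')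
  · intro z hz
    have h3 : (fun a b => d1 (tw χ) z (e a) (e b)) = d1 (tw fun g => χ (e g)) (fun a => z (e a)) := by
      funext a b
      exact d1_iso e z a b
    beta_reduce
    rw [h3]
    exact H'.loc.cob _ (sm1_isoF e (fun W => (h W).2) hz)
  · intro f hf
    exact H'.ext _ (z2_iso (S := ofTwo S₂) (S' := ofTwo S₂') e (fun W => (h₂ W).2) hf)
  · intro f hf
    obtain ⟨x, hx, h3⟩ := H'.le _ (z2_iso e (fun W => (h W).2) hf)
    refine ⟨fun a => x (e.symm a), backS hx, ?_⟩
    have h3' : KR.Z2 (ofTwo S₂) (tw fun g => χ (e g))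
        (fun a b => (fun a b => f (e a) (e b)) a b - d1 (tw fun g => χ (e g)) x a b) := h3
    have h4 := z2_iso (S := ofTwo S₂') (S' := ofTwo S₂) e.symm h₂' (χ := fun g => χ (e g)) h3'
    have h5 : (tw fun g => (fun g => χ (e g)) (e.symm g)) = tw χ := by rw [hχ]
    rw [h5] at h4
    have h6 : (fun a b => (fun a b => (fun a b => f (e a) (e b)) a b -
        d1 (tw fun g => χ (e g)) x a b) (e.symm a) (e.symm b)) =
        fun a b => f a b - d1 (tw χ) (fun a => x (e.symm a)) a b := by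
      funext a b
      have h7 := congrFun (congrFun (dback x) (e.symm a)) (e.symm b)
      simp only [e.apply_symm_apply] at h7 ⊢
      rw [h7]
    rw [← h6]
    exact h4
  · intro f hf h0
    obtain ⟨x, hx, h3⟩ := H'.ker _ (z2_iso e (fun W => (h W).2) hf) h0
    refine ⟨fun a => x (e.symm a), backS hx, ?_⟩
    funext a b
    have h4 := congrFun (congrFun h3 (e.symm a)) (e.symm b)
    have h7 := congrFun (congrFun (dback x) (e.symm a)) (e.symm b)
    simp only [e.apply_symm_apply] at h4 h7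
    rw [h4, h7]
  · intro f hf h0
    have hc : KR.Coc S (fun a b => f (e a) (e b)) := by
      refine ⟨KR.Sm2.comp (j := (e : G →* H)) (jsm_iso e fun W => (h W).2) hf.1, fun a b c => ?_⟩
      have := hf.2 (e a) (e b) (e c)
      rwa [← map_mul, ← map_mul] at this
    obtain ⟨x, hx, h3⟩ := H'.one _ hc h0
    refine ⟨fun a => x (e.symm a), sm1_isoF e.symm h' hx, fun a b => ?_⟩
    have h4 := h3 (e.symm a) (e.symm b)
    simp only [e.apply_symm_apply] at h4
    rw [h4]
    beta_reduce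
    rw [map_mul]

end iso

section bigsys

variable {G : Type*} [Group G] {S₂ : TwoSys G} {S : FSys G} {χ : G → ℤ_[2]}
  {inv invF : (G → G → A0) → A0}

theorem LocX.locH_big (H : LocX S₂ S χ inv invF) (hup : Up S) (N : Subgroup G) :
    KR.LocH (big S N) χ invF :=
  ⟨char_big H.loc.char N, fun f f' hf hf' => H.loc.add f f' ((clo_big hup N).fin.z2 hf)
    ((clo_big hup N).fin.z2 hf'), fun z hz => H.loc.cob z ((clo_big hup N).fin.sm1 hz)⟩

/-- a class modulo 2 with nonzero invariant -/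
theorem LocX.ex (H : LocX S₂ S χ inv invF) (N : Subgroup G) (hS : two S = S₂)
    (h : Module.finrank (ZMod 2) (homs S₂ ⊤) ≠ 0) :
    ∃ α, KR.Coc (big S N) α ∧ invF (fun a b => hf (α a b)) ≠ 0 := by
  have hfin := H.loc₂.fin
  have hnt : ∃ ψ ∈ homs S₂ (⊤ : Subgroup G), ψ ≠ 0 := by
    by_contra hcon
    push Not at hcon
    apply h
    have : homs S₂ (⊤ : Subgroup G) = ⊥ := (Submodule.eq_bot_iff _).2 hcon
    rw [this, finrank_bot]
  obtain ⟨ψ, hψ, h0⟩ := hnt
  obtain ⟨φ, hφ, h1⟩ : ∃ φ ∈ homs S₂ (⊤ : Subgroup G), inv (fun a b => hf (ψ a * φ b)) ≠ 0 := by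
    by_contra hcon
    push Not at hcon
    exact h0 (H.loc₂.nondeg ψ hψ hcon)
  have hadd : ∀ {ψ : G → ZMod 2}, ψ ∈ homs S₂ (⊤ : Subgroup G) → ∀ a b, ψ (a * b) = ψ a + ψ b :=
    fun hψ a b => hψ.2.2 a trivial b trivial
  have hc : KR.Coc (ofTwo S₂) (fun a b => ψ a * φ b) := by
    obtain ⟨W, hW, h2⟩ := hψ.1
    obtain ⟨W', hW', h3⟩ := hφ.1
    refine ⟨⟨W ⊓ W', (ofTwo S₂).inf hW hW', fun g k w hw w' hw' => ?_⟩, fun a b c => ?_⟩
    · beta_reduce
      rw [h2 g w hw.1, h3 k w' hw'.2]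
    · beta_reduce
      rw [hadd hψ, hadd hφ]
      ring
  have hc' : KR.Coc (ofTwo (two S)) (fun a b => ψ a * φ b) := by rwa [hS]
  refine ⟨fun a b => ψ a * φ b, (fin_two N).coc hc', ?_⟩
  have hz := coc_hf (char_ofTwo H.loc₂.char) hc
  have hz' : GP.Z2 S₂ (tw χ) (fun a b => hf (ψ a * φ b)) := hz
  have h3 := H.ext _ hz'
  beta_reduce
  rw [h3]
  exact h1

/-- a class modulo 2 for the system `big S N` whose invariant is 0 is trivial -/
theorem LocX.one_big (H : LocX S₂ S χ inv invF) (hup : Up S) (N : Subgroup G)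
    {f : G → G → ZMod 2} (hf2 : KR.Coc (big S N) f) (h0 : invF (fun a b => hf (f a b)) = 0) :
    KR.Cob (big S N) f := by
  obtain ⟨x, hx, h1⟩ := H.one f ((clo_big hup N).fin.coc hf2) h0
  refine ⟨x, inj_two (clo_big hup N) (char_big H.loc.char N) hx ?_, h1⟩
  have e : (fun a b => x a + x b + x (a * b)) = f := by
    funext a b
    exact (h1 a b).symm
  rw [e]
  exact hf2.1

theorem LocX.ker_big (H : LocX S₂ S χ inv invF) (hup : Up S) (N : Subgroup G)
    {f : G → G → A0} (hf2 : KR.Z2 (big S N) (tw χ) f) (h0 : invF f = 0) :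
    KR.B2 (big S N) (tw χ) f := by
  obtain ⟨x, hx, h1⟩ := H.ker f ((clo_big hup N).fin.z2 hf2) h0
  refine ⟨x, inj_sm1 (clo_big hup N) (char_big H.loc.char N) hx ?_, h1⟩
  rw [← h1]
  exact hf2.1

end bigsys

section emb

variable {Ω : Type u} [Field Ω] {K : Type u} [Field K] [NumberField K]
  (α : AlgebraicClosure K ≃+* Ω)

/-- the elements of the decomposition group over `K` as elements of the decomposition group over `ℚ` -/
noncomputable def embS (Q : Ideal (𝓞 Ω)) : stabD (pb α Q) →* stb Q :=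
  ((emb α).comp (stabD (pb α Q)).subtype).codRestrict (stb Q) fun a => (emb_stb α).2 a.2

theorem embS_coe (Q : Ideal (𝓞 Ω)) (a : stabD (pb α Q)) :
    ((embS α Q a : stb Q) : Ω ≃+* Ω) = emb α (a : AbsGal K) := rfl

/-- the invariants over `K` at a prime whose decomposition group fixes `K` -/
theorem LocX.emb {Q : Ideal (𝓞 Ω)} {inv invF : (stb Q → stb Q → A0) → A0}
    (H : LocX (fsys (stb Q)) (lfull (stb Q)) (fun d : stb Q => cyQ (d : Ω ≃+* Ω)) inv invF)
    (e : stb Q ≃* stabD (pb α Q)) (he : ∀ g, HP.emb α (e g) = (g : Ω ≃+* Ω)) :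
    LocX (subSys (stabD (pb α Q))) (fullD (stabD (pb α Q)))
      (fun d : stabD (pb α Q) => cyc (d : AbsGal K))
      (fun f => inv fun a b => f (e a) (e b)) (fun f => invF fun a b => f (e a) (e b)) := by
  refine LocX.iso e (fun W => fsys_iso α e he W) (fun W => GA.fullC_iso α e he W) ?_
  have h1 : (fun g : stb Q => cyc ((e g : stabD (pb α Q)) : AbsGal K)) =
      fun d : stb Q => cyQ (d : Ω ≃+* Ω) := by
    funext g
    rw [← cyQ_emb α, he]
  rw [h1]
  exact H

end emb

end Pool.Agent.Work.MP_787500_nt.RQ
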