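import Mathlib
import Pool.Agent.Work.MP_787500_nt.RQ.Basic
import Pool.Agent.Work.MP_787500_nt.HP.Rec0
import Pool.Agent.Work.MP_787500_nt.HP.FieldQ
import Pool.Agent.Work.MP_787500_nt.HP.EmbGood

/-!
# Module KUMQ (size M): the Kummer cocycle of an odd prime number

`α : AlgebraicClosure ℚ ≃+* Ω` (`IsAlgClosure.equiv`; see `HP/FieldQ.lean`), `emb α` bijective (`emb_inj`, `emb_iff`). In `HP/Rec0.lean` (`r0_nat`, private; copy it) there are `r`,
`b₀ : AbsGal ℚ → ℤ_[2]` with `GP.IsKum r b₀`, `r 0 = l`. The cocycle relation and the continuity of `b₀` for the system `sysT ℚ {l}` are in `GP/K2_KumZ.lean` / `HP/Rec0.lean`,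
`GP/B3_Rec.lean` (search `IsKum` in the folder `GP`: lemmas on `coc`, `c1`; they may need `InMT`, `UT`, i.e. that the roots of `l` are unramified outside 2 and `l`).
Put `b g = b₀ ((emb α)⁻¹ g)`. `C1 (qsys Ω {l})`: a member `W₀` of `sysT ℚ {l}` corresponds to the member `W₀.map (emb α)` of `qsys Ω {l}` (open: `OpnQ`; see `good_map` in
`HP/ExtK.lean` for the pattern; inertia groups: `emb_inr`, `exists_pb`). The last property: `x = α (r 1)` satisfies `x ^ 2 = l`, so `g x = -x`; `act` with `k = 1`: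
`(emb α)⁻¹ g (r 1) = zp ℚ 1 (b g) * r 1`, so `zp ℚ 1 (b g) = -1`, so `b g` is odd (`zt_one`), a unit.
-/

set_option autoImplicit false
set_option linter.unusedSectionVars false

namespace Pool.Agent.Work.MP_787500_nt.RQ

open NumberField
open Pool.Agent.Work.MP_787500_nt.GP (A0 hf IsAct d0 d1 d2 tw iota)
open Pool.Agent.Work.MP_787500_nt.PA (TwoSys)
open Pool.Agent.Work.MP_787500_nt.KR (FSys ofTwo)
open Pool.Agent.Work.MP_787500_nt.HP

universe u

private theorem kq_alpha (F : Type*) [Field F] [NumberField F] {Ω : Type*} [Field Ω] [CharZero Ω]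
    [IsAlgClosed Ω] [Algebra F Ω] (halg : Alg Ω) : Nonempty (AlgebraicClosure F ≃+* Ω) := by
  have hZ : Algebra.IsAlgebraic ℤ Ω := by
    refine ⟨fun x => ?_⟩
    obtain ⟨p, hp, hpx⟩ := halg x
    refine ⟨p, hp, ?_⟩
    rw [Polynomial.aeval_def]
    exact hpx
  have hcl : IsAlgClosure F Ω := by
    refine ⟨inferInstance, ⟨fun x => ?_⟩⟩
    have h1 : IsAlgebraic ℚ x :=
      (IsFractionRing.isAlgebraic_iff ℤ ℚ Ω).1 (hZ.isAlgebraic x)
    exact h1.tower_top _
  exact ⟨(IsAlgClosure.equiv F (AlgebraicClosure F) Ω).toRingEquiv⟩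

/-- finitely many elements from an open subgroup -/
private theorem kq_fix {F : Type*} [Field F] [NumberField F] {W : Subgroup (AbsGal F)}
    (hW : IsOpen (W : Set (AbsGal F))) :
    ∃ s : Finset (AlgebraicClosure F), ∀ σ : AbsGal F, (∀ x ∈ s, σ x = x) → σ ∈ W := by
  classical
  obtain ⟨E, hE, h⟩ := (krullTopology_mem_nhds_one_iff F (AlgebraicClosure F) _).1
    (hW.mem_nhds W.one_mem)
  have hfd : FiniteDimensional F E := hE
  let b := Module.finBasis F E
  refine ⟨Finset.univ.image fun i => (b i : AlgebraicClosure F), fun σ hσ => h ?_⟩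
  rw [SetLike.mem_coe, IntermediateField.mem_fixingSubgroup_iff]
  intro x hx
  have h1 := congrArg (fun y : E => (y : AlgebraicClosure F)) (b.sum_repr ⟨x, hx⟩)
  have h2 : ∑ i, algebraMap F (AlgebraicClosure F) (b.repr ⟨x, hx⟩ i) *
      (b i : AlgebraicClosure F) = x := by
    refine Eq.trans ?_ h1
    simp only [IntermediateField.coe_sum, Algebra.smul_def]
    rfl
  have h3 : ∀ i, σ (b i : AlgebraicClosure F) = b i := fun i =>
    hσ _ (Finset.mem_image_of_mem _ (Finset.mem_univ i))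
  have h4 : ∀ a : F, σ (algebraMap F (AlgebraicClosure F) a) =
      algebraMap F (AlgebraicClosure F) a := fun a => AlgEquiv.commutes σ a
  rw [← h2, map_sum]
  refine Finset.sum_congr rfl fun i _ => ?_
  rw [map_mul, h3, h4]

theorem exists_kumQ {Ω : Type u} [Field Ω] [CharZero Ω] [IsAlgClosed Ω] (halg : Alg Ω) {l : ℕ}
    (hl : l.Prime) (h2 : l ≠ 2) : ∃ b : (Ω ≃+* Ω) → ℤ_[2], PA.C1 (qsys Ω {l}) b ∧
      (∀ g h, b (g * h) = b g + cyQ g * b h) ∧
      ∀ g, (∀ x : Ω, x ^ 2 = (l : Ω) → g x = -x) → IsUnit (b g) := by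
  classical
  obtain ⟨α⟩ := kq_alpha ℚ halg
  have hsurj : Function.Surjective (emb α) := by
    intro g
    refine (emb_iff α g).2 fun x => ?_
    rw [eq_ratCast, map_ratCast, map_ratCast]
  let β : AbsGal ℚ ≃* (Ω ≃+* Ω) := MulEquiv.ofBijective (emb α) ⟨emb_inj α, hsurj⟩
  have hβ : ∀ σ, β σ = emb α σ := fun σ => rfl
  have hβs : ∀ σ, β.symm (emb α σ) = σ := fun σ => β.symm_apply_apply σ
  obtain ⟨r, h0, hr⟩ := GP.exists_roots (l : AlgebraicClosure ℚ)
  have hl0 : (l : AlgebraicClosure ℚ) ≠ 0 := Nat.cast_ne_zero.2 hl.ne_zero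
  obtain ⟨b, hb⟩ := GP.exists_isKum (r := r) (by rw [h0]; exact hl0)
    (fun g => by rw [h0, map_natCast]) hr
  have hUT : GP.UT {l} (r 0) := by
    refine ⟨by rw [h0]; exact hl0, fun Q hQ _ hlQ => ⟨(l : 𝓞 (AlgebraicClosure ℚ)), 1,
      hlQ l (Finset.mem_singleton_self l), fun h => hQ.ne_top ((Ideal.eq_top_iff_one _).2 h), ?_⟩⟩
    rw [h0]
    push_cast
    rw [mul_one]
  have hc1 := hb.c1 hUT
  refine ⟨fun g => b (β.symm g), fun n => ?_, fun g h => ?_, fun g hg => ?_⟩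
  · obtain ⟨W, hW, h1⟩ := hc1 n
    have hWG : GP.GoodT ℚ {l} W := hW
    refine ⟨W.map (emb α), ⟨⟨?_, ?_, ?_⟩, ?_⟩, ?_⟩
    · obtain ⟨s₀, hs₀⟩ := kq_fix hWG.isOpen
      refine ⟨s₀.image α, fun g hg => ?_⟩
      obtain ⟨σ, rfl⟩ := hsurj g
      refine ⟨σ, hs₀ σ fun x hx => ?_, rfl⟩
      have h3 := hg (α x) (Finset.mem_image_of_mem _ hx)
      rw [emb_apply, α.symm_apply_apply] at h3
      exact α.injective h3
    · exact Subgroup.Normal.map hWG.normal (emb α) hsurj
    · obtain ⟨k, hk⟩ := GP.goodG_index hWG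
      refine ⟨k, ?_⟩
      rw [← hk]
      exact Subgroup.index_map_of_bijective ⟨emb_inj α, hsurj⟩ W
    · intro Q hQ hQ2 hQl g hg
      obtain ⟨σ, rfl⟩ := hsurj g
      refine ⟨σ, hWG.inertia σ ⟨pb α Q, pb_prime α hQ, fun h => hQ2 ?_, fun l' hl' h => ?_,
        (emb_inr α).1 hg⟩, rfl⟩
      · have h3 := (pb_nat α (Q := Q) 2).1
        rw [Nat.cast_ofNat, Nat.cast_ofNat] at h3
        exact h3 h
      · rw [Finset.mem_singleton] at hl'
        subst hl'
        exact hQl _ rfl ((pb_nat α _).1 h)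
    · rintro g _ ⟨w, hw, rfl⟩
      show (2 : ℤ_[2]) ^ n ∣ b (β.symm (g * emb α w)) - b (β.symm g)
      rw [map_mul, hβs]
      exact h1 _ _ hw
  · show b (β.symm (g * h)) = b (β.symm g) + cyQ g * b (β.symm h)
    obtain ⟨σ, rfl⟩ := hsurj g
    obtain ⟨τ, rfl⟩ := hsurj h
    rw [← map_mul, hβs, hβs, hβs, cyQ_emb]
    exact hb.coc σ τ
  · obtain ⟨σ, rfl⟩ := hsurj g
    show IsUnit (b (β.symm (emb α σ)))
    rw [hβs]
    have h3 := hg (α (r 1)) (by rw [← map_pow, hr 0, h0, map_natCast])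
    rw [emb_apply, α.symm_apply_apply, ← map_neg] at h3
    have h4 := α.injective h3
    have hr1 : r 1 ≠ 0 := by
      intro h
      have h5 := hr 0
      rw [zero_add, h, zero_pow two_ne_zero, h0] at h5
      exact hl0 h5.symm
    have h5 : ¬ (2 : ℤ_[2]) ^ 1 ∣ b σ := by
      intro h
      have h6 := hb.act σ 1
      rw [GP.zp_eq_one.2 h, one_mul, h4] at h6
      have h7 : (2 : AlgebraicClosure ℚ) * r 1 = 0 := by linear_combination -h6
      exact mul_ne_zero two_ne_zero hr1 h7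
    rw [pow_one] at h5
    rw [PadicInt.isUnit_iff]
    refine le_antisymm (PadicInt.norm_le_one _) (not_lt.1 fun h => h5 ?_)
    have h6 := (PadicInt.norm_lt_one_iff_dvd (p := 2) (b σ)).1 h
    exact_mod_cast h6

end Pool.Agent.Work.MP_787500_nt.RQ
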