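import Mathlib
import Pool.Agent.Work.MP_787500_nt.RQ.KumQ
import Pool.Agent.Work.MP_787500_nt.HP.Defs
import Pool.Agent.Work.MP_787500_nt.GP.K3_Lam
import Pool.Agent.Work.MP_787500_nt.GP.G1_Iota

/-!
# Module CLS (size M): explicit classes over the rational numbers

`b` from `exists_kumQ` for `l`, `lam` with `GP.IsLam lam` (`GP/K3_Lam.lean`). For `t : A0` put `z g h = (b g * lam (cyQ h)) • t`. `lam 1 = 0` (`mul`), `lam (cyQ (g h)) = lam (cyQ g) + lam (cyQ h)`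
(`cyQ` is multiplicative with unit values), so `d2 (tw cyQ) z = 0`: `b (g h) = b g + cyQ g * b h`. Smooth for `qsys Ω T`: `2 ^ n • t = 0`; `b` and `lam ∘ cyQ` are constant modulo `2 ^ n` on the cosets
of a member (`b`: `exists_kumQ`, `qsys Ω {l}` members are members of `qsys Ω T` as `l ∈ T`; `cyQ`: `isChar_cyQ`, `IsLam.dvd`). `z g 1 = 0`, `z 1 g = 0` (`b 1 = 0`), `z c c = 0` (`lam (-1) = 0`).
At `l`: `hQ.tame l` gives `a`, `u`, `σ`, `τ`, `inv f = u • iota σ τ l f`. `cyQ τ = 1`, `cyQ σ = l` (`TameD.τχ`, `σχ`), `b (τ ^ i) = i * b τ`. So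
`iota σ τ l z = z σ τ - z (τ ^ l) σ - ∑ z (τ ^ i) τ = -(l * b τ * lam l) • t` and `b τ` is a unit (`exists_kumQ`, `τ` inverts the roots of `x ^ 2 = l`), `lam l ≠ 0` (otherwise `l = ±1` by
`IsLam.dvd` for all `n`). A nonzero 2-adic number times a unit is `2 ^ k` times a unit, so `t` can be chosen with `u • -(l * b τ * lam l) • t = t₀` (`GP.a0_div_pow`).
At `l' ≠ l`: `τ' ∈ inr (P l')`, `b` is zero on `inr (P l')` (it is in all members of `qsys Ω {l}`: `2`, `l ∉ P l'`), so `b (τ' ^ i) = 0`, `cyQ τ' = 1`, and `iota σ' τ' l' z = 0`.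
-/

set_option autoImplicit false
set_option linter.unusedSectionVars false

namespace Pool.Agent.Work.MP_787500_nt.RQ

open NumberField
open Pool.Agent.Work.MP_787500_nt.GP (A0 hf IsAct d0 d1 d2 tw iota)
open Pool.Agent.Work.MP_787500_nt.PA (TwoSys)
open Pool.Agent.Work.MP_787500_nt.KR (FSys ofTwo)
open Pool.Agent.Work.MP_787500_nt.HP

universe u

private theorem cls_unit {Ω : Type u} [Field Ω] (g : Ω ≃+* Ω) : IsUnit (cyQ g) :=
  Units.isUnit _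

private theorem cls_zero {x : ℤ_[2]} (h : ∀ n : ℕ, (2 : ℤ_[2]) ^ n ∣ x) : x = 0 := by
  rw [← PadicInt.ext_of_toZModPow]
  intro n
  rw [map_zero]
  have h1 : x ∈ RingHom.ker (PadicInt.toZModPow (p := 2) n) := by
    rw [PadicInt.ker_toZModPow, Ideal.mem_span_singleton]
    push_cast
    exact h n
  exact h1

private theorem cls_kill {n : ℕ} {t : A0} (h : (2 ^ n) • t = 0) {x : ℤ_[2]}
    (hx : (2 : ℤ_[2]) ^ n ∣ x) : x • t = 0 := by
  obtain ⟨y, rfl⟩ := hx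
  rw [mul_comm, mul_smul]
  have e2 : ((2 : ℤ_[2]) ^ n) • t = (2 ^ n) • t := by
    have : (2 : ℤ_[2]) ^ n = ((2 ^ n : ℕ) : ℤ_[2]) := by push_cast; rfl
    rw [this, Nat.cast_smul_eq_nsmul]
  rw [e2, h, smul_zero]

/-- a nonzero 2-adic integer acts surjectively -/
private theorem cls_div {w : ℤ_[2]} (hw : w ≠ 0) (t₀ : A0) : ∃ t : A0, w • t = t₀ := by
  obtain ⟨s, hs⟩ := GP.a0_div_pow w.valuation
    (((PadicInt.unitCoeff hw)⁻¹ : ℤ_[2]ˣ) • t₀)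
  refine ⟨s, ?_⟩
  have h1 := PadicInt.unitCoeff_spec hw
  have e2 : ((2 : ℤ_[2]) ^ w.valuation) • s = (2 ^ w.valuation) • s := by
    have : (2 : ℤ_[2]) ^ w.valuation = ((2 ^ w.valuation : ℕ) : ℤ_[2]) := by push_cast; rfl
    rw [this, Nat.cast_smul_eq_nsmul]
  have h2 : w = (PadicInt.unitCoeff hw : ℤ_[2]) * (2 : ℤ_[2]) ^ w.valuation := by
    conv_lhs => rw [h1]
    norm_num
  conv_lhs => rw [h2]
  rw [mul_smul, e2, hs, Units.smul_def, ← mul_smul, Units.mul_inv, one_smul]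

/-- restriction to a subgroup -/
private theorem cls_res {Ω : Type u} [Field Ω] {T : Set ℕ} (D : Subgroup (Ω ≃+* Ω))
    {z : (Ω ≃+* Ω) → (Ω ≃+* Ω) → A0} (hz : GP.Z2 (qsys Ω T) (tw cyQ) z) :
    GP.Z2 (fsys D) (tw fun d : D => cyQ (d : Ω ≃+* Ω)) (fun a b => z a b) := by
  obtain ⟨⟨W, ⟨⟨⟨s, hs⟩, hn, k, hk⟩, -⟩, h1⟩, h2⟩ := hz
  refine ⟨⟨W.subgroupOf D, ⟨⟨s, fun g hg => hs g hg⟩, inferInstance, ?_⟩,
    fun g h w hw w' hw' => h1 g h w hw w' hw'⟩, fun a b c => h2 a b c⟩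
  have h4 : (W.subgroupOf D).index ∣ W.index := Subgroup.relIndex_dvd_index_of_normal W D
  rw [hk] at h4
  obtain ⟨m, _, hm⟩ := (Nat.dvd_prime_pow Nat.prime_two).1 h4
  exact ⟨m, hm⟩

private theorem cls_coprime {R : Type*} [CommRing R] {Q : Ideal R} (hQ : Q.IsPrime) {a b : ℕ}
    (ha : (a : R) ∈ Q) (hab : Nat.Coprime a b) : (b : R) ∉ Q := by
  intro hb
  apply hQ.ne_top
  rw [Ideal.eq_top_iff_one]
  have h1 : IsCoprime (a : ℤ) (b : ℤ) := Nat.isCoprime_iff_coprime.2 hab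
  obtain ⟨u, v, huv⟩ := h1
  have h2 : ((u : ℤ) : R) * (a : R) + ((v : ℤ) : R) * (b : R) = 1 := by
    have := congrArg (fun x : ℤ => (x : R)) huv
    push_cast at this
    exact this
  rw [← h2]
  exact Q.add_mem (Q.mul_mem_left _ ha) (Q.mul_mem_left _ hb)

theorem exists_class {Ω : Type u} [Field Ω] [CharZero Ω] [IsAlgClosed Ω] (halg : Alg Ω)
    {c : Ω ≃+* Ω} (hcc : cyQ c = -1) {T : Finset ℕ} {P : ℕ → Ideal (𝓞 Ω)} (hP : IsP T P)
    {inv : ∀ w : Option T, (stb (HP.PP P w) → stb (HP.PP P w) → A0) → A0} (hQ : QDat c T P inv)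
    (l : T) (t₀ : A0) : ∃ z : (Ω ≃+* Ω) → (Ω ≃+* Ω) → A0, GP.Z2 (qsys Ω T) (tw cyQ) z ∧
      (∀ g, z g 1 = 0) ∧ (∀ g, z 1 g = 0) ∧ z c c = 0 ∧
      inv (some l) (fun a b => z a b) = t₀ ∧
      ∀ l' : T, l' ≠ l → inv (some l') (fun a b => z a b) = 0 := by
  have hlp := hP.prime l l.2
  obtain ⟨b, hbc, hbm, hbu⟩ := exists_kumQ halg hlp (hP.odd l l.2)
  obtain ⟨lam, hlam⟩ := GP.exists_lam
  have hχ := isChar_cyQ (Ω := Ω) (T : Set ℕ)
  have hb1 : b 1 = 0 := by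
    have h1 := hbm 1 1
    rw [mul_one, hχ.one, one_mul] at h1
    exact left_eq_add.1 h1
  have hbpow : ∀ g : Ω ≃+* Ω, cyQ g = 1 → ∀ i : ℕ, b (g ^ i) = i * b g ∧ cyQ (g ^ i) = 1 := by
    intro g hg i
    induction i with
    | zero =>
      rw [pow_zero, hb1, hχ.one]
      simp
    | succ i ih =>
      rw [pow_succ, hbm, ih.1, ih.2, hχ.mul, ih.2, hg]
      refine ⟨?_, one_mul 1⟩
      push_cast
      ring
  obtain ⟨a, u, σ, τ, hu, hτi, hτx, hT, hinv⟩ := hQ.tame l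
  have hτχ : cyQ (τ : Ω ≃+* Ω) = 1 := hT.τχ
  have hσχ : cyQ (σ : Ω ≃+* Ω) = ((l : ℕ) : ℤ_[2]) := hT.σχ
  have hbτ : IsUnit (b τ) := hbu τ hτx
  have hl0 : ((l : ℕ) : ℤ_[2]) ≠ 0 := Nat.cast_ne_zero.2 hlp.ne_zero
  have hodd : Odd (l : ℕ) := hlp.odd_of_ne_two (hP.odd l l.2)
  have hlam0 : lam ((l : ℕ) : ℤ_[2]) ≠ 0 := hlam.ne_zero hodd hlp.one_lt.ne'
  have hw : u * -(((l : ℕ) : ℤ_[2]) * b τ * lam ((l : ℕ) : ℤ_[2])) ≠ 0 :=
    mul_ne_zero hu.ne_zero (neg_ne_zero.2 (mul_ne_zero (mul_ne_zero hl0 hbτ.ne_zero) hlam0))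
  obtain ⟨t, ht⟩ := cls_div hw t₀
  refine ⟨fun g h => (b g * lam (cyQ h)) • t, ⟨?_, ?_⟩, ?_, ?_, ?_, ?_, ?_⟩
  · obtain ⟨n, hn⟩ := GP.a0_tors t
    obtain ⟨W, hW, h1⟩ := hbc n
    obtain ⟨W', hW', h2⟩ := hχ.cont (n + 2)
    have hWT : (qsys Ω (T : Set ℕ)).mem W := by
      refine ⟨hW.1, fun Q hQ1 hQ2 hQ3 => hW.2 Q hQ1 hQ2 fun m hm => ?_⟩
      rw [Set.mem_singleton_iff.1 hm]
      exact hQ3 _ l.2
    refine ⟨W ⊓ W', (qsys Ω (T : Set ℕ)).inf hWT hW', fun g h w hw' w' hw'' => ?_⟩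
    have e1 : (2 : ℤ_[2]) ^ n ∣ b (g * w) - b g := h1 g w hw'.1
    have e2 : (2 : ℤ_[2]) ^ n ∣ lam (cyQ (h * w')) - lam (cyQ h) :=
      hlam.sub (cls_unit _) (cls_unit _) (h2 h w' hw''.2)
    rw [← sub_eq_zero, ← sub_smul]
    refine cls_kill hn ?_
    have e3 : b (g * w) * lam (cyQ (h * w')) - b g * lam (cyQ h) =
        (b (g * w) - b g) * lam (cyQ (h * w')) + b g * (lam (cyQ (h * w')) - lam (cyQ h)) := by
      ring
    rw [e3]
    exact dvd_add (e1.mul_right _) (e2.mul_left _)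
  · intro g h k
    simp only [d2, tw]
    rw [hbm g h, hχ.mul h k, hlam.mul _ _ (cls_unit h) (cls_unit k), ← mul_smul, ← sub_smul,
      ← add_smul, ← sub_smul]
    have e : cyQ g * (b h * lam (cyQ k)) - (b g + cyQ g * b h) * lam (cyQ k) +
        b g * (lam (cyQ h) + lam (cyQ k)) - b g * lam (cyQ h) = 0 := by ring
    rw [e, zero_smul]
  · intro g
    show (b g * lam (cyQ 1)) • t = 0
    rw [hχ.one, hlam.one, mul_zero, zero_smul]
  · intro g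
    show (b 1 * lam (cyQ g)) • t = 0
    rw [hb1, zero_mul, zero_smul]
  · show (b c * lam (cyQ c)) • t = 0
    rw [hcc, hlam.neg, mul_zero, zero_smul]
  · rw [hinv]
    have e1 : iota σ τ (l : ℕ) (fun a b' : stb (P l) =>
        (b (a : Ω ≃+* Ω) * lam (cyQ (b' : Ω ≃+* Ω))) • t) =
        -((((l : ℕ) : ℤ_[2]) * b τ * lam ((l : ℕ) : ℤ_[2])) • t) := by
      simp only [iota, hτχ, hlam.one, mul_zero, zero_smul, Finset.sum_const_zero, sub_zero, zero_sub,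
        Subgroup.coe_pow, hσχ]
      rw [(hbpow τ hτχ l).1]
    refine (congrArg (fun x => u • x) e1).trans ?_
    show u • -((((l : ℕ) : ℤ_[2]) * b τ * lam ((l : ℕ) : ℤ_[2])) • t) = t₀
    rw [← neg_smul, ← mul_smul]
    exact ht
  · intro l' hl'
    obtain ⟨a', u', σ', τ', hu', hτi', hτx', hT', hinv'⟩ := hQ.tame l'
    have hτχ' : cyQ (τ' : Ω ≃+* Ω) = 1 := hT'.τχ
    have hlp' := hP.prime l' l'.2
    have hPr : (P l').IsPrime := hP.isPrime l' (Or.inl l'.2)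
    have hmem : ((l' : ℕ) : 𝓞 Ω) ∈ P l' := hP.mem l' (Or.inl l'.2)
    have h2 : (2 : 𝓞 Ω) ∉ P l' := by
      have := cls_coprime hPr hmem (b := 2)
        ((Nat.coprime_primes hlp' Nat.prime_two).2 (hP.odd l' l'.2))
      exact_mod_cast this
    have hl : ((l : ℕ) : 𝓞 Ω) ∉ P l' :=
      cls_coprime hPr hmem ((Nat.coprime_primes hlp' hlp).2 fun h => hl' (Subtype.ext h))
    have hb0 : b (τ' : Ω ≃+* Ω) = 0 := by
      refine cls_zero fun n => ?_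
      obtain ⟨W, hW, h1⟩ := hbc n
      have h3 := h1 1 τ' (hW.2 _ hPr h2 (fun m hm => by
        rw [Set.mem_singleton_iff.1 hm]
        exact hl) hτi')
      rwa [one_mul, hb1, sub_zero] at h3
    rw [hinv']
    have e1 : iota σ' τ' (l' : ℕ) (fun a b' : stb (P l') =>
        (b (a : Ω ≃+* Ω) * lam (cyQ (b' : Ω ≃+* Ω))) • t) = 0 := by
      simp only [iota, hτχ', hlam.one, mul_zero, zero_smul, Finset.sum_const_zero, sub_zero, zero_sub,
        Subgroup.coe_pow]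
      rw [(hbpow τ' hτχ' l').1, hb0, mul_zero, zero_mul, zero_smul, neg_zero]
    refine (congrArg (fun x => u' • x) e1).trans ?_
    exact smul_zero u'

/-- all invariants are surjective -/
theorem inv_surj {Ω : Type u} [Field Ω] [CharZero Ω] [IsAlgClosed Ω] (halg : Alg Ω)
    {c : Ω ≃+* Ω} (hcc : cyQ c = -1) {T : Finset ℕ} (hT : T.Nonempty) {P : ℕ → Ideal (𝓞 Ω)}
    (hP : IsP T P) {inv : ∀ w : Option T, (stb (HP.PP P w) → stb (HP.PP P w) → A0) → A0}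
    (hQ : QDat c T P inv) (w : Option T) (t : A0) :
    ∃ f, GP.Z2 (fsys (stb (HP.PP P w))) (tw fun d : stb (HP.PP P w) => cyQ (d : Ω ≃+* Ω)) f ∧
      inv w f = t := by
  cases w with
  | some l =>
    obtain ⟨z, hz, -, -, -, h1, -⟩ := exists_class halg hcc hP hQ l t
    exact ⟨_, cls_res _ hz, h1⟩
  | none =>
    obtain ⟨l, hl⟩ := hT
    obtain ⟨z, hz, h1, h2, h3, h4, h5⟩ := exists_class halg hcc hP hQ ⟨l, hl⟩ (-t)
    refine ⟨_, cls_res _ hz, ?_⟩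
    have h6 := hQ.recip z hz h1 h2 h3
    rw [Fintype.sum_option, Fintype.sum_eq_single (⟨l, hl⟩ : T) (fun l' hl' => h5 l' hl'), h4] at h6
    exact add_neg_eq_zero.1 h6

end Pool.Agent.Work.MP_787500_nt.RQ
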