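import Mathlib
import Pool.Agent.Work.MP_787500_nt.RQ.Basic
import Pool.Agent.Work.MP_787500_nt.H10_Gal
import Pool.Agent.Work.MP_787500_nt.HP.Splt
import Pool.Agent.Work.MP_787500_nt.HP.FieldQ

/-!
# Module CONJQ (size M): the condition at a prime depends only on the prime number

`exists_conj`: `Ω` is an algebraic closure of `ℚ` (`halg`): as in `HP/AboveK.lean` (`exists_smul_eq` in `H10_Gal.lean` with `F = ℚ`, for the field `Ω`; the intersections of `P` and `Q` with the integers are both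
`(l)`): `Q = σ • P`; `g = σ` as a ring automorphism: `x ∈ Q ↔ og g⁻¹ x ∈ P`, so `a ∈ stb Q ↔ g⁻¹ a g ∈ stb P`, the same for `inr`.
`conj_b2`: let `a' = g⁻¹ a g`. For a 2-cocycle `f`: `χ g • f a' b' - f a b = d1 h a b`, `h a = f g a' - f a g` (`χ = cyQ`): add the cocycle relations at `(g, a', b')`, minus `(a, g, b')`, plus `(a, b, g)`
(`g a' = a g`, `g b' = b g`). If `f = d1 x` on `stb P` then `χ g • f a' b' = χ g • x a' + χ a • (χ g • x b') - χ g • x (a' b')`, so `f|stb Q = d1 y`, `y a = χ g • x a' - h a`, smooth for `lfull (stb Q)`: if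
`x` is invariant under `W ∈ lfull (stb P)` then `a ↦ x a'` is invariant under `g W g⁻¹` (finite set: the images under `g`).
`conj_cob`: the same modulo 2.
-/

set_option autoImplicit false
set_option linter.unusedSectionVars false

namespace Pool.Agent.Work.MP_787500_nt.RQ

open NumberField
open Pool.Agent.Work.MP_787500_nt.GP (A0 hf IsAct d0 d1 d2 tw iota)
open Pool.Agent.Work.MP_787500_nt.PA (TwoSys)
open Pool.Agent.Work.MP_787500_nt.KR (FSys ofTwo)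
open Pool.Agent.Work.MP_787500_nt.HP

universe u

private theorem cq_isAlg {Ω : Type u} [Field Ω] [CharZero Ω] (h : Alg Ω) :
    Algebra.IsAlgebraic ℚ Ω := by
  refine ⟨fun x => ?_⟩
  obtain ⟨p, hp, hpx⟩ := h x
  refine ⟨p.map (Int.castRingHom ℚ), ?_, ?_⟩
  · rw [Ne, Polynomial.map_eq_zero_iff Int.cast_injective]
    exact hp
  · rw [Polynomial.aeval_def, Polynomial.eval₂_map]
    have : (algebraMap ℚ Ω).comp (Int.castRingHom ℚ) = Int.castRingHom Ω := RingHom.ext_int _ _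
    rw [this]
    exact hpx

theorem exists_conj {Ω : Type u} [Field Ω] [CharZero Ω] [IsAlgClosed Ω] (halg : Alg Ω) {l : ℕ}
    (hl : l.Prime) {P Q : Ideal (𝓞 Ω)} (hP : P.IsPrime) (hlP : (l : 𝓞 Ω) ∈ P) (hQ : Q.IsPrime)
    (hlQ : (l : 𝓞 Ω) ∈ Q) : ∃ g : Ω ≃+* Ω, (∀ a, a ∈ stb Q ↔ g⁻¹ * a * g ∈ stb P) ∧
      ∀ a, a ∈ inr Q ↔ g⁻¹ * a * g ∈ inr P := by
  have halg' : Algebra.IsAlgebraic ℚ Ω := cq_isAlg halg
  have hcl : IsAlgClosure ℚ Ω := ⟨inferInstance, halg'⟩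
  have hgal : IsGalois ℚ Ω := IsAlgClosure.isGalois ℚ Ω
  have hcomap : P.comap (algebraMap (𝓞 ℚ) (𝓞 Ω)) = Q.comap (algebraMap (𝓞 ℚ) (𝓞 Ω)) := by
    ext x
    obtain ⟨m, rfl⟩ : ∃ m : ℤ, x = (m : 𝓞 ℚ) := by
      refine ⟨Rat.ringOfIntegersEquiv x, ?_⟩
      have h3 := Rat.ringOfIntegersEquiv.symm_apply_apply x
      rw [← h3]
      simp
    rw [Ideal.mem_comap, Ideal.mem_comap, map_intCast, nat_mem hl hP hlP, nat_mem hl hQ hlQ]
  obtain ⟨σ, hσ⟩ := exists_smul_eq (F := ℚ) P Q hcomap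
  have hg : ∀ x : 𝓞 Ω, x ∈ Q ↔ og ((σ : Ω ≃+* Ω))⁻¹ x ∈ P := by
    intro x
    rw [hσ, Ideal.mem_pointwise_smul_iff_inv_smul_mem]
    have : σ⁻¹ • x = og ((σ : Ω ≃+* Ω))⁻¹ x := RingOfIntegers.ext rfl
    rw [this]
  refine ⟨(σ : Ω ≃+* Ω), ?_, ?_⟩
  · intro a
    rw [mem_stb, mem_stb]
    constructor
    · intro h y
      have h1 := hg (og (σ : Ω ≃+* Ω) y)
      rw [og_inv'] at h1
      rw [← h1, h, hg, og_mul, og_mul]
    · intro h x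
      rw [hg, h, og_mul, og_mul, og_inv, ← hg]
  · intro a
    rw [mem_inr, mem_inr]
    constructor
    · intro h y
      have h1 := (hg _).1 (h (og (σ : Ω ≃+* Ω) y))
      rw [map_sub, og_inv'] at h1
      rw [og_mul, og_mul]
      exact h1
    · intro h x
      rw [hg, map_sub]
      have h1 := h (og (σ : Ω ≃+* Ω)⁻¹ x)
      rw [og_mul, og_mul, og_inv] at h1
      exact h1

/-- conjugation as a homomorphism of decomposition groups -/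
private def cqHom {Ω : Type u} [Field Ω] {P Q : Ideal (𝓞 Ω)} (g : Ω ≃+* Ω)
    (hs : ∀ a, a ∈ stb Q ↔ g⁻¹ * a * g ∈ stb P) : stb Q →* stb P where
  toFun a := ⟨g⁻¹ * a * g, (hs a).1 a.2⟩
  map_one' := by
    apply Subtype.ext
    simp
  map_mul' a b := by
    apply Subtype.ext
    simp [mul_assoc]

private theorem cq_sm1 {Ω : Type u} [Field Ω] {P Q : Ideal (𝓞 Ω)} (g : Ω ≃+* Ω)
    (hs : ∀ a, a ∈ stb Q ↔ g⁻¹ * a * g ∈ stb P) {A : Type*} {x : stb P → A}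
    (hx : KR.Sm1 (lfull (stb P)) x) : KR.Sm1 (lfull (stb Q)) fun a => x (cqHom g hs a) := by
  refine KR.Sm1.comp (j := cqHom g hs) (fun W hW => ?_) hx
  obtain ⟨⟨s, hs'⟩, hn, hi⟩ := hW
  classical
  refine ⟨W.comap (cqHom g hs), ⟨⟨s.image g, fun a ha => hs' _ fun y hy => ?_⟩, hn.comap _, ?_⟩,
    fun w hw => hw⟩
  · show g⁻¹ ((a : Ω ≃+* Ω) (g y)) = y
    rw [ha (g y) (Finset.mem_image_of_mem _ hy)]
    exact g.symm_apply_apply y
  · rw [Subgroup.index_comap]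
    exact fun h => hi (by
      have h1 := Subgroup.relIndex_dvd_index_of_normal W (cqHom g hs).range
      rw [h, zero_dvd_iff] at h1
      exact h1)

private theorem cq_h {Ω : Type u} [Field Ω] {A B : Type*} (g : Ω ≃+* Ω)
    {f : (Ω ≃+* Ω) → (Ω ≃+* Ω) → A} (hf : KR.Sm2 (afull Ω) f) (s : A → A → B) :
    KR.Sm1 (afull Ω) fun a => s (f g (g⁻¹ * a * g)) (f a g) := by
  obtain ⟨W, hW, h1⟩ := hf
  refine ⟨W, hW, fun a w hw => ?_⟩
  have hn := (afull Ω).normal hW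
  have h2 : g⁻¹ * w * g ∈ W := by
    have := hn.conj_mem w hw g⁻¹
    rwa [inv_inv] at this
  have h3 := h1 g (g⁻¹ * a * g) 1 W.one_mem (g⁻¹ * w * g) h2
  rw [mul_one] at h3
  have h4 : g⁻¹ * a * g * (g⁻¹ * w * g) = g⁻¹ * (a * w) * g := by group
  rw [h4] at h3
  have h5 := h1 a g w hw 1 W.one_mem
  rw [mul_one] at h5
  simp only [h3, h5]

theorem conj_b2 {Ω : Type u} [Field Ω] [CharZero Ω] [IsAlgClosed Ω] (halg : Alg Ω) {l : ℕ}
    (hl : l.Prime) {P Q : Ideal (𝓞 Ω)} (hP : P.IsPrime) (hlP : (l : 𝓞 Ω) ∈ P) (hQ : Q.IsPrime)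
    (hlQ : (l : 𝓞 Ω) ∈ Q) {f : (Ω ≃+* Ω) → (Ω ≃+* Ω) → A0} (hf : KR.Z2 (afull Ω) (tw cyQ) f)
    (h : KR.B2 (lfull (stb P)) (tw fun d : stb P => cyQ (d : Ω ≃+* Ω)) (rs (stb P) f)) :
    KR.B2 (lfull (stb Q)) (tw fun d : stb Q => cyQ (d : Ω ≃+* Ω)) (rs (stb Q) f) := by
  obtain ⟨g, hs, -⟩ := exists_conj halg hl hP hlP hQ hlQ
  obtain ⟨x, hx, h1⟩ := h
  have hc : ∀ a b, cyQ (a * b : Ω ≃+* Ω) = cyQ a * cyQ b := (char_afull (Ω := Ω)).mul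
  have hc1 : cyQ (1 : Ω ≃+* Ω) = 1 := (char_afull (Ω := Ω)).one
  have hcg : ∀ a : Ω ≃+* Ω, cyQ (g⁻¹ * a * g) = cyQ a := by
    intro a
    rw [hc, hc, mul_right_comm, ← hc, inv_mul_cancel, hc1, one_mul]
  refine ⟨fun a => cyQ g • x (cqHom g hs a) -
    (f g (g⁻¹ * (a : Ω ≃+* Ω) * g) - f (a : Ω ≃+* Ω) g), ?_, ?_⟩
  · exact sm1_sub (sm1_comp (cq_sm1 g hs hx) fun t => cyQ g • t)
      (rs_sm1 (stb Q) (cq_h g hf.1 fun s t => s - t))
  · funext a b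
    have h2 := congrFun (congrFun h1 (cqHom g hs a)) (cqHom g hs b)
    have e1 := hf.2 g (g⁻¹ * (a : Ω ≃+* Ω) * g) (g⁻¹ * (b : Ω ≃+* Ω) * g)
    have e2 := hf.2 (a : Ω ≃+* Ω) g (g⁻¹ * (b : Ω ≃+* Ω) * g)
    have e3 := hf.2 (a : Ω ≃+* Ω) (b : Ω ≃+* Ω) g
    have g1 : g * (g⁻¹ * (a : Ω ≃+* Ω) * g) = a * g := by group
    have g2 : g * (g⁻¹ * (b : Ω ≃+* Ω) * g) = b * g := by group
    have g3 : g⁻¹ * (a : Ω ≃+* Ω) * g * (g⁻¹ * (b : Ω ≃+* Ω) * g) =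
        g⁻¹ * ((a : Ω ≃+* Ω) * b) * g := by group
    simp only [d2, tw] at e1 e2 e3
    rw [g1, g3] at e1
    rw [g2] at e2
    have h3 : f (g⁻¹ * (a : Ω ≃+* Ω) * g) (g⁻¹ * (b : Ω ≃+* Ω) * g) =
        x (cqHom g hs a) + cyQ (a : Ω ≃+* Ω) • x (cqHom g hs b) - x (cqHom g hs (a * b)) := by
      have h4 : d1 (tw fun d : stb P => cyQ (d : Ω ≃+* Ω)) x (cqHom g hs a) (cqHom g hs b) =
          x (cqHom g hs a) + cyQ (g⁻¹ * (a : Ω ≃+* Ω) * g) • x (cqHom g hs b) -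
            x (cqHom g hs a * cqHom g hs b) := rfl
      rw [hcg, ← map_mul] at h4
      rw [← h4, ← h2]
      rfl
    rw [h3] at e1
    show f a b = d1 _ _ a b
    simp only [d1, tw, Subgroup.coe_mul]
    rw [smul_sub, smul_sub, smul_comm (cyQ (a : Ω ≃+* Ω)) (cyQ g)]
    rw [smul_sub, smul_add] at e1
    have e4 := congrArg₂ (· + ·) (congrArg₂ (· - ·) e1 e2) e3
    beta_reduce at e4
    rw [sub_zero, add_zero] at e4
    rw [← sub_eq_zero, ← neg_eq_zero, ← e4]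
    abel

theorem conj_cob {Ω : Type u} [Field Ω] [CharZero Ω] [IsAlgClosed Ω] (halg : Alg Ω) {l : ℕ}
    (hl : l.Prime) {P Q : Ideal (𝓞 Ω)} (hP : P.IsPrime) (hlP : (l : 𝓞 Ω) ∈ P) (hQ : Q.IsPrime)
    (hlQ : (l : 𝓞 Ω) ∈ Q) {f : (Ω ≃+* Ω) → (Ω ≃+* Ω) → ZMod 2} (hf : KR.Coc (afull Ω) f)
    (h : KR.Cob (lfull (stb P)) (rs (stb P) f)) : KR.Cob (lfull (stb Q)) (rs (stb Q) f) := by
  obtain ⟨g, hs, -⟩ := exists_conj halg hl hP hlP hQ hlQ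
  obtain ⟨x, hx, h1⟩ := h
  refine ⟨fun a => x (cqHom g hs a) +
    (f g (g⁻¹ * (a : Ω ≃+* Ω) * g) + f (a : Ω ≃+* Ω) g), ?_, ?_⟩
  · exact sm1_add (cq_sm1 g hs hx) (rs_sm1 (stb Q) (cq_h g hf.1 fun s t => s + t))
  · intro a b
    have h2 := h1 (cqHom g hs a) (cqHom g hs b)
    have e1 := hf.2 g (g⁻¹ * (a : Ω ≃+* Ω) * g) (g⁻¹ * (b : Ω ≃+* Ω) * g)
    have e2 := hf.2 (a : Ω ≃+* Ω) g (g⁻¹ * (b : Ω ≃+* Ω) * g)
    have e3 := hf.2 (a : Ω ≃+* Ω) (b : Ω ≃+* Ω) g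
    have g1 : g * (g⁻¹ * (a : Ω ≃+* Ω) * g) = a * g := by group
    have g2 : g * (g⁻¹ * (b : Ω ≃+* Ω) * g) = b * g := by group
    have g3 : g⁻¹ * (a : Ω ≃+* Ω) * g * (g⁻¹ * (b : Ω ≃+* Ω) * g) =
        g⁻¹ * ((a : Ω ≃+* Ω) * b) * g := by group
    rw [g1, g3] at e1
    rw [g2] at e2
    have h3 : f (g⁻¹ * (a : Ω ≃+* Ω) * g) (g⁻¹ * (b : Ω ≃+* Ω) * g) =
        x (cqHom g hs a) + x (cqHom g hs b) + x (cqHom g hs (a * b)) := by
      rw [map_mul]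
      exact h2
    rw [h3] at e1
    show f a b = _
    simp only [Subgroup.coe_mul]
    generalize x (cqHom g hs a) = x1 at *
    generalize x (cqHom g hs b) = x2 at *
    generalize x (cqHom g hs (a * b)) = x3 at *
    generalize f g (g⁻¹ * (a : Ω ≃+* Ω) * g) = y1 at *
    generalize f g (g⁻¹ * (b : Ω ≃+* Ω) * g) = y2 at *
    generalize f g (g⁻¹ * ((a : Ω ≃+* Ω) * b) * g) = y3 at *
    generalize f (a * g) (g⁻¹ * (b : Ω ≃+* Ω) * g) = y4 at *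
    generalize f (a : Ω ≃+* Ω) g = y5 at *
    generalize f (b : Ω ≃+* Ω) g = y6 at *
    generalize f ((a : Ω ≃+* Ω) * b) g = y7 at *
    generalize f (a : Ω ≃+* Ω) ((b : Ω ≃+* Ω) * g) = y8 at *
    generalize f (a : Ω ≃+* Ω) (b : Ω ≃+* Ω) = y9 at *
    have h20 : (2 : ZMod 2) = 0 := by decide
    linear_combination e3 + e2 + e1 + (y8 - y1 - y5 - y7 - y4) * h20

end Pool.Agent.Work.MP_787500_nt.RQ
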