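import Mathlib
import Pool.Agent.Work.MP_787500_nt.RQ.Basic
import Pool.Agent.Work.MP_787500_nt.HP.EmbGood

/-!
# Module EPS (size S): the character of the square root of -1

`eps g = 0` iff `4 ∣ cyQ g - 1` (`HP/Defs.lean`). `cyQ` is multiplicative with odd values (`isChar_cyQ ∅`), and an odd 2-adic integer is `1` or `-1` modulo 4; so `eps` is additive.
`eps_fix`: `cyQ g` is the value of the cyclotomic character: `g i = i ^ (cyQ g mod 4)` (see `cyclotomicCharacter.spec` / the lemma on `toZModPow` used in `HP/Conj.lean`, `cyQ_conj`, or in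
`PA/CycK.lean`), and `i ^ 1 = i`, `i ^ 3 = -i ≠ i`.
`eps_sm`: `isChar_cyQ T`, `cont 2`.
-/

set_option autoImplicit false
set_option linter.unusedSectionVars false

namespace Pool.Agent.Work.MP_787500_nt.RQ

open NumberField
open Pool.Agent.Work.MP_787500_nt.GP (A0 hf IsAct d0 d1 d2 tw iota)
open Pool.Agent.Work.MP_787500_nt.PA (TwoSys)
open Pool.Agent.Work.MP_787500_nt.KR (FSys ofTwo)
open Pool.Agent.Work.MP_787500_nt.HP

universe u

variable {Ω : Type u} [Field Ω] [CharZero Ω] [IsAlgClosed Ω]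

private theorem ep_iff (g : Ω ≃+* Ω) :
    eps g = 0 ↔ PadicInt.toZModPow 2 (cyQ g) = 1 := by
  classical
  rw [eps_eq]
  have h1 : (4 : ℤ_[2]) ∣ cyQ g - 1 ↔ PadicInt.toZModPow 2 (cyQ g) = 1 := by
    rw [← sub_eq_zero (a := PadicInt.toZModPow 2 (cyQ g))]
    have e : PadicInt.toZModPow 2 (cyQ g) - 1 = PadicInt.toZModPow 2 (cyQ g - 1) := by
      rw [map_sub, map_one]
    rw [e, ← RingHom.mem_ker, PadicInt.ker_toZModPow, Ideal.mem_span_singleton]
    norm_num
  rw [← h1]
  split_ifs with h2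
  · exact ⟨fun _ => h2, fun _ => rfl⟩
  · exact ⟨fun h3 => absurd h3 (by decide), fun h3 => absurd h3 h2⟩

theorem eps_fix {i : Ω} (hi : i ^ 2 = -1) (g : Ω ≃+* Ω) : eps g = 0 ↔ g i = i := by
  rw [ep_iff]
  have h5 : g i = i ^ (PadicInt.toZModPow 2 (cyQ g)).val :=
    cyclotomicCharacter.spec 2 (n := 2) g i (by
      rw [show (2 : ℕ) ^ 2 = 2 * 2 from rfl, pow_mul, hi]; norm_num)
  have hodd : (2 : ℤ_[2]) ∣ cyQ g - 1 := (isChar_cyQ (Ω := Ω) ∅).odd g
  have h6 : ∀ a : ZMod (2 ^ 2), (∃ b, a - 1 = 2 * b) → a = 1 ∨ a = 3 := by decide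
  have h7 : ∃ b, PadicInt.toZModPow 2 (cyQ g) - 1 = 2 * b := by
    obtain ⟨c, hc⟩ := hodd
    refine ⟨PadicInt.toZModPow 2 c, ?_⟩
    have := congrArg (PadicInt.toZModPow 2) hc
    rw [map_sub, map_one, map_mul, map_ofNat] at this
    exact this
  rcases h6 _ h7 with h8 | h8
  · rw [h8] at h5
    have h9 : ((1 : ZMod (2 ^ 2))).val = 1 := by decide
    rw [h9, pow_one] at h5
    exact ⟨fun _ => h5, fun _ => h8⟩
  · rw [h8] at h5
    have h9 : ((3 : ZMod (2 ^ 2))).val = 3 := by decide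
    rw [h9] at h5
    constructor
    · intro h10
      rw [h8] at h10
      exact absurd h10 (by decide)
    · intro h10
      exfalso
      rw [h5] at h10
      have h11 : i * (i ^ 2 - 1) = 0 := by linear_combination h10
      rw [hi] at h11
      have h12 : i = 0 := by
        rcases mul_eq_zero.1 h11 with h | h
        · exact h
        · exfalso
          norm_num at h
      rw [h12] at hi
      norm_num at hi

theorem eps_mul (g h : Ω ≃+* Ω) : eps (g * h) = eps g + eps h := by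
  obtain ⟨i, hi⟩ := IsAlgClosed.exists_pow_nat_eq (-1 : Ω) (n := 2) (by norm_num)
  have hz : ∀ a : ZMod 2, a = 0 ∨ a = 1 := by decide
  have hne : -i ≠ i := by
    intro h1
    have h2 : i = 0 := by linear_combination (-1 / 2 : Ω) * h1
    rw [h2] at hi
    norm_num at hi
  have hpm : ∀ k : Ω ≃+* Ω, k i ≠ i → k i = -i := by
    intro k hk
    have h1 : (k i) ^ 2 = i ^ 2 := by rw [← map_pow, hi, map_neg, map_one]
    rcases sq_eq_sq_iff_eq_or_eq_neg.1 h1 with h2 | h2
    · exact absurd h2 hk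
    · exact h2
  have hmul : (g * h) i = g (h i) := rfl
  rcases hz (eps h) with h1 | h1
  · rw [h1, add_zero]
    have h2 := (eps_fix hi h).1 h1
    have h3 : eps (g * h) = 0 ↔ eps g = 0 := by
      rw [eps_fix hi, eps_fix hi, hmul, h2]
    rcases hz (eps g) with h4 | h4
    · rw [h4]; exact h3.2 h4
    · rw [h4]
      rcases hz (eps (g * h)) with h5 | h5
      · rw [h3.1 h5] at h4
        exact absurd h4 (by decide)
      · exact h5
  · have h2 : h i = -i := hpm h fun h3 => by
      rw [(eps_fix hi h).2 h3] at h1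
      exact absurd h1 (by decide)
    have h3 : eps (g * h) = 0 ↔ g i ≠ i := by
      rw [eps_fix hi, hmul, h2, map_neg]
      constructor
      · intro h4 h5
        rw [h5] at h4
        exact hne h4
      · intro h4
        rw [hpm g h4, neg_neg]
    rw [h1]
    rcases hz (eps g) with h4 | h4
    · rw [h4, zero_add]
      rcases hz (eps (g * h)) with h5 | h5
      · exact absurd ((eps_fix hi g).1 h4) (h3.1 h5)
      · exact h5
    · rw [h4, show (1 : ZMod 2) + 1 = 0 by decide]
      refine h3.2 fun h5 => ?_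
      rw [(eps_fix hi g).2 h5] at h4
      exact absurd h4 (by decide)

theorem eps_sm (T : Set ℕ) : KR.Sm1 (ofTwo (qsys Ω T)) (eps : (Ω ≃+* Ω) → ZMod 2) := by
  classical
  obtain ⟨W, hW, h1⟩ := (isChar_cyQ (Ω := Ω) T).cont 2
  refine ⟨W, hW, fun g w hw => ?_⟩
  have h2 : (4 : ℤ_[2]) ∣ cyQ (g * w) - cyQ g := by
    have := h1 g w hw
    norm_num at this
    exact this
  rw [eps_eq, eps_eq]
  have h3 : (4 : ℤ_[2]) ∣ cyQ (g * w) - 1 ↔ (4 : ℤ_[2]) ∣ cyQ g - 1 := by
    constructor
    · intro h4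
      have := dvd_sub h4 h2
      rwa [show cyQ (g * w) - 1 - (cyQ (g * w) - cyQ g) = cyQ g - 1 by ring] at this
    · intro h4
      have := dvd_add h4 h2
      rwa [show cyQ g - 1 + (cyQ (g * w) - cyQ g) = cyQ (g * w) - 1 by ring] at this
  simp only [h3]

end Pool.Agent.Work.MP_787500_nt.RQ
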