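import Mathlib
import Pool.Agent.Work.MP_787500_nt.RQ.Eps
import Pool.Agent.Work.MP_787500_nt.HN.LocNorm
import Pool.Agent.Work.MP_787500_nt.HP.EmbGood
import Pool.Agent.Work.MP_787500_nt.HP.FieldQ

/-!
# Module EVENV (size M): the valuation of n at a prime number congruent to 3 modulo 4

`K = ℚ`, `α : AlgebraicClosure ℚ ≃+* Ω`, `Q₀ = pb α Q`, `U = ⊤`, `Fx ⊤` (the image of `ℚ`), `w` the place of `Fx ⊤` below `Q₀` (it contains `p`). `hc` pulled back by `emb α` is `LCob (stabD Q₀ ⊓ ⊤) (cup (act2 ⊤ r) (act2 ⊤ t'))`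
with `r = α⁻¹ i`, `t' = α⁻¹ t` (`eps_fix`, `hb`; all values in `ZMod 2` are 0 or 1). `HN.locNorm` with `a = -1`, `x = n`: `n ∈ LN w (-1) = Nm (-1) ⊔ LS w`: `n = (u ^ 2 + v ^ 2) y` with `u`, `v` rational and
`y` approximated by squares at `w`, so `v_w (y)` is even. `v_p (u ^ 2 + v ^ 2)` is even as `p ≡ 3` modulo 4: divide by a common power of `p`; if `p ∣ u ^ 2 + v ^ 2` with `u`, `v` integral not both
divisible by `p` then `-1` is a square modulo `p` (`ZMod.exists_sq_eq_neg_one_iff`: `p % 4 ≠ 3`). So `v_p (n)` is even.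
-/

set_option autoImplicit false
set_option linter.unusedSectionVars false

namespace Pool.Agent.Work.MP_787500_nt.RQ

open NumberField
open Pool.Agent.Work.MP_787500_nt.GP (A0 hf IsAct d0 d1 d2 tw iota)
open Pool.Agent.Work.MP_787500_nt.PA (TwoSys)
open Pool.Agent.Work.MP_787500_nt.KR (FSys ofTwo)
open Pool.Agent.Work.MP_787500_nt.HP

universe u

private theorem evenv_int {p : ℕ} (hp : p.Prime) (hp3 : p % 4 = 3) (A B : ℤ) :
    Even (padicValInt p (A ^ 2 + B ^ 2)) := by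
  have h1 : (A ^ 2 + B ^ 2).natAbs = A.natAbs ^ 2 + B.natAbs ^ 2 := by
    have h2 : ((A.natAbs ^ 2 + B.natAbs ^ 2 : ℕ) : ℤ) = A ^ 2 + B ^ 2 := by
      push_cast
      rw [sq_abs, sq_abs]
    rw [← h2, Int.natAbs_natCast]
  unfold padicValInt
  by_cases h0 : p ∈ (A ^ 2 + B ^ 2).natAbs.primeFactors
  · exact (Nat.eq_sq_add_sq_iff (n := (A ^ 2 + B ^ 2).natAbs)).1 ⟨_, _, h1⟩ p h0 hp3
  · have h2 : padicValNat p (A ^ 2 + B ^ 2).natAbs = 0 := by
      rw [padicValNat.eq_zero_iff]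
      by_contra hcon
      push Not at hcon
      exact h0 (Nat.mem_primeFactors.2 ⟨hp, hcon.2.2, hcon.2.1⟩)
    rw [h2]
    exact Even.zero

private theorem evenv_rat {p : ℕ} (hp : p.Prime) (hp3 : p % 4 = 3) (β γ : ℚ)
    (h0 : β ^ 2 + γ ^ 2 ≠ 0) : Even (padicValRat p (β ^ 2 + γ ^ 2)) := by
  have hpf : Fact p.Prime := ⟨hp⟩
  set A : ℤ := β.num * γ.den with hA
  set B : ℤ := γ.num * β.den with hB
  set N : ℤ := β.den * γ.den with hN
  have hβ : (β.den : ℚ) ≠ 0 := by exact_mod_cast β.den_ne_zero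
  have hγ : (γ.den : ℚ) ≠ 0 := by exact_mod_cast γ.den_ne_zero
  have hN0 : (N : ℚ) ≠ 0 := by
    rw [hN]
    push_cast
    exact mul_ne_zero hβ hγ
  have e1 : β * N = A := by
    rw [hN, hA]
    push_cast
    rw [← mul_assoc, Rat.mul_den_eq_num]
  have e2 : γ * N = B := by
    rw [hN, hB]
    push_cast
    rw [mul_comm (β.den : ℚ), ← mul_assoc, Rat.mul_den_eq_num]
  have e : (β ^ 2 + γ ^ 2) * (N : ℚ) ^ 2 = ((A ^ 2 + B ^ 2 : ℤ) : ℚ) := by
    push_cast
    rw [← e1, ← e2]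
    ring
  have h1 : padicValRat p ((β ^ 2 + γ ^ 2) * (N : ℚ) ^ 2) =
      padicValRat p (β ^ 2 + γ ^ 2) + 2 * padicValRat p (N : ℚ) := by
    rw [padicValRat.mul h0 (pow_ne_zero 2 hN0), padicValRat.pow]
    push_cast
    ring
  rw [e, padicValRat.of_int] at h1
  have h2 := evenv_int hp hp3 A B
  have h3 : Even ((padicValInt p (A ^ 2 + B ^ 2) : ℕ) : ℤ) := by exact_mod_cast h2
  rw [h1] at h3
  rw [Int.even_add] at h3
  exact h3.2 (even_two_mul _)

/-- a rational number whose valuation above `p` is 1 is a unit at `p` -/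
private theorem evenv_unit {p : ℕ} (hp : p.Prime) {Γ : Type*} [LinearOrderedCommGroupWithZero Γ]
    (V : Valuation ℚ Γ) (hle : ∀ k : ℤ, V k ≤ 1) (hlt : V p < 1) {q : ℚ} (hq : V q = 1) :
    padicValRat p q = 0 := by
  have hpf : Fact p.Prime := ⟨hp⟩
  have hdvd : ∀ k : ℤ, (p : ℤ) ∣ k → V k < 1 := by
    rintro k ⟨m, rfl⟩
    push_cast
    rw [map_mul]
    calc V (p : ℚ) * V (m : ℚ) ≤ V (p : ℚ) * 1 := mul_le_mul_right (hle m) _
      _ < 1 := by rwa [mul_one]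
  have hnd : ∀ k : ℤ, ¬ (p : ℤ) ∣ k → V k = 1 := by
    intro k hk
    refine le_antisymm (hle k) (not_lt.1 fun h => ?_)
    have hcop : IsCoprime (p : ℤ) k := by
      rw [Int.isCoprime_iff_gcd_eq_one]
      have h1 : Nat.Coprime p k.natAbs := by
        rw [hp.coprime_iff_not_dvd]
        intro h2
        exact hk (Int.natCast_dvd.2 h2)
      simpa [Int.gcd] using h1
    obtain ⟨a, b, hab⟩ := hcop
    have h1 : V ((a : ℚ) * p + b * k) < 1 := by
      refine (V.map_add _ _).trans_lt (max_lt ?_ ?_)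
      · rw [map_mul]
        calc V (a : ℚ) * V (p : ℚ) ≤ 1 * V (p : ℚ) := mul_le_mul_left (hle a) _
          _ < 1 := by rwa [one_mul]
      · rw [map_mul]
        calc V (b : ℚ) * V (k : ℚ) ≤ 1 * V (k : ℚ) := mul_le_mul_left (hle b) _
          _ < 1 := by rwa [one_mul]
    have h2 : (a : ℚ) * p + b * k = 1 := by exact_mod_cast hab
    rw [h2, map_one] at h1
    exact lt_irrefl _ h1
  have hq0 : q ≠ 0 := by
    rintro rfl
    rw [map_zero] at hq
    exact zero_ne_one hq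
  have hqd : V q * V (q.den : ℤ) = V (q.num : ℤ) := by
    rw [← map_mul]
    congr 1
    push_cast
    exact Rat.mul_den_eq_num q
  rw [hq, one_mul] at hqd
  have hnum : ¬ (p : ℤ) ∣ q.num := by
    intro h1
    have h2 : ¬ (p : ℤ) ∣ (q.den : ℤ) := by
      intro h3
      have h4 : p ∣ q.num.natAbs := Int.natCast_dvd.1 h1
      have h5 : p ∣ q.den := by exact_mod_cast h3
      exact hp.one_lt.ne' (Nat.dvd_one.1 (q.reduced ▸ Nat.dvd_gcd h4 h5))
    have h3 := hdvd _ h1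
    rw [← hqd, hnd _ h2] at h3
    exact lt_irrefl _ h3
  have hden : ¬ (p : ℤ) ∣ (q.den : ℤ) := by
    intro h1
    have h3 := hdvd _ h1
    rw [hqd, hnd _ hnum] at h3
    exact lt_irrefl _ h3
  unfold padicValRat
  rw [padicValInt.eq_zero_of_not_dvd hnum, padicValNat.eq_zero_of_not_dvd (by exact_mod_cast hden)]
  simp

private theorem evenv_top (K : Type*) [Field K] [CharZero K] (b : GP.Fx (⊤ : Subgroup (AbsGal K))) :
    ∃ q : K, algebraMap K (AlgebraicClosure K) q = b := by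
  have h1 : (b : AlgebraicClosure K) ∈ (⊥ : IntermediateField K (AlgebraicClosure K)) := by
    rw [InfiniteGalois.mem_bot_iff_fixed]
    exact fun f => GP.mem_Fx.1 b.2 f (Subgroup.mem_top f)
  exact IntermediateField.mem_bot.1 h1

private theorem evenv_alpha (K : Type*) [Field K] (Ω : Type*) [Field Ω] [IsAlgClosed Ω] [Algebra K Ω]
    [Algebra.IsAlgebraic K Ω] : Nonempty (AlgebraicClosure K ≃+* Ω) := by
  have hcl : IsAlgClosure K Ω := ⟨inferInstance, inferInstance⟩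
  exact ⟨(IsAlgClosure.equiv K (AlgebraicClosure K) Ω).toRingEquiv⟩

theorem even_val {Ω : Type u} [Field Ω] [CharZero Ω] [IsAlgClosed Ω] (halg : Alg Ω)
    {b : (Ω ≃+* Ω) → ZMod 2} {n : ℤ} (hn : n ≠ 0) {t : Ω} (ht : t ^ 2 = (n : Ω))
    (hb : ∀ g, b g = 0 ↔ g t = t) {p : ℕ} (hp : p.Prime) (hp3 : p % 4 = 3) {Q : Ideal (𝓞 Ω)}
    (hQ : Q.IsPrime) (hpQ : (p : 𝓞 Ω) ∈ Q)
    (hc : KR.Cob (lfull (stb Q)) (rs (stb Q) fun g h => eps g * b h)) :
    Even (padicValInt p n) := by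
  classical
  have hb' := hb
  have hpf : Fact p.Prime := ⟨hp⟩
  have hZ : Algebra.IsAlgebraic ℤ Ω := by
    refine ⟨fun x => ?_⟩
    obtain ⟨f, hf, hfx⟩ := halg x
    refine ⟨f, hf, ?_⟩
    rw [Polynomial.aeval_def]
    exact hfx
  have hQa : Algebra.IsAlgebraic ℚ Ω :=
    ⟨fun x => (IsFractionRing.isAlgebraic_iff ℤ ℚ Ω).1 (hZ.isAlgebraic x)⟩
  obtain ⟨α⟩ := evenv_alpha ℚ Ω
  obtain ⟨i, hi⟩ := IsAlgClosed.exists_pow_nat_eq (-1 : Ω) (n := 2) (by norm_num)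
  have hU : IsOpen ((⊤ : Subgroup (AbsGal ℚ)) : Set (AbsGal ℚ)) := by
    rw [Subgroup.coe_top]
    exact isOpen_univ
  have hNF : NumberField (GP.Fx (⊤ : Subgroup (AbsGal ℚ))) := HN.fx_numberField hU
  have hQ0 : (pb α Q).IsPrime := pb_prime α hQ
  have hpQ0 : (p : 𝓞 (AlgebraicClosure ℚ)) ∈ pb α Q := (pb_nat α p).2 hpQ
  have hb : pb α Q ≠ ⊥ := by
    intro h
    rw [h, Ideal.mem_bot] at hpQ0
    exact hp.ne_zero (by exact_mod_cast hpQ0)
  let w : IsDedekindDomain.HeightOneSpectrum (𝓞 (GP.Fx (⊤ : Subgroup (AbsGal ℚ)))) :=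
    ⟨(pb α Q).comap (algebraMap _ (𝓞 (AlgebraicClosure ℚ))), Ideal.comap_isPrime _ _, by
      intro h
      have h1 : (p : 𝓞 (GP.Fx (⊤ : Subgroup (AbsGal ℚ)))) ∈
          (pb α Q).comap (algebraMap _ (𝓞 (AlgebraicClosure ℚ))) := by
        rw [Ideal.mem_comap, map_natCast]
        exact hpQ0
      rw [h, Ideal.mem_bot] at h1
      exact hp.ne_zero (by exact_mod_cast h1)⟩
  have hpw : (p : 𝓞 (GP.Fx (⊤ : Subgroup (AbsGal ℚ)))) ∈ w.asIdeal := by
    show (p : 𝓞 (GP.Fx (⊤ : Subgroup (AbsGal ℚ)))) ∈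
      (pb α Q).comap (algebraMap _ (𝓞 (AlgebraicClosure ℚ)))
    rw [Ideal.mem_comap, map_natCast]
    exact hpQ0
  have hnF : (n : GP.Fx (⊤ : Subgroup (AbsGal ℚ))) ≠ 0 := by exact_mod_cast hn
  have hx : Units.mk0 (n : GP.Fx (⊤ : Subgroup (AbsGal ℚ))) hnF ∈ HN.LN w (-1) := by
    refine HN.locNorm (K := ℚ) hU hQ0 hb (w := w) rfl (r := α.symm i) (t := α.symm t) ?_ ?_ ?_
    · rw [← map_pow, hi]
      simp
    · rw [← map_pow, ht]
      simp
    · obtain ⟨z, ⟨W, ⟨⟨s, hs⟩, -, -⟩, hz⟩, hzc⟩ := hc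
      refine ⟨fun σ => if h : emb α σ ∈ stb Q then z ⟨emb α σ, h⟩ else 0,
        ⟨⨅ x ∈ s, MulAction.stabilizer (AbsGal ℚ) (α.symm x), ?_, ?_⟩, ?_⟩
      · refine open_of_fix α s fun σ hσ => ?_
        simp only [Subgroup.mem_iInf, MulAction.mem_stabilizer_iff]
        exact hσ
      · rintro g ⟨hg, -⟩ k ⟨⟨hk, -⟩, hkf⟩
        have hg' : emb α g ∈ stb Q := (emb_stb α).2 hg
        have hk' : emb α k ∈ stb Q := (emb_stb α).2 hk
        have hgk : emb α (g * k) ∈ stb Q := by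
          rw [map_mul]
          exact (stb Q).mul_mem hg' hk'
        beta_reduce
        rw [dif_pos hg', dif_pos hgk]
        have e : (⟨emb α (g * k), hgk⟩ : stb Q) = ⟨emb α g, hg'⟩ * ⟨emb α k, hk'⟩ :=
          Subtype.ext (map_mul _ _ _)
        rw [e]
        refine hz _ _ (hs _ fun x hx => ?_)
        show emb α k x = x
        rw [emb_apply]
        have h1 : k (α.symm x) = α.symm x :=
          MulAction.mem_stabilizer_iff.1 (Subgroup.mem_iInf.1 (Subgroup.mem_iInf.1 hkf x) hx)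
        rw [h1, RingEquiv.apply_symm_apply]
      · rintro g ⟨hg, -⟩ k ⟨hk, -⟩
        have hg' : emb α g ∈ stb Q := (emb_stb α).2 hg
        have hk' : emb α k ∈ stb Q := (emb_stb α).2 hk
        have hgk : emb α (g * k) ∈ stb Q := by
          rw [map_mul]
          exact (stb Q).mul_mem hg' hk'
        beta_reduce
        rw [dif_pos hg', dif_pos hk', dif_pos hgk]
        have e : (⟨emb α (g * k), hgk⟩ : stb Q) = ⟨emb α g, hg'⟩ * ⟨emb α k, hk'⟩ :=
          Subtype.ext (map_mul _ _ _)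
        rw [e, ← hzc]
        have key : ∀ a b : ZMod 2, (a = 0 ↔ b = 0) → a = b := by decide
        have hfix : ∀ (σ : AbsGal ℚ) (y : Ω), σ (α.symm y) = α.symm y ↔ emb α σ y = y := by
          intro σ y
          rw [emb_apply]
          constructor
          · intro h
            rw [h, RingEquiv.apply_symm_apply]
          · intro h
            apply α.injective
            rw [h, RingEquiv.apply_symm_apply]
        have hact : ∀ (σ : AbsGal ℚ) (y : Ω), PA.act2 (⊤ : Subgroup (AbsGal ℚ)) (α.symm y) σ = 0 ↔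
            emb α σ y = y := by
          intro σ y
          unfold PA.act2
          rw [← hfix]
          by_cases h : σ (α.symm y) = α.symm y
          · simp [h]
          · simp [h]
        show PA.act2 ⊤ (α.symm i) g * PA.act2 ⊤ (α.symm t) k = eps (emb α g) * b (emb α k)
        rw [key _ _ ((hact g i).trans (eps_fix hi (emb α g)).symm),
          key _ _ ((hact k t).trans (hb' (emb α k)).symm)]
  -- the valuation on the rational numbers
  let V : Valuation ℚ (WithZero (Multiplicative ℤ)) :=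
    (w.valuation (GP.Fx (⊤ : Subgroup (AbsGal ℚ)))).comap
      (algebraMap ℚ (GP.Fx (⊤ : Subgroup (AbsGal ℚ))))
  have hV : ∀ q : ℚ, V q = w.valuation (GP.Fx (⊤ : Subgroup (AbsGal ℚ)))
      (algebraMap ℚ (GP.Fx (⊤ : Subgroup (AbsGal ℚ))) q) := fun q => rfl
  have hle : ∀ k : ℤ, V k ≤ 1 := by
    intro k
    rw [hV, map_intCast]
    have h1 : w.valuation (GP.Fx (⊤ : Subgroup (AbsGal ℚ))) (algebraMap
        (𝓞 (GP.Fx (⊤ : Subgroup (AbsGal ℚ)))) (GP.Fx (⊤ : Subgroup (AbsGal ℚ))) k) ≤ 1 :=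
      w.valuation_le_one (K := GP.Fx (⊤ : Subgroup (AbsGal ℚ)))
        (k : 𝓞 (GP.Fx (⊤ : Subgroup (AbsGal ℚ))))
    rwa [map_intCast] at h1
  have hlt : V p < 1 := by
    rw [hV, map_natCast]
    have h1 : w.valuation (GP.Fx (⊤ : Subgroup (AbsGal ℚ))) (algebraMap
        (𝓞 (GP.Fx (⊤ : Subgroup (AbsGal ℚ)))) (GP.Fx (⊤ : Subgroup (AbsGal ℚ))) p) < 1 :=
      (w.valuation_lt_one_iff_mem (K := GP.Fx (⊤ : Subgroup (AbsGal ℚ)))
      (p : 𝓞 (GP.Fx (⊤ : Subgroup (AbsGal ℚ))))).2 hpw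
    rwa [map_natCast] at h1
  have hrat : ∀ b : GP.Fx (⊤ : Subgroup (AbsGal ℚ)), ∃ q : ℚ, algebraMap ℚ _ q = b := by
    intro b
    obtain ⟨q, hq⟩ := evenv_top ℚ b
    refine ⟨q, Subtype.ext ?_⟩
    rw [← hq, eq_ratCast, eq_ratCast]
    exact map_ratCast (algebraMap (GP.Fx (⊤ : Subgroup (AbsGal ℚ))) (AlgebraicClosure ℚ)) q
  have hVn : V (n : ℚ) ≠ 0 := by
    rw [Valuation.ne_zero_iff]
    exact_mod_cast hn
  obtain ⟨b₁, c₁, hbc⟩ := (HN.mem_LN_iff.1 hx) (V (n : ℚ)) hVn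
  obtain ⟨β, rfl⟩ := hrat b₁
  obtain ⟨γ, rfl⟩ := hrat c₁
  have hbc' : V (β ^ 2 + γ ^ 2 - n) < V (n : ℚ) := by
    have e : V (β ^ 2 + γ ^ 2 - n) = w.valuation (GP.Fx (⊤ : Subgroup (AbsGal ℚ)))
        (algebraMap ℚ _ β ^ 2 - ((-1 : (GP.Fx (⊤ : Subgroup (AbsGal ℚ)))ˣ) :
          GP.Fx (⊤ : Subgroup (AbsGal ℚ))) * algebraMap ℚ _ γ ^ 2 -
          ((Units.mk0 (n : GP.Fx (⊤ : Subgroup (AbsGal ℚ))) hnF :
            (GP.Fx (⊤ : Subgroup (AbsGal ℚ)))ˣ) : GP.Fx (⊤ : Subgroup (AbsGal ℚ)))) := by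
      rw [hV]
      congr 1
      rw [map_sub, map_add, map_pow, map_pow, map_intCast, Units.val_mk0, Units.val_neg,
        Units.val_one]
      ring
    rw [e]
    exact hbc
  have hVm : V (β ^ 2 + γ ^ 2) = V (n : ℚ) := by
    have e : β ^ 2 + γ ^ 2 = (n : ℚ) + (β ^ 2 + γ ^ 2 - n) := by ring
    rw [e]
    exact Valuation.map_add_eq_of_lt_left _ hbc'
  have hm0 : β ^ 2 + γ ^ 2 ≠ 0 := by
    intro h
    rw [h, map_zero] at hVm
    exact hVn hVm.symm
  have hn0 : (n : ℚ) ≠ 0 := by exact_mod_cast hn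
  have h1 : padicValRat p ((β ^ 2 + γ ^ 2) / n) = 0 := by
    refine evenv_unit hp V hle hlt ?_
    rw [map_div₀, hVm, div_self hVn]
  rw [padicValRat.div hm0 hn0, padicValRat.of_int] at h1
  have h2 := evenv_rat hp hp3 β γ hm0
  have h3 : ((padicValInt p n : ℕ) : ℤ) = padicValRat p (β ^ 2 + γ ^ 2) := by linarith
  rw [← h3] at h2
  exact_mod_cast h2

end Pool.Agent.Work.MP_787500_nt.RQ
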