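import Mathlib
import Pool.Agent.Work.MP_787500_nt.RQ.Basic
import Pool.Agent.Work.MP_787500_nt.GA.OmLoc
import Pool.Agent.Work.MP_787500_nt.HP.FieldQ

/-!
# Module LT (size S): decomposition groups are of local type

`α : AlgebraicClosure ℚ ≃+* Ω` exists (`IsAlgClosure.equiv`: `Ω` is algebraic over `ℚ` by `halg`); `GA.localType_rat`.
-/

set_option autoImplicit false
set_option linter.unusedSectionVars false

namespace Pool.Agent.Work.MP_787500_nt.RQ

open NumberField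
open Pool.Agent.Work.MP_787500_nt.GP (A0 hf IsAct d0 d1 d2 tw iota)
open Pool.Agent.Work.MP_787500_nt.PA (TwoSys)
open Pool.Agent.Work.MP_787500_nt.KR (FSys ofTwo)
open Pool.Agent.Work.MP_787500_nt.HP

universe u

private theorem ex_equiv' (F : Type*) (Ω : Type*) [Field F] [Field Ω] [Algebra F Ω]
    [IsAlgClosure F Ω] : Nonempty (AlgebraicClosure F ≃+* Ω) :=
  ⟨(IsAlgClosure.equiv F (AlgebraicClosure F) Ω).toRingEquiv⟩

theorem locType_sub {Ω : Type u} [Field Ω] [CharZero Ω] [IsAlgClosed Ω] (halg : Alg Ω)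
    {Q : Ideal (𝓞 Ω)} (hQ : Q.IsPrime) (hb : Q ≠ ⊥) {C : Subgroup (Ω ≃+* Ω)} (hC : C ≤ stb Q)
    (hop : ∃ W : Subgroup (Ω ≃+* Ω), OpnQ W ∧ stb Q ⊓ W ≤ C) : PA.LocalType (fsys C) := by
  let _ : Algebra ℚ Ω := DivisionRing.toRatAlgebra
  have h1 : Algebra.IsAlgebraic ℚ Ω := ⟨fun x => by
    obtain ⟨p, hp, hx⟩ := halg x
    refine ⟨p.map (Int.castRingHom ℚ), ?_, ?_⟩
    · exact (Polynomial.map_ne_zero_iff (RingHom.injective_int _)).2 hp
    · rw [Polynomial.aeval_def, Polynomial.eval₂_map]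
      have e : (algebraMap ℚ Ω).comp (Int.castRingHom ℚ) = Int.castRingHom Ω :=
        RingHom.ext_int _ _
      rw [e]
      exact hx⟩
  have h2 : IsAlgClosure ℚ Ω := ⟨inferInstance, h1⟩
  obtain ⟨α⟩ := ex_equiv' ℚ Ω
  exact GA.localType_rat α hQ hb hC hop

end Pool.Agent.Work.MP_787500_nt.RQ
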