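import Mathlib
import Pool.Agent.Work.MP_787500_nt.RQ.Defs

/-!
# Module SYL (size S, Mathlib only): subgroups of odd index

`G ⧸ W` is a finite group (`hi`). Take a Sylow 2-subgroup `P` (`Sylow 2 (G ⧸ W)`, nonempty) and `C = P.comap (QuotientGroup.mk' W)`. `C.index = P.index` (surjective), which is odd
(`Sylow.not_dvd_index` or `Sylow.card_eq_multiplicity`), `W ≤ C`, and `W.relIndex C` is the cardinality of `P`: `W.relIndex C * C.index = W.index`, `Nat.card P = 2 ^ k`
(`P.isPGroup'.card_eq_or..`, `IsPGroup.iff_card`), `Nat.card P * P.index = Nat.card (G ⧸ W)`.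
-/

set_option autoImplicit false
set_option linter.unusedSectionVars false

namespace Pool.Agent.Work.MP_787500_nt.RQ

open NumberField
open Pool.Agent.Work.MP_787500_nt.GP (A0 hf IsAct d0 d1 d2 tw iota)
open Pool.Agent.Work.MP_787500_nt.PA (TwoSys)
open Pool.Agent.Work.MP_787500_nt.KR (FSys ofTwo)
open Pool.Agent.Work.MP_787500_nt.HP

universe u

theorem exists_syl {G : Type*} [Group G] {W : Subgroup G} (hn : W.Normal) (hi : W.index ≠ 0) :
    ∃ C : Subgroup G, W ≤ C ∧ Odd C.index ∧ ∃ k : ℕ, W.relIndex C = 2 ^ k := by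
  classical
  haveI : Finite (G ⧸ W) := Subgroup.index_ne_zero_iff_finite.1 hi
  obtain ⟨P⟩ : Nonempty (Sylow 2 (G ⧸ W)) := inferInstance
  haveI : Fact (Nat.Prime 2) := ⟨Nat.prime_two⟩
  set C : Subgroup G := (P : Subgroup (G ⧸ W)).comap (QuotientGroup.mk' W) with hC
  have hWC : W ≤ C := by
    intro x hx
    rw [hC, Subgroup.mem_comap]
    have : (QuotientGroup.mk' W) x = 1 := by
      rw [QuotientGroup.mk'_apply, QuotientGroup.eq_one_iff]; exact hx
    rw [this]; exact one_mem _
  have hidx : C.index = (P : Subgroup (G ⧸ W)).index :=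
    Subgroup.index_comap_of_surjective _ (QuotientGroup.mk'_surjective W)
  have hodd : Odd C.index := by
    rw [hidx, ← Nat.not_even_iff_odd, even_iff_two_dvd]
    exact P.not_dvd_index
  refine ⟨C, hWC, hodd, ?_⟩
  obtain ⟨k, hk⟩ := (IsPGroup.iff_card (p := 2)).1 P.isPGroup'
  refine ⟨k, ?_⟩
  have h1 := Subgroup.relIndex_mul_index hWC
  have h2 := Subgroup.card_mul_index (P : Subgroup (G ⧸ W))
  have h3 : Nat.card (G ⧸ W) = W.index := rfl
  rw [h3, ← h1, ← hidx] at h2
  have hne : C.index ≠ 0 := by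
    intro h0; rw [h0] at hodd; exact absurd hodd (by decide)
  have := Nat.eq_of_mul_eq_mul_right (Nat.pos_of_ne_zero hne) h2
  rw [← this]; exact hk


end Pool.Agent.Work.MP_787500_nt.RQ
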