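import Mathlib
import Pool.Agent.Work.MP_787500_nt.RQ.TraB
import Pool.Agent.Work.MP_787500_nt.RQ.Inj
import Pool.Agent.Work.MP_787500_nt.RQ.Syl

/-!
# Module LETWO (size M): classes modulo 2 over the system of all subgroups of finite index

Let `W ∈ lfull D` with `f` constant on its cosets. `exists_syl` (in the group `D`): `C₀ ≤ D`, `W ≤ C₀`, odd index, `W.relIndex C₀ = 2 ^ k`. Let `C = C₀.map D.subtype` (a subgroup of
`Ω ≃+* Ω`, `C ≤ D`) and identify `C₀` with `C` (`Subgroup.equivMapOfInjective` or work with functions of elements of `Ω ≃+* Ω`). `hLT C` gives `LocalType (fsys C)` (an open subgroup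
`W'` of `Ω ≃+* Ω` with `D ⊓ W' ≤ C`: let `s` be the finite set of `W`, and `W' = {g | ∀ x ∈ s, g x = x}`).
`f`, `g₀` restricted to `C` are in `PA.Coc (fsys C) ⊤`: for `f` the member is `W` (as a subgroup of `C`, normal, index `2 ^ k`), for `g₀` the restriction of the member of `fsys D`
(its index in `C` divides..: `Subgroup.relIndex_dvd_index_of_normal`, `Nat.dvd_prime_pow`).
* If `g₀|C` is `Cob (fsys C)` then it is `KR.Cob (KR.res (lfull D) C₀)` (a member of `fsys C` contains the restriction of a member of `lfull D`: the normal core in `D` of `{g ∈ C₀ | g ∈ V}`: it is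
  open of finite index; or simply intersect with `W` and with the finitely many conjugates), so `g₀` is `KR.Cob (lfull D)` by `tra_cob`, and then `PA.Cob (fsys D)` by `inj_two`
  (`clo_fsys D`, the coboundary is `g₀`, smooth for `fsys D`): contradiction to `hn`.
* If `f|C` is `Cob`: `tra_cob` gives the first alternative.
* Otherwise `LocalType.one` (for `fsys C`) gives `Cob` for `f + g₀` on `C`, and `tra_cob` the second alternative.
-/

set_option autoImplicit false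
set_option linter.unusedSectionVars false

namespace Pool.Agent.Work.MP_787500_nt.RQ

open NumberField
open Pool.Agent.Work.MP_787500_nt.GP (A0 hf IsAct d0 d1 d2 tw iota)
open Pool.Agent.Work.MP_787500_nt.PA (TwoSys)
open Pool.Agent.Work.MP_787500_nt.KR (FSys ofTwo)
open Pool.Agent.Work.MP_787500_nt.HP

universe u

private theorem lt_core {Ω : Type u} [Field Ω] {D : Subgroup (Ω ≃+* Ω)} {U : Subgroup D}
    (hs : ∃ s : Finset Ω, ∀ g : D, (∀ x ∈ s, (g : Ω ≃+* Ω) x = x) → g ∈ U) (hi : U.index ≠ 0) :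
    ∃ W, (lfull D).mem W ∧ W ≤ U := by
  classical
  obtain ⟨s, hs⟩ := hs
  have : U.FiniteIndex := ⟨hi⟩
  have : Fintype (D ⧸ U) := Fintype.ofFinite _
  refine ⟨U.normalCore, ⟨⟨Finset.univ.biUnion fun q : D ⧸ U =>
    s.image fun x => ((q.out : D) : Ω ≃+* Ω) x, fun g hg => ?_⟩, Subgroup.normalCore_normal U, ?_⟩,
    Subgroup.normalCore_le U⟩
  · intro b
    set q : D ⧸ U := QuotientGroup.mk b⁻¹ with hq
    have h1 : (q.out : D)⁻¹ * b⁻¹ ∈ U := by
      rw [← QuotientGroup.eq]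
      exact Quotient.out_eq' q
    have h2 : (q.out : D)⁻¹ * g * q.out ∈ U := by
      apply hs
      intro x hx
      have h3 := hg (((q.out : D) : Ω ≃+* Ω) x) (Finset.mem_biUnion.2 ⟨q, Finset.mem_univ _,
        Finset.mem_image.2 ⟨x, hx, rfl⟩⟩)
      show (((q.out : D) : Ω ≃+* Ω)⁻¹) ((g : Ω ≃+* Ω) (((q.out : D) : Ω ≃+* Ω) x)) = x
      rw [h3]
      exact ((q.out : D) : Ω ≃+* Ω).symm_apply_apply x
    have h4 : b * g * b⁻¹ = ((q.out : D)⁻¹ * b⁻¹)⁻¹ * ((q.out : D)⁻¹ * g * q.out) *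
        ((q.out : D)⁻¹ * b⁻¹) := by group
    rw [h4]
    exact U.mul_mem (U.mul_mem (U.inv_mem h1) h2) h1
  · have := Subgroup.finiteIndex_normalCore U
    exact Subgroup.FiniteIndex.index_ne_zero

/-- the group `C₀` seen in the group of all automorphisms -/
private noncomputable def lte {Ω : Type u} [Field Ω] {D : Subgroup (Ω ≃+* Ω)} (C₀ : Subgroup D) :
    C₀ ≃* (C₀.map D.subtype) :=
  Subgroup.equivMapOfInjective C₀ D.subtype Subtype.coe_injective

private theorem lte_coe {Ω : Type u} [Field Ω] {D : Subgroup (Ω ≃+* Ω)} (C₀ : Subgroup D) (c : C₀) :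
    ((lte C₀ c : C₀.map D.subtype) : Ω ≃+* Ω) = ((c : D) : Ω ≃+* Ω) := rfl

private theorem lte_symm_coe {Ω : Type u} [Field Ω] {D : Subgroup (Ω ≃+* Ω)} (C₀ : Subgroup D)
    (c : C₀.map D.subtype) : ((((lte C₀).symm c : C₀) : D) : Ω ≃+* Ω) = (c : Ω ≃+* Ω) := by
  have h := lte_coe C₀ ((lte C₀).symm c)
  rw [MulEquiv.apply_symm_apply] at h
  exact h.symm

private theorem lt_back {Ω : Type u} [Field Ω] {D : Subgroup (Ω ≃+* Ω)} {C₀ : Subgroup D}
    (hO : KR.Opn (lfull D) C₀) {h : D → D → ZMod 2}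
    (hc : PA.Cob (fsys (C₀.map D.subtype)) ⊤
      (fun a b => h ((lte C₀).symm a : C₀) ((lte C₀).symm b : C₀))) :
    KR.Cob (KR.res (lfull D) C₀) (fun a b : C₀ => h a b) := by
  classical
  obtain ⟨z, ⟨V, ⟨⟨s, hs⟩, hVn, k, hVk⟩, hz⟩, hzz⟩ := hc
  obtain ⟨W, ⟨⟨t, ht⟩, hWn, hWi⟩, hWC⟩ := hO
  refine ⟨fun c => z (lte C₀ c), ?_, fun a b => ?_⟩
  · set V₀ : Subgroup C₀ := V.comap (lte C₀).toMonoidHom with hV₀
    have hV₀n : V₀.Normal := hVn.comap _
    have hV₀i : V₀.index ≠ 0 := by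
      rw [hV₀, Subgroup.index_comap_of_surjective _ (lte C₀).surjective, hVk]
      positivity
    have hC₀i : C₀.index ≠ 0 := fun h0 =>
      hWi (Nat.eq_zero_of_zero_dvd (h0 ▸ Subgroup.index_dvd_of_le hWC))
    have hU : (V₀.map C₀.subtype).index ≠ 0 := by
      have h1 : (V₀.map C₀.subtype) ≤ C₀ := by
        rintro _ ⟨x, -, rfl⟩
        exact x.2
      rw [← Subgroup.relIndex_mul_index h1]
      refine mul_ne_zero ?_ hC₀i
      have h2 : (V₀.map C₀.subtype).relIndex C₀ = V₀.index := by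
        unfold Subgroup.relIndex
        congr 1
        ext x
        simp [Subgroup.mem_subgroupOf]
      rw [h2]
      exact hV₀i
    obtain ⟨W₁, hW₁, hW₁U⟩ := lt_core (D := D) (U := V₀.map C₀.subtype) ⟨s ∪ t, fun g hg => by
      have h1 : g ∈ C₀ := hWC (ht g fun x hx => hg x (Finset.mem_union_right _ hx))
      refine ⟨⟨g, h1⟩, ?_, rfl⟩
      show lte C₀ ⟨g, h1⟩ ∈ V
      exact hs _ fun x hx => hg x (Finset.mem_union_left _ hx)⟩ hU
    refine ⟨V₀, ⟨hV₀n, W₁, hW₁, ?_⟩, fun g w hw => ?_⟩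
    · intro x hx
      obtain ⟨y, hy, hyx⟩ := hW₁U (show (x : D) ∈ W₁ from hx)
      have : y = x := Subtype.ext hyx
      rw [← this]
      exact hy
    · show z (lte C₀ (g * w)) = z (lte C₀ g)
      rw [map_mul]
      exact hz _ _ hw
  · have h1 := hzz (lte C₀ a) trivial (lte C₀ b) trivial
    simp only [MulEquiv.symm_apply_apply] at h1
    beta_reduce
    rw [h1, map_mul]

private theorem lt_coc {Ω : Type u} [Field Ω] {D : Subgroup (Ω ≃+* Ω)} {C₀ W : Subgroup D}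
    {h : D → D → ZMod 2} (hs : ∃ s : Finset Ω, ∀ g : D, (∀ x ∈ s, (g : Ω ≃+* Ω) x = x) → g ∈ W)
    (hn : W.Normal) (hk : ∃ k : ℕ, W.relIndex C₀ = 2 ^ k)
    (hW : ∀ a b, ∀ w ∈ W, ∀ w' ∈ W, h (a * w) (b * w') = h a b)
    (hc : ∀ a b c, h a b + h (a * b) c = h b c + h a (b * c)) :
    PA.Coc (fsys (C₀.map D.subtype)) ⊤
      (fun a b => h ((lte C₀).symm a : C₀) ((lte C₀).symm b : C₀)) := by
  obtain ⟨s, hs⟩ := hs
  obtain ⟨k, hk⟩ := hk
  refine ⟨⟨(W.subgroupOf C₀).comap (lte C₀).symm.toMonoidHom, ⟨⟨s, fun g hg => ?_⟩, ?_, k, ?_⟩,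
    fun a b w hw w' hw' => ?_⟩, fun a _ b _ c _ => ?_⟩
  · show (((lte C₀).symm g : C₀) : D) ∈ W
    refine hs _ fun x hx => ?_
    rw [lte_symm_coe]
    exact hg x hx
  · exact (hn.comap C₀.subtype).comap _
  · rw [Subgroup.index_comap_of_surjective _ (lte C₀).symm.surjective]
    exact hk
  · show h (((lte C₀).symm (a * w) : C₀) : D) (((lte C₀).symm (b * w') : C₀) : D) = _
    rw [map_mul, map_mul]
    exact hW _ _ _ hw _ hw'
  · show h (((lte C₀).symm a : C₀) : D) (((lte C₀).symm b : C₀) : D) +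
      h (((lte C₀).symm (a * b) : C₀) : D) (((lte C₀).symm c : C₀) : D) =
      h (((lte C₀).symm b : C₀) : D) (((lte C₀).symm c : C₀) : D) +
      h (((lte C₀).symm a : C₀) : D) (((lte C₀).symm (b * c) : C₀) : D)
    rw [map_mul, map_mul]
    exact hc _ _ _

theorem le_two {Ω : Type u} [Field Ω] [CharZero Ω] [IsAlgClosed Ω] {D : Subgroup (Ω ≃+* Ω)}
    (hLT : ∀ C : Subgroup (Ω ≃+* Ω), C ≤ D → (∃ W, OpnQ W ∧ D ⊓ W ≤ C) → PA.LocalType (fsys C))
    {g₀ : D → D → ZMod 2} (hg₀ : PA.Coc (fsys D) ⊤ g₀) (hn : ¬ PA.Cob (fsys D) ⊤ g₀)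
    {f : D → D → ZMod 2} (hf : KR.Coc (lfull D) f) :
    KR.Cob (lfull D) f ∨ KR.Cob (lfull D) (fun a b => f a b + g₀ a b) := by
  have hg : KR.Coc (lfull D) g₀ := (fin_fsys D).coc (coc_ofTwo.2 hg₀)
  obtain ⟨W, hW, hWf⟩ := hf.1
  obtain ⟨⟨s, hs⟩, hWn, hWi⟩ := id hW
  obtain ⟨C₀, hWC, hodd, hk⟩ := exists_syl hWn hWi
  have hO : KR.Opn (lfull D) C₀ := ⟨W, hW, hWC⟩
  have hLC : PA.LocalType (fsys (C₀.map D.subtype)) := by
    refine hLT _ ?_ ⟨?_, ⟨s, fun g hg => ?_⟩, ?_⟩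
    · rintro _ ⟨x, -, rfl⟩
      exact x.2
    · exact {
        carrier := {g | ∀ x ∈ s, g x = x}
        mul_mem' := by
          intro a b ha hb x hx
          show a (b x) = x
          rw [hb x hx, ha x hx]
        one_mem' := fun _ _ => rfl
        inv_mem' := by
          intro a ha x hx
          show a.symm x = x
          conv_lhs => rw [← ha x hx]
          exact a.symm_apply_apply x }
    · exact hg
    · rintro g ⟨hgD, hg1⟩
      exact ⟨⟨g, hgD⟩, hWC (hs ⟨g, hgD⟩ hg1), rfl⟩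
  have hfC := lt_coc (C₀ := C₀) ⟨s, hs⟩ hWn hk hWf hf.2
  have hgC : PA.Coc (fsys (C₀.map D.subtype)) ⊤
      (fun a b => g₀ ((lte C₀).symm a : C₀) ((lte C₀).symm b : C₀)) := by
    obtain ⟨V, ⟨hVs, hVn, k, hVk⟩, hV⟩ := hg₀.1
    refine lt_coc (C₀ := C₀) hVs hVn ?_ hV fun a b c => hg₀.2 a trivial b trivial c trivial
    have h1 : V.relIndex C₀ ∣ V.index := Subgroup.relIndex_dvd_index_of_normal V C₀
    rw [hVk] at h1
    obtain ⟨m, -, hm⟩ := (Nat.dvd_prime_pow Nat.prime_two).1 h1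
    exact ⟨m, hm⟩
  have hng : ¬ PA.Cob (fsys (C₀.map D.subtype)) ⊤
      (fun a b => g₀ ((lte C₀).symm a : C₀) ((lte C₀).symm b : C₀)) := by
    intro hcob
    obtain ⟨z, hz, hzz⟩ := tra_cob hO hodd hg (lt_back hO hcob)
    apply hn
    refine ⟨z, ?_, fun a _ b _ => hzz a b⟩
    have h2 : KR.Sm2 (ofTwo (fsys D)) (fun a b => z a + z b + z (a * b)) := by
      obtain ⟨V, hV, hVg⟩ := hg₀.1
      refine ⟨V, hV, fun a b w hw w' hw' => ?_⟩
      beta_reduce
      rw [← hzz, ← hzz]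
      exact hVg a b w hw w' hw'
    exact inj_two (clo_fsys D) (char_ofTwo (isChar_stb D)) hz h2
  by_cases hcf : PA.Cob (fsys (C₀.map D.subtype)) ⊤
      (fun a b => f ((lte C₀).symm a : C₀) ((lte C₀).symm b : C₀))
  · exact Or.inl (tra_cob hO hodd hf (lt_back hO hcf))
  · refine Or.inr (tra_cob hO hodd (coc_add hf hg) ?_)
    have h3 := hLC.one _ _ hfC hgC hcf hng
    exact lt_back (h := fun a b => f a b + g₀ a b) hO h3

end Pool.Agent.Work.MP_787500_nt.RQ
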