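import Mathlib
import Pool.Agent.Work.MP_787500_nt.RQ.LeTwo
import Pool.Agent.Work.MP_787500_nt.RQ.LT
import Pool.Agent.Work.MP_787500_nt.RQ.Eps
import Pool.Agent.Work.MP_787500_nt.GA.LocKum

/-!
# Module ATTWO (size S-M): at 2 every class modulo 2 dies over the field of the square root of -1

`hLT` is `locType_sub` (`Q ≠ ⊥` as `2 ∈ Q`, `2 ≠ 0`). `PA.LocalType (fsys (stb Q))` (`C = stb Q`). `e = eps` restricted to `stb Q` is in `homs (fsys (stb Q)) ⊤` (`eps_mul`, `eps_sm`, restriction of a member of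
`qsys`), and `e ≠ 0`: otherwise every `g ∈ stb Q` fixes `i` (`eps_fix`); transport to `AbsGal ℚ` (`α : AlgebraicClosure ℚ ≃+* Ω`, `emb_stb`) and use `GA.fixed_iff` (`GA/LocKum.lean`): then `-1` would be in
`LS w` for the place `w` of `ℚ` at 2 (`HN/Defs.lean`: `LocSq`, a limit of squares), but `-1` is not a square modulo 4: if `v (-1 - y ^ 2) ≤ v 4` (`y` rational, 2-integral) then
`y` is odd and `y ^ 2 + 1 ≡ 2` modulo 4. (Alternative: `cyQ` takes the value `-1` modulo 4 on `stb Q`.)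
`LocalType.nondeg`: there is `ω` with `g₀ = cup e ω` not `Cob`; `cup e ω ∈ PA.Coc (fsys (stb Q)) ⊤`. `le_two`: `f = d z` or `f = g₀ + d z`, and `g₀ a b = eps a * ω b = 0` for
`eps a = 0`.
-/

set_option autoImplicit false
set_option linter.unusedSectionVars false

namespace Pool.Agent.Work.MP_787500_nt.RQ

open NumberField IsDedekindDomain
open Pool.Agent.Work.MP_787500_nt.GP (A0 hf IsAct d0 d1 d2 tw iota)
open Pool.Agent.Work.MP_787500_nt.PA (TwoSys)
open Pool.Agent.Work.MP_787500_nt.KR (FSys ofTwo)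
open Pool.Agent.Work.MP_787500_nt.HP

universe u

private theorem at_alpha (F : Type*) [Field F] [NumberField F] {Ω : Type*} [Field Ω] [CharZero Ω]
    [IsAlgClosed Ω] [Algebra F Ω] (halg : Alg Ω) : Nonempty (AlgebraicClosure F ≃+* Ω) := by
  have hZ : Algebra.IsAlgebraic ℤ Ω := by
    refine ⟨fun x => ?_⟩
    obtain ⟨p, hp, hpx⟩ := halg x
    refine ⟨p, hp, ?_⟩
    rw [Polynomial.aeval_def]
    exact hpx
  have hcl : IsAlgClosure F Ω := by
    refine ⟨inferInstance, ⟨fun x => ?_⟩⟩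
    have h1 : IsAlgebraic ℚ x :=
      (IsFractionRing.isAlgebraic_iff ℤ ℚ Ω).1 (hZ.isAlgebraic x)
    exact h1.tower_top _
  exact ⟨(IsAlgClosure.equiv F (AlgebraicClosure F) Ω).toRingEquiv⟩

private theorem at_rat {F : Type*} [Field F] [NumberField F] (x : AlgebraicClosure F)
    (h : ∀ σ : AbsGal F, σ x = x) : ∃ q : F, algebraMap F (AlgebraicClosure F) q = x :=
  (InfiniteGalois.mem_range_algebraMap_iff_fixed (k := F) (K := AlgebraicClosure F) x).2 h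

/-- `-1` is not a local square at 2 -/
private theorem at_notsq {F : Type*} [Field F] [NumberField F] (hF : ∀ x : F, ∃ q : ℚ, x = (q : F))
    {w : HeightOneSpectrum (𝓞 F)} (h2 : (2 : 𝓞 F) ∈ w.asIdeal) :
    ¬ LocSq (w.valuation F) (-1 : F) := by
  intro hs
  have hle : ∀ m : ℤ, w.valuation F (m : F) ≤ 1 := by
    intro m
    have : w.valuation F (algebraMap (𝓞 F) F (m : 𝓞 F)) ≤ 1 := w.valuation_le_one _
    rwa [map_intCast] at this
  have hmem : ∀ m : ℤ, w.valuation F (m : F) < 1 → (m : 𝓞 F) ∈ w.asIdeal := by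
    intro m hm
    have h1 : w.valuation F (algebraMap (𝓞 F) F (m : 𝓞 F)) < 1 := by
      rw [map_intCast]
      exact hm
    exact (w.valuation_lt_one_iff_mem (K := F) (m : 𝓞 F)).1 h1
  have v2 : w.valuation F (2 : F) < 1 := by
    have : w.valuation F (algebraMap (𝓞 F) F 2) < 1 :=
      (w.valuation_lt_one_iff_mem (K := F) (2 : 𝓞 F)).2 h2
    rwa [map_ofNat] at this
  have v2ne : w.valuation F (2 : F) ≠ 0 := by
    rw [Valuation.ne_zero_iff]
    exact two_ne_zero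
  have hodd : ∀ m : ℤ, ¬ (2 : ℤ) ∣ m → w.valuation F (m : F) = 1 := by
    intro m hm
    refine le_antisymm (hle m) (not_lt.1 fun h => ?_)
    have h3 := hmem m h
    obtain ⟨k, hk⟩ : ∃ k : ℤ, m = 2 * k + 1 := ⟨m / 2, by omega⟩
    apply w.isPrime.ne_top
    rw [Ideal.eq_top_iff_one]
    have h4 : (1 : 𝓞 F) = (m : 𝓞 F) - (k : 𝓞 F) * 2 := by
      rw [hk]
      push_cast
      ring
    rw [h4]
    exact w.asIdeal.sub_mem h3 (w.asIdeal.mul_mem_left _ h2)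
  obtain ⟨y, hy⟩ := hs (w.valuation F (2 : F) * w.valuation F (2 : F)) (mul_ne_zero v2ne v2ne)
  obtain ⟨q, rfl⟩ := hF y
  have hb0 : ((q.den : ℤ) : F) ≠ 0 := by
    rw [Int.cast_natCast]
    exact Nat.cast_ne_zero.2 q.den_nz
  have hq : (q : F) = (q.num : F) / ((q.den : ℤ) : F) := by
    rw [Int.cast_natCast]
    exact_mod_cast Rat.cast_def (K := F) q
  have e1 : (-1 - (q : F) ^ 2) * (((q.den : ℤ) : F) * ((q.den : ℤ) : F)) =
      -((q.num * q.num + (q.den : ℤ) * (q.den : ℤ) : ℤ) : F) := by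
    rw [hq]
    push_cast
    field_simp
    ring
  have e2 := congrArg (w.valuation F) e1
  rw [Valuation.map_neg, map_mul, map_mul] at e2
  have h5 : w.valuation F ((q.num * q.num + (q.den : ℤ) * (q.den : ℤ) : ℤ) : F) <
      w.valuation F (2 : F) * w.valuation F (2 : F) := by
    rw [← e2]
    refine lt_of_le_of_lt ?_ hy
    exact mul_le_of_le_one_right' (mul_le_one' (hle _) (hle _))
  have hcop : ¬ ((2 : ℤ) ∣ q.num ∧ (2 : ℤ) ∣ (q.den : ℤ)) := by
    rintro ⟨h6, h7⟩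
    have h8 := q.reduced
    have h9 : 2 ∣ q.num.natAbs := Int.natCast_dvd.1 (by exact_mod_cast h6)
    have h10 : 2 ∣ q.den := by exact_mod_cast h7
    have h11 := Nat.dvd_gcd h9 h10
    rw [h8] at h11
    omega
  have hN : (¬ (2 : ℤ) ∣ (q.num * q.num + (q.den : ℤ) * (q.den : ℤ))) ∨
      ∃ k : ℤ, q.num * q.num + (q.den : ℤ) * (q.den : ℤ) = 2 * k ∧ ¬ (2 : ℤ) ∣ k := by
    generalize q.num = a at hcop
    generalize (q.den : ℤ) = c at hcop
    rcases Int.even_or_odd' a with ⟨a', rfl | rfl⟩ <;> rcases Int.even_or_odd' c with ⟨c', rfl | rfl⟩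
    · exact absurd ⟨Dvd.intro _ rfl, Dvd.intro _ rfl⟩ hcop
    · left
      have : 2 * a' * (2 * a') + (2 * c' + 1) * (2 * c' + 1) =
        2 * (2 * a' * a' + 2 * c' * c' + 2 * c') + 1 := by ring
      rw [this]
      omega
    · left
      have : (2 * a' + 1) * (2 * a' + 1) + 2 * c' * (2 * c') =
        2 * (2 * a' * a' + 2 * c' * c' + 2 * a') + 1 := by ring
      rw [this]
      omega
    · right
      refine ⟨2 * (a' * a' + c' * c' + a' + c') + 1, by ring, by omega⟩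
  have h22 : w.valuation F (2 : F) * w.valuation F (2 : F) ≤ w.valuation F (2 : F) :=
    mul_le_of_le_one_right' v2.le
  rcases hN with h6 | ⟨k, h6, h7⟩
  · rw [hodd _ h6] at h5
    exact absurd (h5.trans_le h22) (not_lt.2 v2.le)
  · rw [h6] at h5
    push_cast at h5
    rw [map_mul, hodd k h7, mul_one] at h5
    exact absurd h5 (not_lt.2 h22)

/-- some element of the decomposition group moves the square root of `-1` -/
private theorem at_exists {Ω : Type u} [Field Ω] [CharZero Ω] [IsAlgClosed Ω] (halg : Alg Ω)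
    {Q : Ideal (𝓞 Ω)} (hQ : Q.IsPrime) (h2 : (2 : 𝓞 Ω) ∈ Q) :
    ∃ g : stb Q, eps (g : Ω ≃+* Ω) ≠ 0 := by
  classical
  obtain ⟨α⟩ := at_alpha ℚ halg
  by_contra hcon
  push Not at hcon
  obtain ⟨i, hi⟩ := IsAlgClosed.exists_pow_nat_eq (-1 : Ω) (n := 2) (by norm_num)
  have hfixi : ∀ g ∈ stb Q, g i = i := fun g hg => (eps_fix hi g).1 (hcon ⟨g, hg⟩)
  have hQ' : (pb α Q).IsPrime := pb_prime α hQ
  have h2' : (2 : 𝓞 (AlgebraicClosure ℚ)) ∈ pb α Q := by
    have h3 := (pb_nat α (Q := Q) 2).2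
    rw [Nat.cast_ofNat, Nat.cast_ofNat] at h3
    exact h3 h2
  have hb' : pb α Q ≠ ⊥ := by
    intro h
    rw [h, Ideal.mem_bot] at h2'
    exact two_ne_zero h2'
  have hop : IsOpen ((⊤ : Subgroup (AbsGal ℚ)) : Set (AbsGal ℚ)) := isOpen_univ
  have hNF : NumberField (GP.Fx (⊤ : Subgroup (AbsGal ℚ))) := HN.fx_numberField hop
  have hF : ∀ x : GP.Fx (⊤ : Subgroup (AbsGal ℚ)), ∃ q : ℚ,
      x = (q : GP.Fx (⊤ : Subgroup (AbsGal ℚ))) := by
    intro x
    have hx : ∀ σ : AbsGal ℚ, σ (x : AlgebraicClosure ℚ) = x := fun σ => GP.mem_Fx.1 x.2 σ trivial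
    obtain ⟨q, hq⟩ := at_rat (x : AlgebraicClosure ℚ) hx
    refine ⟨q, Subtype.ext ?_⟩
    rw [← hq, eq_ratCast]
    push_cast
    rfl
  let w : HeightOneSpectrum (𝓞 (GP.Fx (⊤ : Subgroup (AbsGal ℚ)))) :=
    ⟨(pb α Q).comap (algebraMap (𝓞 (GP.Fx (⊤ : Subgroup (AbsGal ℚ)))) (𝓞 (AlgebraicClosure ℚ))),
      Ideal.comap_isPrime _ _, fun h => hb' (Ideal.eq_bot_of_comap_eq_bot h)⟩
  refine at_notsq hF (w := w) ?_ (GA.locSq_of_fixed' hop hQ' hb' (w := w) rfl (t := α.symm i)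
    (y := -1) ?_ fun g hg _ => ?_)
  · show algebraMap (𝓞 (GP.Fx (⊤ : Subgroup (AbsGal ℚ)))) (𝓞 (AlgebraicClosure ℚ)) 2 ∈ pb α Q
    rw [map_ofNat]
    exact h2'
  · rw [← map_pow, hi]
    push_cast
    rw [map_neg, map_one]
  · have h3 := hfixi (emb α g) ((emb_stb α).2 hg)
    rw [emb_apply] at h3
    rw [← α.symm_apply_apply (g (α.symm i)), h3]

theorem at_two {Ω : Type u} [Field Ω] [CharZero Ω] [IsAlgClosed Ω] (halg : Alg Ω)
    {Q : Ideal (𝓞 Ω)} (hQ : Q.IsPrime) (h2 : (2 : 𝓞 Ω) ∈ Q) {f : stb Q → stb Q → ZMod 2}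
    (hf : KR.Coc (lfull (stb Q)) f) : ∃ z : stb Q → ZMod 2, KR.Sm1 (lfull (stb Q)) z ∧
      ∀ a b : stb Q, eps (a : Ω ≃+* Ω) = 0 → eps (b : Ω ≃+* Ω) = 0 →
        f a b = z a + z b + z (a * b) := by
  have hb : Q ≠ ⊥ := by
    intro h
    rw [h, Ideal.mem_bot] at h2
    exact two_ne_zero h2
  have hLT : ∀ C : Subgroup (Ω ≃+* Ω), C ≤ stb Q → (∃ W, OpnQ W ∧ stb Q ⊓ W ≤ C) →
      PA.LocalType (fsys C) := fun C hC hop => locType_sub halg hQ hb hC hop
  have hL := hLT (stb Q) le_rfl ⟨⊤, ⟨∅, fun _ _ => trivial⟩, inf_le_left⟩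
  let e : stb Q → ZMod 2 := fun g => eps (g : Ω ≃+* Ω)
  have he : e ∈ PA.homs (fsys (stb Q)) ⊤ := by
    refine ⟨?_, fun g hg => absurd trivial hg, fun g _ h _ => eps_mul _ _⟩
    obtain ⟨W, ⟨⟨⟨s, hs⟩, hn, k, hk⟩, -⟩, h1⟩ := eps_sm (Ω := Ω) ∅
    refine ⟨W.subgroupOf (stb Q), ⟨⟨s, fun g hg => hs g hg⟩, inferInstance, ?_⟩,
      fun g w hw => h1 _ _ hw⟩
    have h3 : (W.subgroupOf (stb Q)).index ∣ W.index :=
      Subgroup.relIndex_dvd_index_of_normal W (stb Q)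
    rw [hk] at h3
    obtain ⟨m, _, hm⟩ := (Nat.dvd_prime_pow Nat.prime_two).1 h3
    exact ⟨m, hm⟩
  have hne : e ≠ 0 := by
    obtain ⟨g, hg⟩ := at_exists halg hQ h2
    intro h
    exact hg (congrFun h g)
  obtain ⟨ω, hω, hnc⟩ := hL.nondeg e he hne
  have hcoc : PA.Coc (fsys (stb Q)) ⊤ (PA.cup e ω) := by
    obtain ⟨⟨W, hW, h1⟩, -, h3⟩ := he
    obtain ⟨⟨W', hW', h1'⟩, -, h3'⟩ := hω
    refine ⟨⟨W ⊓ W', (fsys (stb Q)).inf hW hW', fun g h w hw w' hw' => ?_⟩,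
      fun g hg h hh k hk => ?_⟩
    · unfold PA.cup
      rw [h1 g w hw.1, h1' h w' hw'.2]
    · unfold PA.cup
      rw [h3 g hg h hh, h3' h hh k hk]
      ring
  rcases le_two hLT hcoc hnc hf with ⟨z, hz, h⟩ | ⟨z, hz, h⟩
  · exact ⟨z, hz, fun a b _ _ => h a b⟩
  · refine ⟨z, hz, fun a b ha _ => ?_⟩
    have h3 := h a b
    have h4 : PA.cup e ω a b = 0 := by
      show e a * ω b = 0
      rw [show e a = 0 from ha, zero_mul]
    beta_reduce at h3
    rw [h4, add_zero] at h3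
    exact h3

end Pool.Agent.Work.MP_787500_nt.RQ
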