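import Mathlib
import Pool.Agent.Work.MP_787500_nt.RQ.AtTwo
import Pool.Agent.Work.MP_787500_nt.RQ.Eps
import Pool.Agent.Work.MP_787500_nt.HN.ShaFull
import Pool.Agent.Work.MP_787500_nt.HP.EmbGood
import Pool.Agent.Work.MP_787500_nt.PA.ResKer

/-!
# Module SHAE (size M-L): classes modulo 2 over a field of odd degree

`f' a b = f (emb α a) (emb α b)`. Let `U₀ = {σ | eps (emb α σ) = 0}` (a subgroup by `eps_mul`), `i ∈ Ω`, `i ^ 2 = -1`.
(1) `f' ∈ PA.Coc (HN.fullSys F) ⊤`: the member is `W.comap (emb α)`: open (`open_of_fix`), normal, its index is `W.relIndex (emb α).range` (`Subgroup.index_comap` / `relIndex`), a power of 2;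
`HN.Full` is `Gn.GoodG 2 ⊤ ∅` (`pow`: the `2 ^ k`-th power is in it since the quotient has order `2 ^ k`).
(2) `U₀` is normal, open, of index at most 2: `PA.Opn (HN.fullSys F) U₀`. Its relative index in `⊤` is 2: otherwise `(emb α).range` would be contained in the kernel of `eps`, which has index 2 in
`Ω ≃+* Ω` (`eps c = 1` for some `c`: e.g. there is an automorphism with `g i = -i`), but the index of the range is odd (`Subgroup.relIndex_mul_index`).
(3) `IsTotallyComplex (HN.. Fx U₀)`: `Fx U₀` contains `α⁻¹ i` (`GP.mem_Fx`, `eps_fix`), whose square is `-1`; a real embedding would give a real number with square `-1`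
(`NumberField.IsTotallyComplex`, `InfinitePlace.not_isReal_iff_isComplex`; see `totallyComplex` in the folder `HP` for the pattern). `NumberField (Fx U₀)`: `HN.fx_numberField`.
(4) `HN.LCob (stabD Q ⊓ U₀) f'` for every prime `Q ≠ ⊥`: `Q = pb α Q'` (`exists_pb`), `Q' ≠ ⊥`. If `2 ∉ Q'`: `hl Q'` gives `z` on `stb Q'`; use `fun a => if h : emb α a ∈ stb Q' then z ⟨_, h⟩ else 0`
(`emb_stb`), which is locally constant in the sense of `LCob` (`U'` = the comap of the open subgroup of the finite set of the member of `lfull (stb Q')`). If `2 ∈ Q'`: the same with `at_two`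
for the restriction of `f` (`rs_coc`).
(5) `HN.sha_full` gives `Cob (fullSys F) U₀ f'`, and `PA.res_cob` (`V = U₀`, `U = ⊤`) `ψ`; `PA.chi U₀ ⊤ g = eps (emb α g)` (both are 1 exactly outside `U₀`; `eps` takes the values 0, 1).
-/

set_option autoImplicit false
set_option linter.unusedSectionVars false

namespace Pool.Agent.Work.MP_787500_nt.RQ

open NumberField
open Pool.Agent.Work.MP_787500_nt.GP (A0 hf IsAct d0 d1 d2 tw iota)
open Pool.Agent.Work.MP_787500_nt.PA (TwoSys)
open Pool.Agent.Work.MP_787500_nt.KR (FSys ofTwo)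
open Pool.Agent.Work.MP_787500_nt.HP

universe u

section

private theorem se_index {G : Type*} [Group G] (E : G →* Multiplicative (ZMod 2)) {g : G}
    (hg : E g ≠ 1) : E.ker.index = 2 := by
  rw [Subgroup.index_ker]
  have htop : E.range = ⊤ := by
    rw [eq_top_iff]
    intro x _
    have h2 : ∀ a b : Multiplicative (ZMod 2), a ≠ 1 → b = 1 ∨ b = a := by decide
    rcases h2 (E g) x hg with h | h
    · rw [h]; exact E.range.one_mem
    · rw [h]; exact ⟨g, rfl⟩
  rw [htop, Subgroup.card_top]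
  rw [Nat.card_eq_fintype_card]
  rfl

variable {Ω : Type u} [Field Ω] [CharZero Ω] [IsAlgClosed Ω]

/-- the character `eps` as a homomorphism -/
private noncomputable def seE : (Ω ≃+* Ω) →* Multiplicative (ZMod 2) where
  toFun g := Multiplicative.ofAdd (eps g)
  map_one' := by
    have h := eps_mul (1 : Ω ≃+* Ω) 1
    rw [mul_one] at h
    have h1 : eps (1 : Ω ≃+* Ω) = 0 := by
      have : ∀ x : ZMod 2, x = x + x → x = 0 := by decide
      exact this _ h
    rw [h1]
    rfl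
  map_mul' g h := by
    rw [eps_mul]
    rfl

private theorem seE_eq {g : Ω ≃+* Ω} : seE g = 1 ↔ eps g = 0 := Iff.rfl

private theorem se_exists (halg : Alg Ω) : ∃ g : Ω ≃+* Ω, eps g ≠ 0 := by
  obtain ⟨i, hi⟩ := IsAlgClosed.exists_pow_nat_eq (-1 : Ω) (n := 2) (by norm_num)
  have hZ : Algebra.IsAlgebraic ℤ Ω := by
    refine ⟨fun x => ?_⟩
    obtain ⟨p, hp, hpx⟩ := halg x
    refine ⟨p, hp, ?_⟩
    rw [Polynomial.aeval_def]
    exact hpx
  have hQ : Algebra.IsAlgebraic ℚ Ω :=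
    ⟨fun x => (IsFractionRing.isAlgebraic_iff ℤ ℚ Ω).1 (hZ.isAlgebraic x)⟩
  have hcl : IsAlgClosure ℚ Ω := ⟨inferInstance, hQ⟩
  by_contra hcon
  push Not at hcon
  have h1 : ∀ f : Gal(Ω/ℚ), f i = i := fun f => (eps_fix hi (f : Ω ≃+* Ω)).1 (hcon _)
  have h2 := (InfiniteGalois.mem_range_algebraMap_iff_fixed (k := ℚ) (K := Ω) i).2 h1
  obtain ⟨q, hq⟩ := h2
  rw [← hq, ← map_pow] at hi
  have h3 : q ^ 2 = -1 := by
    apply (algebraMap ℚ Ω).injective
    rw [hi, map_neg, map_one]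
  nlinarith [sq_nonneg q]

variable {F : Type u} [Field F] [NumberField F] (α : AlgebraicClosure F ≃+* Ω)

/-- the elements of the absolute Galois group that fix the square root of `-1` -/
private noncomputable def seU : Subgroup (AbsGal F) := (seE.comp (emb α)).ker

private theorem mem_seU {σ : AbsGal F} : σ ∈ seU α ↔ eps (emb α σ) = 0 := Iff.rfl

private theorem seU_index (halg : Alg Ω) (hodd : Odd (emb α).range.index) :
    (seU α).index = 2 := by
  obtain ⟨g, hg⟩ := se_exists halg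
  have h1 : (seE (Ω := Ω)).ker.index = 2 := se_index seE (g := g) fun h => hg (seE_eq.1 h)
  by_cases h : ∃ σ : AbsGal F, eps (emb α σ) ≠ 0
  · obtain ⟨σ, hσ⟩ := h
    exact se_index (seE.comp (emb α)) (g := σ) fun h => hσ (seE_eq.1 h)
  · exfalso
    push Not at h
    have h2 : (emb α).range ≤ (seE (Ω := Ω)).ker := by
      rintro _ ⟨σ, rfl⟩
      exact seE_eq.2 (h σ)
    have h3 := Subgroup.index_dvd_of_le h2
    rw [h1] at h3
    exact (Nat.not_even_iff_odd.2 hodd) (even_iff_two_dvd.2 h3)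

private theorem seU_open : IsOpen ((seU α : Subgroup (AbsGal F)) : Set (AbsGal F)) := by
  obtain ⟨i, hi⟩ := IsAlgClosed.exists_pow_nat_eq (-1 : Ω) (n := 2) (by norm_num)
  refine open_of_fix α {i} fun σ hσ => ?_
  rw [mem_seU, eps_fix hi, emb_apply, hσ i (Finset.mem_singleton_self i),
    RingEquiv.apply_symm_apply]

private theorem seU_full (halg : Alg Ω) (hodd : Odd (emb α).range.index) :
    HN.Full F (seU α) := by
  have hn : (seU α).Normal := MonoidHom.normal_ker _
  refine ⟨hn, seU_open α, le_top, fun g _ => ⟨1, ?_⟩, fun σ hσ => hσ.elim⟩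
  have h := (seU α).pow_index_mem g
  rw [seU_index α halg hodd] at h
  rw [pow_one]
  exact h

/-- the subgroup of the elements that fix finitely many elements -/
private def seFix (s : Finset Ω) : Subgroup (AbsGal F) where
  carrier := {σ | ∀ x ∈ s, σ (α.symm x) = α.symm x}
  mul_mem' := by
    intro σ τ hσ hτ x hx
    show σ (τ (α.symm x)) = α.symm x
    rw [hτ x hx, hσ x hx]
  one_mem' := fun _ _ => rfl
  inv_mem' := by
    intro σ hσ x hx
    have h := hσ x hx
    show σ.symm (α.symm x) = α.symm x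
    rw [AlgEquiv.symm_apply_eq]
    exact h.symm

private theorem seFix_open (s : Finset Ω) :
    IsOpen ((seFix α s : Subgroup (AbsGal F)) : Set (AbsGal F)) :=
  open_of_fix α s fun _ hσ => hσ

/-- a local coboundary pulled back to the absolute Galois group -/
private theorem se_lcob {D : Subgroup (Ω ≃+* Ω)} {C : Subgroup (AbsGal F)}
    (hCD : ∀ σ ∈ C, emb α σ ∈ D) {f : (Ω ≃+* Ω) → (Ω ≃+* Ω) → ZMod 2} {z : D → ZMod 2}
    (hz : KR.Sm1 (lfull D) z)
    (h : ∀ (σ τ : AbsGal F) (hσ : σ ∈ C) (hτ : τ ∈ C), f (emb α σ) (emb α τ) =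
      z ⟨_, hCD σ hσ⟩ + z ⟨_, hCD τ hτ⟩ + z (⟨_, hCD σ hσ⟩ * ⟨_, hCD τ hτ⟩)) :
    HN.LCob C (fun a b => f (emb α a) (emb α b)) := by
  classical
  obtain ⟨V, ⟨⟨s, hs⟩, _, _⟩, hV⟩ := hz
  refine ⟨fun a => if h : emb α a ∈ D then z ⟨_, h⟩ else 0, ⟨seFix α s, seFix_open α s,
    fun g hg w hw => ?_⟩, fun g hg k hk => ?_⟩
  · have h1 := hCD g hg
    have h2 := hCD w hw.1
    have h3 := hCD (g * w) (C.mul_mem hg hw.1)
    beta_reduce
    rw [dif_pos h1, dif_pos h3]
    have h4 : (⟨emb α (g * w), h3⟩ : D) = ⟨emb α g, h1⟩ * ⟨emb α w, h2⟩ := by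
      apply Subtype.ext
      exact map_mul _ _ _
    rw [h4]
    refine hV _ _ (hs _ fun x hx => ?_)
    show emb α w x = x
    rw [emb_apply, hw.2 x hx, RingEquiv.apply_symm_apply]
  · have h1 := hCD g hg
    have h2 := hCD k hk
    have h3 := hCD (g * k) (C.mul_mem hg hk)
    beta_reduce
    rw [dif_pos h1, dif_pos h2, dif_pos h3, h g k hg hk]
    have h4 : (⟨emb α (g * k), h3⟩ : D) = ⟨emb α g, h1⟩ * ⟨emb α k, h2⟩ := by
      apply Subtype.ext
      exact map_mul _ _ _
    rw [h4]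

end

theorem sha_emb {Ω : Type u} [Field Ω] [CharZero Ω] [IsAlgClosed Ω] (halg : Alg Ω)
    {F : Type u} [Field F] [NumberField F] (α : AlgebraicClosure F ≃+* Ω)
    (hodd : Odd (emb α).range.index) {W : Subgroup (Ω ≃+* Ω)} (hW : OpnQ W) (hn : W.Normal)
    (hi : ∃ k : ℕ, W.relIndex (emb α).range = 2 ^ k) {f : (Ω ≃+* Ω) → (Ω ≃+* Ω) → ZMod 2}
    (hfW : ∀ g h, ∀ w ∈ W, ∀ w' ∈ W, f (g * w) (h * w') = f g h)
    (hc : ∀ g h k, f g h + f (g * h) k = f h k + f g (h * k))
    (hl : ∀ Q : Ideal (𝓞 Ω), Q.IsPrime → Q ≠ ⊥ → (2 : 𝓞 Ω) ∉ Q →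
      KR.Cob (lfull (stb Q)) (rs (stb Q) f)) :
    ∃ ψ ∈ PA.homs (HN.fullSys F) ⊤, PA.Cob (HN.fullSys F) ⊤
      (fun a b => f (emb α a) (emb α b) + eps (emb α a) * ψ b) := by
  classical
  -- the class is smooth on the absolute Galois group of `F`
  have hfull : HN.Full F (W.comap (emb α)) := by
    refine ⟨hn.comap _, ?_, le_top, fun g _ => ?_, fun σ hσ => hσ.elim⟩
    · obtain ⟨s, hs⟩ := hW
      refine open_of_fix α s fun σ hσ => ?_
      rw [Subgroup.mem_comap]
      refine hs _ fun x hx => ?_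
      rw [emb_apply, hσ x hx, RingEquiv.apply_symm_apply]
    · obtain ⟨k, hk⟩ := hi
      refine ⟨k, ?_⟩
      have h := (W.comap (emb α)).pow_index_mem g
      rw [Subgroup.index_comap, hk] at h
      exact h
  have hcoc : PA.Coc (HN.fullSys F) ⊤ (fun a b => f (emb α a) (emb α b)) := by
    refine ⟨⟨_, hfull, fun g h w hw w' hw' => ?_⟩, fun g _ h _ k _ => ?_⟩
    · beta_reduce
      rw [map_mul, map_mul]
      exact hfW _ _ _ hw _ hw'
    · beta_reduce
      rw [map_mul, map_mul]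
      exact hc _ _ _
  -- the class is smooth on the group of automorphisms of `Ω`
  have hidx : W.index ≠ 0 := by
    intro h0
    obtain ⟨k, hk⟩ := hi
    have h1 : (W ⊓ (emb α).range).index = W.relIndex (emb α).range * (emb α).range.index := by
      rw [← Subgroup.inf_relIndex_right, Subgroup.relIndex_mul_index inf_le_right]
    have h2 : W.index ∣ (W ⊓ (emb α).range).index := Subgroup.index_dvd_of_le inf_le_left
    rw [h0, zero_dvd_iff, h1, hk] at h2
    rcases Nat.mul_eq_zero.1 h2 with h3 | h3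
    · exact absurd h3 (by positivity)
    · rw [h3] at hodd
      exact absurd hodd (by decide)
  have hcoc' : KR.Coc (afull Ω) f := ⟨⟨W, ⟨hW, hn, hidx⟩, hfW⟩, hc⟩
  have hU := seU_full α halg hodd
  have hUo : PA.Opn (HN.fullSys F) (seU α) := ⟨_, hU, le_rfl⟩
  have hind := seU_index α halg hodd
  have hrel : (seU α).relIndex ⊤ = 2 := by
    rw [Subgroup.relIndex_top_right]
    exact hind
  have hNF : NumberField (GP.Fx (seU α)) := HN.fx_numberField (seU_open α)
  have htc : IsTotallyComplex (GP.Fx (seU α)) := by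
    obtain ⟨i, hi'⟩ := IsAlgClosed.exists_pow_nat_eq (-1 : Ω) (n := 2) (by norm_num)
    have hmem : α.symm i ∈ GP.Fx (seU α) := by
      rw [GP.mem_Fx]
      intro u hu
      have h1 := (eps_fix hi' _).1 ((mem_seU α).1 hu)
      rw [emb_apply] at h1
      exact α.injective (by rw [h1, RingEquiv.apply_symm_apply])
    refine ⟨fun v => ?_⟩
    rw [← InfinitePlace.not_isReal_iff_isComplex]
    intro hv
    have hsq : (⟨α.symm i, hmem⟩ : GP.Fx (seU α)) ^ 2 = -1 := by
      apply Subtype.ext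
      show (α.symm i) ^ 2 = -1
      rw [← map_pow, hi', map_neg, map_one]
    have h := congrArg (InfinitePlace.embedding_of_isReal hv) hsq
    rw [map_pow, map_neg, map_one] at h
    nlinarith [sq_nonneg (InfinitePlace.embedding_of_isReal hv ⟨α.symm i, hmem⟩)]
  have hloc : ∀ Q : Ideal (𝓞 (AlgebraicClosure F)), Q.IsPrime → Q ≠ ⊥ →
      HN.LCob (GP.stabD Q ⊓ seU α) (fun a b => f (emb α a) (emb α b)) := by
    intro Q hQ hQb
    obtain ⟨Q', hQ', rfl⟩ := exists_pb α hQ
    have hQb' : Q' ≠ ⊥ := by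
      rintro rfl
      apply hQb
      rw [eq_bot_iff]
      intro x hx
      rw [mem_pb, Ideal.mem_bot] at hx
      rw [Ideal.mem_bot]
      exact (RingOfIntegers.mapRingEquiv α).injective (by rw [hx, map_zero])
    have hCD : ∀ σ ∈ GP.stabD (pb α Q') ⊓ seU α, emb α σ ∈ stb Q' := fun σ hσ =>
      (emb_stb α).2 hσ.1
    by_cases h2 : (2 : 𝓞 Ω) ∈ Q'
    · obtain ⟨z, hz, hzz⟩ := at_two halg hQ' h2 (rs_coc (stb Q') hcoc')
      refine se_lcob α hCD hz fun σ τ hσ hτ => ?_
      exact hzz ⟨_, hCD σ hσ⟩ ⟨_, hCD τ hτ⟩ hσ.2 hτ.2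
    · obtain ⟨z, hz, hzz⟩ := hl Q' hQ' hQb' h2
      refine se_lcob α hCD hz fun σ τ hσ hτ => ?_
      exact hzz ⟨_, hCD σ hσ⟩ ⟨_, hCD τ hτ⟩
  have hcocU : PA.Coc (HN.fullSys F) (seU α) (fun a b => f (emb α a) (emb α b)) :=
    ⟨hcoc.1, fun g _ h _ k _ => hcoc.2 g trivial h trivial k trivial⟩
  have hcob := HN.sha_full hUo htc hcocU hloc
  obtain ⟨ψ, hψ, hcψ⟩ := PA.res_cob (le_top : seU α ≤ ⊤) hUo hrel hcoc hcob
  refine ⟨ψ, hψ, ?_⟩
  obtain ⟨y, hy, h3⟩ := hcψ
  refine ⟨y, hy, fun g hg h hh => ?_⟩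
  rw [← h3 g hg h hh]
  beta_reduce
  have h4 : PA.chi (seU α) ⊤ g = eps (emb α g) := by
    unfold PA.chi
    have hz : ∀ a : ZMod 2, a = 0 ∨ a = 1 := by decide
    rcases hz (eps (emb α g)) with h5 | h5
    · rw [h5, if_neg fun h6 => h6.2 ((mem_seU α).2 h5)]
    · have hnot : g ∉ seU α := by
        intro h6
        rw [(mem_seU α).1 h6] at h5
        exact absurd h5 (by decide)
      rw [h5, if_pos ⟨trivial, hnot⟩]
  show _ = f (emb α g) (emb α h) + PA.chi (seU α) ⊤ g * ψ h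
  rw [h4]

end Pool.Agent.Work.MP_787500_nt.RQ
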