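import Mathlib
import Pool.Agent.Work.MP_787500_nt.RQ.ShaE
import Pool.Agent.Work.MP_787500_nt.GA.FieldC
import Pool.Agent.Work.MP_787500_nt.RQ.Syl
import Pool.Agent.Work.MP_787500_nt.RQ.TraB

/-!
# Module REDI (size M): a class modulo 2 that is trivial at all odd primes is a cup product with eps

Let `W ∈ afull Ω` with `f` constant on its cosets. `exists_syl` gives `C ≥ W` of odd index with `W.relIndex C = 2 ^ k`; `C` is open. `GA.exists_field` gives `F`, `α` with `(emb α).range = C`. `sha_emb` gives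
`ψ` and a smooth `z` with `f (emb a) (emb b) + eps (emb a) * ψ b = z a + z b + z (a b)`. The isomorphism `AbsGal F ≃ C` (`emb_inj`) transports `ψ`, `z` to `C`: they are smooth for
`KR.res (afull Ω) C`: a member of `HN.fullSys F` is open of finite index: its image under `emb α` contains the subgroup of all elements of `C` that fix a finite set (`extk_fix` in
`HP/ExtK.lean`, private, copy it), so it has finite index in `Ω ≃+* Ω` (`C` has) and is `OpnQ`; its normal core (`Subgroup.normalCore`, the intersection of finitely many conjugates) is a member of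
`afull Ω`. (A general lemma: every `OpnQ` subgroup of finite index contains a member of `afull Ω`.) `tra_cup` with `F = afull Ω`, `x = eps` gives `b`.
-/

set_option autoImplicit false
set_option linter.unusedSectionVars false

namespace Pool.Agent.Work.MP_787500_nt.RQ

open NumberField
open Pool.Agent.Work.MP_787500_nt.GP (A0 hf IsAct d0 d1 d2 tw iota)
open Pool.Agent.Work.MP_787500_nt.PA (TwoSys)
open Pool.Agent.Work.MP_787500_nt.KR (FSys ofTwo)
open Pool.Agent.Work.MP_787500_nt.HP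

universe u

/-- finitely many elements from an open subgroup -/
private theorem redi_fix {K : Type u} [Field K] {W : Subgroup (AbsGal K)}
    (hW : IsOpen (W : Set (AbsGal K))) :
    ∃ s : Finset (AlgebraicClosure K), ∀ σ : AbsGal K, (∀ x ∈ s, σ x = x) → σ ∈ W := by
  classical
  obtain ⟨E, hE, h⟩ := (krullTopology_mem_nhds_one_iff K (AlgebraicClosure K) _).1
    (hW.mem_nhds W.one_mem)
  have hfd : FiniteDimensional K E := hE
  let b := Module.finBasis K E
  refine ⟨Finset.univ.image fun i => (b i : AlgebraicClosure K), fun σ hσ => h ?_⟩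
  rw [SetLike.mem_coe, IntermediateField.mem_fixingSubgroup_iff]
  intro x hx
  have h1 := congrArg (fun y : E => (y : AlgebraicClosure K)) (b.sum_repr ⟨x, hx⟩)
  have h2 : ∑ i, algebraMap K (AlgebraicClosure K) (b.repr ⟨x, hx⟩ i) *
      (b i : AlgebraicClosure K) = x := by
    refine Eq.trans ?_ h1
    simp only [IntermediateField.coe_sum, Algebra.smul_def]
    rfl
  have h3 : ∀ i, σ (b i : AlgebraicClosure K) = b i := fun i =>
    hσ _ (Finset.mem_image_of_mem _ (Finset.mem_univ i))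
  have h4 : ∀ a : K, σ (algebraMap K (AlgebraicClosure K) a) = algebraMap K (AlgebraicClosure K) a :=
    fun a => AlgEquiv.commutes σ a
  rw [← h2, map_sum]
  refine Finset.sum_congr rfl fun i _ => ?_
  rw [map_mul, h3, h4]

/-- every open subgroup of finite index contains a normal one -/
private theorem redi_core {Ω : Type u} [Field Ω] {U : Subgroup (Ω ≃+* Ω)} (hU : OpnQ U)
    (hi : U.index ≠ 0) : ∃ W, (afull Ω).mem W ∧ W ≤ U := by
  classical
  have hfi : U.FiniteIndex := ⟨hi⟩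
  have hft : Finite ((Ω ≃+* Ω) ⧸ U) := inferInstance
  have := Fintype.ofFinite ((Ω ≃+* Ω) ⧸ U)
  obtain ⟨s, hs⟩ := hU
  refine ⟨U.normalCore, ⟨⟨Finset.univ.biUnion fun q : (Ω ≃+* Ω) ⧸ U => s.image q.out,
    fun g hg => ?_⟩, inferInstance, (Subgroup.finiteIndex_normalCore U).index_ne_zero⟩,
    U.normalCore_le⟩
  intro b
  obtain ⟨h, hh⟩ := QuotientGroup.mk_out_eq_mul U b⁻¹
  set q : Ω ≃+* Ω := (QuotientGroup.mk b⁻¹ : (Ω ≃+* Ω) ⧸ U).out with hq
  have h1 : q⁻¹ * g * q ∈ U := by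
    apply hs
    intro x hx
    have h2 : g (q x) = q x := hg _ (Finset.mem_biUnion.2 ⟨QuotientGroup.mk b⁻¹,
      Finset.mem_univ _, Finset.mem_image_of_mem _ hx⟩)
    show q⁻¹ (g (q x)) = x
    rw [h2]
    show (q⁻¹ * q) x = x
    rw [inv_mul_cancel]
    rfl
  have h3 : b * g * b⁻¹ = (h : Ω ≃+* Ω) * (q⁻¹ * g * q) * (h : Ω ≃+* Ω)⁻¹ := by
    rw [hh]
    group
  rw [h3]
  exact U.mul_mem (U.mul_mem h.2 h1) (U.inv_mem h.2)

theorem red_i {Ω : Type u} [Field Ω] [CharZero Ω] [IsAlgClosed Ω] (halg : Alg Ω)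
    {f : (Ω ≃+* Ω) → (Ω ≃+* Ω) → ZMod 2} (hf : KR.Coc (afull Ω) f)
    (hl : ∀ Q : Ideal (𝓞 Ω), Q.IsPrime → Q ≠ ⊥ → (2 : 𝓞 Ω) ∉ Q →
      KR.Cob (lfull (stb Q)) (rs (stb Q) f)) :
    ∃ b : (Ω ≃+* Ω) → ZMod 2, KR.Sm1 (afull Ω) b ∧ (∀ g h, b (g * h) = b g + b h) ∧
      KR.Cob (afull Ω) (fun g h => f g h + eps g * b h) := by
  classical
  obtain ⟨W, hW, hfW⟩ := hf.1
  obtain ⟨C, hWC, hodd, hk⟩ := exists_syl hW.2.1 hW.2.2
  have hC : OpnQ C := by
    obtain ⟨s, hs⟩ := hW.1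
    exact ⟨s, fun g hg => hWC (hs g hg)⟩
  obtain ⟨F, hF1, hF2, α, hα⟩ := GA.exists_field halg hC
  obtain ⟨ψ, hψ, z, hz, hz'⟩ := sha_emb halg α (by rw [hα]; exact hodd) hW.1 hW.2.1
    (by rw [hα]; exact hk) (f := f) hfW hf.2 hl
  have hex : ∀ c : C, ∃ τ, emb α τ = (c : Ω ≃+* Ω) := fun c =>
    MonoidHom.mem_range.1 (hα.symm ▸ c.2 : (c : Ω ≃+* Ω) ∈ (emb α).range)
  choose σ hσ using hex
  have hmul : ∀ a b : C, σ (a * b) = σ a * σ b := fun a b => emb_inj α (by
    rw [hσ, map_mul, hσ, hσ]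
    rfl)
  let σ' : C →* AbsGal F := MonoidHom.mk' σ hmul
  have htr : ∀ W₂ : Subgroup (AbsGal F), (HN.fullSys F).mem W₂ →
      ∃ V, (KR.res (afull Ω) C).mem V ∧ ∀ v ∈ V, σ v ∈ W₂ := by
    intro W₂ hW₂
    have hn2 : W₂.Normal := (HN.fullSys F).normal hW₂
    obtain ⟨k, hk2⟩ := (HN.fullSys F).index hW₂
    obtain ⟨s₂, hs₂⟩ := redi_fix hW₂.isOpen
    obtain ⟨s, hs⟩ := hC
    have hU : OpnQ (W₂.map (emb α)) := by
      refine ⟨s ∪ s₂.image α, fun g hg => ?_⟩
      have hgC : g ∈ C := hs g fun x hx => hg x (Finset.mem_union_left _ hx)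
      refine ⟨σ ⟨g, hgC⟩, hs₂ _ fun x hx => ?_, hσ ⟨g, hgC⟩⟩
      have h1 : g (α x) = α x := hg _ (Finset.mem_union_right _ (Finset.mem_image_of_mem _ hx))
      have h2 : emb α (σ ⟨g, hgC⟩) (α x) = α x := by
        rw [hσ ⟨g, hgC⟩]
        exact h1
      rw [emb_apply, α.symm_apply_apply] at h2
      exact α.injective h2
    have hidx : (W₂.map (emb α)).index ≠ 0 := by
      rw [Subgroup.index_map, (MonoidHom.ker_eq_bot_iff (emb α)).2 (emb_inj α), sup_bot_eq, hα, hk2]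
      exact mul_ne_zero (by positivity) hodd.pos.ne'
    obtain ⟨W₁, hW₁, hle⟩ := redi_core hU hidx
    refine ⟨W₂.comap σ', ⟨inferInstance, W₁, hW₁, fun c hc => ?_⟩, fun v hv => hv⟩
    obtain ⟨τ, hτ, hτ'⟩ := hle hc
    have h1 : τ = σ c := emb_inj α (by
      rw [hσ]
      exact hτ')
    show σ c ∈ W₂
    rw [← h1]
    exact hτ
  have hsm : ∀ y : AbsGal F → ZMod 2, PA.Sm1 (HN.fullSys F) y →
      KR.Sm1 (KR.res (afull Ω) C) fun c => y (σ c) := by
    rintro y ⟨W₂, hW₂, hy⟩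
    obtain ⟨V, hV, hV'⟩ := htr W₂ hW₂
    refine ⟨V, hV, fun g w hw => ?_⟩
    show y (σ (g * w)) = y (σ g)
    rw [hmul]
    exact hy _ _ (hV' w hw)
  refine tra_cup (C := C) ⟨W, hW, hWC⟩ hodd hf ((fin_qsys' ∅).sm1 (eps_sm ∅)) eps_mul
    (hsm ψ hψ.1) (fun g h => ?_) ⟨fun c => z (σ c), hsm z hz, fun g h => ?_⟩
  · rw [hmul]
    exact hψ.2.2 _ trivial _ trivial
  · have h1 : f (emb α (σ g)) (emb α (σ h)) + eps (emb α (σ g)) * ψ (σ h) =
        z (σ g) + z (σ h) + z (σ g * σ h) := hz' (σ g) trivial (σ h) trivial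
    rw [hσ, hσ, ← hmul] at h1
    exact h1

end Pool.Agent.Work.MP_787500_nt.RQ
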