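import Mathlib
import Pool.Agent.Work.MP_787500_nt.RQ.Basic
import Pool.Agent.Work.MP_787500_nt.HN.KumF
import Pool.Agent.Work.MP_787500_nt.HP.EmbGood
import Pool.Agent.Work.MP_787500_nt.HP.FieldQ

/-!
# Module SQRQ (size S-M): smooth homomorphisms modulo 2 are square roots of integers

`α : AlgebraicClosure ℚ ≃+* Ω`, `emb α` bijective. `b ∘ emb α ∈ PA.homs (HN.fullSys ℚ) ⊤`: it is additive and constant on the cosets of the comap of a member; its kernel is an open normal subgroup of index at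
most 2, a member of the full system. `HN.exists_act2F` (`U = ⊤`) gives `t ≠ 0` with `t ^ 2` fixed by all of `AbsGal ℚ`, so `t ^ 2 = q` rational (`Fx ⊤ = ⊥`, `InfiniteGalois` or
`IsGalois.mem_bot_iff_fixed`), and `b (emb α g) = 0` iff `g t = t`. With the denominator `d` of `q`: `(d t) ^ 2 = d ^ 2 q` is an integer `n ≠ 0`; take `α (d t)`.
-/

set_option autoImplicit false
set_option linter.unusedSectionVars false

namespace Pool.Agent.Work.MP_787500_nt.RQ

open NumberField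
open Pool.Agent.Work.MP_787500_nt.GP (A0 hf IsAct d0 d1 d2 tw iota)
open Pool.Agent.Work.MP_787500_nt.PA (TwoSys)
open Pool.Agent.Work.MP_787500_nt.KR (FSys ofTwo)
open Pool.Agent.Work.MP_787500_nt.HP

universe u

private theorem sq_alpha (F : Type*) [Field F] [NumberField F] {Ω : Type*} [Field Ω] [CharZero Ω]
    [IsAlgClosed Ω] [Algebra F Ω] (halg : Alg Ω) : Nonempty (AlgebraicClosure F ≃+* Ω) := by
  have hZ : Algebra.IsAlgebraic ℤ Ω := by
    refine ⟨fun x => ?_⟩
    obtain ⟨p, hp, hpx⟩ := halg x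
    refine ⟨p, hp, ?_⟩
    rw [Polynomial.aeval_def]
    exact hpx
  have hcl : IsAlgClosure F Ω := by
    refine ⟨inferInstance, ⟨fun x => ?_⟩⟩
    have h1 : IsAlgebraic ℚ x :=
      (IsFractionRing.isAlgebraic_iff ℤ ℚ Ω).1 (hZ.isAlgebraic x)
    exact h1.tower_top _
  exact ⟨(IsAlgClosure.equiv F (AlgebraicClosure F) Ω).toRingEquiv⟩

private theorem sq_rat {F : Type*} [Field F] [NumberField F] (x : AlgebraicClosure F)
    (h : ∀ σ : AbsGal F, σ x = x) : ∃ q : F, algebraMap F (AlgebraicClosure F) q = x :=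
  (InfiniteGalois.mem_range_algebraMap_iff_fixed (k := F) (K := AlgebraicClosure F) x).2 h

theorem exists_int_root {Ω : Type u} [Field Ω] [CharZero Ω] [IsAlgClosed Ω] (halg : Alg Ω)
    {b : (Ω ≃+* Ω) → ZMod 2} (hb : KR.Sm1 (afull Ω) b) (hm : ∀ g h, b (g * h) = b g + b h) :
    ∃ (n : ℤ) (t : Ω), n ≠ 0 ∧ t ^ 2 = (n : Ω) ∧ ∀ g, b g = 0 ↔ g t = t := by
  classical
  obtain ⟨α⟩ := sq_alpha ℚ halg
  have hsurj : ∀ g : Ω ≃+* Ω, ∃ σ, emb α σ = g := by
    intro g
    refine (emb_iff α g).2 fun x => ?_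
    rw [eq_ratCast, map_ratCast, map_ratCast]
  obtain ⟨W, ⟨⟨s, hs⟩, hWn, hWi⟩, hW1⟩ := hb
  have hb1 : b 1 = 0 := by
    have := hm 1 1
    rw [mul_one] at this
    simpa using this
  obtain ⟨t, ht0, ht1, ht2⟩ := GP.exists_kum (K := ℚ) (C := ⊤) isClosed_univ
    (fun σ => b (emb α σ)) (fun g _ h _ => by rw [map_mul, hm])
    ⟨W.comap (emb α), open_of_fix α s fun σ hσ => by
      rw [Subgroup.mem_comap]
      refine hs _ fun x hx => ?_
      rw [emb_apply, hσ x hx, RingEquiv.apply_symm_apply],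
    fun g hg => by
      have h1 := hW1 1 (emb α g) hg.2
      rwa [one_mul, hb1] at h1⟩
  have hfix : ∀ σ : AbsGal ℚ, σ (t ^ 2) = t ^ 2 := by
    intro σ
    rcases ht1 σ trivial with h | h
    · rw [map_pow, h]
    · rw [map_pow, h, neg_sq]
  obtain ⟨q, hq⟩ := sq_rat (t ^ 2) hfix
  have hq0 : q ≠ 0 := by
    rintro rfl
    rw [map_zero] at hq
    exact pow_ne_zero 2 ht0 hq.symm
  have hd0 : (q.den : Ω) ≠ 0 := Nat.cast_ne_zero.2 q.den_nz
  refine ⟨q.num * q.den, (q.den : Ω) * α t, ?_, ?_, fun g => ?_⟩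
  · exact mul_ne_zero (Rat.num_ne_zero.2 hq0) (Int.natCast_ne_zero.2 q.den_nz)
  · rw [mul_pow, ← map_pow, ← hq, eq_ratCast, map_ratCast]
    push_cast
    have h1 : (q : Ω) = (q.num : Ω) / (q.den : Ω) := by
      exact_mod_cast Rat.cast_def (K := Ω) q
    rw [h1]
    field_simp
  · obtain ⟨σ, rfl⟩ := hsurj g
    rw [ht2 σ trivial, map_mul, map_natCast, emb_apply, RingEquiv.symm_apply_apply]
    constructor
    · intro h
      rw [h]
    · intro h
      exact α.injective (mul_left_cancel₀ hd0 h)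

end Pool.Agent.Work.MP_787500_nt.RQ
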