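import Mathlib
import Pool.Agent.Work.MP_787500_nt.RQ.Eps
import Pool.Agent.Work.MP_787500_nt.HN.NormCup
import Pool.Agent.Work.MP_787500_nt.HP.EmbGood
import Pool.Agent.Work.MP_787500_nt.HP.FieldQ

/-!
# Module TWOSQ (size S-M): the cup product of eps with a sum of two squares

`Nat.eq_sq_add_sq_iff` (Mathlib, `Mathlib/NumberTheory/SumTwoSquares.lean`): `n.natAbs = x ^ 2 + y ^ 2` (the hypothesis for all primes `p % 4 = 3`; `padicValInt p n = padicValNat p n.natAbs`), so `n = x ^ 2 + y ^ 2`.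
`K = ℚ`, `α : AlgebraicClosure ℚ ≃+* Ω`, `U = ⊤`: `n ∈ Nm (-1)` in `Fx ⊤`; `HN.cob_of_norm` with `r = α⁻¹ i`, `t' = α⁻¹ t` gives `Cob (fullSys ℚ) ⊤ (cup (act2 ⊤ r) (act2 ⊤ t'))`, transport by the
bijection `emb α`: a member of `fullSys ℚ` is open of finite index, its image is a member of `afull Ω`.
-/

set_option autoImplicit false
set_option linter.unusedSectionVars false

namespace Pool.Agent.Work.MP_787500_nt.RQ

open NumberField
open Pool.Agent.Work.MP_787500_nt.GP (A0 hf IsAct d0 d1 d2 tw iota)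
open Pool.Agent.Work.MP_787500_nt.PA (TwoSys)
open Pool.Agent.Work.MP_787500_nt.KR (FSys ofTwo)
open Pool.Agent.Work.MP_787500_nt.HP

universe u

private theorem ts_iso {Ω : Type u} [Field Ω] [CharZero Ω] [IsAlgClosed Ω] (halg : Alg Ω) :
    Nonempty (AlgebraicClosure ℚ ≃+* Ω) := by
  have hcl : IsAlgClosure ℚ Ω := by
    refine ⟨inferInstance, ⟨fun x => ?_⟩⟩
    obtain ⟨p, hp, hpx⟩ := halg x
    refine (IsFractionRing.isAlgebraic_iff ℤ ℚ Ω).1 ⟨p, hp, ?_⟩
    rw [Polynomial.aeval_def]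
    exact hpx
  have hcl' : IsAlgClosure ℚ (AlgebraicClosure ℚ) := by
    convert AlgebraicClosure.instIsAlgClosure ℚ
    · rfl
    · exact Subsingleton.elim _ _
  exact ⟨(IsAlgClosure.equiv ℚ (AlgebraicClosure ℚ) Ω).toRingEquiv⟩

private theorem ts_fix {K : Type*} [Field K] {W : Subgroup (AbsGal K)}
    (hW : IsOpen (W : Set (AbsGal K))) :
    ∃ s : Finset (AlgebraicClosure K), ∀ σ : AbsGal K, (∀ x ∈ s, σ x = x) → σ ∈ W := by
  classical
  obtain ⟨E, hE, h⟩ := (krullTopology_mem_nhds_one_iff K (AlgebraicClosure K) _).1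
    (hW.mem_nhds W.one_mem)
  have hfd : FiniteDimensional K E := hE
  let b := Module.finBasis K E
  refine ⟨Finset.univ.image fun i => (b i : AlgebraicClosure K), fun σ hσ => h ?_⟩
  rw [SetLike.mem_coe, IntermediateField.mem_fixingSubgroup_iff]
  intro x hx
  have h1 := congrArg (fun y : E => (y : AlgebraicClosure K)) (b.sum_repr ⟨x, hx⟩)
  have h2 : ∑ i, algebraMap K (AlgebraicClosure K) (b.repr ⟨x, hx⟩ i) *
      (b i : AlgebraicClosure K) = x := by
    refine Eq.trans ?_ h1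
    simp only [IntermediateField.coe_sum, Algebra.smul_def]
    rfl
  have h3 : ∀ i, σ (b i : AlgebraicClosure K) = b i := fun i =>
    hσ _ (Finset.mem_image_of_mem _ (Finset.mem_univ i))
  have h4 : ∀ a : K, σ (algebraMap K (AlgebraicClosure K) a) = algebraMap K (AlgebraicClosure K) a :=
    fun a => AlgEquiv.commutes σ a
  rw [← h2, map_sum]
  refine Finset.sum_congr rfl fun i _ => ?_
  rw [map_mul, h3, h4]

private theorem ts_bij {Ω : Type u} [Field Ω] (α : AlgebraicClosure ℚ ≃+* Ω) :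
    Function.Bijective (emb α) := by
  refine ⟨emb_inj α, fun g => ?_⟩
  refine (emb_iff α g).2 fun x => ?_
  have h1 : (α : AlgebraicClosure ℚ →+* Ω).comp (algebraMap ℚ (AlgebraicClosure ℚ)) =
      ((g : Ω →+* Ω).comp (α : AlgebraicClosure ℚ →+* Ω)).comp
        (algebraMap ℚ (AlgebraicClosure ℚ)) := Subsingleton.elim _ _
  exact (congrArg (fun h : ℚ →+* Ω => h x) h1).symm

private theorem ts_act {K : Type*} [Field K] {t : AlgebraicClosure K} (g : AbsGal K) :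
    PA.act2 ⊤ t g = 0 ↔ g t = t := by
  classical
  unfold PA.act2
  by_cases h : g t = t
  · rw [if_neg fun h2 => h2.2 h]
    exact ⟨fun _ => h, fun _ => rfl⟩
  · rw [if_pos ⟨Subgroup.mem_top g, h⟩]
    exact ⟨fun h2 => absurd h2 one_ne_zero, fun h2 => absurd h2 h⟩

theorem cob_two_sq {Ω : Type u} [Field Ω] [CharZero Ω] [IsAlgClosed Ω] (halg : Alg Ω)
    {b : (Ω ≃+* Ω) → ZMod 2} {n : ℤ} (hn : 0 < n) {t : Ω} (ht : t ^ 2 = (n : Ω))
    (hb : ∀ g, b g = 0 ↔ g t = t)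
    (h : ∀ p : ℕ, p.Prime → p % 4 = 3 → Even (padicValInt p n)) :
    KR.Cob (afull Ω) (fun g h => eps g * b h) := by
  obtain ⟨α⟩ := ts_iso halg
  obtain ⟨i, hi⟩ := IsAlgClosed.exists_pow_nat_eq (-1 : Ω) (n := 2) (by norm_num)
  obtain ⟨x, y, hxy⟩ := (Nat.eq_sq_add_sq_iff (n := n.natAbs)).2 fun q hq h3 =>
    h q (Nat.prime_of_mem_primeFactors hq) h3
  have hnxy : n = (x : ℤ) ^ 2 + (y : ℤ) ^ 2 := by
    have h1 : ((n.natAbs : ℕ) : ℤ) = n := Int.natAbs_of_nonneg hn.le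
    rw [← h1, hxy]
    push_cast
    ring
  -- the norm
  have hr : (α.symm i) ^ 2 = -1 := by rw [← map_pow, hi, map_neg, map_one]
  have ht' : (α.symm t) ^ 2 = (n : AlgebraicClosure ℚ) := by rw [← map_pow, ht, map_intCast]
  have hU : PA.Opn (HN.fullSys ℚ) ⊤ := by
    obtain ⟨W, hW⟩ := (HN.fullSys ℚ).ex
    exact ⟨W, hW, le_top⟩
  have hn0 : (n : GP.Fx (⊤ : Subgroup (AbsGal ℚ))) ≠ 0 := by
    exact_mod_cast hn.ne'
  have h1 : PA.Cob (HN.fullSys ℚ) ⊤
      (PA.cup (PA.act2 ⊤ (α.symm i)) (PA.act2 ⊤ (α.symm t))) := by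
    refine HN.cob_of_norm hU (a := -1) (x := Units.mk0 _ hn0) ?_ ?_ ?_
    · rw [hr]
      simp
    · rw [ht']
      simp
    · refine HN.mem_Nm.2 ⟨(x : GP.Fx (⊤ : Subgroup (AbsGal ℚ))),
        (y : GP.Fx (⊤ : Subgroup (AbsGal ℚ))), ?_⟩
      rw [Units.val_mk0, hnxy]
      push_cast
      ring
  obtain ⟨z, ⟨W, hW, hz⟩, h2⟩ := h1
  let e : AbsGal ℚ ≃* (Ω ≃+* Ω) := MulEquiv.ofBijective (emb α) (ts_bij α)
  have he : ∀ σ, e σ = emb α σ := fun σ => rfl
  have hes : ∀ g : Ω ≃+* Ω, ∀ w : AlgebraicClosure ℚ, α (e.symm g w) = g (α w) := by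
    intro g w
    have h3 : emb α (e.symm g) (α w) = g (α w) := by
      rw [← he, e.apply_symm_apply]
    rw [emb_apply, α.symm_apply_apply] at h3
    exact h3
  have hfix : ∀ g : Ω ≃+* Ω, ∀ w : Ω, e.symm g (α.symm w) = α.symm w ↔ g w = w := by
    intro g w
    constructor
    · intro h3
      have h4 := hes g (α.symm w)
      rw [h3, α.apply_symm_apply] at h4
      exact h4.symm
    · intro h3
      apply α.injective
      rw [hes, α.apply_symm_apply, h3]
  have hz2 : ∀ a c : ZMod 2, (a = 0 ↔ c = 0) → a = c := by decide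
  refine ⟨fun g => z (e.symm g), ⟨W.map (e : AbsGal ℚ →* (Ω ≃+* Ω)), ⟨?_, ?_, ?_⟩, ?_⟩, ?_⟩
  · classical
    obtain ⟨s, hs⟩ := ts_fix (Gn.GoodG.isOpen hW)
    refine ⟨s.image α, fun g hg => ⟨e.symm g, hs _ fun w hw => ?_, e.apply_symm_apply g⟩⟩
    apply α.injective
    rw [hes]
    exact hg (α w) (Finset.mem_image_of_mem _ hw)
  · exact ((HN.fullSys ℚ).normal hW).map _ e.surjective
  · rw [Subgroup.index_map_equiv]
    obtain ⟨k, hk⟩ := (HN.fullSys ℚ).index hW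
    rw [hk]
    positivity
  · rintro g _ ⟨w, hw, rfl⟩
    show z (e.symm (g * e w)) = z (e.symm g)
    rw [map_mul, e.symm_apply_apply]
    exact hz _ w hw
  · intro g k
    have h3 := h2 (e.symm g) (Subgroup.mem_top _) (e.symm k) (Subgroup.mem_top _)
    rw [← map_mul] at h3
    rw [← h3]
    show eps g * b k = PA.act2 ⊤ (α.symm i) (e.symm g) * PA.act2 ⊤ (α.symm t) (e.symm k)
    congr 1
    · apply hz2
      rw [ts_act, hfix, eps_fix hi]
    · apply hz2
      rw [ts_act, hfix, hb]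

end Pool.Agent.Work.MP_787500_nt.RQ
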