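import Mathlib
import Pool.Agent.Work.MP_787500_nt.RQ.RedI
import Pool.Agent.Work.MP_787500_nt.RQ.SqrQ
import Pool.Agent.Work.MP_787500_nt.RQ.EvenV
import Pool.Agent.Work.MP_787500_nt.RQ.TwoSq
import Pool.Agent.Work.MP_787500_nt.HP.Conj

/-!
# Module LEMA (size S-M): classes modulo 2 that are trivial at the odd primes and at infinity

`red_i` gives `b` and `f + eps ∪ b = d z`, `z` smooth (`afull Ω`). `exists_int_root`: `n`, `t`. `i ∈ Ω` with `i ^ 2 = -1`; `c i = -i` (`conj_i`), so `eps c = 1` (`eps_fix`). From `f c c + f 1 1 = 0`: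
`f c c = eps c * b c + z c + z c + z (c c)`, `f 1 1 = eps 1 * b 1 + z 1 + z 1 + z 1`, `c c = 1`, `eps 1 = 0`: so `b c = 0`, `c t = t`. If `n < 0` then `t ^ 2 = -(n.natAbs)` and
`conj_imag` gives `c t = -t`, `t = 0`, `n = 0`: contradiction; so `0 < n`.
For `p` prime with `p % 4 = 3` there is a prime `Q ∋ p` of `𝓞 Ω` (`prime_over_nat` in `HP/Main.lean`, copy it), `Q ≠ ⊥`, `2 ∉ Q` (`nat_mem` in `HP/Splt.lean`). `f|stb Q` is `Cob` (`hl`) and
`f + eps ∪ b` is (`rs_cob`), so `eps ∪ b` is (`cob_add`); `even_val`. `cob_two_sq`: `eps ∪ b` is `Cob`, so `f` is.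
-/

set_option autoImplicit false
set_option linter.unusedSectionVars false

namespace Pool.Agent.Work.MP_787500_nt.RQ

open NumberField
open Pool.Agent.Work.MP_787500_nt.GP (A0 hf IsAct d0 d1 d2 tw iota)
open Pool.Agent.Work.MP_787500_nt.PA (TwoSys)
open Pool.Agent.Work.MP_787500_nt.KR (FSys ofTwo)
open Pool.Agent.Work.MP_787500_nt.HP

universe u

private theorem la_prime_over {Ω : Type u} [Field Ω] [CharZero Ω] {p : ℕ} (hp : p.Prime) :
    ∃ Q : Ideal (𝓞 Ω), Q.IsPrime ∧ (p : 𝓞 Ω) ∈ Q := by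
  have h1 : (Ideal.span {(p : 𝓞 Ω)}) ≠ ⊤ := by
    intro h
    rw [Ideal.span_singleton_eq_top] at h
    obtain ⟨y, hy⟩ := isUnit_iff_exists_inv.1 h
    have h2 : (p : Ω) * (y : Ω) = 1 := by
      have h3 := congrArg (fun z : 𝓞 Ω => (z : Ω)) hy
      simpa using h3
    have hp0 : (p : Ω) ≠ 0 := Nat.cast_ne_zero.2 hp.ne_zero
    have h4 : (y : Ω) = algebraMap ℚ Ω ((p : ℚ)⁻¹) := by
      rw [map_inv₀, map_natCast]
      exact eq_inv_of_mul_eq_one_right h2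
    have h5 : IsIntegral ℤ (y : Ω) := y.2
    rw [h4, isIntegral_algebraMap_iff (algebraMap ℚ Ω).injective] at h5
    obtain ⟨z, hz⟩ := (IsIntegrallyClosed.isIntegral_iff (R := ℤ) (K := ℚ)).1 h5
    have h6 : (z : ℚ) = (p : ℚ)⁻¹ := hz
    have hp0' : (p : ℚ) ≠ 0 := Nat.cast_ne_zero.2 hp.ne_zero
    have h7 : (z : ℚ) * p = 1 := by rw [h6, inv_mul_cancel₀ hp0']
    have h8 : z * (p : ℤ) = 1 := by exact_mod_cast h7
    have h9 : (p : ℤ) ∣ 1 := ⟨z, by rw [← h8]; ring⟩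
    have h10 : p ∣ 1 := by exact_mod_cast h9
    exact hp.one_lt.ne' (Nat.dvd_one.1 h10)
  obtain ⟨M, hM, hle⟩ := Ideal.exists_le_maximal _ h1
  exact ⟨M, hM.isPrime, hle (Ideal.mem_span_singleton_self _)⟩

private theorem la_nat_mem {Ω : Type u} [Field Ω] {l : ℕ} (hl : l.Prime) {Q : Ideal (𝓞 Ω)}
    (hQ : Q.IsPrime) (hlQ : (l : 𝓞 Ω) ∈ Q) (n : ℤ) (hn : (n : 𝓞 Ω) ∈ Q) : (l : ℤ) ∣ n := by
  by_contra hcon
  obtain ⟨a, b, hab⟩ : IsCoprime (l : ℤ) n :=
    (Nat.prime_iff_prime_int.1 hl).irreducible.coprime_iff_not_dvd.2 hcon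
  apply hQ.ne_top
  rw [Ideal.eq_top_iff_one]
  have h1 : (1 : 𝓞 Ω) = (a : 𝓞 Ω) * (l : 𝓞 Ω) + (b : 𝓞 Ω) * (n : 𝓞 Ω) := by
    have := congrArg (Int.cast : ℤ → 𝓞 Ω) hab
    push_cast at this
    exact this.symm
  rw [h1]
  exact Q.add_mem (Q.mul_mem_left _ hlQ) (Q.mul_mem_left _ hn)

theorem lemA {Ω : Type u} [Field Ω] [CharZero Ω] [IsAlgClosed Ω] (halg : Alg Ω) {c : Ω ≃+* Ω}
    (hc : ∀ x, c (c x) = x) (hne : ∃ x, c x ≠ x) {f : (Ω ≃+* Ω) → (Ω ≃+* Ω) → ZMod 2}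
    (hf : KR.Coc (afull Ω) f) (h0 : f c c + f 1 1 = 0)
    (hl : ∀ Q : Ideal (𝓞 Ω), Q.IsPrime → Q ≠ ⊥ → (2 : 𝓞 Ω) ∉ Q →
      KR.Cob (lfull (stb Q)) (rs (stb Q) f)) : KR.Cob (afull Ω) f := by
  obtain ⟨b, hbs, hbm, hcob⟩ := red_i halg hf hl
  obtain ⟨n, t, hn, ht, hb⟩ := exists_int_root halg hbs hbm
  obtain ⟨i, hi⟩ := IsAlgClosed.exists_pow_nat_eq (-1 : Ω) (n := 2) (by norm_num)
  have hx : ∀ x : ZMod 2, x + x = 0 := by decide
  have hi0 : i ≠ 0 := by
    rintro rfl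
    norm_num at hi
  have hcc : c * c = 1 := by
    ext x
    exact hc x
  have hepsc : eps c = 1 := by
    have h1 : eps c ≠ 0 := by
      intro h
      have h2 := (eps_fix hi c).1 h
      rw [conj_i hc hne hi] at h2
      exact hi0 (self_eq_neg.1 h2.symm)
    have : ∀ x : ZMod 2, x ≠ 0 → x = 1 := by decide
    exact this _ h1
  have heps1 : eps (1 : Ω ≃+* Ω) = 0 := (eps_fix hi 1).2 rfl
  have hcob' := hcob
  obtain ⟨z, hz, h1⟩ := hcob
  have h2 : f c c + eps c * b c = z c + z c + z (c * c) := h1 c c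
  have h3 : f 1 1 + eps (1 : Ω ≃+* Ω) * b 1 = z 1 + z 1 + z (1 * 1) := h1 1 1
  rw [hcc, hepsc, one_mul] at h2
  rw [heps1, zero_mul, add_zero, mul_one] at h3
  have hbc : b c = 0 := by
    linear_combination h2 - h0 + h3 + hx (z c) + 2 * hx (z 1)
  have hct : c t = t := (hb c).1 hbc
  have ht0 : t ≠ 0 := by
    rintro rfl
    apply hn
    have : (n : Ω) = 0 := by rw [← ht]; ring
    exact_mod_cast this
  have hpos : 0 < n := by
    by_contra hneg
    have hlt : n < 0 := lt_of_le_of_ne (not_lt.1 hneg) hn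
    have h4 : t ^ 2 = -((n.natAbs : ℕ) : Ω) := by
      rw [ht]
      have h5 : ((n.natAbs : ℕ) : ℤ) = -n := by
        rw [Int.natCast_natAbs, abs_of_neg hlt]
      have h6 : ((n.natAbs : ℕ) : Ω) = ((-n : ℤ) : Ω) := by
        rw [← h5]
        exact (Int.cast_natCast _).symm
      rw [h6]
      push_cast
      ring
    have h5 := conj_imag hc hne n.natAbs h4
    rw [hct] at h5
    exact ht0 (self_eq_neg.1 h5)
  have hev : ∀ p : ℕ, p.Prime → p % 4 = 3 → Even (padicValInt p n) := by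
    intro p hp hp3
    obtain ⟨Q, hQ, hpQ⟩ := la_prime_over (Ω := Ω) hp
    have hQb : Q ≠ ⊥ := by
      rintro rfl
      rw [Ideal.mem_bot] at hpQ
      have h4 : ((p : 𝓞 Ω) : Ω) = 0 := by rw [hpQ]; rfl
      have h5 : (p : Ω) = 0 := by simpa using h4
      exact hp.ne_zero (by exact_mod_cast h5)
    have h2Q : (2 : 𝓞 Ω) ∉ Q := by
      intro h
      have h4 := la_nat_mem hp hQ hpQ 2 (by exact_mod_cast h)
      have h5 : p ∣ 2 := by exact_mod_cast h4
      have h6 := (Nat.prime_dvd_prime_iff_eq hp Nat.prime_two).1 h5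
      omega
    refine even_val halg hn ht hb hp hp3 hQ hpQ ?_
    have h4 := cob_add (hl Q hQ hQb h2Q) (rs_cob (stb Q) hcob')
    have h5 : (fun g h => rs (stb Q) f g h + rs (stb Q) (fun g h => f g h + eps g * b h) g h) =
        rs (stb Q) fun g h => eps g * b h := by
      funext g h
      simp only [rs]
      linear_combination hx (f g h)
    rw [h5] at h4
    exact h4
  have h4 := cob_add hcob' (cob_two_sq halg hpos ht hb hev)
  have h5 : (fun g h => f g h + eps g * b h + eps g * b h) = f := by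
    funext g h
    linear_combination hx (eps g * b h)
  rw [h5] at h4
  exact h4

end Pool.Agent.Work.MP_787500_nt.RQ
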