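import Mathlib
import Pool.Agent.Work.MP_787500_nt.RQ.LeTwo
import Pool.Agent.Work.MP_787500_nt.GP.L01_LocInj
import Pool.Agent.Work.MP_787500_nt.GP.T03_Coch

/-!
# Module LEALL (size M): every class over the large system comes from the system of 2-power index

`χ d = cyQ d`. `hs` gives `g` with `inv g = half`; `inv (g + g) = 0`, so `g + g = d1 z` with `z` smooth for `fsys D` (`GP.a0_inj`); choose `z'` smooth with `z' + z' = z` (`GP.a0_div`,
`choose`, compose), so `g - d1 z' = hf ∘ g₀` (`exists_hf`), `g₀ ∈ PA.Coc (fsys D) ⊤` (`z2_hf`, `coc_ofTwo`), `inv (hf g₀) = half ≠ 0`, so `g₀` is not `Cob` (`L.cob`).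
Claim by induction on `n`: if `f ∈ KR.Z2 (lfull D) (tw χ)` and `2 ^ n • f = 0` then the statement holds. `n = 0`: `f = 0`, `x = 0`. Step: `2 ^ n • f` is killed by 2, `= hf ∘ f₁`, `f₁ ∈ KR.Coc`;
`le_two` gives `f₁ = t g₀ + d z₁`, `t ∈ {0, 1}`, `z₁` smooth (large system). Let `h ∈ GP.Z2 (fsys D)` with `2 ^ n • inv h = inv (hf (t g₀))` (`GP.a0_div_pow`, `hs`). Then
`2 ^ n • h - hf (t g₀)` has `inv = 0`, so it is `d1 y`, `y` smooth for `fsys D`; `y = 2 ^ n • y'`, `hf z₁ = 2 ^ n • z₁'` (`GP.a0_div_pow`). So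
`f' = f - h - d1 z₁' + d1 y'` satisfies `2 ^ n • f' = 0`; apply the claim to `f'` and `n`.
Every `f` is killed by some `2 ^ n`: it takes finitely many values (`W` has finite index), `GP.a0_killed`.
-/

set_option autoImplicit false
set_option linter.unusedSectionVars false

namespace Pool.Agent.Work.MP_787500_nt.RQ

open NumberField
open Pool.Agent.Work.MP_787500_nt.GP (A0 hf IsAct d0 d1 d2 tw iota)
open Pool.Agent.Work.MP_787500_nt.PA (TwoSys)
open Pool.Agent.Work.MP_787500_nt.KR (FSys ofTwo)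
open Pool.Agent.Work.MP_787500_nt.HP

universe u

section aux

variable {G : Type*} [Group G] {S : TwoSys G} {F : FSys G} {χ : G → ℤ_[2]}
  {inv : (G → G → A0) → A0}

private theorem leall_z2_zero : GP.Z2 S (tw χ) (fun _ _ => (0 : A0)) := by
  obtain ⟨W, hW⟩ := S.ex
  refine ⟨⟨W, hW, fun _ _ _ _ _ _ => rfl⟩, fun a b c => ?_⟩
  show χ a • (0 : A0) - 0 + 0 - 0 = 0
  rw [smul_zero]
  abel

private theorem leall_inv_zero (L : GP.LocH S χ inv) : inv (fun _ _ => (0 : A0)) = 0 := by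
  have h1 := L.add _ _ (leall_z2_zero (S := S) (χ := χ)) leall_z2_zero
  simp only [add_zero] at h1
  exact left_eq_add.1 h1

private theorem leall_nsmul (L : GP.LocH S χ inv) {f : G → G → A0} (hf : GP.Z2 S (tw χ) f) (n : ℕ) :
    GP.Z2 S (tw χ) (fun a b => n • f a b) ∧ inv (fun a b => n • f a b) = n • inv f := by
  induction n with
  | zero =>
    simp only [zero_smul]
    exact ⟨leall_z2_zero, leall_inv_zero L⟩
  | succ n ih =>
    simp only [add_smul, one_smul]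
    refine ⟨GP.Z2.add (GP.isAct_tw L.char) ih.1 hf, ?_⟩
    rw [L.add _ _ ih.1 hf, ih.2]

private theorem leall_nsmul' (hχ : KR.IsChar F χ) {f : G → G → A0} (hf : KR.Z2 F (tw χ) f) (n : ℕ) :
    KR.Z2 F (tw χ) (fun a b => n • f a b) := by
  induction n with
  | zero =>
    simp only [zero_smul]
    obtain ⟨W, hW⟩ := F.ex
    refine ⟨⟨W, hW, fun _ _ _ _ _ _ => rfl⟩, fun a b c => ?_⟩
    show χ a • (0 : A0) - 0 + 0 - 0 = 0
    rw [smul_zero]
    abel
  | succ n ih =>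
    simp only [add_smul, one_smul]
    exact KR.Z2.add (KR.isAct_tw hχ) ih hf

/-- the class of order two -/
private theorem leall_g0 (L : GP.LocH S χ inv)
    (hs : ∀ t : A0, ∃ f, GP.Z2 S (tw χ) f ∧ inv f = t) :
    ∃ g₀ : G → G → ZMod 2, PA.Coc S ⊤ g₀ ∧ ¬ PA.Cob S ⊤ g₀ := by
  have hχ := char_ofTwo L.char
  have hact := GP.isAct_tw L.char
  obtain ⟨g, hg, hgi⟩ := hs GP.half
  have h2 : inv (fun a b => g a b + g a b) = 0 := by rw [L.add _ _ hg hg, hgi, GP.two_half]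
  obtain ⟨z, hz, h3⟩ := GP.a0_inj L (GP.Z2.add hact hg hg) h2
  choose s hs' using GP.a0_div
  have hz' : PA.Sm1 S (fun d => s (z d)) := sm1_comp (S := ofTwo S) hz s
  have hg' : GP.Z2 S (tw χ) (fun a b => g a b - d1 (tw χ) (fun d => s (z d)) a b) :=
    z2_sub (S := ofTwo S) hact hg (GP.d1_tw_Z2 L.char hz')
  have h4 : ∀ a b, (g a b - d1 (tw χ) (fun d => s (z d)) a b) +
      (g a b - d1 (tw χ) (fun d => s (z d)) a b) = 0 := by
    intro a b
    have h5 := congrFun (congrFun h3 a) b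
    have h6 : d1 (tw χ) z a b = d1 (tw χ) (fun d => s (z d)) a b +
        d1 (tw χ) (fun d => s (z d)) a b := by
      rw [← d1_add hact]
      congr 1
      funext d
      rw [hs']
    rw [h6] at h5
    calc _ = (g a b + g a b) - (d1 (tw χ) (fun d => s (z d)) a b +
        d1 (tw χ) (fun d => s (z d)) a b) := by abel
      _ = 0 := by rw [← h5, sub_self]
  obtain ⟨g₀, hg₀⟩ := exists_hf h4
  rw [hg₀] at hg'
  refine ⟨g₀, coc_ofTwo.1 (z2_hf hχ hg'), fun hc => ?_⟩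
  obtain ⟨x, hx, h5⟩ := cob_hf hχ (cob_ofTwo.2 hc)
  have h6 : inv (fun a b => GP.hf (g₀ a b)) = 0 := by
    rw [h5]
    exact L.cob x hx
  have h7 : inv g = 0 := by
    have e : g = fun a b => GP.hf (g₀ a b) + d1 (tw χ) (fun d => s (z d)) a b := by
      funext a b
      have := congrFun (congrFun hg₀ a) b
      rw [← this]
      abel
    rw [e, L.add _ _ hg' (GP.d1_tw_Z2 L.char hz'), h6, zero_add]
    exact L.cob _ hz'
  rw [hgi] at h7
  exact GP.half_ne h7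

private theorem leall_ind (hFin : Fin (ofTwo S) F) (L : GP.LocH S χ inv)
    (hs : ∀ t : A0, ∃ f, GP.Z2 S (tw χ) f ∧ inv f = t) {g₀ : G → G → ZMod 2}
    (hg₀ : PA.Coc S ⊤ g₀)
    (h2 : ∀ f, KR.Coc F f → KR.Cob F f ∨ KR.Cob F (fun a b => f a b + g₀ a b)) (n : ℕ) :
    ∀ f : G → G → A0, KR.Z2 F (tw χ) f → (∀ a b, (2 ^ n) • f a b = 0) →
      ∃ x : G → A0, KR.Sm1 F x ∧ GP.Z2 S (tw χ) (fun a b => f a b - d1 (tw χ) x a b) := by
  have hχS := char_ofTwo L.char
  have hχ : KR.IsChar F χ := hFin.char hχS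
  have hact := GP.isAct_tw L.char
  induction n with
  | zero =>
    intro f hf h0
    refine ⟨fun _ => 0, sm1_const 0, ?_⟩
    have e : (fun a b => f a b - d1 (tw χ) (fun _ => (0 : A0)) a b) = fun _ _ => 0 := by
      funext a b
      have h1 := h0 a b
      rw [pow_zero, one_smul] at h1
      rw [h1]
      show (0 : A0) - (0 + χ a • (0 : A0) - 0) = 0
      rw [smul_zero]
      abel
    rw [e]
    exact leall_z2_zero
  | succ n ih =>
    intro f hf h0
    obtain ⟨f₁, hf₁⟩ := exists_hf (f := fun a b => (2 ^ n) • f a b) fun a b => by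
      rw [← two_nsmul, ← mul_smul, ← pow_succ']
      exact h0 a b
    have hf₁c : KR.Coc F f₁ := z2_hf hχ (by
      rw [← hf₁]
      exact leall_nsmul' hχ hf (2 ^ n))
    obtain ⟨t, z₁, hz₁, h3⟩ : ∃ (t : ZMod 2) (z₁ : G → ZMod 2), KR.Sm1 F z₁ ∧
        ∀ a b, f₁ a b = t * g₀ a b + (z₁ a + z₁ b + z₁ (a * b)) := by
      rcases h2 f₁ hf₁c with ⟨z₁, hz₁, h3⟩ | ⟨z₁, hz₁, h3⟩
      · exact ⟨0, z₁, hz₁, fun a b => by rw [h3]; ring⟩
      · refine ⟨1, z₁, hz₁, fun a b => ?_⟩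
        rw [one_mul, ← h3 a b]
        have : ∀ x y : ZMod 2, x = y + (x + y) := by decide
        exact this _ _
    -- the cocycle `hf (t g₀)`
    have htg : KR.Coc (ofTwo S) (fun a b => t * g₀ a b) := by
      have h4 := coc_ofTwo.2 hg₀
      refine ⟨sm2_comp h4.1 fun v => t * v, fun a b c => ?_⟩
      linear_combination t * h4.2 a b c
    have htg' : GP.Z2 S (tw χ) (fun a b => GP.hf (t * g₀ a b)) := coc_hf hχS htg
    obtain ⟨s, hs1⟩ := GP.a0_div_pow n (inv fun a b => GP.hf (t * g₀ a b))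
    obtain ⟨h, hh, hi⟩ := hs s
    obtain ⟨hn1, hn2⟩ := leall_nsmul L hh (2 ^ n)
    obtain ⟨y, hy, hy2⟩ := GP.a0_inj L (GP.Z2.add hact hn1 htg') (by
      rw [L.add _ _ hn1 htg', hn2, hi, hs1, ← L.add _ _ htg' htg']
      have e : (fun a b => GP.hf (t * g₀ a b) + GP.hf (t * g₀ a b)) = fun _ _ => (0 : A0) := by
        funext a b
        exact GP.hf_two _
      rw [e]
      exact leall_inv_zero L)
    choose dv hdv using GP.a0_div_pow n
    have hyF : KR.Sm1 F (fun d => dv (y d)) := sm1_comp (hFin.sm1 hy) dv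
    have hzF : KR.Sm1 F (fun d => dv (GP.hf (z₁ d))) := sm1_comp hz₁ fun v => dv (GP.hf v)
    have hdd : ∀ x : G → A0, ∀ a b, (2 ^ n) • d1 (tw χ) (fun d => dv (x d)) a b =
        d1 (tw χ) x a b := by
      intro x a b
      show (2 ^ n) • (dv (x a) + χ a • dv (x b) - dv (x (a * b))) = x a + χ a • x b - x (a * b)
      rw [smul_sub, smul_add, smul_comm (2 ^ n) (χ a), hdv, hdv, hdv]
    set f' : G → G → A0 := fun a b => f a b - h a b - d1 (tw χ) (fun d => dv (GP.hf (z₁ d))) a b -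
      d1 (tw χ) (fun d => -dv (y d)) a b with hf'
    have hyF' : KR.Sm1 F (fun d => -dv (y d)) := sm1_neg hyF
    have hf'Z : KR.Z2 F (tw χ) f' := z2_sub hact (z2_sub hact (z2_sub hact hf (hFin.z2 hh))
      (KR.d1_tw_Z2 hχ hzF)) (KR.d1_tw_Z2 hχ hyF')
    have hneg : ∀ a b, d1 (tw χ) (fun d => -dv (y d)) a b = -d1 (tw χ) (fun d => dv (y d)) a b := by
      intro a b
      show -dv (y a) + χ a • (-dv (y b)) - -dv (y (a * b)) =
        -(dv (y a) + χ a • dv (y b) - dv (y (a * b)))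
      rw [smul_neg]
      abel
    obtain ⟨x', hx', h5⟩ := ih f' hf'Z (fun a b => by
      have e1 := congrFun (congrFun hf₁ a) b
      have e2 : (2 ^ n) • h a b + GP.hf (t * g₀ a b) = d1 (tw χ) y a b :=
        congrFun (congrFun hy2 a) b
      have e3 := d1_hf hχ z₁ a b
      have e4 := GP.hf_two (t * g₀ a b)
      show (2 ^ n) • (f a b - h a b - d1 (tw χ) (fun d => dv (GP.hf (z₁ d))) a b -
        d1 (tw χ) (fun d => -dv (y d)) a b) = 0
      rw [hneg, smul_sub, smul_sub, smul_sub, smul_neg, hdd (fun d => GP.hf (z₁ d)), hdd y, e3,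
        ← e2]
      beta_reduce at e1
      rw [e1, h3 a b, GP.hf_add]
      calc _ = GP.hf (t * g₀ a b) + GP.hf (t * g₀ a b) := by abel
        _ = 0 := e4)
    refine ⟨fun d => x' d + dv (GP.hf (z₁ d)) - dv (y d), sm1_sub (sm1_add hx' hzF) hyF, ?_⟩
    have e : (fun a b => f a b - d1 (tw χ) (fun d => x' d + dv (GP.hf (z₁ d)) - dv (y d)) a b) =
        fun a b => (f' a b - d1 (tw χ) x' a b) + h a b := by
      funext a b
      rw [d1_sub hact, d1_add hact, hf']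
      beta_reduce
      rw [hneg]
      abel
    rw [e]
    exact GP.Z2.add hact h5 hh

private theorem leall_killed {f : G → G → A0} (hf : KR.Sm2 F f) : ∃ m : ℕ, ∀ a b, (2 ^ m) • f a b = 0 := by
  obtain ⟨W, hW, h⟩ := hf
  have hfi : W.FiniteIndex := ⟨F.index hW⟩
  have hfin : Finite (G ⧸ W) := Subgroup.finite_quotient_of_finiteIndex
  obtain ⟨m, hm, -⟩ := GP.a0_killed (fun q : (G ⧸ W) × (G ⧸ W) => f q.1.out q.2.out)
  refine ⟨m, fun a b => ?_⟩
  obtain ⟨w, hw⟩ := QuotientGroup.mk_out_eq_mul W a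
  obtain ⟨w', hw'⟩ := QuotientGroup.mk_out_eq_mul W b
  have h1 := hm ((a : G ⧸ W), (b : G ⧸ W))
  rw [hw, hw', h a b w w.2 w' w'.2] at h1
  exact h1

end aux

theorem le_all {Ω : Type u} [Field Ω] [CharZero Ω] [IsAlgClosed Ω] {D : Subgroup (Ω ≃+* Ω)}
    (hLT : ∀ C : Subgroup (Ω ≃+* Ω), C ≤ D → (∃ W, OpnQ W ∧ D ⊓ W ≤ C) → PA.LocalType (fsys C))
    {inv : (D → D → A0) → A0} (L : GP.LocH (fsys D) (fun d : D => cyQ (d : Ω ≃+* Ω)) inv)
    (hs : ∀ t : A0, ∃ f, GP.Z2 (fsys D) (tw fun d : D => cyQ (d : Ω ≃+* Ω)) f ∧ inv f = t)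
    {f : D → D → A0} (hf : KR.Z2 (lfull D) (tw fun d : D => cyQ (d : Ω ≃+* Ω)) f) :
    ∃ x : D → A0, KR.Sm1 (lfull D) x ∧ GP.Z2 (fsys D) (tw fun d : D => cyQ (d : Ω ≃+* Ω))
      (fun a b => f a b - d1 (tw fun d : D => cyQ (d : Ω ≃+* Ω)) x a b) := by
  obtain ⟨g₀, hg₀, hn⟩ := leall_g0 L hs
  obtain ⟨m, hm⟩ := leall_killed hf.1
  exact leall_ind (fin_fsys D) L hs hg₀ (fun f hf => le_two hLT hg₀ hn hf) m f hf hm

end Pool.Agent.Work.MP_787500_nt.RQ
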