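import Mathlib
import Pool.Agent.Work.MP_787500_nt.RQ.LeAll
import Pool.Agent.Work.MP_787500_nt.RQ.LT

/-!
# Module LOCFEX (size S-M): the extended local invariant

`χ d = cyQ d`. `P f x`: `KR.Sm1 (lfull D) x ∧ GP.Z2 (fsys D) (tw χ) (f - d1 x)`. Define `invF f = if h : ∃ x, P f x then inv (f - d1 (choose h)) else 0`.
Independence: if `P f x` and `P f x'` then `(f - d1 x) - (f - d1 x') = d1 (x' - x)` is a cocycle for `fsys D`, so `x' - x` is smooth for `fsys D` (`inj_sm1` with `clo_fsys D`), and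
`inv` of it is 0 (`L.cob`), so `inv (f - d1 x) = inv (f - d1 x')` (`L.add`). So `P f x → invF f = inv (f - d1 x)`.
* `loc`: `add`: for `f`, `f'` in `KR.Z2 (lfull D)` take `x`, `x'` by `le_all`: `P (f + f') (x + x')`. `cob`: `P (d1 z) z`, and `inv 0 = 0` (`L.cob 0`). `char`: `char_lfull`.
* `ext`: `P f 0`. * `le`: `le_all`. * `ker`: `inv (f - d1 x) = 0`: `GP.a0_inj`, `fin_fsys`.
* `one`: `le_two` with the `g₀` of `LeAll` (here: let `f` be given; by `le_all` `hf f = h + d1 x`, `inv h = 0`, so by `ker` `hf f = d1 y`, `y` smooth for the large system. Then `y + y` is a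
  1-cocycle of the large system, so of `fsys D` (`inj_sm1`: its coboundary is 0), so by `GP.z1_div` `y + y = y' + y'` with `y'` a 1-cocycle for `fsys D`; `y - y' = hf ∘ z`
  (`GP.eq_hf`), and `hf f = d1 (hf z)`, `f = z a + z b + z (a b)` by `d1_hf`, `GP.hf_inj`.) This last argument is `loc_div`.
-/

set_option autoImplicit false
set_option linter.unusedSectionVars false

namespace Pool.Agent.Work.MP_787500_nt.RQ

open NumberField
open Pool.Agent.Work.MP_787500_nt.GP (A0 hf IsAct d0 d1 d2 tw iota)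
open Pool.Agent.Work.MP_787500_nt.PA (TwoSys)
open Pool.Agent.Work.MP_787500_nt.KR (FSys ofTwo)
open Pool.Agent.Work.MP_787500_nt.HP

universe u

/-- a class modulo 2 that becomes trivial with coefficients in `A0` is trivial -/
theorem loc_div {Ω : Type u} [Field Ω] [CharZero Ω] [IsAlgClosed Ω] {D : Subgroup (Ω ≃+* Ω)}
    {inv : (D → D → A0) → A0} (L : GP.LocH (fsys D) (fun d : D => cyQ (d : Ω ≃+* Ω)) inv)
    {f : D → D → ZMod 2} (hf2 : KR.Coc (lfull D) f)
    (hb : KR.B2 (lfull D) (tw fun d : D => cyQ (d : Ω ≃+* Ω)) (fun a b => hf (f a b))) :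
    KR.Cob (lfull D) f := by
  have hχ : KR.IsChar (ofTwo (fsys D)) (fun d : D => cyQ (d : Ω ≃+* Ω)) := char_ofTwo L.char
  have hact := KR.isAct_tw hχ
  obtain ⟨y, hy, h1⟩ := hb
  have h1' : ∀ a b, hf (f a b) = d1 (tw fun d : D => cyQ (d : Ω ≃+* Ω)) y a b := fun a b =>
    congrFun (congrFun h1 a) b
  have h2 : d1 (tw fun d : D => cyQ (d : Ω ≃+* Ω)) (fun g => y g + y g) = fun _ _ => 0 := by
    funext a b
    rw [d1_add hact, ← h1', GP.hf_two]
  have h3 : KR.Sm1 (ofTwo (fsys D)) (fun g => y g + y g) := by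
    refine inj_sm1 (clo_fsys D) hχ (sm1_add hy hy) ?_
    rw [h2]
    obtain ⟨W, hW⟩ := (ofTwo (fsys D)).ex
    exact ⟨W, hW, fun _ _ _ _ _ _ => rfl⟩
  have h4 : GP.Z1 (fsys D) (tw fun d : D => cyQ (d : Ω ≃+* Ω)) (fun g => y g + y g) := by
    refine ⟨h3, fun a b => ?_⟩
    have h5 := congrFun (congrFun h2 a) b
    simp only [d1] at h5
    rw [sub_eq_zero] at h5
    exact h5.symm
  obtain ⟨z', hz', h5⟩ := GP.z1_div L h4
  have h6 : ∀ d, ∃ t, y d - z' d = hf t := fun d => GP.eq_hf (by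
    have e : y d - z' d + (y d - z' d) = (y d + y d) - (z' d + z' d) := by abel
    rw [e, h5, sub_self])
  choose z hz using h6
  have hzs : KR.Sm1 (lfull D) z := by
    obtain ⟨W, hW, h7⟩ := sm1_sub hy ((fin_fsys D).sm1 (x := z') hz'.1)
    refine ⟨W, hW, fun g w hw => GP.hf_inj ?_⟩
    rw [← hz, ← hz]
    exact h7 g w hw
  refine ⟨z, hzs, fun a b => GP.hf_inj ?_⟩
  rw [← d1_hf (char_lfull D) z a b]
  have e : (fun g => hf (z g)) = fun g => y g - z' g := funext fun g => (hz g).symm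
  rw [e, d1_sub hact, ← h1']
  have e2 : d1 (tw fun d : D => cyQ (d : Ω ≃+* Ω)) z' a b = 0 := by
    simp only [d1]
    rw [sub_eq_zero]
    exact (hz'.2 a b).symm
  rw [e2, sub_zero]

private def PX {Ω : Type u} [Field Ω] [CharZero Ω] [IsAlgClosed Ω] (D : Subgroup (Ω ≃+* Ω))
    (f : D → D → A0) (x : D → A0) : Prop :=
  KR.Sm1 (lfull D) x ∧ GP.Z2 (fsys D) (tw fun d : D => cyQ (d : Ω ≃+* Ω))
    (fun a b => f a b - d1 (tw fun d : D => cyQ (d : Ω ≃+* Ω)) x a b)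

private theorem px_uniq {Ω : Type u} [Field Ω] [CharZero Ω] [IsAlgClosed Ω]
    {D : Subgroup (Ω ≃+* Ω)} {inv : (D → D → A0) → A0}
    (L : GP.LocH (fsys D) (fun d : D => cyQ (d : Ω ≃+* Ω)) inv) {f : D → D → A0} {x x' : D → A0}
    (h : PX D f x) (h' : PX D f x') :
    inv (fun a b => f a b - d1 (tw fun d : D => cyQ (d : Ω ≃+* Ω)) x a b) =
      inv (fun a b => f a b - d1 (tw fun d : D => cyQ (d : Ω ≃+* Ω)) x' a b) := by
  have hχ : KR.IsChar (ofTwo (fsys D)) (fun d : D => cyQ (d : Ω ≃+* Ω)) := char_ofTwo L.char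
  have hact := KR.isAct_tw hχ
  have e0 : d1 (tw fun d : D => cyQ (d : Ω ≃+* Ω)) (fun g => x' g - x g) = fun a b =>
      (f a b - d1 (tw fun d : D => cyQ (d : Ω ≃+* Ω)) x a b) -
        (f a b - d1 (tw fun d : D => cyQ (d : Ω ≃+* Ω)) x' a b) := by
    funext a b
    rw [d1_sub hact]
    abel
  have hZ : KR.Z2 (ofTwo (fsys D)) (tw fun d : D => cyQ (d : Ω ≃+* Ω))
      (d1 (tw fun d : D => cyQ (d : Ω ≃+* Ω)) (fun g => x' g - x g)) := by
    rw [e0]
    exact z2_sub hact h.2 h'.2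
  have hs : KR.Sm1 (ofTwo (fsys D)) (fun g => x' g - x g) :=
    inj_sm1 (clo_fsys D) hχ (sm1_sub h'.1 h.1) hZ.1
  have e : (fun a b => f a b - d1 (tw fun d : D => cyQ (d : Ω ≃+* Ω)) x a b) = fun a b =>
      (f a b - d1 (tw fun d : D => cyQ (d : Ω ≃+* Ω)) x' a b) +
        d1 (tw fun d : D => cyQ (d : Ω ≃+* Ω)) (fun g => x' g - x g) a b := by
    funext a b
    rw [e0]
    exact (add_sub_cancel _ _).symm
  rw [e, L.add _ _ h'.2 hZ, L.cob (fun g => x' g - x g) hs, add_zero]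

theorem exists_locF {Ω : Type u} [Field Ω] [CharZero Ω] [IsAlgClosed Ω]
    {D : Subgroup (Ω ≃+* Ω)}
    (hLT : ∀ C : Subgroup (Ω ≃+* Ω), C ≤ D → (∃ W, OpnQ W ∧ D ⊓ W ≤ C) → PA.LocalType (fsys C))
    {inv : (D → D → A0) → A0} (L : GP.LocH (fsys D) (fun d : D => cyQ (d : Ω ≃+* Ω)) inv)
    (hs : ∀ t : A0, ∃ f, GP.Z2 (fsys D) (tw fun d : D => cyQ (d : Ω ≃+* Ω)) f ∧ inv f = t) :
    ∃ invF : (D → D → A0) → A0, LocF D inv invF := by
  classical
  have hχ : KR.IsChar (ofTwo (fsys D)) (fun d : D => cyQ (d : Ω ≃+* Ω)) := char_ofTwo L.char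
  have hact := KR.isAct_tw hχ
  have hall : ∀ f, KR.Z2 (lfull D) (tw fun d : D => cyQ (d : Ω ≃+* Ω)) f → ∃ x, PX D f x :=
    fun f hf => le_all hLT L hs hf
  let invF : (D → D → A0) → A0 := fun f => if h : ∃ x, PX D f x then
    inv (fun a b => f a b - d1 (tw fun d : D => cyQ (d : Ω ≃+* Ω)) h.choose a b) else 0
  have key : ∀ {f x}, PX D f x → invF f =
      inv (fun a b => f a b - d1 (tw fun d : D => cyQ (d : Ω ≃+* Ω)) x a b) := by
    intro f x h
    have h1 : ∃ x, PX D f x := ⟨x, h⟩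
    show (if h : ∃ x, PX D f x then
      inv (fun a b => f a b - d1 (tw fun d : D => cyQ (d : Ω ≃+* Ω)) h.choose a b) else 0) = _
    rw [dif_pos h1]
    exact px_uniq L h1.choose_spec h
  have hinv0 : inv (fun _ _ => 0) = 0 := by
    have h1 := L.cob (fun _ => 0) (by
      obtain ⟨W, hW⟩ := (fsys D).ex
      exact ⟨W, hW, fun _ _ _ => rfl⟩)
    have e : d1 (tw fun d : D => cyQ (d : Ω ≃+* Ω)) (fun _ => (0 : A0)) = fun _ _ => 0 := by
      funext a b
      simp [d1, tw]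
    rwa [e] at h1
  have hker : ∀ f, KR.Z2 (lfull D) (tw fun d : D => cyQ (d : Ω ≃+* Ω)) f → invF f = 0 →
      KR.B2 (lfull D) (tw fun d : D => cyQ (d : Ω ≃+* Ω)) f := by
    intro f hf h0
    obtain ⟨x, hx⟩ := hall f hf
    rw [key hx] at h0
    have h1 : KR.B2 (ofTwo (fsys D)) (tw fun d : D => cyQ (d : Ω ≃+* Ω))
        (fun a b => f a b - d1 (tw fun d : D => cyQ (d : Ω ≃+* Ω)) x a b) :=
      GP.a0_inj L hx.2 h0
    have h2 : KR.B2 (lfull D) (tw fun d : D => cyQ (d : Ω ≃+* Ω))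
        (d1 (tw fun d : D => cyQ (d : Ω ≃+* Ω)) x) := ⟨x, hx.1, rfl⟩
    have h3 := b2_add hact ((fin_fsys D).b2 h1) h2
    have e : (fun a b => f a b - d1 (tw fun d : D => cyQ (d : Ω ≃+* Ω)) x a b +
        d1 (tw fun d : D => cyQ (d : Ω ≃+* Ω)) x a b) = f := by
      funext a b
      rw [sub_add_cancel]
    rwa [e] at h3
  refine ⟨invF, ⟨char_lfull D, ?_, ?_⟩, ?_, hall, hker, ?_⟩
  · intro f f' hf hf'
    obtain ⟨x, hx⟩ := hall f hf
    obtain ⟨x', hx'⟩ := hall f' hf'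
    have e : (fun a b => f a b + f' a b -
        d1 (tw fun d : D => cyQ (d : Ω ≃+* Ω)) (fun g => x g + x' g) a b) = fun a b =>
        (f a b - d1 (tw fun d : D => cyQ (d : Ω ≃+* Ω)) x a b) +
          (f' a b - d1 (tw fun d : D => cyQ (d : Ω ≃+* Ω)) x' a b) := by
      funext a b
      rw [d1_add hact]
      abel
    have hp : PX D (fun a b => f a b + f' a b) (fun g => x g + x' g) := by
      refine ⟨sm1_add hx.1 hx'.1, ?_⟩
      rw [e]
      have h1 : KR.Z2 (ofTwo (fsys D)) (tw fun d : D => cyQ (d : Ω ≃+* Ω))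
        (fun a b => f a b - d1 (tw fun d : D => cyQ (d : Ω ≃+* Ω)) x a b) := hx.2
      have h2 : KR.Z2 (ofTwo (fsys D)) (tw fun d : D => cyQ (d : Ω ≃+* Ω))
        (fun a b => f' a b - d1 (tw fun d : D => cyQ (d : Ω ≃+* Ω)) x' a b) := hx'.2
      exact KR.Z2.add hact h1 h2
    rw [key hp, key hx, key hx', e]
    exact L.add _ _ hx.2 hx'.2
  · intro z hz
    have e : (fun a b => d1 (tw fun d : D => cyQ (d : Ω ≃+* Ω)) z a b -
        d1 (tw fun d : D => cyQ (d : Ω ≃+* Ω)) z a b) = fun _ _ => (0 : A0) := by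
      funext a b
      rw [sub_self]
    have hp : PX D (d1 (tw fun d : D => cyQ (d : Ω ≃+* Ω)) z) z := by
      refine ⟨hz, ?_⟩
      rw [e]
      obtain ⟨W, hW⟩ := (fsys D).ex
      exact ⟨⟨W, hW, fun _ _ _ _ _ _ => rfl⟩, fun a b c => by simp [d2, tw]⟩
    rw [key hp, e, hinv0]
  · intro f hf
    have e : (fun a b => f a b - d1 (tw fun d : D => cyQ (d : Ω ≃+* Ω)) (fun _ => (0 : A0)) a b) =
        f := by
      funext a b
      simp [d1, tw]
    have hp : PX D f (fun _ => 0) := by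
      refine ⟨sm1_const 0, ?_⟩
      rw [e]
      exact hf
    rw [key hp, e]
  · intro f hf h0
    exact loc_div L hf (hker _ (coc_hf (char_lfull D) hf) h0)

end Pool.Agent.Work.MP_787500_nt.RQ
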