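import Mathlib
import Pool.Agent.Work.MP_787500_nt.RQ.Basic
import Pool.Agent.Work.MP_787500_nt.HP.QData

/-!
# Module LOCQ (size S): the local invariant at every prime

If `2 ∈ Q` use `exists_qdat` with `T = ∅` and `P = fun _ => Q` (`IsP ∅ P`), and its field `loc none`. Otherwise `Q` contains a prime number `l` (`Q ≠ ⊥`: it contains a nonzero
integer, the constant coefficient of the minimal polynomial of a nonzero element: `Ideal.comap` to `ℤ` is a nonzero prime ideal, `Ideal.comap_ne_bot_of_integral_mem` or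
`Ideal.eq_bot_of_comap_eq_bot`), `l ≠ 2`, and `exists_qdat` with `T = {l}`, `P = fun k => if k = 2 then P₂ else Q` where `P₂` is a prime that contains 2 (`prime_over_nat` in
`HP/Main.lean`, copy it). `exists_tameQ` gives also the explicit form at `l`.
-/

set_option autoImplicit false
set_option linter.unusedSectionVars false

namespace Pool.Agent.Work.MP_787500_nt.RQ

open NumberField
open Pool.Agent.Work.MP_787500_nt.GP (A0 hf IsAct d0 d1 d2 tw iota)
open Pool.Agent.Work.MP_787500_nt.PA (TwoSys)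
open Pool.Agent.Work.MP_787500_nt.KR (FSys ofTwo)
open Pool.Agent.Work.MP_787500_nt.HP

universe u

/-- there is a prime of the ring of all algebraic integers above every prime number -/
private theorem locq_over_nat {Ω : Type u} [Field Ω] [CharZero Ω] {p : ℕ} (hp : p.Prime) :
    ∃ Q : Ideal (𝓞 Ω), Q.IsPrime ∧ (p : 𝓞 Ω) ∈ Q := by
  have h1 : (Ideal.span {(p : 𝓞 Ω)}) ≠ ⊤ := by
    intro h
    rw [Ideal.span_singleton_eq_top] at h
    obtain ⟨y, hy⟩ := isUnit_iff_exists_inv.1 h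
    have h2 : (p : Ω) * (y : Ω) = 1 := by
      have h3 := congrArg (fun z : 𝓞 Ω => (z : Ω)) hy
      simpa using h3
    have hp0 : (p : Ω) ≠ 0 := Nat.cast_ne_zero.2 hp.ne_zero
    have h4 : (y : Ω) = algebraMap ℚ Ω ((p : ℚ)⁻¹) := by
      rw [map_inv₀, map_natCast]
      exact eq_inv_of_mul_eq_one_right h2
    have h5 : IsIntegral ℤ (y : Ω) := y.2
    rw [h4, isIntegral_algebraMap_iff (algebraMap ℚ Ω).injective] at h5
    obtain ⟨z, hz⟩ := (IsIntegrallyClosed.isIntegral_iff (R := ℤ) (K := ℚ)).1 h5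
    have h6 : (z : ℚ) = (p : ℚ)⁻¹ := hz
    have hp0' : (p : ℚ) ≠ 0 := Nat.cast_ne_zero.2 hp.ne_zero
    have h7 : (z : ℚ) * p = 1 := by rw [h6, inv_mul_cancel₀ hp0']
    have h8 : z * (p : ℤ) = 1 := by exact_mod_cast h7
    have h9 : (p : ℤ) ∣ 1 := ⟨z, by rw [← h8]; ring⟩
    have h10 : p ∣ 1 := by exact_mod_cast h9
    exact hp.one_lt.ne' (Nat.dvd_one.1 h10)
  obtain ⟨M, hM, hle⟩ := Ideal.exists_le_maximal _ h1
  exact ⟨M, hM.isPrime, hle (Ideal.mem_span_singleton_self _)⟩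

theorem exists_nat_mem {Ω : Type u} [Field Ω] [CharZero Ω] {Q : Ideal (𝓞 Ω)} (hQ : Q.IsPrime)
    (hb : Q ≠ ⊥) : ∃ l : ℕ, l.Prime ∧ (l : 𝓞 Ω) ∈ Q := by
  have hc : Ideal.comap (algebraMap ℤ (𝓞 Ω)) Q ≠ ⊥ := by
    intro h
    exact hb (Ideal.eq_bot_of_comap_eq_bot h)
  obtain ⟨n, hn, hn0⟩ := Submodule.exists_mem_ne_zero_of_ne_bot hc
  have h1 : ((n.natAbs : ℕ) : 𝓞 Ω) ∈ Q := by
    have h2 : algebraMap ℤ (𝓞 Ω) n ∈ Q := hn
    rw [eq_intCast] at h2
    rcases Int.natAbs_eq n with h3 | h3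
    · rw [h3, Int.cast_natCast] at h2
      exact h2
    · rw [h3, Int.cast_neg, Int.cast_natCast] at h2
      exact (neg_mem_iff).1 h2
  have key : ∀ m : ℕ, m ≠ 0 → (m : 𝓞 Ω) ∈ Q → ∃ l : ℕ, l.Prime ∧ (l : 𝓞 Ω) ∈ Q := by
    intro m
    induction m using induction_on_primes with
    | zero => exact fun h => absurd rfl h
    | one =>
      intro _ h
      rw [Nat.cast_one] at h
      exact absurd ((Ideal.eq_top_iff_one Q).2 h) hQ.ne_top
    | prime_mul p a hp ih =>
      intro h0 h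
      rw [Nat.cast_mul] at h
      rcases hQ.mem_or_mem h with h | h
      · exact ⟨p, hp, h⟩
      · exact ih (right_ne_zero_of_mul h0) h
  exact key _ (Int.natAbs_ne_zero.2 hn0) h1

theorem exists_qdatQ {Ω : Type u} [Field Ω] [CharZero Ω] [IsAlgClosed Ω] (halg : Alg Ω)
    {c : Ω ≃+* Ω} (hc : ∀ x, c (c x) = x) (hne : ∃ x, c x ≠ x) {l : ℕ} (hl : l.Prime)
    (h2 : l ≠ 2) {Q : Ideal (𝓞 Ω)} (hQ : Q.IsPrime) (hlQ : (l : 𝓞 Ω) ∈ Q) :
    ∃ P : ℕ → Ideal (𝓞 Ω), IsP {l} P ∧ P l = Q ∧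
      ∃ inv : ∀ w : Option ({l} : Finset ℕ), (stb (HP.PP P w) → stb (HP.PP P w) → A0) → A0,
        QDat c {l} P inv := by
  obtain ⟨P₂, hP₂, h2P⟩ := locq_over_nat (Ω := Ω) Nat.prime_two
  have hP : IsP {l} (fun k => if k = 2 then P₂ else Q) := by
    refine ⟨fun k hk => ?_, fun k hk => ?_, fun k hk => ?_, fun k hk => ?_⟩
    · rw [Finset.mem_singleton] at hk
      rw [hk]
      exact hl
    · rw [Finset.mem_singleton] at hk
      rw [hk]
      exact h2
    · by_cases h : k = 2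
      · simp only [h, if_true]
        exact hP₂
      · simp only [h, if_false]
        exact hQ
    · by_cases h : k = 2
      · simp only [h, if_true]
        exact h2P
      · simp only [h, if_false]
        rcases hk with hk | hk
        · rw [Finset.mem_singleton] at hk
          rw [hk]
          exact hlQ
        · exact absurd hk h
  exact ⟨_, hP, if_neg h2, exists_qdat halg hc hne hP⟩

theorem exists_locH {Ω : Type u} [Field Ω] [CharZero Ω] [IsAlgClosed Ω] (halg : Alg Ω)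
    {c : Ω ≃+* Ω} (hc : ∀ x, c (c x) = x) (hne : ∃ x, c x ≠ x) {Q : Ideal (𝓞 Ω)}
    (hQ : Q.IsPrime) (hb : Q ≠ ⊥) : ∃ inv : (stb Q → stb Q → A0) → A0,
      GP.LocH (fsys (stb Q)) (fun d : stb Q => cyQ (d : Ω ≃+* Ω)) inv := by
  by_cases h2 : (2 : 𝓞 Ω) ∈ Q
  · have hP : IsP ∅ (fun _ : ℕ => Q) := by
      refine ⟨fun k hk => absurd hk (Finset.notMem_empty k),
        fun k hk => absurd hk (Finset.notMem_empty k), fun k _ => hQ, fun k hk => ?_⟩
      rcases hk with hk | hk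
      · exact absurd hk (Finset.notMem_empty k)
      · rw [hk]
        exact_mod_cast h2
    obtain ⟨inv, h⟩ := exists_qdat halg hc hne hP
    exact ⟨inv none, h.loc none⟩
  · obtain ⟨l, hl, hlQ⟩ := exists_nat_mem hQ hb
    have hl2 : l ≠ 2 := by
      rintro rfl
      exact h2 (by exact_mod_cast hlQ)
    obtain ⟨P, hP, rfl, inv, h⟩ := exists_qdatQ halg hc hne hl hl2 hQ hlQ
    exact ⟨inv (some ⟨l, Finset.mem_singleton_self l⟩),
      h.loc (some ⟨l, Finset.mem_singleton_self l⟩)⟩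

end Pool.Agent.Work.MP_787500_nt.RQ
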