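import Mathlib
import Pool.Agent.Work.MP_787500_nt.RQ.LemA
import Pool.Agent.Work.MP_787500_nt.RQ.LocQ
import Pool.Agent.Work.MP_787500_nt.RQ.LocFEx

/-!
# Module LEMB (size M): classes with values in `A0` that are trivial at the odd primes and at infinity

Claim by induction on `n`: the statement holds if `2 ^ n • f = 0`. `n = 0`: `f = 0`. Step: `2 ^ n • f` is killed by 2: `= hf ∘ g` (`exists_hf`), `g ∈ KR.Coc (afull Ω)` (`z2_hf`, `char_afull`). `g c c + g 1 1 = 0`: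
`hf_inj`, `hf_add`, and `2 ^ n • (f c c + f 1 1) = 0`. For an odd prime `Q`: `f|stb Q = d1 x`, so `hf ∘ g|stb Q = d1 (2 ^ n • x)` is `B2`, and `loc_div` (`exists_locH`) gives `Cob`.
`lemA`: `g = d z`; `hf ∘ z = 2 ^ n • z'` with `z'` smooth (`GP.a0_div_pow`, `choose`). `f' = f - d1 z'`: `2 ^ n • f' = 0` (`d1_hf`), `f'` is in `KR.Z2`, locally trivial at odd primes
(`rs_b2`, `b2_sub`), and `f' c c + f' 1 1 = -(d1 z' c c + d1 z' 1 1)`, where `d1 z' c c = z' c - z' c - z' 1` (`cyQ c = -1`, `cyQ_conj`; `c c = 1`) and `d1 z' 1 1 = z' 1`: the sum is 0.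
Every `f` is killed by some `2 ^ n` (finitely many values, `GP.a0_killed`).
-/

set_option autoImplicit false
set_option linter.unusedSectionVars false

namespace Pool.Agent.Work.MP_787500_nt.RQ

open NumberField
open Pool.Agent.Work.MP_787500_nt.GP (A0 hf IsAct d0 d1 d2 tw iota)
open Pool.Agent.Work.MP_787500_nt.PA (TwoSys)
open Pool.Agent.Work.MP_787500_nt.KR (FSys ofTwo)
open Pool.Agent.Work.MP_787500_nt.HP

universe u

private theorem lb_killed {D : Type*} [Group D] {SD : FSys D} {F : D → D → A0}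
    (hF : KR.Sm2 SD F) : ∃ m : ℕ, ∀ a b, (2 ^ m) • F a b = 0 := by
  obtain ⟨W, hW, h⟩ := hF
  have hfi : W.FiniteIndex := ⟨SD.index hW⟩
  have hfin : Finite (D ⧸ W) := Subgroup.finite_quotient_of_finiteIndex
  obtain ⟨m, hm, -⟩ := GP.a0_killed (fun q : (D ⧸ W) × (D ⧸ W) => F q.1.out q.2.out)
  refine ⟨m, fun a b => ?_⟩
  obtain ⟨w, hw⟩ := QuotientGroup.mk_out_eq_mul W a
  obtain ⟨w', hw'⟩ := QuotientGroup.mk_out_eq_mul W b
  have h1 := hm ((a : D ⧸ W), (b : D ⧸ W))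
  rw [hw, hw', h a b w w.2 w' w'.2] at h1
  exact h1

private theorem lb_d2_nsmul {G : Type*} [Group G] (χ : G → ℤ_[2]) (k : ℕ) (x : G → G → A0)
    (a b c : G) : d2 (tw χ) (fun g h => k • x g h) a b c = k • d2 (tw χ) x a b c := by
  simp only [d2, tw, smul_sub, smul_add]
  rw [smul_comm]

private theorem lb_d1_nsmul {G : Type*} [Group G] (χ : G → ℤ_[2]) (k : ℕ) (x : G → A0)
    (a b : G) : d1 (tw χ) (fun g => k • x g) a b = k • d1 (tw χ) x a b := by
  simp only [d1, tw, smul_sub, smul_add]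
  rw [smul_comm]

private theorem lb_aux {Ω : Type u} [Field Ω] [CharZero Ω] [IsAlgClosed Ω] (halg : Alg Ω)
    {c : Ω ≃+* Ω} (hc : ∀ x, c (c x) = x) (hne : ∃ x, c x ≠ x) (n : ℕ) :
    ∀ f : (Ω ≃+* Ω) → (Ω ≃+* Ω) → A0, KR.Z2 (afull Ω) (tw cyQ) f → f c c + f 1 1 = 0 →
    (∀ Q : Ideal (𝓞 Ω), Q.IsPrime → Q ≠ ⊥ → (2 : 𝓞 Ω) ∉ Q →
      KR.B2 (lfull (stb Q)) (tw fun d : stb Q => cyQ (d : Ω ≃+* Ω)) (rs (stb Q) f)) →
    (∀ a b, (2 ^ n) • f a b = 0) → KR.B2 (afull Ω) (tw cyQ) f := by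
  induction n with
  | zero =>
    intro f _ _ _ hk
    refine ⟨fun _ => 0, sm1_const 0, ?_⟩
    funext a b
    have := hk a b
    rw [pow_zero, one_smul] at this
    rw [this]
    simp [d1, tw]
  | succ n ih =>
    intro f hf0 h0 hl hk
    have hχ : KR.IsChar (afull Ω) (cyQ : (Ω ≃+* Ω) → ℤ_[2]) := char_afull
    have hact : IsAct (tw (cyQ : (Ω ≃+* Ω) → ℤ_[2])) := KR.isAct_tw hχ
    have hcc : c * c = 1 := by
      ext x
      exact hc x
    obtain ⟨g, hg⟩ := exists_hf (f := fun a b => (2 ^ n) • f a b) (fun a b => by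
      rw [← two_nsmul, ← mul_smul, mul_comm, ← pow_succ]
      exact hk a b)
    have hg' : ∀ a b, (2 ^ n) • f a b = hf (g a b) := fun a b => congrFun (congrFun hg a) b
    have hgc : KR.Coc (afull Ω) g := by
      apply z2_hf hχ
      rw [← hg]
      refine ⟨sm2_comp hf0.1 fun t => (2 ^ n) • t, fun a b d => ?_⟩
      rw [lb_d2_nsmul, hf0.2, smul_zero]
    have hg0 : g c c + g 1 1 = 0 := by
      apply GP.hf_inj
      rw [GP.hf_add, ← hg', ← hg', ← smul_add, h0, smul_zero, GP.hf_zero]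
    have hcob : KR.Cob (afull Ω) g := by
      refine lemA halg hc hne hgc hg0 fun Q hQ hQb h2Q => ?_
      obtain ⟨inv, L⟩ := exists_locH halg hc hne hQ hQb
      refine loc_div L (rs_coc (stb Q) hgc) ?_
      obtain ⟨x, hx, h1⟩ := hl Q hQ hQb h2Q
      refine ⟨fun d => (2 ^ n) • x d, sm1_comp hx fun t => (2 ^ n) • t, ?_⟩
      funext a b
      rw [lb_d1_nsmul, ← h1]
      exact (hg' a b).symm
    obtain ⟨z, hz, h1⟩ := hcob
    choose s hs using fun a : ZMod 2 => GP.a0_div_pow n (hf a)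
    have hz' : KR.Sm1 (afull Ω) fun a => s (z a) := sm1_comp hz s
    have hb : KR.B2 (afull Ω) (tw cyQ) (d1 (tw cyQ) fun a => s (z a)) := ⟨_, hz', rfl⟩
    have hd : ∀ a b, (2 ^ n) • d1 (tw cyQ) (fun a => s (z a)) a b = hf (g a b) := by
      intro a b
      rw [← lb_d1_nsmul]
      have e : (fun a => (2 ^ n) • s (z a)) = fun a => hf (z a) := by
        funext a
        exact hs (z a)
      rw [e, d1_hf hχ, h1]
    have hcd : d1 (tw cyQ) (fun a => s (z a)) c c + d1 (tw cyQ) (fun a => s (z a)) 1 1 = 0 := by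
      simp only [d1, tw, hcc, mul_one, cyQ_conj hc hne, hχ.one, one_smul, neg_smul]
      abel
    have hfin : KR.B2 (afull Ω) (tw cyQ)
        (fun a b => f a b - d1 (tw cyQ) (fun a => s (z a)) a b) := by
      refine ih _ (z2_sub hact hf0 (KR.d1_tw_Z2 hχ hz')) ?_ ?_ ?_
      · have e : f c c - d1 (tw cyQ) (fun a => s (z a)) c c +
            (f 1 1 - d1 (tw cyQ) (fun a => s (z a)) 1 1) = f c c + f 1 1 -
            (d1 (tw cyQ) (fun a => s (z a)) c c + d1 (tw cyQ) (fun a => s (z a)) 1 1) := by abel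
        rw [e, h0, hcd, sub_zero]
      · intro Q hQ hQb h2Q
        exact b2_sub (KR.isAct_tw (char_lfull (stb Q))) (hl Q hQ hQb h2Q) (rs_b2 (stb Q) hb)
      · intro a b
        rw [smul_sub, hd, hg', sub_self]
    have h2 := b2_add hact hfin hb
    have e : (fun a b => f a b - d1 (tw cyQ) (fun a => s (z a)) a b +
        d1 (tw cyQ) (fun a => s (z a)) a b) = f := by
      funext a b
      abel
    rw [e] at h2
    exact h2

theorem lemB {Ω : Type u} [Field Ω] [CharZero Ω] [IsAlgClosed Ω] (halg : Alg Ω) {c : Ω ≃+* Ω}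
    (hc : ∀ x, c (c x) = x) (hne : ∃ x, c x ≠ x) {f : (Ω ≃+* Ω) → (Ω ≃+* Ω) → A0}
    (hf : KR.Z2 (afull Ω) (tw cyQ) f) (h0 : f c c + f 1 1 = 0)
    (hl : ∀ Q : Ideal (𝓞 Ω), Q.IsPrime → Q ≠ ⊥ → (2 : 𝓞 Ω) ∉ Q →
      KR.B2 (lfull (stb Q)) (tw fun d : stb Q => cyQ (d : Ω ≃+* Ω)) (rs (stb Q) f)) :
    KR.B2 (afull Ω) (tw cyQ) f := by
  obtain ⟨n, hn⟩ := lb_killed hf.1
  exact lb_aux halg hc hne n f hf h0 hl hn

end Pool.Agent.Work.MP_787500_nt.RQ
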