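import Mathlib
import Pool.Agent.Work.MP_787500_nt.RQ.ComI
import Pool.Agent.Work.MP_787500_nt.RQ.DAb
import Pool.Agent.Work.MP_787500_nt.RQ.LocFEx
import Pool.Agent.Work.MP_787500_nt.RQ.Cls
import Pool.Agent.Work.MP_787500_nt.RQ.LocQ

/-!
# Module UNRQ (size S-M): unramified classes are trivial

`exists_nat_mem` gives the prime number `l ∈ Q`, `l ≠ 2` (`2 ∉ Q`). `exists_qdatQ`: `P`, `inv`, `hQd : QDat c {l} P inv`, `P l = Q` (`subst`). `exists_locF` for `D = stb Q` (`locType_sub`, `hQd.loc (some ⟨l, _⟩)`, `inv_surj` with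
`cyQ_conj`) gives `invF`, `H`. `hQd.tame` gives `a`, `u`, `σ`, `τ`, `τ ∈ inr Q`, `TameD.σχ`, `τχ`, `inv = u • iota`. `iota_ab` with `J = (inr Q).subgroupOf (stb Q)` (normal: `inr_conj`; `comm_inr`; `cyQ_inr` in
`HP/EmbBasic.lean`), `W` = the restriction of the member of `ufull Ω T` for which `f` is smooth (it contains `inr Q`): `invF (rs f) = u • iota σ τ l f`. `(τ ^ l σ)⁻¹ (σ τ) ∈ J` as `J` is normal and `τ ∈ J`.
`iota σ τ l f = f σ τ - f (τ ^ l) σ - ∑ f (τ ^ i) τ` with `τ`, `τ ^ i ∈ W`: `= f σ 1 - f 1 σ - (l - 1) • f 1 1 = l • f 1 1 - f 1 1 - (l - 1) • f 1 1 = 0` (`f σ 1 = cyQ σ • f 1 1`, `f 1 σ = f 1 1` from the cocycle relation).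
`H.ker`.
-/

set_option autoImplicit false
set_option linter.unusedSectionVars false

namespace Pool.Agent.Work.MP_787500_nt.RQ

open NumberField
open Pool.Agent.Work.MP_787500_nt.GP (A0 hf IsAct d0 d1 d2 tw iota)
open Pool.Agent.Work.MP_787500_nt.PA (TwoSys)
open Pool.Agent.Work.MP_787500_nt.KR (FSys ofTwo)
open Pool.Agent.Work.MP_787500_nt.HP

universe u

theorem unr_b2 {Ω : Type u} [Field Ω] [CharZero Ω] [IsAlgClosed Ω] (halg : Alg Ω) {c : Ω ≃+* Ω}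
    (hc : ∀ x, c (c x) = x) (hne : ∃ x, c x ≠ x) {T : Set ℕ}
    {f : (Ω ≃+* Ω) → (Ω ≃+* Ω) → A0} (hf : KR.Z2 (ufull Ω T) (tw cyQ) f) {Q : Ideal (𝓞 Ω)}
    (hQ : Q.IsPrime) (hb : Q ≠ ⊥) (h2 : (2 : 𝓞 Ω) ∉ Q) (hT : ∀ l ∈ T, (l : 𝓞 Ω) ∉ Q) :
    KR.B2 (lfull (stb Q)) (tw fun d : stb Q => cyQ (d : Ω ≃+* Ω)) (rs (stb Q) f) := by
  obtain ⟨l, hl, hlQ⟩ := exists_nat_mem hQ hb
  have hl2 : l ≠ 2 := by
    rintro rfl
    exact h2 (by exact_mod_cast hlQ)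
  obtain ⟨P, hP, rfl, inv, hQd⟩ := exists_qdatQ halg hc hne hl hl2 hQ hlQ
  have hm : l ∈ ({l} : Finset ℕ) := Finset.mem_singleton_self l
  have hcc : cyQ c = -1 := cyQ_conj hc hne
  obtain ⟨invF, H⟩ := exists_locF (D := stb (P l)) (inv := inv (some ⟨l, hm⟩))
    (fun C hC hW => locType_sub halg hQ hb hC hW) (hQd.loc (some ⟨l, hm⟩))
    (fun t => inv_surj halg hcc ⟨l, hm⟩ hP hQd (some ⟨l, hm⟩) t)
  obtain ⟨a, u, σ, τ, -, hτ, -, hT1, hinv⟩ := hQd.tame ⟨l, hm⟩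
  have hz : KR.Z2 (lfull (stb (P l))) (tw fun d : stb (P l) => cyQ (d : Ω ≃+* Ω))
      (rs (stb (P l)) f) := rs_z2 _ ((fin_ufull T).z2 hf)
  refine H.ker _ hz ?_
  obtain ⟨⟨W, hW, h1⟩, hd⟩ := hf
  have hJW : (inr (P l)).subgroupOf (stb (P l)) ≤ W.subgroupOf (stb (P l)) :=
    fun x hx => hW.2 (P l) hQ h2 hT hx
  have hWm : (lfull (stb (P l))).mem (W.subgroupOf (stb (P l))) := by
    obtain ⟨⟨⟨s, hs⟩, hn, hi⟩, -⟩ := hW
    refine ⟨⟨s, fun g hg => hs g hg⟩, inferInstance, fun h => hi ?_⟩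
    have h1 : (W.subgroupOf (stb (P l))).index ∣ W.index :=
      Subgroup.relIndex_dvd_index_of_normal W (stb (P l))
    rw [h, zero_dvd_iff] at h1
    exact h1
  have hJn : ((inr (P l)).subgroupOf (stb (P l))).Normal :=
    ⟨fun n hn g => inr_conj g.2 hn⟩
  have hτJ : τ ∈ (inr (P l)).subgroupOf (stb (P l)) := hτ
  have hl1 : 1 ≤ l := hl.one_le
  have hστ : (τ ^ l * σ)⁻¹ * (σ * τ) ∈ (inr (P l)).subgroupOf (stb (P l)) := by
    have e : (τ ^ l * σ)⁻¹ * (σ * τ) = (σ⁻¹ * (τ ^ l)⁻¹ * σ⁻¹⁻¹) * τ := by group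
    rw [e]
    exact mul_mem (hJn.conj_mem _ (inv_mem (pow_mem hτJ l)) σ⁻¹) hτJ
  rw [iota_ab H hJn (fun a b => comm_inr hQ hl hlQ a.2 b.2)
    (fun a ha => cyQ_inr hQ h2 ha) hl1 hT1.σχ hT1.τχ hστ hinv hz hWm hJW
    (fun g h w hw w' hw' => h1 g h w hw w' hw')]
  have hτW : ∀ i : ℕ, ((τ ^ i : stb (P l)) : Ω ≃+* Ω) ∈ W := fun i => hJW (pow_mem hτJ i)
  have e1 : ∀ g h : Ω ≃+* Ω, h ∈ W → f g h = f g 1 := fun g h hh => by
    have := h1 g 1 1 W.one_mem h hh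
    rwa [mul_one, one_mul] at this
  have e2 : ∀ g h : Ω ≃+* Ω, g ∈ W → f g h = f 1 h := fun g h hg => by
    have := h1 1 h g hg 1 W.one_mem
    rwa [mul_one, one_mul] at this
  have d1' : ∀ g : Ω ≃+* Ω, f g 1 = cyQ g • f 1 1 := fun g => by
    have := hd g 1 1
    simp only [d2, tw, mul_one] at this
    rw [sub_add_cancel, sub_eq_zero] at this
    exact this.symm
  have d2' : ∀ g : Ω ≃+* Ω, f 1 g = f 1 1 := fun g => by
    have := hd 1 1 g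
    simp only [d2, tw, mul_one, one_mul] at this
    have hc1 : cyQ (1 : Ω ≃+* Ω) = 1 := (char_afull (Ω := Ω)).one
    rw [hc1, one_smul, sub_self, zero_add, sub_eq_zero] at this
    exact this
  have e3 : iota σ τ l (rs (stb (P l)) f) = 0 := by
    show f σ τ - f ((τ ^ l : stb (P l)) : Ω ≃+* Ω) σ -
      ∑ i ∈ Finset.Ico 1 l, f ((τ ^ i : stb (P l)) : Ω ≃+* Ω) τ = 0
    have hτ1 : (τ : Ω ≃+* Ω) ∈ W := hJW hτJ
    rw [e1 _ _ hτ1, e2 _ _ (hτW l), d1' σ, d2' σ, Finset.sum_congr rfl (fun i _ => by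
      rw [e1 _ _ hτ1, e2 _ _ (hτW i)]), Finset.sum_const, Nat.card_Ico]
    have hσ : cyQ (σ : Ω ≃+* Ω) = (l : ℤ_[2]) := hT1.σχ
    rw [hσ, Nat.cast_smul_eq_nsmul]
    obtain ⟨k, rfl⟩ : ∃ k, l = k + 1 := ⟨l - 1, by omega⟩
    rw [Nat.add_sub_cancel, add_smul, one_smul]
    abel
  rw [e3, smul_zero]

end Pool.Agent.Work.MP_787500_nt.RQ
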