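import Mathlib
import Pool.Agent.Work.MP_787500_nt.RQ.LemB
import Pool.Agent.Work.MP_787500_nt.RQ.ConjQ
import Pool.Agent.Work.MP_787500_nt.RQ.UnrQ
import Pool.Agent.Work.MP_787500_nt.RQ.Cls

/-!
# Module LEMC (size M): every class unramified outside 2 and T comes from the system of 2-power index

`t l = invF (some l) (rs f)` for `l ∈ T`; `z = ∑ l : T, z_l` with `z_l` from `exists_class` for `(l, t l)`. `z ∈ GP.Z2 (qsys Ω T)`, normalised, `z c c = 0` (finite sums). `g = f - z ∈ KR.Z2 (ufull Ω T)`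
(`fin_qsys`), `g c c + g 1 1 = 0`. Local triviality of `g` at every prime `Q ≠ ⊥`, `2 ∉ Q`: let `l` be the prime number in `Q` (`exists_nat_mem`). If `l ∉ T`: `unr_b2` (no `l' ∈ T` is in `Q`: two different prime
numbers in `Q` would give `1 ∈ Q`, `nat_mem` in `HP/Splt.lean`). If `l ∈ T`: at `P l`: `invF (some l) (rs g) = t l - inv (some l) (z|) = t l - t l = 0` (`(hF _).loc.add`, `ext`; `inv (some l) (z|)` is the sum
of the values `inv (some l) (z_{l'}|)`, which are `t l` for `l' = l` and 0 otherwise), so `(hF _).ker` and `conj_b2`. `lemB`: `g = d1 x`.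
-/

set_option autoImplicit false
set_option linter.unusedSectionVars false

namespace Pool.Agent.Work.MP_787500_nt.RQ

open NumberField
open Pool.Agent.Work.MP_787500_nt.GP (A0 hf IsAct d0 d1 d2 tw iota)
open Pool.Agent.Work.MP_787500_nt.PA (TwoSys)
open Pool.Agent.Work.MP_787500_nt.KR (FSys ofTwo)
open Pool.Agent.Work.MP_787500_nt.HP

universe u

private theorem lemc_res {Ω : Type u} [Field Ω] (D : Subgroup (Ω ≃+* Ω)) {T : Set ℕ}
    (W : Subgroup (Ω ≃+* Ω)) (hW : (qsys Ω T).mem W) :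
    ∃ W', (fsys D).mem W' ∧ ∀ w ∈ W', ((w : D) : Ω ≃+* Ω) ∈ W := by
  obtain ⟨⟨⟨s, hs⟩, hn, k, hk⟩, -⟩ := hW
  refine ⟨W.subgroupOf D, ⟨⟨s, fun g hg => hs g hg⟩, inferInstance, ?_⟩, fun w hw => hw⟩
  have h1 : (W.subgroupOf D).index ∣ 2 ^ k := hk ▸ Subgroup.relIndex_dvd_index_of_normal W D
  obtain ⟨m, -, hm⟩ := (Nat.dvd_prime_pow Nat.prime_two).1 h1
  exact ⟨m, hm⟩

/-- restriction of cocycles to a subgroup -/
private theorem lemc_z2 {Ω : Type u} [Field Ω] (D : Subgroup (Ω ≃+* Ω)) {T : Set ℕ}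
    {z : (Ω ≃+* Ω) → (Ω ≃+* Ω) → A0} (hz : GP.Z2 (qsys Ω T) (tw cyQ) z) :
    GP.Z2 (fsys D) (tw fun d : D => cyQ (d : Ω ≃+* Ω)) (fun a b : D => z a b) := by
  obtain ⟨⟨W, hW, h1⟩, h2⟩ := hz
  obtain ⟨W', hW', h3⟩ := lemc_res D W hW
  exact ⟨⟨W', hW', fun g h w hw w' hw' => h1 g h w (h3 w hw) w' (h3 w' hw')⟩,
    fun a b c => h2 a b c⟩

private theorem lemc_sum {Ω : Type u} [Field Ω] [CharZero Ω] [IsAlgClosed Ω] {T : Set ℕ}
    {ι : Type*} {zz : ι → (Ω ≃+* Ω) → (Ω ≃+* Ω) → A0}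
    (hz : ∀ l, GP.Z2 (qsys Ω T) (tw cyQ) (zz l)) (s : Finset ι) :
    GP.Z2 (qsys Ω T) (tw cyQ) (fun a b => ∑ l ∈ s, zz l a b) := by
  classical
  have hχ := char_qsys (Ω := Ω) T
  have hact : IsAct (tw (cyQ : (Ω ≃+* Ω) → ℤ_[2])) := KR.isAct_tw hχ
  have h : KR.Z2 (ofTwo (qsys Ω T)) (tw cyQ) (fun a b => ∑ l ∈ s, zz l a b) := by
    induction s using Finset.induction_on with
    | empty =>
      simp only [Finset.sum_empty]
      obtain ⟨W, hW⟩ := (ofTwo (qsys Ω T)).ex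
      refine ⟨⟨W, hW, fun _ _ _ _ _ _ => rfl⟩, fun a b c => ?_⟩
      simp only [d2, hact.zero]
      abel
    | insert l s hl ih =>
      simp only [Finset.sum_insert hl]
      exact KR.Z2.add hact ⟨(hz l).1, (hz l).2⟩ ih
  exact ⟨h.1, h.2⟩

private theorem lemc_inv {Ω : Type u} [Field Ω] [CharZero Ω] [IsAlgClosed Ω] {T : Set ℕ}
    {D : Subgroup (Ω ≃+* Ω)} {inv : (D → D → A0) → A0}
    (L : GP.LocH (fsys D) (fun d : D => cyQ (d : Ω ≃+* Ω)) inv)
    {ι : Type*} {zz : ι → (Ω ≃+* Ω) → (Ω ≃+* Ω) → A0}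
    (hz : ∀ l, GP.Z2 (qsys Ω T) (tw cyQ) (zz l)) (s : Finset ι) :
    inv (fun a b : D => ∑ l ∈ s, zz l a b) = ∑ l ∈ s, inv (fun a b : D => zz l a b) := by
  classical
  induction s using Finset.induction_on with
  | empty =>
    simp only [Finset.sum_empty]
    obtain ⟨W, hW⟩ := (fsys D).ex
    have h := L.cob (fun _ => 0) ⟨W, hW, fun _ _ _ => rfl⟩
    have e : d1 (tw fun d : D => cyQ (d : Ω ≃+* Ω)) (fun _ => (0 : A0)) = fun _ _ => 0 := by
      funext a b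
      simp [d1, tw]
    rw [e] at h
    exact h
  | insert l s hl ih =>
    simp only [Finset.sum_insert hl]
    rw [← ih]
    exact L.add _ _ (lemc_z2 D (hz l)) (lemc_z2 D (lemc_sum hz s))

theorem lemC {Ω : Type u} [Field Ω] [CharZero Ω] [IsAlgClosed Ω] (halg : Alg Ω) {c : Ω ≃+* Ω}
    (hc : ∀ x, c (c x) = x) (hne : ∃ x, c x ≠ x) {T : Finset ℕ} {P : ℕ → Ideal (𝓞 Ω)}
    (hP : IsP T P) {inv invF : ∀ w : Option T, (stb (HP.PP P w) → stb (HP.PP P w) → A0) → A0}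
    (hQ : QDat c T P inv) (hF : ∀ w, LocF (stb (HP.PP P w)) (inv w) (invF w))
    {f : (Ω ≃+* Ω) → (Ω ≃+* Ω) → A0} (hf : KR.Z2 (ufull Ω T) (tw cyQ) f)
    (h0 : f c c + f 1 1 = 0) : ∃ (z : (Ω ≃+* Ω) → (Ω ≃+* Ω) → A0) (x : (Ω ≃+* Ω) → A0),
      GP.Z2 (qsys Ω T) (tw cyQ) z ∧ (∀ g, z g 1 = 0) ∧ (∀ g, z 1 g = 0) ∧ z c c = 0 ∧
      KR.Sm1 (afull Ω) x ∧ ∀ a b, f a b = z a b + d1 (tw cyQ) x a b := by
  classical
  have hcc : cyQ c = -1 := cyQ_conj hc hne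
  choose zz hz2 hzr hzl hzc hzi hz0 using fun l : T => exists_class halg hcc hP hQ l
    (invF (some l) (rs (stb (HP.PP P (some l))) f))
  have hχ := char_ufull (Ω := Ω) (T : Set ℕ)
  have hact : IsAct (tw (cyQ : (Ω ≃+* Ω) → ℤ_[2])) := KR.isAct_tw hχ
  have hz : GP.Z2 (qsys Ω T) (tw cyQ) (fun a b => ∑ l, zz l a b) := lemc_sum hz2 Finset.univ
  have hz' : KR.Z2 (ufull Ω T) (tw cyQ) (fun a b => ∑ l, zz l a b) :=
    (fin_qsys (T : Set ℕ)).z2 ⟨hz.1, hz.2⟩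
  have hg : KR.Z2 (ufull Ω T) (tw cyQ) (fun a b => f a b - ∑ l, zz l a b) := z2_sub hact hf hz'
  have hga : KR.Z2 (afull Ω) (tw cyQ) (fun a b => f a b - ∑ l, zz l a b) :=
    (fin_ufull (T : Set ℕ)).z2 hg
  have h1 : ∑ l, zz l c c = 0 := Finset.sum_eq_zero fun l _ => hzc l
  have h2 : ∑ l, zz l 1 1 = 0 := Finset.sum_eq_zero fun l _ => hzl l 1
  have hinv : ∀ l : T, inv (some l) (fun a b : stb (HP.PP P (some l)) => ∑ l', zz l' a b) =
      invF (some l) (rs (stb (HP.PP P (some l))) f) := by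
    intro l
    rw [lemc_inv (hQ.loc (some l)) hz2 Finset.univ, Finset.sum_eq_single l]
    · exact hzi l
    · intro l' _ hl'
      exact hz0 l' l hl'.symm
    · exact fun h => absurd (Finset.mem_univ l) h
  have hb2 : KR.B2 (afull Ω) (tw cyQ) (fun a b => f a b - ∑ l, zz l a b) := by
    refine lemB halg hc hne hga ?_ ?_
    · show f c c - ∑ l, zz l c c + (f 1 1 - ∑ l, zz l 1 1) = 0
      rw [h1, h2, sub_zero, sub_zero, h0]
    · intro Q hQp hb h2Q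
      obtain ⟨l, hl, hlQ⟩ := exists_nat_mem hQp hb
      by_cases hlT : l ∈ T
      · refine conj_b2 halg hl (hP.isPrime l (Or.inl hlT)) (hP.mem l (Or.inl hlT)) hQp hlQ hga ?_
        have hgl := rs_z2 (stb (HP.PP P (some (⟨l, hlT⟩ : T)))) hga
        have hzD := lemc_z2 (stb (HP.PP P (some (⟨l, hlT⟩ : T)))) hz
        refine (hF (some ⟨l, hlT⟩)).ker _ hgl ?_
        have hzD' : KR.Z2 (lfull (stb (HP.PP P (some (⟨l, hlT⟩ : T)))))
            (tw fun d : stb (HP.PP P (some (⟨l, hlT⟩ : T))) => cyQ (d : Ω ≃+* Ω))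
            (fun a b => ∑ l', zz l' a b) := (fin_fsys _).z2 (And.intro hzD.1 hzD.2)
        have h3 := (hF (some ⟨l, hlT⟩)).loc.add _ _ hgl hzD'
        have h4 := (hF (some ⟨l, hlT⟩)).ext _ hzD
        rw [h4, hinv] at h3
        have e : (fun a b : stb (HP.PP P (some (⟨l, hlT⟩ : T))) =>
            rs (stb (HP.PP P (some (⟨l, hlT⟩ : T)))) (fun a b => f a b - ∑ l, zz l a b) a b +
              ∑ l', zz l' a b) = rs (stb (HP.PP P (some (⟨l, hlT⟩ : T)))) f := by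
          funext a b
          simp only [rs, sub_add_cancel]
        rw [e] at h3
        exact left_eq_add.1 (h3.trans (add_comm _ _))
      · refine unr_b2 halg hc hne hg hQp hb h2Q fun l' hl' hl'Q => ?_
        have h5 := (nat_mem hl hQp hlQ (l' : ℤ)).1 (by rw [Int.cast_natCast]; exact hl'Q)
        have h6 : l ∣ l' := by exact_mod_cast h5
        have h7 := (Nat.prime_dvd_prime_iff_eq hl (hP.prime l' hl')).1 h6
        exact hlT (h7 ▸ hl')
  obtain ⟨x, hx, hxe⟩ := hb2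
  refine ⟨fun a b => ∑ l, zz l a b, x, hz, fun g => Finset.sum_eq_zero fun l _ => hzr l g,
    fun g => Finset.sum_eq_zero fun l _ => hzl l g, h1, hx, fun a b => ?_⟩
  rw [← hxe]
  show f a b = ∑ l, zz l a b + (f a b - ∑ l, zz l a b)
  abel

end Pool.Agent.Work.MP_787500_nt.RQ
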