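import Mathlib
import Pool.Agent.Work.MP_787500_nt.RQ.Eps
import Pool.Agent.Work.MP_787500_nt.RQ.LocQ
import Pool.Agent.Work.MP_787500_nt.RQ.Inj
import Pool.Agent.Work.MP_787500_nt.HP.Splt
import Pool.Agent.Work.MP_787500_nt.HP.FieldQ
import Pool.Agent.Work.MP_787500_nt.HP.Conj
import Pool.Agent.Work.MP_787500_nt.HP.Splt
import Pool.Agent.Work.MP_787500_nt.RQ.KumQ

/-!
# Module TWOTWO (size M): the class eps ∪ eps at 2

`exists_sqr`: fix `r₀` with `r₀ ^ 2 = l` (the roots are `± r₀`, so `g r = r` does not depend on the root; `g r₀ = ± r₀`). `b g = if g r₀ = r₀ then 0 else 1`, additive. Its kernel `W` is `OpnQ`, normal, of index at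
most 2, and contains `inr Q` for `2`, `l ∉ Q`: `r₀` is integral; if `g r₀ = -r₀` with `g ∈ inr Q` then `-2 r₀ ∈ Q`, so `r₀ ∈ Q`, `l = r₀ ^ 2 ∈ Q`: contradiction. So `W` is a member of `qsys Ω {l}`.
`not_cob_eps`: suppose `eps ∪ eps` is `Cob` on `stb Q`, `2 ∈ Q`. Let `P' 2 = Q`, `P' 7` a prime that contains 7 (`prime_over_nat` in `HP/Main.lean`, copy it), `exists_qdat` for `T = {7}`: `hQd`. `b` from `exists_sqr`
for 7, `r ^ 2 = 7`. `F g h = hf (eps g * b h)` is in `GP.Z2 (qsys Ω {7})`, normalised, `F c c = 0` since `c r = r` (`conj_real` in `HP/Conj.lean`).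
`hQd.recip F`: `inv none (F|) + inv (some 7) (F|) = 0`. At 7 (`hQd.tame`): `inv = u • iota σ τ 7`, `eps τ = 0` (`cyQ τ = 1`), `eps σ = 1` (`cyQ σ = 7`, `4 ∤ 6`), `b τ = 1` (`τ` inverts the roots of `x ^ 2 = 7`):
`iota σ τ 7 F = hf (eps σ * b τ) - hf (eps (τ ^ 7) * b σ) - ∑ hf (eps (τ ^ i) * b τ) = half` (`eps (τ ^ i) = 0`), and `u • half = half` (`GP.smul_hf`). So `inv none (F|) ≠ 0`.
At 2: the field `ℚ (√-7)`, `D = 7`: for `g ∈ stb Q`: `g` fixes `√-7` (`stb_le` and `emb_sq` in `HP/Splt.lean`, with `IsQ K 7 s`; `exists_base` with `q = 7` in `HP/FieldQ.lean` gives `K`, `s`, `α`), and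
`√-7 = i r` up to sign, so `g i = i ↔ g r = r`, i.e. `eps g = b g` on `stb Q`. So `F| = hf (eps ∪ eps)|` would be the coboundary of a smooth cochain for `lfull (stb Q)`, so for `fsys (stb Q)` (`inj_sm1` in
`RQ/Inj.lean`, `clo_fsys`), so `inv none (F|) = 0` (`(hQd.loc none).cob`): contradiction.
-/

set_option autoImplicit false
set_option linter.unusedSectionVars false

namespace Pool.Agent.Work.MP_787500_nt.RQ

open NumberField
open Pool.Agent.Work.MP_787500_nt.GP (A0 hf IsAct d0 d1 d2 tw iota)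
open Pool.Agent.Work.MP_787500_nt.PA (TwoSys)
open Pool.Agent.Work.MP_787500_nt.KR (FSys ofTwo)
open Pool.Agent.Work.MP_787500_nt.HP

universe u

private theorem tt_over_nat {Ω : Type u} [Field Ω] [CharZero Ω] {p : ℕ} (hp : p.Prime) :
    ∃ Q : Ideal (𝓞 Ω), Q.IsPrime ∧ (p : 𝓞 Ω) ∈ Q := by
  have h1 : (Ideal.span {(p : 𝓞 Ω)}) ≠ ⊤ := by
    intro h
    rw [Ideal.span_singleton_eq_top] at h
    obtain ⟨y, hy⟩ := isUnit_iff_exists_inv.1 h
    have h2 : (p : Ω) * (y : Ω) = 1 := by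
      have h3 := congrArg (fun z : 𝓞 Ω => (z : Ω)) hy
      simpa using h3
    have hp0 : (p : Ω) ≠ 0 := Nat.cast_ne_zero.2 hp.ne_zero
    have h4 : (y : Ω) = algebraMap ℚ Ω ((p : ℚ)⁻¹) := by
      rw [map_inv₀, map_natCast]
      exact eq_inv_of_mul_eq_one_right h2
    have h5 : IsIntegral ℤ (y : Ω) := y.2
    rw [h4, isIntegral_algebraMap_iff (algebraMap ℚ Ω).injective] at h5
    obtain ⟨z, hz⟩ := (IsIntegrallyClosed.isIntegral_iff (R := ℤ) (K := ℚ)).1 h5
    have h6 : (z : ℚ) = (p : ℚ)⁻¹ := hz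
    have hp0' : (p : ℚ) ≠ 0 := Nat.cast_ne_zero.2 hp.ne_zero
    have h7 : (z : ℚ) * p = 1 := by rw [h6, inv_mul_cancel₀ hp0']
    have h8 : z * (p : ℤ) = 1 := by exact_mod_cast h7
    have h9 : (p : ℤ) ∣ 1 := ⟨z, by rw [← h8]; ring⟩
    have h10 : p ∣ 1 := by exact_mod_cast h9
    exact hp.one_lt.ne' (Nat.dvd_one.1 h10)
  obtain ⟨M, hM, hle⟩ := Ideal.exists_le_maximal _ h1
  exact ⟨M, hM.isPrime, hle (Ideal.mem_span_singleton_self _)⟩

/-- the homomorphism given by the square root of an odd prime number -/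
theorem exists_sqr {Ω : Type u} [Field Ω] [CharZero Ω] [IsAlgClosed Ω] (halg : Alg Ω) {l : ℕ}
    (hl : l.Prime) (h2 : l ≠ 2) : ∃ b : (Ω ≃+* Ω) → ZMod 2, KR.Sm1 (ofTwo (qsys Ω {l})) b ∧
      (∀ g h, b (g * h) = b g + b h) ∧ ∀ (g : Ω ≃+* Ω) (r : Ω), r ^ 2 = (l : Ω) → (b g = 0 ↔ g r = r) := by
  classical
  obtain ⟨r₀, hr₀⟩ := IsAlgClosed.exists_pow_nat_eq (l : Ω) (n := 2) (by norm_num)
  have hl0 : (l : Ω) ≠ 0 := Nat.cast_ne_zero.2 hl.ne_zero
  have hr0 : r₀ ≠ 0 := by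
    rintro rfl
    rw [zero_pow two_ne_zero] at hr₀
    exact hl0 hr₀.symm
  have hne : -r₀ ≠ r₀ := by
    intro h1
    apply hr0
    linear_combination (-1 / 2 : Ω) * h1
  have hpm : ∀ g : Ω ≃+* Ω, g r₀ ≠ r₀ → g r₀ = -r₀ := by
    intro g hg
    have h1 : (g r₀) ^ 2 = r₀ ^ 2 := by rw [← map_pow, hr₀, map_natCast]
    rcases sq_eq_sq_iff_eq_or_eq_neg.1 h1 with h3 | h3
    · exact absurd h3 hg
    · exact h3
  set b : (Ω ≃+* Ω) → ZMod 2 := fun g => if g r₀ = r₀ then 0 else 1 with hb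
  have hb0 : ∀ g, b g = 0 ↔ g r₀ = r₀ := by
    intro g
    rw [hb]
    beta_reduce
    split_ifs with h
    · exact ⟨fun _ => h, fun _ => rfl⟩
    · exact ⟨fun h3 => absurd h3 (by decide), fun h3 => absurd h3 h⟩
  have hbm : ∀ g h, b (g * h) = b g + b h := by
    intro g h
    have hmul : (g * h) r₀ = g (h r₀) := rfl
    rw [hb]
    beta_reduce
    by_cases h3 : h r₀ = r₀
    · rw [hmul, h3, if_pos rfl, add_zero]
    · rw [hmul, hpm h h3, map_neg, if_neg hne]
      by_cases h4 : g r₀ = r₀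
      · rw [h4, if_neg hne, if_pos rfl]; rfl
      · rw [hpm g h4, neg_neg, if_pos rfl, if_neg hne]; decide
  let φ : (Ω ≃+* Ω) →* Multiplicative (ZMod 2) :=
    { toFun := fun g => Multiplicative.ofAdd (b g)
      map_one' := by
        have : b 1 = 0 := (hb0 1).2 rfl
        rw [this]; rfl
      map_mul' := fun g h => by rw [hbm]; rfl }
  have hφ : ∀ g, g ∈ φ.ker ↔ b g = 0 := fun g => by
    rw [MonoidHom.mem_ker]
    exact Iff.rfl
  have hmem : (ofTwo (qsys Ω {l})).mem φ.ker := by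
    refine ⟨⟨⟨{r₀}, fun g hg => ?_⟩, inferInstance, ?_⟩, fun Q hQ h2Q hlQ g hg => ?_⟩
    · rw [hφ, hb0]
      exact hg r₀ (Finset.mem_singleton_self _)
    · rw [Subgroup.index_ker]
      have h3 : Nat.card φ.range ∣ Nat.card (Multiplicative (ZMod 2)) :=
        Subgroup.card_subgroup_dvd_card _
      have h4 : Nat.card (Multiplicative (ZMod 2)) = 2 ^ 1 := by
        rw [Nat.card_congr Multiplicative.toAdd, Nat.card_zmod, pow_one]
      rw [h4] at h3
      obtain ⟨m, _, hm⟩ := (Nat.dvd_prime_pow Nat.prime_two).1 h3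
      exact ⟨m, hm⟩
    · rw [hφ, hb0]
      by_contra hcon
      have h3 := hpm g hcon
      have hint : IsIntegral ℤ r₀ := by
        have h4 : IsIntegral ℤ (r₀ ^ 2) := by
          rw [hr₀]
          have := isIntegral_algebraMap (R := ℤ) (A := Ω) (x := (l : ℤ))
          simpa using this
        exact IsIntegral.of_pow (by norm_num : 0 < 2) h4
      obtain ⟨rr, hrr⟩ : ∃ rr : 𝓞 Ω, algebraMap (𝓞 Ω) Ω rr = r₀ := ⟨⟨r₀, hint⟩, rfl⟩
      have hext : ∀ x y : 𝓞 Ω, algebraMap (𝓞 Ω) Ω x = algebraMap (𝓞 Ω) Ω y → x = y :=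
        fun x y h => RingOfIntegers.ext h
      have h4 := hg rr
      have h5 : og g rr - rr = -(2 * rr) := by
        have e1 : algebraMap (𝓞 Ω) Ω (og g rr) = g (algebraMap (𝓞 Ω) Ω rr) := rfl
        apply hext
        rw [map_sub, map_neg, map_mul, e1, hrr, h3, map_ofNat]
        ring
      rw [h5, neg_mem_iff] at h4
      rcases hQ.mem_or_mem h4 with h6 | h6
      · exact h2Q h6
      · apply hlQ l (Set.mem_singleton l)
        have h7 : (l : 𝓞 Ω) = rr * rr := by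
          apply hext
          rw [map_natCast, map_mul, hrr, ← hr₀]
          ring
        rw [h7]
        exact Q.mul_mem_left _ h6
  refine ⟨b, ⟨φ.ker, hmem, fun g w hw => ?_⟩, hbm, fun g r hr => ?_⟩
  · rw [hbm, (hφ w).1 hw, add_zero]
  · rw [hb0]
    rcases sq_eq_sq_iff_eq_or_eq_neg.1 (hr.trans hr₀.symm) with rfl | rfl
    · rfl
    · rw [map_neg, neg_inj]

private theorem tt_unit {u : ℤ_[2]} (hu : IsUnit u) : (2 : ℤ_[2]) ∣ u - 1 := by
  have h1 : PadicInt.toZMod u ≠ 0 := by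
    intro h
    have h2 : u ∈ RingHom.ker (PadicInt.toZMod (p := 2)) := h
    rw [PadicInt.ker_toZMod] at h2
    exact h2 hu
  have h3 : ∀ a : ZMod 2, a ≠ 0 → a = 1 := by decide
  have h4 : PadicInt.toZMod (u - 1) = 0 := by
    rw [map_sub, h3 _ h1, map_one, sub_self]
  have h5 : u - 1 ∈ RingHom.ker (PadicInt.toZMod (p := 2)) := h4
  rw [PadicInt.ker_toZMod, PadicInt.maximalIdeal_eq_span_p, Ideal.mem_span_singleton] at h5
  exact_mod_cast h5

private theorem tt_seven : ¬ (4 : ℤ_[2]) ∣ ((7 : ℕ) : ℤ_[2]) - 1 := by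
  intro h
  have h1 : ((7 : ℕ) : ℤ_[2]) - 1 ∈ RingHom.ker (PadicInt.toZModPow (p := 2) 2) := by
    rw [PadicInt.ker_toZModPow, Ideal.mem_span_singleton]
    have e : (((2 : ℕ) : ℤ_[2]) ^ 2) = 4 := by norm_num
    rw [e]
    exact h
  rw [RingHom.mem_ker, map_sub, map_one, map_natCast] at h1
  exact absurd h1 (by decide)

theorem not_cob_eps {Ω : Type u} [Field Ω] [CharZero Ω] [IsAlgClosed Ω] (halg : Alg Ω)
    {c : Ω ≃+* Ω} (hc : ∀ x, c (c x) = x) (hne : ∃ x, c x ≠ x) {Q : Ideal (𝓞 Ω)}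
    (hQ : Q.IsPrime) (h2 : (2 : 𝓞 Ω) ∈ Q) :
    ¬ KR.Cob (lfull (stb Q)) (rs (stb Q) fun g h => eps g * eps h) := by
  classical
  intro hcob
  have h7p : Nat.Prime 7 := by norm_num
  obtain ⟨P₇, hP₇, h7P⟩ := tt_over_nat (Ω := Ω) h7p
  obtain ⟨P, hP, rfl⟩ : ∃ P : ℕ → Ideal (𝓞 Ω), IsP {7} P ∧ P 2 = Q := by
    refine ⟨fun k => if k = 2 then Q else P₇, ⟨fun k hk => ?_, fun k hk => ?_, fun k hk => ?_,
      fun k hk => ?_⟩, if_pos rfl⟩
    · rw [Finset.mem_singleton] at hk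
      rw [hk]
      exact h7p
    · rw [Finset.mem_singleton] at hk
      omega
    · by_cases h : k = 2
      · simp only [h, if_true]
        exact hQ
      · simp only [h, if_false]
        exact hP₇
    · by_cases h : k = 2
      · simp only [h, if_true]
        exact h2
      · simp only [h, if_false]
        rcases hk with hk | hk
        · rw [Finset.mem_singleton] at hk
          rw [hk]
          exact h7P
        · exact absurd hk h
  obtain ⟨inv, hQd⟩ := exists_qdat halg hc hne hP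
  obtain ⟨b, hb, hbm, hbr⟩ := exists_sqr halg h7p (by norm_num)
  obtain ⟨r, hr⟩ := IsAlgClosed.exists_pow_nat_eq ((7 : ℕ) : Ω) (n := 2) (by norm_num)
  obtain ⟨i, hi⟩ := IsAlgClosed.exists_pow_nat_eq (-1 : Ω) (n := 2) (by norm_num)
  have hr0 : r ≠ 0 := by
    rintro rfl
    rw [zero_pow two_ne_zero] at hr
    exact (Nat.cast_ne_zero.2 h7p.ne_zero : ((7 : ℕ) : Ω) ≠ 0) hr.symm
  have hi0 : i ≠ 0 := by
    rintro rfl
    rw [zero_pow two_ne_zero] at hi
    norm_num at hi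
  have hrne : -r ≠ r := by
    intro h1
    apply hr0
    linear_combination (-1 / 2 : Ω) * h1
  have hz2 : ∀ a : ZMod 2, a ≠ 0 → a = 1 := by decide
  have hcoe : ((({7} : Finset ℕ) : Set ℕ)) = {7} := Finset.coe_singleton 7
  -- the cocycle
  have hcocQ : KR.Coc (ofTwo (qsys Ω (({7} : Finset ℕ) : Set ℕ))) (fun a d => eps a * b d) := by
    rw [hcoe]
    obtain ⟨W, hW, h3⟩ := eps_sm (Ω := Ω) {7}
    obtain ⟨W', hW', h4⟩ := hb
    refine ⟨⟨W ⊓ W', (ofTwo (qsys Ω {7})).inf hW hW', fun g k w hw w' hw' => ?_⟩,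
      fun a d e => ?_⟩
    · beta_reduce
      rw [h3 g w hw.1, h4 k w' hw'.2]
    · beta_reduce
      rw [eps_mul, hbm]
      ring
  have hZ : GP.Z2 (qsys Ω (({7} : Finset ℕ) : Set ℕ)) (tw cyQ) (fun a d => hf (eps a * b d)) :=
    coc_hf (char_qsys _) hcocQ
  have he1 : eps (1 : Ω ≃+* Ω) = 0 := (eps_fix hi 1).2 rfl
  have hb1 : b 1 = 0 := (hbr 1 r hr).2 rfl
  have hbc : b c = 0 := (hbr c r hr).2 (conj_real hc hne 7 hr)
  have hrec := hQd.recip (fun a d => hf (eps a * b d)) hZ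
    (fun g => by beta_reduce; rw [hb1, mul_zero, GP.hf_zero])
    (fun g => by beta_reduce; rw [he1, zero_mul, GP.hf_zero])
    (by beta_reduce; rw [hbc, mul_zero, GP.hf_zero])
  have hm : 7 ∈ ({7} : Finset ℕ) := Finset.mem_singleton_self 7
  -- the invariant at 7
  have hinv7 : inv (some ⟨7, hm⟩) (fun a d => hf (eps (a : Ω ≃+* Ω) * b (d : Ω ≃+* Ω))) =
      GP.half := by
    obtain ⟨a, u, σ, τ, hu, hτ, hτr, hT, hin⟩ := hQd.tame ⟨7, hm⟩
    rw [hin]
    have hbτ : b (τ : Ω ≃+* Ω) = 1 := by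
      apply hz2
      intro h3
      have h4 := (hbr _ r hr).1 h3
      rw [hτr r hr] at h4
      exact hrne h4
    have heσ : eps (σ : Ω ≃+* Ω) = 1 := by
      apply hz2
      intro h3
      have h4 := hT.σχ
      beta_reduce at h4
      rw [eps_eq, h4] at h3
      split_ifs at h3 with h5
      · exact tt_seven h5
      · exact absurd h3 (by decide)
    have heτ : ∀ k : ℕ, eps ((τ ^ k : stb (P 7)) : Ω ≃+* Ω) = 0 := by
      have h3 : eps (τ : Ω ≃+* Ω) = 0 := by
        have h4 := hT.τχ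
        beta_reduce at h4
        rw [eps_eq, h4, if_pos]
        rw [sub_self]
        exact dvd_zero _
      intro k
      induction k with
      | zero => rw [pow_zero]; exact he1
      | succ k ih =>
        rw [pow_succ, Subgroup.coe_mul, eps_mul, ih, h3, add_zero]
    have h3 : iota σ τ 7 (fun a d : stb (P 7) => hf (eps (a : Ω ≃+* Ω) * b (d : Ω ≃+* Ω))) =
        GP.half := by
      unfold GP.iota
      rw [Finset.sum_eq_zero]
      · beta_reduce
        rw [heσ, hbτ, heτ, zero_mul, GP.hf_zero, mul_one, GP.hf_one, sub_zero, sub_zero]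
      · intro k _
        beta_reduce
        rw [heτ, zero_mul, GP.hf_zero]
    show u • iota σ τ 7 (fun a d : stb (P 7) => hf (eps (a : Ω ≃+* Ω) * b (d : Ω ≃+* Ω))) = _
    rw [h3, ← GP.hf_one]
    exact GP.smul_hf (tt_unit hu) 1
  -- the invariant at 2
  have hinv2 : inv none (fun a d => hf (eps (a : Ω ≃+* Ω) * b (d : Ω ≃+* Ω))) = 0 := by
    obtain ⟨K₀, iF, iN, s, α, hK⟩ := exists_base halg h7p (by norm_num : 7 % 16 = 7)
    have hK' : IsQ K₀ 7 s := ⟨hK.1, hK.2.1, h7p.squarefree, by norm_num⟩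
    set t := α (algebraMap K₀ (AlgebraicClosure K₀) s) with ht
    have ht2 : t ^ 2 = -((7 : ℕ) : Ω) := by
      rw [ht, ← map_pow, ← map_pow, hK.2.1, map_neg, map_neg, map_natCast, map_natCast]
    have htir : t = i * r ∨ t = -(i * r) := by
      apply sq_eq_sq_iff_eq_or_eq_neg.1
      rw [ht2, mul_pow, hi, hr]
      ring
    have hfix : ∀ g : Ω ≃+* Ω, g ∈ stb (P 2) → g (i * r) = i * r := by
      intro g hg
      have h3 := (emb_sq α hK' g).1 (stb_le α hK' (Or.inl rfl) hQ (by exact_mod_cast h2) hg)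
      rw [← ht] at h3
      rcases htir with h4 | h4
      · rw [h4] at h3
        exact h3
      · rw [h4, map_neg, neg_inj] at h3
        exact h3
    have heb : ∀ g : Ω ≃+* Ω, g ∈ stb (P 2) → b g = eps g := by
      intro g hg
      have h3 := hfix g hg
      rw [map_mul] at h3
      have h4 : eps g = 0 ↔ b g = 0 := by
        rw [eps_fix hi, hbr g r hr]
        constructor
        · intro h5
          rw [h5] at h3
          exact mul_left_cancel₀ hi0 h3
        · intro h5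
          rw [h5] at h3
          exact mul_right_cancel₀ hr0 h3
      by_cases h5 : eps g = 0
      · rw [h5, h4.1 h5]
      · rw [hz2 _ h5, hz2 _ (fun h6 => h5 (h4.2 h6))]
    obtain ⟨z, hz, hz1⟩ := hcob
    have hsm : KR.Sm2 (ofTwo (fsys (stb (P 2))))
        (fun a d : stb (P 2) => eps (a : Ω ≃+* Ω) * eps (d : Ω ≃+* Ω)) := by
      obtain ⟨W, ⟨⟨⟨s', hs'⟩, hn, k, hk⟩, -⟩, h3⟩ := eps_sm (Ω := Ω) ∅
      refine ⟨W.subgroupOf (stb (P 2)), ⟨⟨s', fun g hg => hs' g hg⟩, inferInstance, ?_⟩,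
        fun g k w hw w' hw' => ?_⟩
      · have h4 : (W.subgroupOf (stb (P 2))).index ∣ W.index :=
          Subgroup.relIndex_dvd_index_of_normal W (stb (P 2))
        rw [hk] at h4
        obtain ⟨m, _, hm⟩ := (Nat.dvd_prime_pow Nat.prime_two).1 h4
        exact ⟨m, hm⟩
      · beta_reduce
        rw [Subgroup.coe_mul, Subgroup.coe_mul, h3 _ _ (Subgroup.mem_subgroupOf.1 hw),
          h3 _ _ (Subgroup.mem_subgroupOf.1 hw')]
    have hzz : KR.Sm1 (ofTwo (fsys (stb (P 2)))) z := by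
      refine inj_two (clo_fsys (stb (P 2))) (char_ofTwo (isChar_stb (stb (P 2)))) hz ?_
      have e : (fun a d => z a + z d + z (a * d)) =
          (fun a d : stb (P 2) => eps (a : Ω ≃+* Ω) * eps (d : Ω ≃+* Ω)) := by
        funext a d
        exact (hz1 a d).symm
      rw [e]
      exact hsm
    have hch : KR.IsChar (ofTwo (fsys (stb (P 2)))) (fun d : stb (P 2) => cyQ (d : Ω ≃+* Ω)) :=
      char_ofTwo (isChar_stb (stb (P 2)))
    have e : (fun a d : stb (P 2) => hf (eps (a : Ω ≃+* Ω) * b (d : Ω ≃+* Ω))) =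
        d1 (tw fun d : stb (P 2) => cyQ (d : Ω ≃+* Ω)) (fun a => hf (z a)) := by
      funext a d
      rw [d1_hf hch, heb d d.2]
      exact congrArg hf (hz1 a d)
    have h3 := (hQd.loc none).cob (fun a => hf (z a)) (sm1_comp hzz hf)
    refine Eq.trans ?_ h3
    exact congrArg (inv none) e
  rw [Fintype.sum_option, Finset.sum_eq_single (⟨7, hm⟩ : ({7} : Finset ℕ))] at hrec
  · have h3 : inv none (fun a d => hf (eps (a : Ω ≃+* Ω) * b (d : Ω ≃+* Ω))) +
        inv (some ⟨7, hm⟩) (fun a d => hf (eps (a : Ω ≃+* Ω) * b (d : Ω ≃+* Ω))) = 0 := hrec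
    rw [hinv2, hinv7, zero_add] at h3
    exact GP.half_ne h3
  · rintro ⟨k, hk⟩ _ h3
    exfalso
    apply h3
    have h4 := Finset.mem_singleton.1 hk
    subst h4
    rfl
  · intro h3
    exact absurd (Finset.mem_univ _) h3

end Pool.Agent.Work.MP_787500_nt.RQ
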