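import Mathlib
import Pool.Agent.Work.MP_787500_nt.RQ.LemC
import Pool.Agent.Work.MP_787500_nt.RQ.TwoTwo

/-!
# Module RECQ (size M): reciprocity over the rational numbers

`recip_real`: `lemC`: `f = z + d1 x`. For every `w`: `invF w (rs f) = invF w (z|) + invF w (d1 x|) = inv w (z|)` (`(hF w).loc.add`, `cob`, `rs_sm1`, `ext` with the restriction of `z`, which is in
`GP.Z2 (fsys _)`: a member of `qsys` restricts to a member of `fsys`). `hQ.recip z`.
`recip_inf`: `f c c + f 1 1` is killed by 2: the cocycle relation at `(c, c, c)` for the normalised `f - d1 (const (f 1 1))`: `F = f - d1 (tw cyQ) (fun _ => f 1 1)`, `F 1 g = F g 1 = 0`, `F c c = f c c + f 1 1`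
(`cyQ c = -1`), `d2 F c c c = 0` gives `-F c c - F 1 c + F c 1 - F c c = 0`. So `f c c + f 1 1 = hf a` (`GP.eq_hf`). `a = 0`: `recip_real`. `a = 1`: `e g h = hf (eps g * eps h)`, `e ∈ KR.Z2 (ufull Ω T)` (`coc_hf`, `eps_mul`,
`eps_sm`), `e c c + e 1 1 = half` (`eps c = 1`: `eps_fix`, `conj_i`). `f - e` satisfies `recip_real`, so `∑ invF (rs f) = ∑ invF (rs e)`. At `w = some l`: `e` is unramified at `P l`: `unr_b2` with the system
`ufull Ω ∅` (`eps_sm ∅`), so `invF (rs e) = 0`. At `w = none`: `invF (rs e)` is killed by 2 (`e + e = 0`), `= hf a'`; if it is 0 then `(hF none).one` gives `Cob`, contradiction to `not_cob_eps`. So it is `half`, and the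
sum is `half + half = 0` (`GP.two_half`).
-/

set_option autoImplicit false
set_option linter.unusedSectionVars false

namespace Pool.Agent.Work.MP_787500_nt.RQ

open NumberField
open Pool.Agent.Work.MP_787500_nt.GP (A0 hf IsAct d0 d1 d2 tw iota)
open Pool.Agent.Work.MP_787500_nt.PA (TwoSys)
open Pool.Agent.Work.MP_787500_nt.KR (FSys ofTwo)
open Pool.Agent.Work.MP_787500_nt.HP

universe u

private theorem rq_z2 {Ω : Type u} [Field Ω] (D : Subgroup (Ω ≃+* Ω)) {T : Set ℕ}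
    {z : (Ω ≃+* Ω) → (Ω ≃+* Ω) → A0} (hz : GP.Z2 (qsys Ω T) (tw cyQ) z) :
    GP.Z2 (fsys D) (tw fun d : D => cyQ (d : Ω ≃+* Ω)) (rs D z) := by
  obtain ⟨⟨W, ⟨⟨⟨s, hs⟩, hn, k, hk⟩, -⟩, h1⟩, h2⟩ := hz
  refine ⟨⟨W.subgroupOf D, ⟨⟨s, fun g hg => hs g hg⟩, inferInstance, ?_⟩,
    fun g h w hw w' hw' => h1 g h w hw w' hw'⟩, fun a b c => h2 a b c⟩
  have h3 : (W.subgroupOf D).index ∣ 2 ^ k := hk ▸ Subgroup.relIndex_dvd_index_of_normal W D
  obtain ⟨m, -, hm⟩ := (Nat.dvd_prime_pow Nat.prime_two).1 h3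
  exact ⟨m, hm⟩

private theorem rq_z2b {G : Type*} [Group G] {S : FSys G} {ρ : G → A0 → A0} (hρ : IsAct ρ)
    {f z d : G → G → A0} (hf : KR.Z2 S ρ f) (hz : KR.Z2 S ρ z) (h : ∀ a b, f a b = z a b + d a b) :
    KR.Z2 S ρ d := by
  have e : d = fun a b => f a b - z a b := by
    funext a b
    rw [h]
    abel
  rw [e]
  exact z2_sub hρ hf hz

private theorem rq_act {G : Type*} [Group G] {S : FSys G} {χ : G → ℤ_[2]} (h : KR.IsChar S χ) :
    IsAct (tw χ) :=
  ⟨fun m => by simp only [tw, h.one, one_smul], fun g k m => by simp only [tw, h.mul, mul_smul],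
    fun g m m' => by simp only [tw, smul_add]⟩

/-- the values of a cocycle at pairs with the neutral element -/
private theorem rq_left {G : Type*} [Group G] {S : FSys G} {χ : G → ℤ_[2]} (h : KR.IsChar S χ)
    {f : G → G → A0} (hf : KR.Z2 S (tw χ) f) (g : G) : f 1 g = f 1 1 := by
  have := hf.2 1 1 g
  simp only [d2, tw, mul_one, one_mul] at this
  rw [h.one, one_smul, sub_self, zero_add, sub_eq_zero] at this
  exact this

private theorem rq_right {G : Type*} [Group G] {S : FSys G} {χ : G → ℤ_[2]}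
    {f : G → G → A0} (hf : KR.Z2 S (tw χ) f) (g : G) : f g 1 = χ g • f 1 1 := by
  have := hf.2 g 1 1
  simp only [d2, tw, mul_one] at this
  rw [sub_add_cancel, sub_eq_zero] at this
  exact this.symm

theorem recip_real {Ω : Type u} [Field Ω] [CharZero Ω] [IsAlgClosed Ω] (halg : Alg Ω)
    {c : Ω ≃+* Ω} (hc : ∀ x, c (c x) = x) (hne : ∃ x, c x ≠ x) {T : Finset ℕ}
    {P : ℕ → Ideal (𝓞 Ω)} (hP : IsP T P)
    {inv invF : ∀ w : Option T, (stb (HP.PP P w) → stb (HP.PP P w) → A0) → A0}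
    (hQ : QDat c T P inv) (hF : ∀ w, LocF (stb (HP.PP P w)) (inv w) (invF w))
    {f : (Ω ≃+* Ω) → (Ω ≃+* Ω) → A0} (hf : KR.Z2 (ufull Ω T) (tw cyQ) f)
    (h0 : f c c + f 1 1 = 0) : ∑ w, invF w (rs (stb (HP.PP P w)) f) = 0 := by
  obtain ⟨z, x, hz, hz1, hz1', hzc, hx, hfx⟩ := lemC halg hc hne hP hQ hF hf h0
  rw [← hQ.recip z hz hz1 hz1' hzc]
  refine Finset.sum_congr rfl fun w _ => ?_
  have hz2 := rq_z2 (stb (HP.PP P w)) hz
  have hzF := (fin_fsys (stb (HP.PP P w))).z2 (f := rs (stb (HP.PP P w)) z) hz2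
  have hfF := rs_z2 (stb (HP.PP P w)) ((fin_ufull (T : Set ℕ)).z2 hf)
  have h1 : ∀ a b, rs (stb (HP.PP P w)) f a b = rs (stb (HP.PP P w)) z a b +
      d1 (tw fun d : stb (HP.PP P w) => cyQ (d : Ω ≃+* Ω)) (fun d => x d) a b :=
    fun a b => hfx a b
  have h2 := rq_z2b (rq_act (char_lfull (stb (HP.PP P w)))) hfF hzF h1
  have h3 := (hF w).loc.add _ _ hzF h2
  have h4 : (fun a b => rs (stb (HP.PP P w)) z a b +
      d1 (tw fun d : stb (HP.PP P w) => cyQ (d : Ω ≃+* Ω)) (fun d => x d) a b) =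
      rs (stb (HP.PP P w)) f := by
    funext a b
    exact (h1 a b).symm
  rw [h4, (hF w).loc.cob _ (rs_sm1 _ hx), add_zero, (hF w).ext _ hz2] at h3
  exact h3

theorem recip_inf {Ω : Type u} [Field Ω] [CharZero Ω] [IsAlgClosed Ω] (halg : Alg Ω)
    {c : Ω ≃+* Ω} (hc : ∀ x, c (c x) = x) (hne : ∃ x, c x ≠ x) {T : Finset ℕ}
    {P : ℕ → Ideal (𝓞 Ω)} (hP : IsP T P)
    {inv invF : ∀ w : Option T, (stb (HP.PP P w) → stb (HP.PP P w) → A0) → A0}
    (hQ : QDat c T P inv) (hF : ∀ w, LocF (stb (HP.PP P w)) (inv w) (invF w))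
    {f : (Ω ≃+* Ω) → (Ω ≃+* Ω) → A0} (hf : KR.Z2 (ufull Ω T) (tw cyQ) f) :
    ∑ w, invF w (rs (stb (HP.PP P w)) f) + (f c c + f 1 1) = 0 := by
  have hcc : cyQ c = -1 := cyQ_conj hc hne
  have hc1 : c * c = 1 := RingEquiv.ext hc
  have hch : KR.IsChar (ufull Ω (T : Set ℕ)) (cyQ : (Ω ≃+* Ω) → ℤ_[2]) := char_ufull _
  have hk : (f c c + f 1 1) + (f c c + f 1 1) = 0 := by
    have h1 := hf.2 c c c
    simp only [d2, tw] at h1
    rw [hc1, rq_left hch hf c, rq_right hf c, hcc, neg_one_smul, neg_one_smul] at h1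
    have h2 : (f c c + f 1 1) + (f c c + f 1 1) = -(-f c c - f 1 1 + -f 1 1 - f c c) := by abel
    rw [h2, h1, neg_zero]
  obtain ⟨a, ha⟩ := GP.eq_hf hk
  have ha01 : a = 0 ∨ a = 1 := by
    have : ∀ x : ZMod 2, x = 0 ∨ x = 1 := by decide
    exact this a
  rcases ha01 with rfl | rfl
  · rw [GP.hf_zero] at ha
    rw [recip_real halg hc hne hP hQ hF hf ha, ha, add_zero]
  -- the class eps ∪ eps
  have heps1 : eps (1 : Ω ≃+* Ω) = 0 := by
    have := eps_mul (1 : Ω ≃+* Ω) 1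
    rw [mul_one] at this
    exact left_eq_add.1 this
  have hepsc : eps c = 1 := by
    obtain ⟨i, hi⟩ : ∃ i : Ω, i ^ 2 = -1 := IsAlgClosed.exists_pow_nat_eq (-1 : Ω) (by norm_num)
    have h1 : eps c ≠ 0 := by
      rw [Ne, eps_fix hi c, conj_i hc hne hi]
      intro h
      have h2 : (2 : Ω) * i = 0 := by linear_combination -h
      rcases mul_eq_zero.1 h2 with h3 | h3
      · exact two_ne_zero h3
      · rw [h3] at hi
        norm_num at hi
    have : ∀ x : ZMod 2, x ≠ 0 → x = 1 := by decide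
    exact this _ h1
  have hcoc : ∀ T' : Set ℕ, KR.Coc (ufull Ω T') (fun g h : Ω ≃+* Ω => eps g * eps h) := fun T' => by
    obtain ⟨W, hW, h1⟩ := (fin_qsys T').sm1 (eps_sm (Ω := Ω) T')
    refine ⟨⟨W, hW, fun g k w hw w' hw' => ?_⟩, fun g h k => ?_⟩
    · show eps (g * w) * eps (k * w') = eps g * eps k
      rw [h1 g w hw, h1 k w' hw']
    · show eps g * eps h + eps (g * h) * eps k = eps h * eps k + eps g * eps (h * k)
      rw [eps_mul, eps_mul]
      ring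
  have hz : ∀ T' : Set ℕ,
      KR.Z2 (ufull Ω T') (tw cyQ) (fun g h : Ω ≃+* Ω => GP.hf (eps g * eps h)) :=
    fun T' => coc_hf (char_ufull T') (hcoc T')
  -- comparison with the class eps ∪ eps
  have hz1 : KR.Z2 (ufull Ω (T : Set ℕ)) (tw cyQ)
      (fun g h : Ω ≃+* Ω => f g h - GP.hf (eps g * eps h)) := z2_sub (rq_act hch) hf (hz T)
  have hz0 : (fun g h : Ω ≃+* Ω => f g h - GP.hf (eps g * eps h)) c c +
      (fun g h : Ω ≃+* Ω => f g h - GP.hf (eps g * eps h)) 1 1 = 0 := by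
    show f c c - GP.hf (eps c * eps c) + (f 1 1 - GP.hf (eps (1 : Ω ≃+* Ω) * eps 1)) = 0
    rw [hepsc, heps1, mul_one, mul_zero, GP.hf_zero, sub_zero]
    have : f c c - GP.hf 1 + f 1 1 = (f c c + f 1 1) - GP.hf 1 := by abel
    rw [this, ha, sub_self]
  have hsum := recip_real halg hc hne hP hQ hF hz1 hz0
  have hw : ∀ w, invF w (rs (stb (HP.PP P w)) f) =
      invF w (rs (stb (HP.PP P w)) fun g h : Ω ≃+* Ω => f g h - GP.hf (eps g * eps h)) +
      invF w (rs (stb (HP.PP P w)) fun g h : Ω ≃+* Ω => GP.hf (eps g * eps h)) := fun w => by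
    rw [← (hF w).loc.add _ _ (rs_z2 _ ((fin_ufull _).z2 hz1)) (rs_z2 _ ((fin_ufull _).z2 (hz T)))]
    congr 1
    funext a b
    show f a b = f a b - GP.hf (eps (a : Ω ≃+* Ω) * eps (b : Ω ≃+* Ω)) +
      GP.hf (eps (a : Ω ≃+* Ω) * eps (b : Ω ≃+* Ω))
    rw [sub_add_cancel]
  rw [Finset.sum_congr rfl fun w _ => hw w, Finset.sum_add_distrib, hsum, zero_add, ha,
    Fintype.sum_option]
  -- the invariants of eps ∪ eps at the odd primes
  have hodd : ∀ l : T, invF (some l)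
      (rs (stb (HP.PP P (some l))) fun g h : Ω ≃+* Ω => GP.hf (eps g * eps h)) = 0 := fun l => by
    have hlP := hP.prime l l.2
    have hQl : (P l).IsPrime := hP.isPrime l (Or.inl l.2)
    have hml : ((l : ℕ) : 𝓞 Ω) ∈ P l := hP.mem l (Or.inl l.2)
    have hb : P l ≠ ⊥ := by
      intro h
      rw [h, Ideal.mem_bot, Nat.cast_eq_zero] at hml
      exact hlP.ne_zero hml
    have h2 : (2 : 𝓞 Ω) ∉ P l := by
      intro h
      have h3 := (nat_mem hlP hQl hml 2).1 (by exact_mod_cast h)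
      have h4 : (l : ℕ) ∣ 2 := by exact_mod_cast h3
      exact hP.odd l l.2 ((Nat.prime_dvd_prime_iff_eq hlP Nat.prime_two).1 h4)
    obtain ⟨y, hy, hy1⟩ := unr_b2 halg hc hne (hz ∅) hQl hb h2 (fun _ h => absurd h (by simp))
    have h5 := (hF (some l)).loc.cob y hy
    rw [← h5]
    exact congrArg _ hy1
  rw [Finset.sum_eq_zero fun l _ => hodd l, add_zero]
  -- the invariant at 2
  have hF0 := hF none
  have hzn := rs_z2 (stb (HP.PP P (none : Option T))) ((fin_ufull (T : Set ℕ)).z2 (hz T))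
  have htwo : invF none (rs (stb (HP.PP P (none : Option T)))
      fun g h : Ω ≃+* Ω => GP.hf (eps g * eps h)) + invF none (rs (stb (HP.PP P (none : Option T)))
      fun g h : Ω ≃+* Ω => GP.hf (eps g * eps h)) = 0 := by
    rw [← hF0.loc.add _ _ hzn hzn]
    have h5 := hF0.loc.cob (fun _ => 0) (sm1_const 0)
    rw [← h5]
    congr 1
    funext a b
    show GP.hf (eps (a : Ω ≃+* Ω) * eps (b : Ω ≃+* Ω)) +
      GP.hf (eps (a : Ω ≃+* Ω) * eps (b : Ω ≃+* Ω)) = _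
    rw [GP.hf_two]
    simp only [d1, tw, smul_zero, add_zero, sub_zero]
  obtain ⟨a', ha'⟩ := GP.eq_hf htwo
  have ha01' : a' = 0 ∨ a' = 1 := by
    have : ∀ x : ZMod 2, x = 0 ∨ x = 1 := by decide
    exact this a'
  have hQ2 : (P 2).IsPrime := hP.isPrime 2 (Or.inr rfl)
  have hm2 : (2 : 𝓞 Ω) ∈ P 2 := by exact_mod_cast hP.mem 2 (Or.inr rfl)
  rcases ha01' with rfl | rfl
  · exfalso
    rw [GP.hf_zero] at ha'
    exact not_cob_eps halg hc hne hQ2 hm2 (hF0.one _ (rs_coc _ (fin_ufull (T : Set ℕ) |>.coc (hcoc T)))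
      ha')
  · rw [ha', GP.hf_two]

/-- existence of all the data -/
theorem exists_qdatF {Ω : Type u} [Field Ω] [CharZero Ω] [IsAlgClosed Ω] (halg : Alg Ω)
    {c : Ω ≃+* Ω} (hc : ∀ x, c (c x) = x) (hne : ∃ x, c x ≠ x) {T : Finset ℕ}
    (hT : T.Nonempty) {P : ℕ → Ideal (𝓞 Ω)} (hP : IsP T P) :
    ∃ inv invF : ∀ w : Option T, (stb (HP.PP P w) → stb (HP.PP P w) → A0) → A0,
      QDat c T P inv ∧ (∀ w, LocF (stb (HP.PP P w)) (inv w) (invF w)) ∧
      ∀ f, KR.Z2 (ufull Ω T) (tw cyQ) f →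
        ∑ w, invF w (rs (stb (HP.PP P w)) f) + (f c c + f 1 1) = 0 := by
  obtain ⟨inv, hQd⟩ := exists_qdat halg hc hne hP
  have hcc : cyQ c = -1 := cyQ_conj hc hne
  have hex : ∀ w : Option T, ∃ invF : (stb (HP.PP P w) → stb (HP.PP P w) → A0) → A0,
      LocF (stb (HP.PP P w)) (inv w) invF := fun w => by
    have hpr : ∃ l : ℕ, l ≠ 0 ∧ (HP.PP P w).IsPrime ∧ ((l : ℕ) : 𝓞 Ω) ∈ HP.PP P w := by
      cases w with
      | none => exact ⟨2, two_ne_zero, hP.isPrime 2 (Or.inr rfl), hP.mem 2 (Or.inr rfl)⟩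
      | some l => exact ⟨l, (hP.prime l l.2).ne_zero, hP.isPrime l (Or.inl l.2),
          hP.mem l (Or.inl l.2)⟩
    obtain ⟨l, hl0, hpr, hml⟩ := hpr
    have hb : HP.PP P w ≠ ⊥ := by
      intro h
      rw [h, Ideal.mem_bot, Nat.cast_eq_zero] at hml
      exact hl0 hml
    exact exists_locF (fun C hC hW => locType_sub halg hpr hb hC hW) (hQd.loc w)
      (fun t => inv_surj halg hcc hT hP hQd w t)
  choose invF hF using hex
  exact ⟨inv, invF, hQd, hF, fun f hf => recip_inf halg hc hne hP hQd hF hf⟩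

end Pool.Agent.Work.MP_787500_nt.RQ
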