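import Mathlib
import Pool.Agent.Work.MP_787500_nt.RQ.ExtFS
import Pool.Agent.Work.MP_787500_nt.RQ.ExtIotaF
import Pool.Agent.Work.MP_787500_nt.RQ.KThetaF
import Pool.Agent.Work.MP_787500_nt.RQ.ComI
import Pool.Agent.Work.MP_787500_nt.RQ.DAb
import Pool.Agent.Work.MP_787500_nt.RQ.LocX
import Pool.Agent.Work.MP_787500_nt.RQ.RecQ

/-!
The local invariants over `K` for all subgroups of finite index and the sum formula (the version of `HP/KSum.lean` for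
the systems `fullK`, `fullD`).
-/

set_option autoImplicit false
set_option linter.unusedSectionVars false

namespace Pool.Agent.Work.MP_787500_nt.RQ

open IsDedekindDomain NumberField
open Pool.Agent.Work.MP_787500_nt.PA (TwoSys homs cyc Opn)
open Pool.Agent.Work.MP_787500_nt.GP (A0 hf IsAct d0 d1 d2 tw iota Dta TameD stabD subSys sysT)
open Pool.Agent.Work.MP_787500_nt.KR (FSys ofTwo fullK fullD fullC fullQ)
open Pool.Agent.Work.MP_787500_nt.HP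

universe u

variable {Ω : Type u} [Field Ω] [CharZero Ω] [IsAlgClosed Ω] {K : Type u} [Field K] [NumberField K]
  (α : AlgebraicClosure K ≃+* Ω) {D : ℕ} {s : K} {c : Ω ≃+* Ω} {κ : AbsGal K →* AbsGal K}

/-- the tame invariant at a ramified prime of the extended cocycle -/
theorem ram_inv (hK : IsQ K D s) {T : Finset ℕ} (hT : ∀ l ∈ T, Spl D l) {p : ℕ} (hp : p.Prime)
    (hpD : p ∣ D) {P : Ideal (𝓞 Ω)} (hP : P.IsPrime) (hpP : (p : 𝓞 Ω) ∈ P)
    {inv invF : (stb P → stb P → A0) → A0} (hF : LocF (stb P) inv invF) {u : ℤ_[2]}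
    {σ τ : stb P} (hτ : (τ : Ω ≃+* Ω) ∈ inr P) (hχσ : cyQ (σ : Ω ≃+* Ω) = (p : ℤ_[2]))
    (hχτ : cyQ (τ : Ω ≃+* Ω) = 1) (hinv : ∀ f, inv f = u • iota σ τ p f)
    {F : (Ω ≃+* Ω) → (Ω ≃+* Ω) → A0}
    (hFZ : KR.Z2 (ufull Ω ((T ∪ D.primeFactors : Finset ℕ) : Set ℕ)) (tw cyQ) F)
    {W' : Subgroup (Ω ≃+* Ω)} (hW' : (ufull Ω ((T ∪ D.primeFactors : Finset ℕ) : Set ℕ)).mem W')
    (hFW : ∀ g h, ∀ w ∈ W', ∀ w' ∈ W', F (g * w) (h * w') = F g h)
    (hram : ∀ Q : Ideal (𝓞 Ω), Q.IsPrime → (2 : 𝓞 Ω) ∉ Q → (∀ l ∈ T, (l : 𝓞 Ω) ∉ Q) →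
      ∀ g : AbsGal K, emb α g ∈ inr Q → emb α g ∈ W') :
    invF (rs (stb P) F) = u • iota (σ : Ω ≃+* Ω) (τ : Ω ≃+* Ω) p F := by
  have hp2 : p ≠ 2 := by
    rintro rfl
    have := hK.mod
    omega
  have hodd : Odd p := hp.odd_of_ne_two hp2
  have h2P : (2 : 𝓞 Ω) ∉ P := by
    intro h
    have h2 : ((2 : ℤ) : 𝓞 Ω) ∈ P := by exact_mod_cast h
    rw [nat_mem hp hP hpP 2] at h2
    have h3 : p ∣ 2 := by exact_mod_cast h2
    exact hp2 ((Nat.prime_dvd_prime_iff_eq hp Nat.prime_two).1 h3)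
  have hTP : ∀ l ∈ T, (l : 𝓞 Ω) ∉ P := by
    intro l hl h
    have h2 : ((l : ℤ) : 𝓞 Ω) ∈ P := by exact_mod_cast h
    rw [nat_mem hp hP hpP l] at h2
    have h3 : p ∣ l := by exact_mod_cast h2
    obtain ⟨g1, g2, g3, g4⟩ := hT l hl
    rw [(Nat.prime_dvd_prime_iff_eq hp g1).1 h3] at hpD
    exact g3 hpD
  have hsgn := sq_or α hK
  -- the subgroup `J`
  let J₀ : Subgroup (Ω ≃+* Ω) := inr P ⊓ (emb α).range
  have hJ₀ : ∀ g, g ∈ J₀ ↔ g ∈ inr P ∧ g (α (algebraMap K (AlgebraicClosure K) s)) =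
      α (algebraMap K (AlgebraicClosure K) s) := by
    intro g
    show g ∈ inr P ∧ g ∈ (emb α).range ↔ _
    rw [MonoidHom.mem_range, emb_sq α hK]
  have hfixc : ∀ a b : Ω ≃+* Ω, (a * b * a⁻¹) (α (algebraMap K (AlgebraicClosure K) s)) =
      α (algebraMap K (AlgebraicClosure K) s) ↔ b (α (algebraMap K (AlgebraicClosure K) s)) =
      α (algebraMap K (AlgebraicClosure K) s) := by
    intro a b
    have h1 := com_fix hsgn a b
    have h2 : a * b * a⁻¹ = (a * b * a⁻¹ * b⁻¹) * b := by group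
    constructor
    · intro h
      have h3 : (a * b * a⁻¹ * b⁻¹)⁻¹ * (a * b * a⁻¹) = b := by group
      have h4 : (a * b * a⁻¹ * b⁻¹)⁻¹ (α (algebraMap K (AlgebraicClosure K) s)) =
          α (algebraMap K (AlgebraicClosure K) s) := by
        conv_lhs => rw [← h1]
        exact (a * b * a⁻¹ * b⁻¹).symm_apply_apply _
      rw [← h3]
      show (a * b * a⁻¹ * b⁻¹)⁻¹ ((a * b * a⁻¹) _) = _
      rw [h, h4]
    · intro h
      rw [h2]
      show (a * b * a⁻¹ * b⁻¹) (b _) = _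
      rw [h, h1]
  let J : Subgroup (stb P) := J₀.subgroupOf (stb P)
  have hmJ : ∀ g : stb P, g ∈ J ↔ (g : Ω ≃+* Ω) ∈ inr P ∧
      (g : Ω ≃+* Ω) (α (algebraMap K (AlgebraicClosure K) s)) =
      α (algebraMap K (AlgebraicClosure K) s) := fun g => by
    rw [← hJ₀]
    exact Subgroup.mem_subgroupOf
  have hJn : J.Normal := by
    refine ⟨fun n hn g => ?_⟩
    rw [hmJ] at hn ⊢
    exact ⟨inr_conj g.2 hn.1, (hfixc _ _).2 hn.2⟩
  have hJc : ∀ a b : stb P, a * b * a⁻¹ * b⁻¹ ∈ J := by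
    intro a b
    rw [hmJ]
    exact ⟨comm_inr hP hp hpP a.2 b.2, com_fix hsgn _ _⟩
  have hJχ : ∀ a ∈ J, cyQ ((a : stb P) : Ω ≃+* Ω) = 1 := by
    intro a ha
    exact cyQ_inr hP h2P ((hmJ a).1 ha).1
  have hστ : (τ ^ p * σ)⁻¹ * (σ * τ) ∈ J := by
    -- `(τ ^ p * σ)⁻¹ * (σ * τ) = (σ⁻¹ * τ ^ p * σ)⁻¹ * τ`
    have e1 : (τ ^ p * σ)⁻¹ * (σ * τ) = (σ⁻¹ * τ ^ p * σ)⁻¹ * τ := by group
    rw [hmJ, e1]
    have hτp : ((τ ^ p : stb P) : Ω ≃+* Ω) ∈ inr P := by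
      rw [Subgroup.coe_pow]
      exact (inr P).pow_mem hτ p
    have hconj : (σ : Ω ≃+* Ω)⁻¹ * ((τ ^ p : stb P) : Ω ≃+* Ω) * (σ : Ω ≃+* Ω) ∈ inr P := by
      have := inr_conj ((stb P).inv_mem σ.2) hτp
      rwa [inv_inv] at this
    constructor
    · show ((σ : Ω ≃+* Ω)⁻¹ * ((τ ^ p : stb P) : Ω ≃+* Ω) * (σ : Ω ≃+* Ω))⁻¹ * (τ : Ω ≃+* Ω) ∈ inr P
      exact (inr P).mul_mem ((inr P).inv_mem hconj) hτ
    · -- the signs
      obtain ⟨k, hk⟩ := hodd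
      have h3 : ∀ a : Ω ≃+* Ω, (a ^ 2) (α (algebraMap K (AlgebraicClosure K) s)) =
          α (algebraMap K (AlgebraicClosure K) s) := by
        intro a
        rw [pow_two]
        show a (a _) = _
        rcases hsgn a with h | h
        · rw [h, h]
        · rw [h, map_neg, h, neg_neg]
      have h4 : ∀ (a : Ω ≃+* Ω) (n : ℕ), (a ^ (2 * n)) (α (algebraMap K (AlgebraicClosure K) s)) =
          α (algebraMap K (AlgebraicClosure K) s) := by
        intro a n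
        rw [pow_mul]
        induction n with
        | zero => rfl
        | succ n ih =>
          rw [pow_succ]
          show ((a ^ 2) ^ n) ((a ^ 2) _) = _
          rw [h3, ih]
      -- `b = (σ⁻¹ τ ^ p σ)⁻¹ τ`, `σ⁻¹ τ ^ p σ (t) = sign (τ) t`
      have h5 : ((τ ^ p : stb P) : Ω ≃+* Ω) (α (algebraMap K (AlgebraicClosure K) s)) =
          (τ : Ω ≃+* Ω) (α (algebraMap K (AlgebraicClosure K) s)) := by
        rw [Subgroup.coe_pow, hk, pow_succ']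
        show (τ : Ω ≃+* Ω) (((τ : Ω ≃+* Ω) ^ (2 * k)) _) = _
        rw [h4]
      have h6 : ((σ : Ω ≃+* Ω)⁻¹ * ((τ ^ p : stb P) : Ω ≃+* Ω) * (σ : Ω ≃+* Ω))
          (α (algebraMap K (AlgebraicClosure K) s)) =
          (τ : Ω ≃+* Ω) (α (algebraMap K (AlgebraicClosure K) s)) := by
        have h7 := com_fix hsgn (σ : Ω ≃+* Ω)⁻¹ ((τ ^ p : stb P) : Ω ≃+* Ω)
        rw [inv_inv] at h7
        have h8 : (σ : Ω ≃+* Ω)⁻¹ * ((τ ^ p : stb P) : Ω ≃+* Ω) * (σ : Ω ≃+* Ω) =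
            ((σ : Ω ≃+* Ω)⁻¹ * ((τ ^ p : stb P) : Ω ≃+* Ω) * (σ : Ω ≃+* Ω) *
              ((τ ^ p : stb P) : Ω ≃+* Ω)⁻¹) * ((τ ^ p : stb P) : Ω ≃+* Ω) := by group
        rw [h8]
        show ((σ : Ω ≃+* Ω)⁻¹ * ((τ ^ p : stb P) : Ω ≃+* Ω) * (σ : Ω ≃+* Ω) *
              ((τ ^ p : stb P) : Ω ≃+* Ω)⁻¹) (((τ ^ p : stb P) : Ω ≃+* Ω) _) = _
        rw [h5]
        rcases hsgn (τ : Ω ≃+* Ω) with h | h
        · rw [h, h7]
        · rw [h, map_neg, h7]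
      show (((σ : Ω ≃+* Ω)⁻¹ * ((τ ^ p : stb P) : Ω ≃+* Ω) * (σ : Ω ≃+* Ω))⁻¹ * (τ : Ω ≃+* Ω))
        (α (algebraMap K (AlgebraicClosure K) s)) = _
      show ((σ : Ω ≃+* Ω)⁻¹ * ((τ ^ p : stb P) : Ω ≃+* Ω) * (σ : Ω ≃+* Ω))⁻¹
        ((τ : Ω ≃+* Ω) (α (algebraMap K (AlgebraicClosure K) s))) = _
      rw [← h6]
      exact ((σ : Ω ≃+* Ω)⁻¹ * ((τ ^ p : stb P) : Ω ≃+* Ω) * (σ : Ω ≃+* Ω)).symm_apply_apply _
  have hWl : (lfull (stb P)).mem (W'.subgroupOf (stb P)) := by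
    obtain ⟨V, hV, hV2⟩ := res_afull (stb P) W' hW'.1
    refine up_fullC (stb P) V _ hV hV2 ?_
    have := hW'.1.2.1
    infer_instance
  have hJW : J ≤ W'.subgroupOf (stb P) := by
    intro g hg
    rw [Subgroup.mem_subgroupOf]
    obtain ⟨h1, h2⟩ := (hmJ g).1 hg
    obtain ⟨g', hg'⟩ := (emb_sq α hK (g : Ω ≃+* Ω)).2 h2
    rw [← hg'] at h1 ⊢
    exact hram P hP h2P hTP g' h1
  have key := iota_ab hF hJn hJc hJχ (l := p) hp.one_le hχσ hχτ hστ hinv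
    (rs_z2 (stb P) ((fin_ufull _).z2 hFZ)) hWl hJW
    (fun g h w hw w' hw' => hFW _ _ _ (Subgroup.mem_subgroupOf.1 hw) _ (Subgroup.mem_subgroupOf.1 hw'))
  rw [key]
  congr 1

/-- the inclusion of index sets -/
def incl {T T' : Finset ℕ} (h : T ⊆ T') : Option T → Option T'
  | none => none
  | some l => some ⟨l, h l.2⟩

/-- Local invariants over `K` at the primes `X w`: `θ p`, `φ p` for the prime divisors `p` of `D`. -/
structure KDatF (D : ℕ) (κ : AbsGal K →* AbsGal K) (T : Finset ℕ)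
    (X : Option T → Ideal (𝓞 (AlgebraicClosure K)))
    (inv invF : ∀ w : Option T, (stabD (X w) → stabD (X w) → A0) → A0)
    (θ φ : ℕ → AbsGal K) (m : ℕ → ℤ) (v : ℕ → ℤ_[2]) : Prop where
  loc : ∀ w, LocX (subSys (stabD (X w))) (fullD (stabD (X w))) (fun d => cyc (d : AbsGal K))
    (inv w) (invF w)
  two : Module.finrank (ZMod 2) (homs (subSys (stabD (X none))) ⊤) = 3
  tame : ∀ l : T, ∃ (a : stabD (X (some l)) → ℤ_[2]) (u : ℤ_[2]) (σ τ : stabD (X (some l))),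
    IsUnit u ∧ (τ : AbsGal K) ∈ (X (some l)).inertia (AbsGal K) ∧
    TameD (subSys (stabD (X (some l)))) (fun d => cyc (d : AbsGal K)) a σ τ l ∧
    ∀ f, inv (some l) f = u • iota σ τ l f
  mm : ∀ p ∈ D.primeFactors, 2 * m p = 1 - p
  tht : ∀ p ∈ D.primeFactors, cyc (θ p) = -1
  phi : ∀ p ∈ D.primeFactors, cyc (φ p) = (p : ℤ_[2])
  tk : ∀ p ∈ D.primeFactors, ∀ W, (fullK (K := K) T).mem W → θ p * κ (θ p) ∈ W
  fk : ∀ p ∈ D.primeFactors, ∀ W, (fullK (K := K) T).mem W →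
    (θ p * κ (φ p))⁻¹ * (φ p * θ p) ∈ W
  sum : ∀ (z : AbsGal K → AbsGal K → A0) (u : AbsGal K → A0),
    KR.Z2 (fullK (K := K) T) (tw cyc) z →
    (∀ g, z g 1 = 0) → (∀ g, z 1 g = 0) → KR.Sm1 (fullK (K := K) T) u →
    (∀ a b, z (κ a) (κ b) + z a b = -d1 (tw cyc) u a b) → (∀ g, u (κ g) = u g) →
    ∑ w, invF w (fun a b => z a b) = ∑ p ∈ D.primeFactors, v p • Dta κ (θ p) (φ p) (m p) z u

theorem exists_kdatF' (hK : IsQ K D s) (hc : ∀ x, c (c x) = x)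
    (hcs : c (α (algebraMap K (AlgebraicClosure K) s)) = -α (algebraMap K (AlgebraicClosure K) s))
    (hcc : cyQ c = -1) (hκ : ∀ σ, emb α (κ σ) = c * emb α σ * c) {T : Finset ℕ}
    (hT : ∀ l ∈ T, Spl D l) {P : ℕ → Ideal (𝓞 Ω)} (hP : IsP (T ∪ D.primeFactors) P)
    {invQ invFQ : ∀ w : Option (T ∪ D.primeFactors : Finset ℕ),
      (stb (HP.PP P w) → stb (HP.PP P w) → A0) → A0} (hQ : QDat c (T ∪ D.primeFactors) P invQ)
    (hFQ : ∀ w, LocF (stb (HP.PP P w)) (invQ w) (invFQ w))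
    (hrec : ∀ f, KR.Z2 (ufull Ω ((T ∪ D.primeFactors : Finset ℕ) : Set ℕ)) (tw cyQ) f →
      ∑ w, invFQ w (rs (stb (HP.PP P w)) f) + (f c c + f 1 1) = 0) :
    ∃ (inv invF : ∀ w : Option T, (stabD (pb α (HP.PP P w)) → stabD (pb α (HP.PP P w)) → A0) → A0)
      (θ φ : ℕ → AbsGal K) (m : ℕ → ℤ) (v : ℕ → ℤ_[2]),
      KDatF D κ T (fun w => pb α (HP.PP P w)) inv invF θ φ m v ∧
      (∀ (w : Option T) (f : (Ω ≃+* Ω) → (Ω ≃+* Ω) → A0),
        invF w (fun a b => f (emb α (a : AbsGal K)) (emb α (b : AbsGal K))) =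
          invFQ (incl Finset.subset_union_left w) (fun a b => f a b)) ∧
      ∀ p ∈ D.primeFactors, emb α (θ p) * c ∈ inr (P p) := by
  classical
  have hD0 : D ≠ 0 := hK.sqf.ne_zero
  have hmT : ∀ l ∈ T, l ∈ T ∪ D.primeFactors := fun l hl => Finset.mem_union_left _ hl
  have hmD : ∀ l ∈ D.primeFactors, l ∈ T ∪ D.primeFactors := fun l hl => Finset.mem_union_right _ hl
  obtain ⟨e2, he2⟩ := stb_equiv (α := α) hK (l := 2) (Or.inl rfl) (hP.isPrime 2 (Or.inr rfl))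
    (hP.mem 2 (Or.inr rfl))
  have hel : ∀ l : T, ∃ e : stb (P l) ≃* stabD (pb α (P l)), ∀ g, emb α (e g) = (g : Ω ≃+* Ω) :=
    fun l => stb_equiv (α := α) hK (l := l) (Or.inr (hT l l.2))
      (hP.isPrime l (Or.inl (hmT l l.2))) (hP.mem l (Or.inl (hmT l l.2)))
  choose el hel using hel
  -- the elements at the ramified primes
  have hram : ∀ p : ℕ, ∃ (θ φ : AbsGal K) (m : ℤ) (v : ℤ_[2]), p ∈ D.primeFactors →
      emb α θ * c ∈ inr (P p) ∧ 2 * m = 1 - p ∧ cyc θ = -1 ∧ cyc φ = (p : ℤ_[2]) ∧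
      (∀ W, (fullK (K := K) T).mem W → θ * κ θ ∈ W) ∧
      (∀ W, (fullK (K := K) T).mem W → (θ * κ φ)⁻¹ * (φ * θ) ∈ W) ∧
      ∀ (z : AbsGal K → AbsGal K → A0) (u : AbsGal K → A0) (F : (Ω ≃+* Ω) → (Ω ≃+* Ω) → A0)
        (W' : Subgroup (Ω ≃+* Ω)),
        KR.Z2 (fullK (K := K) T) (tw cyc) z → (∀ g, z g 1 = 0) → (∀ g, z 1 g = 0) →
        KR.Sm1 (fullK (K := K) T) u →
        (∀ a b, z (κ a) (κ b) + z a b = -d1 (tw cyc) u a b) → IsExt (emb α) c κ cyQ z u F →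
        KR.Z2 (ufull Ω ((T ∪ D.primeFactors : Finset ℕ) : Set ℕ)) (tw cyQ) F →
        (ufull Ω ((T ∪ D.primeFactors : Finset ℕ) : Set ℕ)).mem W' →
        (∀ g h, ∀ w ∈ W', ∀ w' ∈ W', F (g * w) (h * w') = F g h) →
        (∀ Q : Ideal (𝓞 Ω), Q.IsPrime → (2 : 𝓞 Ω) ∉ Q → (∀ l ∈ T, (l : 𝓞 Ω) ∉ Q) →
          ∀ g : AbsGal K, emb α g ∈ inr Q → emb α g ∈ W') →
        ∀ h : p ∈ T ∪ D.primeFactors, invFQ (some ⟨p, h⟩) (rs (stb (P p)) F) =
          -(v • Dta κ θ φ m z u) := by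
    intro p
    by_cases hp : p ∈ D.primeFactors
    · have hpp : p.Prime := Nat.prime_of_mem_primeFactors hp
      have hpD : p ∣ D := Nat.dvd_of_mem_primeFactors hp
      obtain ⟨a, u, σ, τ, hu, hτ, hττ, hTam, hinv⟩ := hQ.tame ⟨p, hmD p hp⟩
      obtain ⟨θ, φ, h1, h2, h3, h4, h5, h6⟩ := exists_kthetaF α hK hc hcs hcc hκ hT hpp hpD
        (hP.isPrime p (Or.inl (hmD p hp))) (hP.mem p (Or.inl (hmD p hp))) σ.2 hτ hττ hTam.σχ
        hTam.τχ
      have hodd : Odd p := hTam.odd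
      obtain ⟨k, hk⟩ := hodd
      have hm : (2 : ℤ) * (-(k : ℤ)) = 1 - (p : ℤ) := by
        rw [hk]; push_cast; ring
      refine ⟨θ, φ, -(k : ℤ), u, fun _ => ⟨by rw [h1]; exact hτ, hm, h3, h4, h5, h6, ?_⟩⟩
      intro z w F W' hz hz1 hz2 hw h3' hF hFZ hW' hFW hr h
      have hcy : (fun g => cyQ (emb α g)) = (cyc : AbsGal K → ℤ_[2]) := funext fun g => cyQ_emb α g
      have hio : iota (σ : Ω ≃+* Ω) (τ : Ω ≃+* Ω) p F = -Dta κ θ φ (-(k : ℤ)) z w := by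
        refine ext_iotaF (S := fullK (K := K) T) (HP.dbl α hK hc hcs hcc hκ) hF ?_ hw hz1 hz2 ?_ hm
          h1 h2 hTam.τχ hTam.σχ h5 h6
        · rw [hcy]; exact hz
        · rw [hcy]; exact h3'
      have h8 : invFQ (some ⟨p, h⟩) (rs (stb (P p)) F) = u • iota (σ : Ω ≃+* Ω) (τ : Ω ≃+* Ω) p F :=
        ram_inv α hK hT hpp hpD (hP.isPrime p (Or.inl h)) (hP.mem p (Or.inl h))
          (hFQ (some ⟨p, h⟩)) hτ hTam.σχ hTam.τχ hinv hFZ hW' hFW hr
      rw [h8, hio, smul_neg]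
    · exact ⟨1, 1, 0, 0, fun h => absurd h hp⟩
  choose θ φ m v hram using hram
  let inv : ∀ w : Option T, (stabD (pb α (HP.PP P w)) → stabD (pb α (HP.PP P w)) → A0) → A0 :=
    fun w => match w with
    | none => fun f => invQ none (fun a b => f (e2 a) (e2 b))
    | some l => fun f => invQ (some ⟨l, hmT l l.2⟩) (fun a b => f (el l a) (el l b))
  let invF : ∀ w : Option T, (stabD (pb α (HP.PP P w)) → stabD (pb α (HP.PP P w)) → A0) → A0 :=
    fun w => match w with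
    | none => fun f => invFQ none (fun a b => f (e2 a) (e2 b))
    | some l => fun f => invFQ (some ⟨l, hmT l l.2⟩) (fun a b => f (el l a) (el l b))
  have hcomp : ∀ (w : Option T) (f : (Ω ≃+* Ω) → (Ω ≃+* Ω) → A0),
      invF w (fun a b => f (emb α (a : AbsGal K)) (emb α (b : AbsGal K))) =
        invFQ (incl Finset.subset_union_left w) (fun a b => f a b) := by
    rintro (_ | l) f
    · show invFQ none (fun a b => f (emb α ((e2 a : stabD (pb α (P 2))) : AbsGal K))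
        (emb α ((e2 b : stabD (pb α (P 2))) : AbsGal K))) = invFQ none (fun a b => f a b)
      congr 1
      funext a b
      rw [he2, he2]
    · show invFQ (some ⟨l, hmT l l.2⟩) (fun a b => f (emb α ((el l a : stabD (pb α (P l))) : AbsGal K))
        (emb α ((el l b : stabD (pb α (P l))) : AbsGal K))) =
        invFQ (some ⟨l, hmT l l.2⟩) (fun a b => f a b)
      congr 1
      funext a b
      rw [hel, hel]
  refine ⟨inv, invF, θ, φ, m, v, ?_, hcomp, fun p hp => (hram p hp).1⟩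
  constructor
  · rintro (_ | l)
    · exact LocX.emb α ((hFQ none).locX (hQ.loc none)) e2 he2
    · exact LocX.emb α ((hFQ (some ⟨l, hmT l l.2⟩)).locX (hQ.loc (some ⟨l, hmT l l.2⟩))) (el l) (hel l)
  · exact (ksum_two α e2 he2).trans hQ.two
  · intro l
    obtain ⟨a, u, σ, τ, hu, hτ, hττ, hTam, hinv⟩ := hQ.tame ⟨l, hmT l l.2⟩
    refine ⟨fun d => a ((el l).symm d), u, el l σ, el l τ, hu,
      ksum_inertia α (el l) (hel l) hτ, ksum_tame α (el l) (hel l) hTam, fun f => ?_⟩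
    have h8 : inv (some l) f = u • iota σ τ l (fun a b => f (el l a) (el l b)) := hinv _
    rw [h8]
    congr 1
    exact ksum_iota ((el l : stb (P l) →* stabD (pb α (P l)))) σ τ l f
  · exact fun p hp => (hram p hp).2.1
  · exact fun p hp => (hram p hp).2.2.1
  · exact fun p hp => (hram p hp).2.2.2.1
  · exact fun p hp => (hram p hp).2.2.2.2.1
  · exact fun p hp => (hram p hp).2.2.2.2.2.1
  · intro z u hz hz1 hz2 hu h3 h4
    obtain ⟨F, hF, hFZ, hF1, hF2, hFc, W', hW', hFW, hr⟩ :=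
      exists_extF α hK hc hcs hcc hκ hz hz1 hz2 hu h3 h4
    have hsum := hrec F hFZ
    rw [hFc, hF1, add_zero, add_zero] at hsum
    rw [Fintype.sum_option] at hsum ⊢
    have hdisj : Disjoint T D.primeFactors := by
      rw [Finset.disjoint_left]
      intro l hl hlD
      exact (hT l hl).2.2.1 (Nat.dvd_of_mem_primeFactors hlD)
    let G : ℕ → A0 := fun n => if h : n ∈ T ∪ D.primeFactors then
      invFQ (some ⟨n, h⟩) (rs (stb (P n)) F) else 0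
    have hG : ∀ n (h : n ∈ T ∪ D.primeFactors), G n = invFQ (some ⟨n, h⟩) (rs (stb (P n)) F) :=
      fun n h => dif_pos h
    have hs1 : ∑ l : (T ∪ D.primeFactors : Finset ℕ), invFQ (some l) (rs (stb (HP.PP P (some l))) F) =
        ∑ n ∈ T ∪ D.primeFactors, G n := by
      rw [← Finset.sum_coe_sort (T ∪ D.primeFactors) G]
      exact Finset.sum_congr rfl fun l _ => (hG l l.2).symm
    have hz' : ∀ w : Option T, invF w (fun a b => z a b) =
        invFQ (incl Finset.subset_union_left w) (fun a b => F a b) := by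
      intro w
      rw [← hcomp w F]
      congr 1
      funext a b
      rw [hF.ff]
    have hs2 : ∑ l : T, invF (some l) (fun a b => z a b) = ∑ n ∈ T, G n := by
      rw [← Finset.sum_coe_sort T G]
      refine Finset.sum_congr rfl fun l _ => ?_
      rw [hG l (hmT l l.2)]
      exact hz' (some l)
    have hs3 : invF none (fun a b => z a b) = invFQ none (rs (stb (HP.PP P none)) F) := hz' none
    have hs4 : ∑ n ∈ D.primeFactors, G n =
        -∑ p ∈ D.primeFactors, v p • Dta κ (θ p) (φ p) (m p) z u := by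
      rw [← Finset.sum_neg_distrib]
      refine Finset.sum_congr rfl fun p hp => ?_
      rw [hG p (hmD p hp)]
      exact (hram p hp).2.2.2.2.2.2 z u F W' hz hz1 hz2 hu h3 hF hFZ hW' hFW hr _
    rw [hs1, Finset.sum_union hdisj, hs4] at hsum
    rw [hs2, hs3]
    rw [← add_assoc, add_neg_eq_zero] at hsum
    exact hsum

theorem exists_kdatF (hK : IsQ K D s) (hc : ∀ x, c (c x) = x)
    (hcs : c (α (algebraMap K (AlgebraicClosure K) s)) = -α (algebraMap K (AlgebraicClosure K) s))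
    (hcc : cyQ c = -1) (hκ : ∀ σ, emb α (κ σ) = c * emb α σ * c) {T : Finset ℕ}
    (hT : ∀ l ∈ T, Spl D l) {P : ℕ → Ideal (𝓞 Ω)} (hP : IsP (T ∪ D.primeFactors) P)
    {invQ invFQ : ∀ w : Option (T ∪ D.primeFactors : Finset ℕ),
      (stb (HP.PP P w) → stb (HP.PP P w) → A0) → A0} (hQ : QDat c (T ∪ D.primeFactors) P invQ)
    (hFQ : ∀ w, LocF (stb (HP.PP P w)) (invQ w) (invFQ w))
    (hrec : ∀ f, KR.Z2 (ufull Ω ((T ∪ D.primeFactors : Finset ℕ) : Set ℕ)) (tw cyQ) f →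
      ∑ w, invFQ w (rs (stb (HP.PP P w)) f) + (f c c + f 1 1) = 0) :
    ∃ (inv invF : ∀ w : Option T, (stabD (pb α (HP.PP P w)) → stabD (pb α (HP.PP P w)) → A0) → A0)
      (θ φ : ℕ → AbsGal K) (m : ℕ → ℤ) (v : ℕ → ℤ_[2]),
      KDatF D κ T (fun w => pb α (HP.PP P w)) inv invF θ φ m v ∧
      ∀ (w : Option T) (f : (Ω ≃+* Ω) → (Ω ≃+* Ω) → A0),
        invF w (fun a b => f (emb α (a : AbsGal K)) (emb α (b : AbsGal K))) =
          invFQ (incl Finset.subset_union_left w) (fun a b => f a b) := by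
  obtain ⟨inv, invF, θ, φ, m, v, h1, h2, -⟩ :=
    exists_kdatF' α hK hc hcs hcc hκ hT hP hQ hFQ hrec
  exact ⟨inv, invF, θ, φ, m, v, h1, h2⟩

end Pool.Agent.Work.MP_787500_nt.RQ
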