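import Mathlib
import Pool.Agent.Work.MP_787500_nt.RQ.KSumF
import Pool.Agent.Work.MP_787500_nt.RQ.GlobF
import Pool.Agent.Work.MP_787500_nt.HP.KData

/-!
Reciprocity over the imaginary quadratic field `K` for all subgroups of finite index: existence of the invariants, and
the relation to the invariants over the rational numbers.
-/

set_option autoImplicit false
set_option linter.unusedSectionVars false

namespace Pool.Agent.Work.MP_787500_nt.RQ

open IsDedekindDomain NumberField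
open Pool.Agent.Work.MP_787500_nt.PA (TwoSys homs cyc Opn)
open Pool.Agent.Work.MP_787500_nt.GP (A0 hf IsAct d0 d1 d2 tw iota Dta TameD stabD subSys sysT inT)
open Pool.Agent.Work.MP_787500_nt.KR (FSys ofTwo fullK fullD fullC fullQ big)
open Pool.Agent.Work.MP_787500_nt.HP

universe u

variable {K : Type u} [Field K] [NumberField K] {D : ℕ} {s : K}
  {c : AlgebraicClosure K ≃+* AlgebraicClosure K} {κ : AbsGal K →* AbsGal K} {T : Finset ℕ}

theorem kap_full (hc : PA.IsConj s c)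
    (hκ : ∀ (σ : AbsGal K) (x : AlgebraicClosure K), κ σ x = c (σ (c x)))
    (T : Finset ℕ) {W : Subgroup (AbsGal K)} (hW : (fullK (K := K) T).mem W) :
    (fullK (K := K) T).mem (W.comap κ) := by
  obtain ⟨hn, ho, hi⟩ := hW
  refine ⟨inferInstance, ho.preimage (PA.kappa_continuous hc.sq hκ), ?_⟩
  rintro g ⟨Q, hQ, hQ2, hQT, hg⟩
  let C : 𝓞 (AlgebraicClosure K) ≃+* 𝓞 (AlgebraicClosure K) :=
    RingOfIntegers.mapRingEquiv c
  have hmem : κ g ∈ (Q.comap (C : 𝓞 (AlgebraicClosure K) →+* 𝓞 (AlgebraicClosure K))).inertia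
      (AbsGal K) := by
    intro x
    show (C : 𝓞 (AlgebraicClosure K) →+* 𝓞 (AlgebraicClosure K)) (κ g • x - x) ∈ Q
    have h3 : (C : 𝓞 (AlgebraicClosure K) →+* 𝓞 (AlgebraicClosure K)) (κ g • x - x) =
        g • C x - C x := by
      rw [map_sub]
      congr 1
      apply RingOfIntegers.ext
      show c (κ g (x : AlgebraicClosure K)) = g (c (x : AlgebraicClosure K))
      rw [hκ, hc.sq]
    rw [h3]
    exact hg (C x)
  refine hi (κ g) ⟨_, Ideal.comap_isPrime _ _, ?_, ?_, hmem⟩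
  · intro h4
    apply hQ2
    have h5 : (C : 𝓞 (AlgebraicClosure K) →+* 𝓞 (AlgebraicClosure K)) 2 ∈ Q := h4
    rwa [map_ofNat] at h5
  · intro l hl h4
    apply hQT l hl
    have h5 : (C : 𝓞 (AlgebraicClosure K) →+* 𝓞 (AlgebraicClosure K)) l ∈ Q := h4
    rwa [map_natCast] at h5

theorem jsm_full (T : Finset ℕ) (C : Subgroup (AbsGal K)) (W : Subgroup (AbsGal K))
    (hW : (fullK (K := K) T).mem W) : ∃ W', (fullD C).mem W' ∧ ∀ v ∈ W', C.subtype v ∈ W := by
  have hn := hW.1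
  refine ⟨W.subgroupOf C, ⟨inferInstance, ?_, W, hW.2.1, le_rfl⟩, fun v hv => hv⟩
  intro h0
  have h1 : W.relIndex C ∣ W.index := Subgroup.relIndex_dvd_index_of_normal W C
  rw [show W.relIndex C = 0 from h0, zero_dvd_iff] at h1
  exact (fullK (K := K) T).index hW h1

theorem char_fullK (T : Finset ℕ) : KR.IsChar (fullK (K := K) T) (cyc (K := K)) := by
  have hch := PA.isChar_cyc (K := K)
  refine ⟨hch.one, hch.mul, fun n => ?_, hch.odd⟩
  obtain ⟨W3, hW3, hc3⟩ := hch.cont n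
  refine ⟨W3, ?_, hc3⟩
  have hn := hW3.normal
  have ho : IsOpen (W3 : Set (AbsGal K)) := hW3.isOpen
  obtain ⟨g1, g2, g3, g4⟩ := hW3
  refine ⟨hn, ho, fun σ hσ => ?_⟩
  obtain ⟨Q, hQ, hQ2, -, h5⟩ := hσ
  exact g4 Q hQ hQ2 h5

theorem KDatF.sumHF {X : Option T → Ideal (𝓞 (AlgebraicClosure K))}
    {inv invF : ∀ w : Option T, (stabD (X w) → stabD (X w) → A0) → A0}
    {θ φ : ℕ → AbsGal K} {m : ℕ → ℤ} {v : ℕ → ℤ_[2]} (H : KDatF D κ T X inv invF θ φ m v)
    (hc : PA.IsConj s c)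
    (hκ : ∀ (σ : AbsGal K) (x : AlgebraicClosure K), κ σ x = c (σ (c x))) :
    SumHF (fullK (K := K) T) (fun w : Option T => fullD (stabD (X w)))
      (fun w => (stabD (X w)).subtype) cyc invF κ D.primeFactors θ φ m v where
  char := char_fullK T
  loc := fun w => (H.loc w).loc
  jsm := fun w W hW => jsm_full T _ W hW
  kk := fun g => by
    ext x
    rw [hκ, hκ, hc.sq, hc.sq]
  ksys := fun W hW => ⟨_, kap_full hc hκ T hW, fun _ hv => hv⟩
  kchi := (PA.isInvol hc.sq hκ).chi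
  mm := H.mm
  tht := H.tht
  phi := H.phi
  tk := H.tk
  fk := H.fk
  sum := H.sum

/-- Existence of the invariants over `ℚ` and over `K`, for primes `P l` that contain `l`, `l = 2`, `l ∈ T` or `l ∣ D`,
with the place of `θ`. -/
theorem exists_KQ' (hK : IsQ K D s) (hc : PA.IsConj s c)
    (hκ : ∀ (σ : AbsGal K) (x : AlgebraicClosure K), κ σ x = c (σ (c x)))
    (hT : ∀ l ∈ T, Spl D l) {P : ℕ → Ideal (𝓞 (AlgebraicClosure K))}
    (hP : IsP (T ∪ D.primeFactors) P) :
    ∃ (invQ invFQ : ∀ w : Option (T ∪ D.primeFactors : Finset ℕ),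
        (stb (HP.PP P w) → stb (HP.PP P w) → A0) → A0)
      (inv invF : ∀ w : Option T, (stabD (HP.PP P w) → stabD (HP.PP P w) → A0) → A0)
      (θ φ : ℕ → AbsGal K) (m : ℕ → ℤ) (v : ℕ → ℤ_[2]),
      QDat c (T ∪ D.primeFactors) P invQ ∧
      (∀ w, LocF (stb (HP.PP P w)) (invQ w) (invFQ w)) ∧
      (∀ f, KR.Z2 (ufull (AlgebraicClosure K) ((T ∪ D.primeFactors : Finset ℕ) : Set ℕ)) (tw cyQ) f →
        ∑ w, invFQ w (rs (stb (HP.PP P w)) f) + (f c c + f 1 1) = 0) ∧
      KDatF D κ T (HP.PP P) inv invF θ φ m v ∧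
      (∀ (w : Option T) (f : (AlgebraicClosure K ≃+* AlgebraicClosure K) →
          (AlgebraicClosure K ≃+* AlgebraicClosure K) → A0),
        invF w (fun a b => f (emb (RingEquiv.refl _) (a : AbsGal K))
          (emb (RingEquiv.refl _) (b : AbsGal K))) =
          invFQ (incl Finset.subset_union_left w) (fun a b => f a b)) ∧
      ∀ p ∈ D.primeFactors, emb (RingEquiv.refl (AlgebraicClosure K)) (θ p) * c ∈ inr (P p) := by
  have hD0 : D ≠ 0 := hK.sqf.ne_zero
  have hs0 : s ≠ 0 := by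
    rintro rfl
    have h1 := hK.sq
    rw [zero_pow two_ne_zero, eq_comm, neg_eq_zero, Nat.cast_eq_zero] at h1
    exact hD0 h1
  have hne : ∃ x, c x ≠ x := by
    refine ⟨algebraMap K (AlgebraicClosure K) s, ?_⟩
    rw [hc.neg]
    intro h
    have h1 : algebraMap K (AlgebraicClosure K) s = 0 := self_eq_neg.1 h.symm
    exact hs0 ((map_eq_zero _).1 h1)
  have hTne : (T ∪ D.primeFactors).Nonempty := by
    have : D.primeFactors.Nonempty := by
      rw [Nat.nonempty_primeFactors]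
      have := hK.mod
      omega
    exact this.mono Finset.subset_union_right
  obtain ⟨invQ, invFQ, hQ, hFQ, hrec⟩ := exists_qdatF (alg_closure K) hc.sq hne hTne hP
  have hκ' : ∀ σ, emb (RingEquiv.refl (AlgebraicClosure K)) (κ σ) =
      c * emb (RingEquiv.refl (AlgebraicClosure K)) σ * c := by
    intro σ
    ext x
    exact hκ σ x
  have h3 := exists_kdatF' (RingEquiv.refl (AlgebraicClosure K)) hK hc.sq hc.neg
    (cyQ_conj hc.sq hne) hκ' hT hP hQ hFQ hrec
  have hX : (fun w : Option T => pb (RingEquiv.refl (AlgebraicClosure K)) (HP.PP P w)) =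
      HP.PP P := by
    funext w
    ext x
    rw [mem_pb]
    have h1 : RingOfIntegers.mapRingEquiv (RingEquiv.refl (AlgebraicClosure K)) x = x :=
      RingOfIntegers.ext rfl
    rw [h1]
  have key : ∀ Y : Option T → Ideal (𝓞 (AlgebraicClosure K)),
      (fun w : Option T => pb (RingEquiv.refl (AlgebraicClosure K)) (HP.PP P w)) = Y →
      ∃ (inv invF : ∀ w : Option T, (stabD (Y w) → stabD (Y w) → A0) → A0)
      (θ φ : ℕ → AbsGal K) (m : ℕ → ℤ) (v : ℕ → ℤ_[2]),
      KDatF D κ T Y inv invF θ φ m v ∧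
      (∀ (w : Option T) (f : (AlgebraicClosure K ≃+* AlgebraicClosure K) →
          (AlgebraicClosure K ≃+* AlgebraicClosure K) → A0),
        invF w (fun a b => f (emb (RingEquiv.refl _) (a : AbsGal K))
          (emb (RingEquiv.refl _) (b : AbsGal K))) =
          invFQ (incl Finset.subset_union_left w) (fun a b => f a b)) ∧
      ∀ p ∈ D.primeFactors, emb (RingEquiv.refl (AlgebraicClosure K)) (θ p) * c ∈ inr (P p) := by
    rintro _ rfl
    exact h3
  obtain ⟨inv, invF, θ, φ, m, v, h4, h5⟩ := key _ hX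
  exact ⟨invQ, invFQ, inv, invF, θ, φ, m, v, hQ, hFQ, hrec, h4, h5⟩

/-- Existence of the invariants over `ℚ` and over `K`, for primes `P l` that contain `l`, `l = 2`, `l ∈ T` or `l ∣ D`. -/
theorem exists_KQ (hK : IsQ K D s) (hc : PA.IsConj s c)
    (hκ : ∀ (σ : AbsGal K) (x : AlgebraicClosure K), κ σ x = c (σ (c x)))
    (hT : ∀ l ∈ T, Spl D l) {P : ℕ → Ideal (𝓞 (AlgebraicClosure K))}
    (hP : IsP (T ∪ D.primeFactors) P) :
    ∃ (invQ invFQ : ∀ w : Option (T ∪ D.primeFactors : Finset ℕ),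
        (stb (HP.PP P w) → stb (HP.PP P w) → A0) → A0)
      (inv invF : ∀ w : Option T, (stabD (HP.PP P w) → stabD (HP.PP P w) → A0) → A0)
      (θ φ : ℕ → AbsGal K) (m : ℕ → ℤ) (v : ℕ → ℤ_[2]),
      QDat c (T ∪ D.primeFactors) P invQ ∧
      (∀ w, LocF (stb (HP.PP P w)) (invQ w) (invFQ w)) ∧
      (∀ f, KR.Z2 (ufull (AlgebraicClosure K) ((T ∪ D.primeFactors : Finset ℕ) : Set ℕ)) (tw cyQ) f →
        ∑ w, invFQ w (rs (stb (HP.PP P w)) f) + (f c c + f 1 1) = 0) ∧
      KDatF D κ T (HP.PP P) inv invF θ φ m v ∧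
      ∀ (w : Option T) (f : (AlgebraicClosure K ≃+* AlgebraicClosure K) →
          (AlgebraicClosure K ≃+* AlgebraicClosure K) → A0),
        invF w (fun a b => f (emb (RingEquiv.refl _) (a : AbsGal K))
          (emb (RingEquiv.refl _) (b : AbsGal K))) =
          invFQ (incl Finset.subset_union_left w) (fun a b => f a b) := by
  obtain ⟨invQ, invFQ, inv, invF, θ, φ, m, v, h1, h2, h3, h4, h5, -⟩ := exists_KQ' hK hc hκ hT hP
  exact ⟨invQ, invFQ, inv, invF, θ, φ, m, v, h1, h2, h3, h4, h5⟩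

private theorem exists_prime_over {Ω : Type u} [Field Ω] [CharZero Ω] {p : ℕ} (hp : p.Prime) :
    ∃ Q : Ideal (𝓞 Ω), Q.IsPrime ∧ (p : 𝓞 Ω) ∈ Q := by
  have h1 : (Ideal.span {(p : 𝓞 Ω)}) ≠ ⊤ := by
    intro h
    rw [Ideal.span_singleton_eq_top] at h
    obtain ⟨y, hy⟩ := isUnit_iff_exists_inv.1 h
    have h2 : (p : Ω) * (y : Ω) = 1 := by
      have h3 := congrArg (fun z : 𝓞 Ω => (z : Ω)) hy
      simpa using h3
    have hp0 : (p : Ω) ≠ 0 := Nat.cast_ne_zero.2 hp.ne_zero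
    have h4 : (y : Ω) = algebraMap ℚ Ω ((p : ℚ)⁻¹) := by
      rw [map_inv₀, map_natCast]
      exact eq_inv_of_mul_eq_one_right h2
    have h5 : IsIntegral ℤ (y : Ω) := y.2
    rw [h4, isIntegral_algebraMap_iff (algebraMap ℚ Ω).injective] at h5
    obtain ⟨z, hz⟩ := (IsIntegrallyClosed.isIntegral_iff (R := ℤ) (K := ℚ)).1 h5
    have h6 : (z : ℚ) = (p : ℚ)⁻¹ := hz
    have hp0' : (p : ℚ) ≠ 0 := Nat.cast_ne_zero.2 hp.ne_zero
    have h7 : (z : ℚ) * p = 1 := by rw [h6, inv_mul_cancel₀ hp0']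
    have h8 : z * (p : ℤ) = 1 := by exact_mod_cast h7
    have h9 : (p : ℤ) ∣ 1 := ⟨z, by rw [← h8]; ring⟩
    have h10 : p ∣ 1 := by exact_mod_cast h9
    exact hp.one_lt.ne' (Nat.dvd_one.1 h10)
  obtain ⟨M, hM, hle⟩ := Ideal.exists_le_maximal _ h1
  exact ⟨M, hM.isPrime, hle (Ideal.mem_span_singleton_self _)⟩

/-- primes for the prime divisors of `D` can be added -/
theorem exists_isP (hK : IsQ K D s) (hT : ∀ l ∈ T, Spl D l)
    {P : ℕ → Ideal (𝓞 (AlgebraicClosure K))} (hP : IsP T P) :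
    ∃ P' : ℕ → Ideal (𝓞 (AlgebraicClosure K)), IsP (T ∪ D.primeFactors) P' ∧
      ∀ w : Option T, HP.PP P' w = HP.PP P w := by
  classical
  have hR : ∀ p : ℕ, ∃ Q : Ideal (𝓞 (AlgebraicClosure K)), p.Prime →
      Q.IsPrime ∧ (p : 𝓞 (AlgebraicClosure K)) ∈ Q := by
    intro p
    by_cases hp : p.Prime
    · obtain ⟨Q, hQ⟩ := exists_prime_over (Ω := AlgebraicClosure K) hp
      exact ⟨Q, fun _ => hQ⟩
    · exact ⟨⊥, fun h => absurd h hp⟩
  choose R hR using hR
  have h2D : 2 ∉ D.primeFactors := by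
    intro h
    have h1 := Nat.dvd_of_mem_primeFactors h
    have := hK.mod
    omega
  have hTD : ∀ l ∈ T, l ∉ D.primeFactors := by
    intro l hl h
    exact (hT l hl).2.2.1 (Nat.dvd_of_mem_primeFactors h)
  obtain ⟨P', hP'⟩ : ∃ P' : ℕ → Ideal (𝓞 (AlgebraicClosure K)),
      P' = fun l => if l ∈ D.primeFactors then R l else P l := ⟨_, rfl⟩
  have hin : ∀ l, l ∈ D.primeFactors → P' l = R l := by
    intro l hl
    rw [hP']
    exact if_pos hl
  have hout : ∀ l, l ∉ D.primeFactors → P' l = P l := by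
    intro l hl
    rw [hP']
    exact if_neg hl
  refine ⟨P', ⟨fun l hl => ?_, fun l hl => ?_, fun l hl => ?_, fun l hl => ?_⟩, fun w => ?_⟩
  · rcases Finset.mem_union.1 hl with h | h
    · exact hP.prime l h
    · exact Nat.prime_of_mem_primeFactors h
  · rcases Finset.mem_union.1 hl with h | h
    · exact hP.odd l h
    · rintro rfl
      exact h2D h
  · by_cases h : l ∈ D.primeFactors
    · rw [hin l h]
      exact (hR l (Nat.prime_of_mem_primeFactors h)).1
    · rw [hout l h]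
      refine hP.isPrime l ?_
      rcases hl with h3 | h3
      · rcases Finset.mem_union.1 h3 with h4 | h4
        · exact Or.inl h4
        · exact absurd h4 h
      · exact Or.inr h3
  · by_cases h : l ∈ D.primeFactors
    · rw [hin l h]
      exact (hR l (Nat.prime_of_mem_primeFactors h)).2
    · rw [hout l h]
      refine hP.mem l ?_
      rcases hl with h3 | h3
      · rcases Finset.mem_union.1 h3 with h4 | h4
        · exact Or.inl h4
        · exact absurd h4 h
      · exact Or.inr h3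
  · cases w with
    | none => exact hout 2 h2D
    | some l => exact hout l (hTD l l.2)

/-- Existence of the invariants over `K`. -/
theorem exists_K (hK : IsQ K D s) (hc : PA.IsConj s c)
    (hκ : ∀ (σ : AbsGal K) (x : AlgebraicClosure K), κ σ x = c (σ (c x)))
    (hT : ∀ l ∈ T, Spl D l) {P : ℕ → Ideal (𝓞 (AlgebraicClosure K))} (hP : IsP T P) :
    ∃ (inv invF : ∀ w : Option T, (stabD (HP.PP P w) → stabD (HP.PP P w) → A0) → A0)
      (θ φ : ℕ → AbsGal K) (m : ℕ → ℤ) (v : ℕ → ℤ_[2]), KDatF D κ T (HP.PP P) inv invF θ φ m v := by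
  obtain ⟨P', hP', h1⟩ := exists_isP hK hT hP
  obtain ⟨-, -, inv, invF, θ, φ, m, v, -, -, -, h2, -⟩ := exists_KQ hK hc hκ hT hP'
  have h3 : (HP.PP P' : Option T → _) = HP.PP P := funext h1
  have key : ∀ Y : Option T → Ideal (𝓞 (AlgebraicClosure K)), HP.PP P' = Y →
      ∃ (inv invF : ∀ w : Option T, (stabD (Y w) → stabD (Y w) → A0) → A0)
      (θ φ : ℕ → AbsGal K) (m : ℕ → ℤ) (v : ℕ → ℤ_[2]), KDatF D κ T Y inv invF θ φ m v := by
    rintro _ rfl
    exact ⟨inv, invF, θ, φ, m, v, h2⟩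
  exact key _ h3

end Pool.Agent.Work.MP_787500_nt.RQ
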