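import Mathlib
import Pool.Agent.Work.MP_787500_nt.RQ.KGlobF
import Pool.Agent.Work.MP_787500_nt.GA.GlueK
import Pool.Agent.Work.MP_787500_nt.KR.M2_Mid
import Pool.Agent.Work.MP_787500_nt.GP.G2_TameHoms

/-!
The hypotheses `KR.HypP` over the imaginary quadratic field `K`.
-/

set_option autoImplicit false
set_option linter.unusedSectionVars false

namespace Pool.Agent.Work.MP_787500_nt.RQ

open IsDedekindDomain NumberField
open Pool.Agent.Work.MP_787500_nt.PA (TwoSys homs cyc LocalType)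
open Pool.Agent.Work.MP_787500_nt.GP (A0 hf IsAct d0 d1 d2 tw iota Dta TameD stabD subSys sysT inT)
open Pool.Agent.Work.MP_787500_nt.KR
open Pool.Agent.Work.MP_787500_nt.HP (IsQ Spl IsP QDat cyQ stb emb inr)

universe u v

variable {K : Type u} [Field K] [NumberField K] {D : ℕ} {s : K}
  {c : AlgebraicClosure K ≃+* AlgebraicClosure K} {κ : AbsGal K →* AbsGal K} {T : Finset ℕ}
  {P : ℕ → Ideal (𝓞 (AlgebraicClosure K))} {N₀ C : Subgroup (AbsGal K)}

theorem syl_mono {T₀ : Finset ℕ} (h : T₀ ⊆ T) (hC : Syl (fullK (K := K) T₀) N₀ C) :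
    Syl (fullK (K := K) T) N₀ C where
  normal := hC.normal
  opn := by
    obtain ⟨W, hW, h1⟩ := hC.opn
    exact ⟨W, GA.fullK_mono h hW, h1⟩
  le := hC.le
  pow := hC.pow
  odd := hC.odd

/-- the local hypotheses -/
theorem KDatF.locB (hK : IsQ K D s) (hT : ∀ l ∈ T, Spl D l) (hP : IsP T P)
    {inv invF : ∀ w : Option T, (stabD (HP.PP P w) → stabD (HP.PP P w) → A0) → A0}
    {θ φ : ℕ → AbsGal K} {m : ℕ → ℤ} {v : ℕ → ℤ_[2]}
    (H : KDatF D κ T (HP.PP P) inv invF θ φ m v) (w : Option T)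
    (N : Subgroup (stabD (HP.PP P w))) :
    LocB (fullD (stabD (HP.PP P w))) N (fun d => cyc (d : AbsGal K)) (invF w) where
  toLocH := (H.loc w).locH_big (up_fullD _) N
  ex := by
    refine (H.loc w).ex N (two_fullD _) ?_
    cases w with
    | none =>
      rw [H.two]
      norm_num
    | some l =>
      obtain ⟨a, u, σ, τ, -, -, ht, -⟩ := H.tame l
      rw [(GP.tame_homs ht).2]
      norm_num
  fin := GA.fin_fullD hK hT hP w
  lt := fun C hC => GA.lt_fullD (GA.PP_prime hP w) (GA.PP_ne hP w) hC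

open scoped Classical in
/-- THE HYPOTHESES `HypP` OVER `K`. -/
theorem hypP_of (hK : IsQ K D s) (hc : PA.IsConj s c)
    (hκ : ∀ (σ : AbsGal K) (x : AlgebraicClosure K), κ σ x = c (σ (c x)))
    (hT : ∀ l ∈ T, Spl D l) (hP : IsP T P)
    {inv invF : ∀ w : Option T, (stabD (HP.PP P w) → stabD (HP.PP P w) → A0) → A0}
    {θ φ : ℕ → AbsGal K} {m : ℕ → ℤ} {v : ℕ → ℤ_[2]}
    (H : KDatF D κ T (HP.PP P) inv invF θ φ m v)
    (hC : Syl (fullK (K := K) T) N₀ C) (kN : ∀ g ∈ N₀, κ g ∈ N₀)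
    (h1 : FiniteDimensional (ZMod 2) (homs (two (res (fullK (K := K) T) C)) (⊤ : Subgroup C)))
    (h2 : InjC (fullK (K := K) T) C
      (GA.jK κ P : ∀ i : Option T × Bool, stabD (HP.PP P i.1) →* AbsGal K))
    (h3 : C.index + ∑ i : Option T × Bool, orb (GA.jK κ P i) (AbsGal K ⧸ C) ≤
        Module.finrank (ZMod 2) (homs (two (res (fullK (K := K) T) C)) (⊤ : Subgroup C)))
    (h4 : Module.finrank (ZMod 2) (homs (two (res (fullK (K := K) T) C)) (⊤ : Subgroup C)) ≤
          C.index + ∑ i : Option T × Bool, orb (GA.jK κ P i) (AbsGal K ⧸ C) →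
        ∀ SD : ∀ i : Option T × Bool, FSys (stabD (HP.PP P i.1)),
          (∀ i W, (SD i).mem W → ∃ W₁, (fullD (stabD (HP.PP P i.1))).mem W₁ ∧ W₁ ≤ W) →
          ShaC (fullK (K := K) T) C SD (GA.jK κ P)) :
    HypP (fullK (K := K) T) N₀ C (fun w : Option T => fullD (stabD (HP.PP P w)))
      (fun w => (stabD (HP.PP P w)).subtype) cyc invF κ
      {p | ∃ n ∈ D.primeFactors, p = (θ n, φ n)} (fun w => if w = none then 1 else 0) := by
  have hs := H.sumHF hc hκ
  have hne : D.primeFactors.Nonempty := by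
    rw [Nat.nonempty_primeFactors]
    have := hK.mod
    omega
  obtain ⟨g1, g2, g3, g4, g5⟩ := hs.hyp (up_fullK T) (fun w => up_fullD _) hne kN
  have hNn := hC.normal
  have hfin := syl_finite hC
  have := Fintype.ofFinite (AbsGal K ⧸ C)
  have hLB : ∀ w : Option T, LocB (fullD (stabD (HP.PP P w)))
      (N₀.comap (stabD (HP.PP P w)).subtype) (fun d => cyc (d : AbsGal K)) (invF w) :=
    fun w => H.locB hK hT hP w _
  have hLD : ∀ w : Option T, LocD.{u} (big (fullD (stabD (HP.PP P w)))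
      (N₀.comap (stabD (HP.PP P w)).subtype)) (fun d => cyc (d : AbsGal K)) (invF w) := by
    intro w
    refine locD_of (hLB w) inferInstance ?_
    obtain ⟨W, hW, h5⟩ := hC.opn
    obtain ⟨W', hW', h6⟩ := jsm_full T (stabD (HP.PP P w)) W hW
    exact ⟨W', hW', fun v hv => h5 (h6 v hv)⟩
  have hopn : ∀ i : Option T × Bool, ∃ W, (fullD (stabD (HP.PP P i.1))).mem W ∧
      ∀ w ∈ W, GA.jK κ P i w ∈ N₀ := by
    rintro ⟨w, b⟩
    obtain ⟨W, hW, h5⟩ := hC.opn
    obtain ⟨W', hW', h6⟩ := jsm_full T (stabD (HP.PP P w)) W hW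
    refine ⟨W', hW', fun v hv => ?_⟩
    cases b
    · exact h5 (h6 v hv)
    · exact kN _ (h5 (h6 v hv))
  have hkchi := (PA.isInvol hc.sq hκ).chi
  -- local duality
  have hl : ∀ (i : Option T × Bool), LDual (big (fullD (stabD (HP.PP P i.1)))
      (N₀.comap (stabD (HP.PP P i.1)).subtype))
      (if i.2 then fun f => -invF i.1 f else invF i.1)
      (fun d => (prm (GA.jK κ P i d) : (AbsGal K ⧸ C → ZMod 2) → _ → ZMod 2))
      (fun d => (prm (GA.jK κ P i d) : (AbsGal K ⧸ C → ZMod 2) → _ → ZMod 2))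
      (indB (traQ C) cyc mB) := by
    have hp := perm_pair (C := C) (N₀ := N₀) g1.char hC
    rintro ⟨w, b⟩
    have hp' := hp.comp (g1.jsm (w, b))
    cases b
    · exact (hLD w).ld hp'
    · have e : (fun d : stabD (HP.PP P w) => cyc (κ (d : AbsGal K))) =
          fun d : stabD (HP.PP P w) => cyc (d : AbsGal K) := by
        funext d
        exact hkchi _
      have hp2 : Pair (big (fullD (stabD (HP.PP P w))) (N₀.comap (stabD (HP.PP P w)).subtype))
          (fun d : stabD (HP.PP P w) => cyc (d : AbsGal K))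
          (fun d => (prm (κ (d : AbsGal K)) : (AbsGal K ⧸ C → ZMod 2) → _ → ZMod 2))
          (fun d => (prm (κ (d : AbsGal K)) : (AbsGal K ⧸ C → ZMod 2) → _ → ZMod 2))
          (indB (traQ C) cyc mB) := by
        rw [← e]
        exact hp'
      exact ((hLD w).ld hp2).neg
  have hcntF : ∀ w : Option T, CountsF (fullD (stabD (HP.PP P w))) (if w = none then 1 else 0) :=
    GA.cnt_fullD hK hT hP
  have key := perm_le (FD := fun i : Option T × Bool => fullD (stabD (HP.PP P i.1)))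
    (dd := fun i : Option T × Bool => if i.1 = none then 1 else 0) g1 hC h1
    (fun i => by
      have := hl i
      rcases i with ⟨w, b⟩
      cases b
      · exact this
      · exact this) h2
    ⟨fun i W hW => hW.2.1, fun i => hcntF i.1, hopn⟩
  have hsum : ∀ g : Option T × Bool → ℕ, ∑ i : Option T × Bool,
      ((if i.1 = none then 1 else 0) * C.index + 2 * g i) = 2 * (C.index + ∑ i, g i) := by
    intro g
    rw [Finset.sum_add_distrib, ← Finset.mul_sum, mul_add]
    congr 1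
    rw [Fintype.sum_prod_type]
    simp only [Fintype.sum_bool]
    rw [Fintype.sum_option]
    simp [two_mul]
  have key2 : Module.finrank (ZMod 2) (homs (two (res (fullK (K := K) T) C)) (⊤ : Subgroup C)) ≤
      C.index + ∑ i : Option T × Bool, orb (GA.jK κ P i) (AbsGal K ⧸ C) := by
    have h5 := hsum fun i => orb (GA.jK κ P i) (AbsGal K ⧸ C)
    have h6 := key
    have h7 : ∑ i : Option T × Bool, ((if i.1 = none then 1 else 0) * C.index +
        2 * orb ((if i.2 then κ.comp (stabD (HP.PP P i.1)).subtype else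
          (stabD (HP.PP P i.1)).subtype)) (AbsGal K ⧸ C)) =
        2 * (C.index + ∑ i : Option T × Bool, orb (GA.jK κ P i) (AbsGal K ⧸ C)) := h5
    rw [h7] at h6
    omega
  exact
    { glob := g1
      loc := hLB
      cntD := hcntF
      opn := fun w W hW => jsm_full T _ W hW
      syl := hC
      fin := h1
      inj := h2
      sha := h4 key2 _ fun i W hW => hW.2.1
      cnt := by
        have h5 := hsum fun i => orb (GA.jK κ P i) (AbsGal K ⧸ C)
        refine le_trans (le_of_eq ?_) (Nat.mul_le_mul_left 2 h3)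
        rw [← h5, Fintype.sum_prod_type]
        refine Finset.sum_congr rfl fun w _ => ?_
        rw [Fintype.sum_bool]
        show _ = _ * C.index + 2 * orb (κ.comp (stabD (HP.PP P w)).subtype) (AbsGal K ⧸ C) +
          (_ * C.index + 2 * orb (stabD (HP.PP P w)).subtype (AbsGal K ⧸ C))
        ring
      kN := kN
      kk := hs.kk
      ksys := hs.ksys
      kchi := hs.kchi
      ne := g2
      tk := g3
      fk := g4
      alt := g5 }

open scoped Classical in
/-- THE HYPOTHESES `HypP` OVER `K` for all sufficiently large `T` and for all invariants of `exists_KQ`. -/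
theorem exists_hypP (hK : IsQ K D s) (hc : PA.IsConj s c)
    (hκ : ∀ (σ : AbsGal K) (x : AlgebraicClosure K), κ σ x = c (σ (c x))) {T₀ : Finset ℕ}
    (hT₀ : ∀ l ∈ T₀, Spl D l) (hC : Syl (fullK (K := K) T₀) N₀ C) (kN : ∀ g ∈ N₀, κ g ∈ N₀) :
    ∃ T₁ : Finset ℕ, T₀ ⊆ T₁ ∧ (∀ l ∈ T₁, Spl D l) ∧ ∀ T : Finset ℕ, T₁ ⊆ T →
      (∀ l ∈ T, Spl D l) → ∀ P : ℕ → Ideal (𝓞 (AlgebraicClosure K)), IsP T P →
      ∀ (inv invF : ∀ w : Option T, (stabD (HP.PP P w) → stabD (HP.PP P w) → A0) → A0)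
        (θ φ : ℕ → AbsGal K) (m : ℕ → ℤ) (v : ℕ → ℤ_[2]),
        KDatF D κ T (HP.PP P) inv invF θ φ m v →
        HypP (fullK (K := K) T) N₀ C (fun w : Option T => fullD (stabD (HP.PP P w)))
          (fun w => (stabD (HP.PP P w)).subtype) cyc invF κ
          {p | ∃ n ∈ D.primeFactors, p = (θ n, φ n)} (fun w => if w = none then 1 else 0) := by
  have hCo : Opn (fullK (K := K) T₀) C := by
    obtain ⟨W, hW, h1⟩ := hC.opn
    exact ⟨W, hW, h1.trans hC.le⟩
  obtain ⟨T₁, h1, h2, h3⟩ := GA.class_K hK hc hκ hT₀ hCo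
  refine ⟨T₁, h1, h2, fun T hT hs P hP inv invF θ φ m v H => ?_⟩
  obtain ⟨-, h4, h5, h6, h7⟩ := h3 T hT hs P hP
  exact hypP_of hK hc hκ hs hP H (syl_mono (h1.trans hT) hC) kN h4 h5 h6 h7

/-- THE HYPOTHESES `ParD` OVER `K`. -/
theorem exists_parD (hK : IsQ K D s) (hc : PA.IsConj s c)
    (hκ : ∀ (σ : AbsGal K) (x : AlgebraicClosure K), κ σ x = c (σ (c x))) {T₀ : Finset ℕ}
    (hT₀ : ∀ l ∈ T₀, Spl D l) (hC : Syl (fullK (K := K) T₀) N₀ C) (kN : ∀ g ∈ N₀, κ g ∈ N₀) :
    ∃ T₁ : Finset ℕ, T₀ ⊆ T₁ ∧ (∀ l ∈ T₁, Spl D l) ∧ ∀ T : Finset ℕ, T₁ ⊆ T →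
      (∀ l ∈ T, Spl D l) → ∀ P : ℕ → Ideal (𝓞 (AlgebraicClosure K)), IsP T P →
      ∃ (inv invF : ∀ w : Option T, (stabD (HP.PP P w) → stabD (HP.PP P w) → A0) → A0)
        (θ φ : ℕ → AbsGal K) (m : ℕ → ℤ) (v : ℕ → ℤ_[2]),
        KDatF D κ T (HP.PP P) inv invF θ φ m v ∧
        ParD.{v} (big (fullK (K := K) T) N₀)
          (fun w : Option T => big (fullD (stabD (HP.PP P w)))
            (N₀.comap (stabD (HP.PP P w)).subtype))
          (fun w => (stabD (HP.PP P w)).subtype) cyc invF κ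
          {p | ∃ n ∈ D.primeFactors, p = (θ n, φ n)} := by
  obtain ⟨T₁, h1, h2, h3⟩ := exists_hypP hK hc hκ hT₀ hC kN
  refine ⟨T₁, h1, h2, fun T hT hs P hP => ?_⟩
  obtain ⟨inv, invF, θ, φ, m, v, H⟩ := exists_K hK hc hκ hs hP
  exact ⟨inv, invF, θ, φ, m, v, H, parD_of (h3 T hT hs P hP inv invF θ φ m v H)⟩

end Pool.Agent.Work.MP_787500_nt.RQ
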