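import Mathlib
import Pool.Agent.Work.MP_787500_nt.RQ.GlobF
import Pool.Agent.Work.MP_787500_nt.RQ.LocX
import Pool.Agent.Work.MP_787500_nt.RQ.RecQ

/-!
The global hypotheses over the rational numbers, with the infinite place.
-/

set_option autoImplicit false
set_option linter.unusedSectionVars false

namespace Pool.Agent.Work.MP_787500_nt.RQ

open IsDedekindDomain NumberField
open Pool.Agent.Work.MP_787500_nt.PA (TwoSys homs cyc Opn)
open Pool.Agent.Work.MP_787500_nt.GP (A0 hf IsAct d0 d1 d2 tw iota hf_zero hf_inj hf_add)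
open Pool.Agent.Work.MP_787500_nt.KR (FSys ofTwo fullK fullD fullC fullQ big GlobH)
open Pool.Agent.Work.MP_787500_nt.HP

universe u

section abstract

variable {G : Type*} [Group G] {S : FSys G} {I : Type*} [Fintype I] {D : I → Type*}
  [∀ w, Group (D w)] {SD : ∀ w, FSys (D w)} {j : ∀ w, D w →* G} {χ : G → ℤ_[2]}
  {inv : ∀ w, (D w → D w → A0) → A0}

/-- the global hypotheses for the systems `big S N` -/
theorem glob_bigQ (hS : Up S) (hSD : ∀ w, Up (SD w)) (hχ : KR.IsChar S χ)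
    (hl : ∀ w, KR.LocH (SD w) (fun d => χ (j w d)) (inv w))
    (jsm : ∀ w W, S.mem W → ∃ W', (SD w).mem W' ∧ ∀ v ∈ W', j w v ∈ W)
    (hr : ∀ f, KR.Z2 S (tw χ) f → ∑ w, inv w (fun a b => f (j w a) (j w b)) = 0)
    (N : Subgroup G) :
    GlobH (big S N) (fun i => big (SD i) (N.comap (j i))) j χ inv := by
  have hrel : ∀ {A : Type _} [Group A] (f : A →* G) (N' : Subgroup A) (_ : N'.map f ≤ N)
      {W : Subgroup G} (_ : W.Normal) (_ : ∃ k : ℕ, W.relIndex N = 2 ^ k),
      ∃ k : ℕ, (W.comap f).relIndex N' = 2 ^ k := by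
    intro A _ f N' h W hWn hk
    obtain ⟨k, hk⟩ := hk
    have e : (W.comap f).relIndex N' ∣ 2 ^ k := by
      rw [← hk, Subgroup.relIndex_comap, ← Subgroup.relIndex_subgroupOf h]
      exact Subgroup.relIndex_dvd_index_of_normal (W.subgroupOf N) _
    obtain ⟨n, -, hn⟩ := (Nat.dvd_prime_pow Nat.prime_two).1 e
    exact ⟨n, hn⟩
  refine ⟨char_big hχ N, ?_, fun w => ?_, fun f hf => hr f ((clo_big hS N).fin.z2 hf)⟩
  · rintro w W ⟨h1, ⟨W₁, hW₁, h2⟩, hk⟩
    obtain ⟨W', hW', h3⟩ := jsm w W₁ hW₁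
    exact ⟨W.comap (j w), ⟨inferInstance, ⟨W', hW', fun v hv => h2 (h3 v hv)⟩,
      hrel (j w) _ (Subgroup.map_comap_le _ _) h1 hk⟩, fun v hv => hv⟩
  · exact ⟨char_big (hl w).char _, fun f f' hf hf' => (hl w).add f f'
      ((clo_big (hSD w) _).fin.z2 hf) ((clo_big (hSD w) _).fin.z2 hf'),
      fun z hz => (hl w).cob z ((clo_big (hSD w) _).fin.sm1 hz)⟩

end abstract

section inf

variable {Ω : Type u} [Field Ω]

/-- the local groups over the rational numbers: the decomposition groups at the chosen primes, the group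
generated by the complex conjugation `c` -/
def grQ (c : Ω ≃+* Ω) (P : ℕ → Ideal (𝓞 Ω)) {T : Finset ℕ} : Option T ⊕ Unit → Subgroup (Ω ≃+* Ω)
  | .inl w => stb (HP.PP P w)
  | .inr _ => Subgroup.zpowers c

/-- `c` as an element of the group generated by `c` -/
def cc (c : Ω ≃+* Ω) : Subgroup.zpowers c := ⟨c, Subgroup.mem_zpowers c⟩

/-- the invariant at the infinite place -/
noncomputable def invI (c : Ω ≃+* Ω) (f : Subgroup.zpowers c → Subgroup.zpowers c → A0) : A0 :=
  f (cc c) (cc c) + f 1 1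

/-- the invariants at all places -/
noncomputable def invA (c : Ω ≃+* Ω) (P : ℕ → Ideal (𝓞 Ω)) {T : Finset ℕ}
    (invF : ∀ w : Option T, (stb (HP.PP P w) → stb (HP.PP P w) → A0) → A0) :
    ∀ i : Option T ⊕ Unit, (grQ c P i → grQ c P i → A0) → A0
  | .inl w => invF w
  | .inr _ => invI c

theorem zpow_cc {c : Ω ≃+* Ω} (hc : ∀ x, c (c x) = x) (g : Subgroup.zpowers c) :
    g = 1 ∨ g = cc c := by
  obtain ⟨g, k, rfl⟩ := g
  have hcc : c * c = 1 := RingEquiv.ext fun x => hc x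
  rcases Int.even_or_odd' k with ⟨m, h | h⟩
  · left
    apply Subtype.ext
    show c ^ k = 1
    rw [h, zpow_mul, zpow_two, hcc, one_zpow]
  · right
    apply Subtype.ext
    show c ^ k = c
    rw [h, zpow_add, zpow_mul, zpow_two, hcc, one_zpow, one_mul, zpow_one]

theorem cc_mul {c : Ω ≃+* Ω} (hc : ∀ x, c (c x) = x) : cc c * cc c = 1 :=
  Subtype.ext (RingEquiv.ext fun x => hc x)

variable [CharZero Ω] [IsAlgClosed Ω]

theorem locH_inf {c : Ω ≃+* Ω} (hc : ∀ x, c (c x) = x) (hcc : cyQ c = -1) :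
    KR.LocH (fullC (Subgroup.zpowers c)) (fun d : Subgroup.zpowers c => cyQ (d : Ω ≃+* Ω))
      (invI c) := by
  refine ⟨char_lfull _, fun f f' _ _ => ?_, fun z _ => ?_⟩
  · exact add_add_add_comm _ _ _ _
  · have h1 : d1 (tw fun d : Subgroup.zpowers c => cyQ (d : Ω ≃+* Ω)) z (cc c) (cc c) =
        z (cc c) + cyQ c • z (cc c) - z (cc c * cc c) := rfl
    have h2 : d1 (tw fun d : Subgroup.zpowers c => cyQ (d : Ω ≃+* Ω)) z 1 1 =
        z 1 + cyQ (1 : Ω ≃+* Ω) • z 1 - z (1 * 1) := rfl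
    have h3 : cyQ (1 : Ω ≃+* Ω) = 1 := (char_afull (Ω := Ω)).one
    unfold invI
    rw [h1, h2, cc_mul hc, hcc, h3, one_smul, neg_smul, one_smul, mul_one]
    abel

/-- a class modulo 2 of the group generated by `c` with invariant zero is trivial -/
theorem one_inf {c : Ω ≃+* Ω} (hc : ∀ x, c (c x) = x) (S : FSys (Subgroup.zpowers c))
    {f : Subgroup.zpowers c → Subgroup.zpowers c → ZMod 2} (hf2 : KR.Coc S f)
    (h0 : invI c (fun a b => hf (f a b)) = 0) : KR.Cob S f := by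
  have h1 : f (cc c) (cc c) = f 1 1 := by
    unfold invI at h0
    rw [← hf_add, ← hf_zero] at h0
    have h2 := hf_inj h0
    have h3 : ∀ a b : ZMod 2, a + b = 0 → a = b := by decide
    exact h3 _ _ h2
  have ha : ∀ g, f g 1 = f 1 1 := by
    intro g
    have := hf2.2 g 1 1
    simp only [mul_one] at this
    exact add_right_cancel this
  have hb : ∀ g, f 1 g = f 1 1 := by
    intro g
    have := hf2.2 1 1 g
    simp only [one_mul] at this
    exact (add_right_cancel this).symm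
  obtain ⟨W, hW⟩ := S.ex
  have h4 : ∀ a : ZMod 2, a = a + a + a := by decide
  refine ⟨fun _ => f 1 1, ⟨W, hW, fun _ _ _ => rfl⟩, fun a b => ?_⟩
  beta_reduce
  rw [← h4]
  rcases zpow_cc hc a with rfl | rfl
  · exact hb b
  · rcases zpow_cc hc b with rfl | rfl
    · exact ha _
    · exact h1

/-- the global hypotheses over the rational numbers for the systems `big F N` -/
theorem glob_Q {c : Ω ≃+* Ω} (hc : ∀ x, c (c x) = x) (hcc : cyQ c = -1) {T : Finset ℕ}
    {P : ℕ → Ideal (𝓞 Ω)} {invF : ∀ w : Option T, (stb (HP.PP P w) → stb (HP.PP P w) → A0) → A0}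
    (hF : ∀ w, KR.LocH (fullC (stb (HP.PP P w)))
      (fun d : stb (HP.PP P w) => cyQ (d : Ω ≃+* Ω)) (invF w))
    (hrec : ∀ f, KR.Z2 (fullQ Ω T) (tw cyQ) f →
      ∑ w, invF w (rs (stb (HP.PP P w)) f) + (f c c + f 1 1) = 0) (N : Subgroup (Ω ≃+* Ω)) :
    GlobH (big (fullQ Ω T) N)
      (fun i : Option T ⊕ Unit => big (fullC (grQ c P i)) (N.comap (grQ c P i).subtype))
      (fun i : Option T ⊕ Unit => (grQ c P i).subtype) cyQ (invA c P invF) := by
  refine glob_bigQ (up_fullQ _) (fun i => up_fullC _) (char_ufull _) ?_ ?_ ?_ N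
  · rintro (w | _)
    · exact hF w
    · exact locH_inf hc hcc
  · rintro i W hW
    exact res_afull (grQ c P i) W hW.1
  · intro f hf
    rw [Fintype.sum_sum_type, ← hrec f hf]
    congr 1
    rw [Fintype.sum_unique]
    rfl

end inf

end Pool.Agent.Work.MP_787500_nt.RQ
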